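import Mathlib

/-! EX-Al: the argument of a character. -/

open Finset

set_option linter.unusedSectionVars false

namespace Pool.Agent.helper43.Ex

variable {G : Type*} [AddCommGroup G] [Fintype G]

/-- the argument of `χ t` -/
noncomputable def al (χ : AddChar G ℂ) (t : G) : ℝ := Complex.arg (χ t)

/-- `‖χ t‖ = 1` (`AddChar.norm_apply`), `θ = arg (χ t) ∈ (-π, π]`,
`‖exp (i θ) - 1‖ = 2 |sin (θ / 2)| ≥ 2 |θ| / π` (`Real.mul_le_sin` / Jordan), so
`|θ| ≤ (π / 2) ‖χ t - 1‖ ≤ 2 ‖χ t - 1‖`. -/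
theorem al_le (χ : AddChar G ℂ) (t : G) : |al χ t| ≤ 2 * ‖χ t - 1‖ := by
  have h1 : ‖χ t‖ = 1 := χ.norm_apply t
  have h0 : χ t ≠ 0 := by
    intro h
    rw [h, norm_zero] at h1
    exact zero_ne_one h1
  have h2 := Complex.angle_le_mul_norm_sub h1 (norm_one (α := ℂ))
  rw [Complex.angle_one_right h0] at h2
  have h3 : Real.pi / 2 ≤ 2 := by
    have := Real.pi_le_four
    linarith
  exact h2.trans (mul_le_mul_of_nonneg_right h3 (norm_nonneg _))

/-- `χ (s + t) = χ s χ t`, `arg (z w) = arg z + arg w` if the sum is in `(-π, π]`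
(`Complex.arg_mul`), `|al s + al t| ≤ 2 < π`. -/
theorem al_add {χ : AddChar G ℂ} {s t : G} (hs : |al χ s| ≤ 1) (ht : |al χ t| ≤ 1) :
    al χ (s + t) = al χ s + al χ t := by
  unfold al at *
  have hn : ∀ u : G, χ u ≠ 0 := by
    intro u h
    have h1 : ‖χ u‖ = 1 := χ.norm_apply u
    rw [h, norm_zero] at h1
    exact zero_ne_one h1
  rw [AddChar.map_add_eq_mul, (Complex.arg_mul_eq_add_arg_iff (hn s) (hn t)).2]
  have hp := Real.pi_gt_three
  rw [abs_le] at hs ht
  constructor <;> linarith [hs.1, hs.2, ht.1, ht.2]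

/-- `χ (-t)` is the inverse of `χ t`; `Complex.arg_inv` (`arg ≠ π`). -/
theorem al_neg {χ : AddChar G ℂ} {t : G} (ht : |al χ t| ≤ 1) : al χ (-t) = -al χ t := by
  unfold al at *
  rw [AddChar.map_neg_eq_inv, Complex.arg_inv, if_neg]
  intro h
  rw [h, abs_of_pos Real.pi_pos] at ht
  have hp := Real.pi_gt_three
  linarith

theorem al_zero (χ : AddChar G ℂ) : al χ 0 = 0 := by
  unfold al
  rw [AddChar.map_zero_eq_one, Complex.arg_one]

/-- `z = ‖z‖ exp (i arg z)`, `‖χ t‖ = 1`. -/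
theorem al_eq_zero_iff {χ : AddChar G ℂ} {t : G} : al χ t = 0 ↔ χ t = 1 := by
  unfold al
  constructor
  · intro h
    have h1 : ‖χ t‖ = 1 := χ.norm_apply t
    have h2 := Complex.norm_mul_exp_arg_mul_I (χ t)
    rw [h1, h] at h2
    simpa using h2.symm
  · intro h
    rw [h, Complex.arg_one]

end Pool.Agent.helper43.Ex
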