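import Pool.Agent.helper43.Ex.NB

/-! EX-Bad: almost all `i` are good. -/

open Finset Pool.Agent.helper43.Rho Pool.Agent.helper43.Asy

namespace Pool.Agent.helper43.Ex

/-- `rd h i ≤ rd h (i - δ) + (δ + h)`: `rd_le` for `i ≤ (i - δ) + δ`; or: `rd h i ≤ i + h`,
`i - δ ≤ rd h (i - δ)`. -/
theorem rd_sub_le {h : ℕ} (hh : 0 < h) (i δ : ℕ) : rd h i ≤ rd h (i - δ) + (δ + h) := by
  have h1 := rd_le (h := h) (x := i)
  have h2 := le_rd (x := i - δ) hh
  omega

/-- If `i` is not good then `rd h (i - δ) ≠ rd h i`, so there is a multiple of `h` in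
`[i - δ, i)`: `i = j h + r` with `j h < i`, take `j = (i - 1) / h`; if `j h < i - δ` then
`rd h (i - δ) = h (j + 1) = rd h i`. So `i - j h ≤ δ`, `1 ≤ i - j h`. -/
theorem not_good {h : ℕ} (hh : 0 < h) {δ i : ℕ} (hi : 1 ≤ i) (hg : ¬ Good h δ i) :
    ∃ j, j * h < i ∧ i ≤ j * h + δ := by
  unfold Good at hg
  rw [not_le] at hg
  have hlt : rd h (i - δ) < rd h i := by
    by_contra hcon
    rw [not_lt] at hcon
    rw [Nat.sub_eq_zero_of_le hcon, mul_zero] at hg
    omega
  refine ⟨(i - 1) / h, ?_, ?_⟩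
  · have := Nat.div_mul_le_self (i - 1) h
    omega
  · by_contra hcon
    rw [not_le] at hcon
    have h1 : rd h i = h * ((i - 1) / h + 1) := by
      obtain ⟨k, rfl⟩ : ∃ k, i = k + 1 := ⟨i - 1, by omega⟩
      rw [rd_succ hh]
      rfl
    have h2 : h * ((i - 1) / h + 1) ≤ rd h (i - δ) := by
      unfold rd
      apply Nat.mul_le_mul_left
      rw [Nat.le_div_iff_mul_le hh]
      have : ((i - 1) / h + 1) * h = (i - 1) / h * h + h := by ring
      omega
    omega

/-- Case `10^10 (h + δ) ≤ M - M / 10`: no bad `i`, by `rd_sub_le` (`rd h i ≥ i`). Otherwise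
`h > M / (2 * 10^10)`, that is `M ≤ 2 * 10^10 h` (as `10^10 δ ≤ 10^12 (Nat.sqrt M + 1)` is
much smaller than `M`, `sqrt_big`). By `not_good` the bad `i ∈ Icc (M - M/10) M` lie in the union
over `j ≤ 2 * 10^10` of the sets `Ioc (j h) (j h + δ)` (`j h < i ≤ M`), so there are at most
`(2 * 10^10 + 1) δ ≤ (2 * 10^10 + 1) 100 (Nat.sqrt M + 1)`, and `sqrt_big`. -/
theorem bad_count {M h δ : ℕ} (hM : 2 ^ 399 ≤ M) (hh : 0 < h)
    (hδ : δ ≤ 100 * (Nat.sqrt M + 1)) [DecidablePred (fun i => ¬ Good h δ i)] :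
    10 ^ 13 * ((Icc (M - M / 10) M).filter (fun i => ¬ Good h δ i)).card ≤ M := by
  have hsq := sqrt_big hM
  have hM1 : 1 ≤ M := le_trans (Nat.one_le_two_pow) hM
  by_cases hc : 10 ^ 10 * (h + δ) ≤ M - M / 10
  · have he : (Icc (M - M / 10) M).filter (fun i => ¬ Good h δ i) = ∅ := by
      rw [Finset.filter_eq_empty_iff]
      intro i hi
      rw [Finset.mem_Icc] at hi
      rw [not_not]
      unfold Good
      have h1 := rd_sub_le hh i δ
      have h2 := le_rd (x := i) hh
      have h3 : rd h i - rd h (i - δ) ≤ h + δ := by omega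
      calc 10 ^ 10 * (rd h i - rd h (i - δ)) ≤ 10 ^ 10 * (h + δ) := Nat.mul_le_mul_left _ h3
        _ ≤ rd h i := by omega
    rw [he, Finset.card_empty, mul_zero]
    exact Nat.zero_le _
  · rw [not_le] at hc
    have hMh : M ≤ 2 * 10 ^ 10 * h := by
      norm_num at hsq hc ⊢
      omega
    obtain ⟨K, hK⟩ : ∃ K : ℕ, K = 2 * 10 ^ 10 := ⟨_, rfl⟩
    rw [← hK] at hMh
    have hsub : (Icc (M - M / 10) M).filter (fun i => ¬ Good h δ i) ⊆
        (Finset.range (K + 1)).biUnion (fun j => Ioc (j * h) (j * h + δ)) := by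
      intro i hi
      rw [Finset.mem_filter, Finset.mem_Icc] at hi
      obtain ⟨j, hj1, hj2⟩ := not_good hh (i := i) (δ := δ) (by omega) hi.2
      rw [Finset.mem_biUnion]
      refine ⟨j, ?_, Finset.mem_Ioc.2 ⟨hj1, hj2⟩⟩
      rw [Finset.mem_range]
      have h1 : j * h < K * h := by omega
      have h2 := Nat.lt_of_mul_lt_mul_right h1
      omega
    have hcard : ((Icc (M - M / 10) M).filter (fun i => ¬ Good h δ i)).card ≤
        (K + 1) * δ := by
      calc ((Icc (M - M / 10) M).filter (fun i => ¬ Good h δ i)).card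
          ≤ ((Finset.range (K + 1)).biUnion
              (fun j => Ioc (j * h) (j * h + δ))).card := Finset.card_le_card hsub
        _ ≤ (Finset.range (K + 1)).card * δ := by
            apply Finset.card_biUnion_le_card_mul
            intro j _
            rw [Nat.card_Ioc]
            omega
        _ = (K + 1) * δ := by rw [Finset.card_range]
    rw [hK] at hcard
    norm_num at hcard hsq ⊢
    omega

end Pool.Agent.helper43.Ex
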