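import Pool.Agent.helper43.Ex.Defs

/-! EX-Bfa: pigeonhole and good pairs (BF of the paper proof). -/

open Finset Pool.Agent.helper43.Rho Pool.Agent.helper43.Asy

set_option linter.unusedSectionVars false

namespace Pool.Agent.helper43.Ex

variable {G : Type*} [AddCommGroup G] [DecidableEq G] [Fintype G]

/-- `U` and `z - V` are subsets of the coset `a + K`, together more than `|K|` elements, so they
meet. -/
theorem pigeon {K : AddSubgroup G} {U V : Finset G} {a b : G} (hU : ∀ x ∈ U, x - a ∈ K)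
    (hV : ∀ y ∈ V, y - b ∈ K) (h : (sf K).card < U.card + V.card) {z : G}
    (hz : z - (a + b) ∈ K) : ∃ x ∈ U, ∃ y ∈ V, x + y = z := by
  have hA : (sf K).image (fun k => a + k) ⊇ U := by
    intro x hx
    exact Finset.mem_image.2 ⟨x - a, (mem_sf _).2 (hU x hx), by abel⟩
  have hB : V.image (fun y => z - y) ⊆ (sf K).image (fun k => a + k) := by
    intro w hw
    obtain ⟨y, hy, rfl⟩ := Finset.mem_image.1 hw
    refine Finset.mem_image.2 ⟨z - y - a, (mem_sf _).2 ?_, by abel⟩
    have h1 := K.sub_mem hz (hV y hy)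
    have h2 : z - (a + b) - (y - b) = z - y - a := by abel
    rwa [h2] at h1
  have hc1 : ((sf K).image (fun k => a + k)).card = (sf K).card :=
    Finset.card_image_of_injective _ (add_right_injective a)
  have hc2 : (V.image (fun y => z - y)).card = V.card :=
    Finset.card_image_of_injective _ (fun x y hxy => by simpa using hxy)
  obtain ⟨x, hx⟩ := Finset.inter_nonempty_of_card_lt_card_add_card hA hB
    (by rw [hc1, hc2]; exact h)
  rw [Finset.mem_inter, Finset.mem_image] at hx
  obtain ⟨hx1, y, hy, hyx⟩ := hx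
  exact ⟨x, hx1, y, hy, by rw [← hyx]; abel⟩

/-- positive data: every `y ∈ P` is in the coset `g y c + K`, `1 ≤ g y ≤ Q`, and there are few
holes -/
structure PosD (c : G) (K : AddSubgroup G) (P : Finset G) (g : G → ℕ) (Q s : ℕ) : Prop where
  mem : ∀ y ∈ P, y - g y • c ∈ K
  one : ∀ y ∈ P, 1 ≤ g y
  le : ∀ y ∈ P, g y ≤ Q
  hole : 2 * ((sf K).card * Q) + 30 * (sf K).card ≤ (sf K).card * s + 2 * P.card
  s8 : 8 * s ≤ Q

/-- the class is contained in `l c + K` -/
theorem PosD.class_le {c : G} {K : AddSubgroup G} {P : Finset G} {g : G → ℕ} {Q s : ℕ}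
    (h : PosD c K P g Q s) (l : ℕ) :
    (P.filter (fun y => g y = l)).card ≤ (sf K).card := by
  apply Finset.card_le_card_of_injOn (fun y => y - l • c)
  · intro y hy
    rw [Finset.mem_coe, Finset.mem_filter] at hy
    rw [Finset.mem_coe, mem_sf, ← hy.2]
    exact h.mem y hy.1
  · intro x _ y _ hxy
    simpa using hxy

/-- `|P| = ∑_{l = 1}^Q n l` (`Finset.card_eq_sum_card_fiberwise`) -/
theorem PosD.sum_class {c : G} {K : AddSubgroup G} {P : Finset G} {g : G → ℕ} {Q s : ℕ}
    (h : PosD c K P g Q s) :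
    P.card = ∑ l ∈ Icc 1 Q, (P.filter (fun y => g y = l)).card := by
  apply Finset.card_eq_sum_card_fiberwise
  intro y hy
  rw [Finset.mem_coe] at hy
  rw [Finset.mem_coe, Finset.mem_Icc]
  exact ⟨h.one y hy, h.le y hy⟩

/-- `30 ≤ s` (as `|P| ≤ |K| Q`), so `240 ≤ Q`. -/
theorem PosD.s30 {c : G} {K : AddSubgroup G} {P : Finset G} {g : G → ℕ} {Q s : ℕ}
    (h : PosD c K P g Q s) : 30 ≤ s := by
  have h1 : P.card ≤ Q * (sf K).card := by
    rw [h.sum_class]
    refine (Finset.sum_le_card_nsmul _ _ (sf K).card fun l _ => h.class_le l).trans ?_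
    rw [Nat.card_Icc, Nat.add_sub_cancel, smul_eq_mul]
  have h2 := h.hole
  have h3 : 0 < (sf K).card := Finset.card_pos.2 ⟨0, (mem_sf 0).2 K.zero_mem⟩
  have h4 : (sf K).card * 30 ≤ (sf K).card * s := by
    have h5 : (sf K).card * Q = Q * (sf K).card := mul_comm _ _
    have h6 : 30 * (sf K).card = (sf K).card * 30 := mul_comm _ _
    omega
  exact Nat.le_of_mul_le_mul_left h4 h3

/-- Good pairs. `μ = |K|`, `n l` the size of class `l`. For `s ≤ l ≤ Q` consider the
`(l - 1) / 2 ≥ (l - 2) / 2` numbers `j` with `1 ≤ j`, `2 j < l`. Let `b` be the number of the `j`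
with `n j + n (l - j) ≤ μ`: for these `(μ - n j) + (μ - n (l - j)) ≥ μ`; the levels `j` and `l - j`
are all different and `≤ Q`, so `b μ ≤ ∑_{l ≤ Q} (μ - n l) = μ Q - |P|` (`sum_class`,
`class_le`), and by `hole` `2 b + 30 ≤ s ≤ l`. At most `|Z| ≤ 10` of the `j` have `j ∈ Z` or
`l - j ∈ Z` (`Z.card` many, each element `z` of `Z` excludes only `j = z` or only `j = l - z`, as
`j < l/2 < l - j`). `(l - 2)/2 - (l - 30)/2 = 14 > 10`. -/
theorem PosD.good_pair {c : G} {K : AddSubgroup G} {P : Finset G} {g : G → ℕ} {Q s : ℕ}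
    (h : PosD c K P g Q s) {l : ℕ} (hl : s ≤ l) (hlQ : l ≤ Q) {Z : Finset ℕ}
    (hZ : Z.card ≤ 10) :
    ∃ j, 1 ≤ j ∧ 2 * j < l ∧ j ∉ Z ∧ l - j ∉ Z ∧
      (sf K).card < (P.filter (fun y => g y = j)).card +
        (P.filter (fun y => g y = l - j)).card := by
  by_contra hcon
  push Not at hcon
  set n : ℕ → ℕ := fun t => (P.filter (fun y => g y = t)).card with hn
  set μ := (sf K).card with hμ
  have hμ0 : 0 < μ := Finset.card_pos.2 ⟨0, (mem_sf 0).2 K.zero_mem⟩
  have hle : ∀ t, n t ≤ μ := fun t => h.class_le t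
  have hsum : ∑ t ∈ Icc 1 Q, (μ - n t) + P.card = μ * Q := by
    have h1 : P.card = ∑ t ∈ Icc 1 Q, n t := h.sum_class
    rw [h1, ← Finset.sum_add_distrib]
    have h2 : ∀ t ∈ Icc 1 Q, μ - n t + n t = μ := fun t _ => Nat.sub_add_cancel (hle t)
    rw [Finset.sum_congr rfl h2, Finset.sum_const, Nat.card_Icc, Nat.add_sub_cancel, smul_eq_mul,
      mul_comm]
  set J := Icc 1 ((l - 1) / 2) with hJ
  have hJm : ∀ j ∈ J, 1 ≤ j ∧ 2 * j < l := by
    intro j hj
    rw [hJ, Finset.mem_Icc] at hj
    omega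
  set B := J.filter (fun j => n j + n (l - j) ≤ μ) with hB
  set W := J.filter (fun j => j ∈ Z ∨ l - j ∈ Z) with hW
  have hcov : J ⊆ B ∪ W := by
    intro j hj
    obtain ⟨h1, h2⟩ := hJm j hj
    rw [Finset.mem_union, hB, hW, Finset.mem_filter, Finset.mem_filter]
    by_cases h3 : j ∈ Z
    · exact Or.inr ⟨hj, Or.inl h3⟩
    · by_cases h4 : l - j ∈ Z
      · exact Or.inr ⟨hj, Or.inr h4⟩
      · exact Or.inl ⟨hj, hcon j h1 h2 h3 h4⟩
  have hWc : W.card ≤ Z.card := by
    apply Finset.card_le_card_of_injOn (fun j => if j ∈ Z then j else l - j)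
    · intro j hj
      rw [Finset.mem_coe, hW, Finset.mem_filter] at hj
      dsimp only
      rw [Finset.mem_coe]
      split_ifs with h1
      · exact h1
      · rcases hj.2 with h2 | h2
        · exact absurd h2 h1
        · exact h2
    · intro i hi j hj hij
      rw [Finset.mem_coe, hW, Finset.mem_filter] at hi hj
      have h1 := hJm i hi.1
      have h2 := hJm j hj.1
      dsimp only at hij
      split_ifs at hij <;> omega
  have hBJ : ∀ j ∈ B, 1 ≤ j ∧ 2 * j < l := fun j hj => hJm j (Finset.mem_filter.1 hj).1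
  have hBsum : μ * B.card ≤ ∑ t ∈ Icc 1 Q, (μ - n t) := by
    have h1 : ∑ j ∈ B, μ ≤ ∑ j ∈ B, ((μ - n j) + (μ - n (l - j))) := by
      apply Finset.sum_le_sum
      intro j hj
      have h2 := (Finset.mem_filter.1 hj).2
      have h3 := hle j
      have h4 := hle (l - j)
      omega
    rw [Finset.sum_const, smul_eq_mul, mul_comm, Finset.sum_add_distrib] at h1
    have hinj : Set.InjOn (fun j => l - j) (B : Set ℕ) := by
      intro i hi j hj hij
      have h2 := hBJ i hi
      have h3 := hBJ j hj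
      dsimp only at hij
      omega
    have h5 : ∑ j ∈ B, (μ - n (l - j)) = ∑ t ∈ B.image (fun j => l - j), (μ - n t) :=
      (Finset.sum_image (f := fun t => μ - n t) hinj).symm
    have hdis : Disjoint B (B.image (fun j => l - j)) := by
      rw [Finset.disjoint_left]
      intro i hi hi'
      obtain ⟨j, hj, hij⟩ := Finset.mem_image.1 hi'
      have h2 := hBJ i hi
      have h3 := hBJ j hj
      omega
    rw [h5, ← Finset.sum_union hdis] at h1
    refine h1.trans (Finset.sum_le_sum_of_subset ?_)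
    intro t ht
    rw [Finset.mem_union] at ht
    rw [Finset.mem_Icc]
    rcases ht with ht | ht
    · have h2 := hBJ t ht
      omega
    · obtain ⟨j, hj, rfl⟩ := Finset.mem_image.1 ht
      have h2 := hBJ j hj
      omega
  have hcard : J.card ≤ B.card + W.card :=
    (Finset.card_le_card hcov).trans (Finset.card_union_le _ _)
  have hJc : J.card = (l - 1) / 2 := by
    rw [hJ, Nat.card_Icc, Nat.add_sub_cancel]
  have hhole := h.hole
  rw [← hμ] at hhole
  have h6 : μ * (2 * B.card + 30) ≤ μ * s := by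
    have h7 : μ * (2 * B.card + 30) = 2 * (μ * B.card) + 30 * μ := by ring
    rw [h7]
    omega
  have h8 := Nat.le_of_mul_le_mul_left h6 hμ0
  omega

end Pool.Agent.helper43.Ex
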