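import Pool.Agent.helper43.Ex.Wi

/-! EX-Nrm: normalisation of the signs. -/

open Finset Pool.Agent.helper43.Rho Pool.Agent.helper43.Asy

set_option linter.unusedSectionVars false

namespace Pool.Agent.helper43.Ex

variable {G : Type*} [AddCommGroup G] [DecidableEq G]

/-- `x` with the sign changed if its level is negative -/
def nrm (f : G → ℤ) (x : G) : G := if f x < 0 then -x else x

/-- the level of `nrm f x`, `x ∈ F` -/
def glev (f : G → ℤ) (F : Finset G) (y : G) : ℕ :=
  if y ∈ F then (f y).natAbs else (f (-y)).natAbs

/-- For `x, y ∈ F`: if `nrm f x = nrm f y` then `x = y` or `x = -y`, the second is impossible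
(`Asym`). -/
theorem nrm_inj {F : Finset G} (hF : Asym F) (f : G → ℤ) :
    ∀ x ∈ F, ∀ y ∈ F, nrm f x = nrm f y → x = y := by
  intro x hx y hy h
  unfold nrm at h
  split_ifs at h with h1 h2 h2
  · exact neg_injective h
  · exact absurd (h ▸ hy) (hF x hx)
  · exact absurd (h ▸ hx) (hF y hy)
  · exact h

/-- for `x ∈ F` with `f x < 0`, `-x ∉ F` -/
theorem glev_nrm {F : Finset G} (hF : Asym F) (f : G → ℤ) {x : G} (hx : x ∈ F) :
    glev f F (nrm f x) = (f x).natAbs := by
  unfold glev nrm
  split_ifs with h1 h2
  · exact absurd h2 (hF x hx)
  · rw [neg_neg]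
  · rfl

/-- `x - f x c ∈ K` implies `nrm f x - |f x| c ∈ K` -/
theorem nrm_mem {c : G} {K : AddSubgroup G} {f : G → ℤ} {x : G} (hx : x - f x • c ∈ K) :
    nrm f x - (f x).natAbs • c ∈ K := by
  unfold nrm
  have h0 : (f x).natAbs • c = |f x| • c := by
    rw [← natCast_zsmul, Int.natCast_natAbs]
  rw [h0]
  split_ifs with h1
  · rw [abs_of_neg h1]
    have e : -x - (-f x) • c = -(x - f x • c) := by
      rw [neg_zsmul]
      abel
    rw [e]
    exact K.neg_mem hx
  · rw [abs_of_nonneg (not_lt.1 h1)]
    exact hx

/-- Induction on `F` (or: a subset `T` of `F` corresponds to the subset of the `nrm f x` with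
`x ∈ T`, `f x ≥ 0` or `x ∉ T`, `f x < 0`). -/
theorem SS_nrm {F : Finset G} (hF : Asym F) (f : G → ℤ) :
    SS F = tr (SS (F.image (nrm f))) (∑ x ∈ F.filter (fun x => f x < 0), x) := by
  induction F using Finset.induction_on with
  | empty =>
    ext y
    simp [SS_empty, mem_tr]
  | insert x F hx ih =>
    have hF' : Asym F := hF.subset (Finset.subset_insert x F)
    have ih' := ih hF'
    have hnot : nrm f x ∉ F.image (nrm f) := by
      intro hmem
      obtain ⟨y, hy, hxy⟩ := Finset.mem_image.1 hmem
      have := nrm_inj hF f y (Finset.mem_insert_of_mem hy) x (Finset.mem_insert_self x F) hxy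
      rw [this] at hy
      exact hx hy
    ext y
    rw [SS_insert hx, Finset.image_insert, SS_insert hnot, ih', mem_tr]
    simp only [Finset.mem_union, Finset.mem_image, mem_tr]
    rw [Finset.filter_insert]
    by_cases h1 : f x < 0
    · rw [if_pos h1, Finset.sum_insert (by
        intro h
        exact hx (Finset.mem_filter.1 h).1)]
      have e : nrm f x = -x := by unfold nrm; rw [if_pos h1]
      rw [e]
      set z := ∑ x ∈ F.filter (fun x => f x < 0), x with hz
      constructor
      · rintro (h | ⟨a, ha, rfl⟩)
        · right
          exact ⟨y - z, h, by abel⟩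
        · left
          have e2 : a + x - (x + z) = a - z := by abel
          rw [e2]
          exact ha
      · rintro (h | ⟨a, ha, hay⟩)
        · right
          refine ⟨y - x, ?_, by abel⟩
          have e2 : y - x - z = y - (x + z) := by abel
          rw [e2]
          exact h
        · left
          have e2 : y - z = a := by
            have e3 : y - (x + z) = a + -x := hay.symm
            calc y - z = (y - (x + z)) + x := by abel
              _ = (a + -x) + x := by rw [e3]
              _ = a := by abel
          rw [e2]
          exact ha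
    · rw [if_neg h1]
      have e : nrm f x = x := by unfold nrm; rw [if_neg h1]
      rw [e]
      set z := ∑ x ∈ F.filter (fun x => f x < 0), x with hz
      constructor
      · rintro (h | ⟨a, ha, rfl⟩)
        · left
          exact h
        · right
          exact ⟨a - z, ha, by abel⟩
      · rintro (h | ⟨a, ha, hay⟩)
        · left
          exact h
        · right
          refine ⟨a + z, ?_, ?_⟩
          · have e2 : a + z - z = a := by abel
            rw [e2]
            exact ha
          · calc a + z + x = (a + x) + z := by abel
              _ = (y - z) + z := by rw [hay]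
              _ = y := by abel

/-- From the normalised set to `F`: `SS_nrm`, `Full.tr` with `j = -sn f F` (`sum_lev` for the
filter; the sum of the `f x` over `x` with `f x < 0` is `-sn f F`). -/
theorem Full.of_nrm {c : G} {K : AddSubgroup G} {F : Finset G} (hF : Asym F) {f : G → ℤ}
    (hf : ∀ x ∈ F, x - f x • c ∈ K) {a b : ℤ}
    (h : Full c K (SS (F.image (nrm f))) a b) :
    Full c K (SS F) (-sn f F + a) (-sn f F + b) := by
  have hs : ∑ x ∈ F.filter (fun x => f x < 0), f x = -sn f F := by
    unfold sn
    rw [Finset.sum_filter, ← Finset.sum_neg_distrib]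
    apply Finset.sum_congr rfl
    intro x _
    split_ifs with h1
    · rw [max_eq_left (by omega)]
      omega
    · rw [max_eq_right (by omega)]
      rfl
  have hz : (∑ x ∈ F.filter (fun x => f x < 0), x) - (-sn f F) • c ∈ K := by
    rw [← hs]
    exact sum_lev (fun x hx => hf x (Finset.mem_filter.1 hx).1)
  rw [SS_nrm hF f, add_comm (-sn f F) a, add_comm (-sn f F) b]
  exact h.tr hz

end Pool.Agent.helper43.Ex
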