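import Pool.Agent.helper43.Ex.Wi

/-! EX-Wj: extending windows by many elements. -/

open Finset Pool.Agent.helper43.Rho Pool.Agent.helper43.Asy

set_option linter.unusedSectionVars false

namespace Pool.Agent.helper43.Ex

variable {G : Type*} [AddCommGroup G] [DecidableEq G]

/-- the common property of `SS` and `XX H` that is used for windows -/
def Grow (Z : Finset G → Finset G) : Prop :=
  ∀ F x, x ∉ F → Z F ⊆ Z (insert x F) ∧ ∀ y ∈ Z F, y + x ∈ Z (insert x F)

/-- `SS_insert` -/
theorem grow_SS : Grow (SS : Finset G → Finset G) := by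
  intro F x hx
  rw [SS_insert hx]
  refine ⟨Finset.subset_union_left, ?_⟩
  intro y hy
  exact Finset.mem_union_right _ (Finset.mem_image.2 ⟨y, hy, rfl⟩)

/-- `XX_insert` -/
theorem grow_XX [Fintype G] (H : AddSubgroup G) : Grow (XX H) := by
  intro F x hx
  refine ⟨XX_mono (Finset.subset_insert x F), ?_⟩
  intro y hy
  obtain ⟨k, hk, s, hs, rfl⟩ := mem_XX.1 hy
  refine mem_XX.2 ⟨k, hk, s + x, ?_, by abel⟩
  rw [SS_insert hx]
  exact Finset.mem_union_right _ (Finset.mem_image.2 ⟨s, hs, rfl⟩)

/-- induction on `F \ F'` -/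
theorem Grow.mono {Z : Finset G → Finset G} (hZ : Grow Z) {F F' : Finset G} (h : F' ⊆ F) :
    Z F' ⊆ Z F := by
  have key : ∀ D : Finset G, Disjoint F' D → Z F' ⊆ Z (F' ∪ D) := by
    intro D
    induction D using Finset.induction_on with
    | empty =>
      intro _
      rw [Finset.union_empty]
    | insert x D hx ih =>
      intro hd
      rw [Finset.disjoint_insert_right] at hd
      have h1 : x ∉ F' ∪ D := by
        rw [Finset.mem_union]
        exact fun h2 => h2.elim hd.1 hx
      rw [Finset.union_insert]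
      exact (ih hd.2).trans (hZ _ _ h1).1
  have h1 := key (F \ F') Finset.disjoint_sdiff
  rwa [Finset.union_sdiff_of_subset h] at h1

private theorem Wj_sn_insert (f : G → ℤ) {D : Finset G} {x : G} (hx : x ∉ D) :
    sn f (insert x D) = sn f D + max (-f x) 0 := by
  unfold sn
  rw [Finset.sum_insert hx, add_comm]

private theorem Wj_sp_insert (f : G → ℤ) {D : Finset G} {x : G} (hx : x ∉ D) :
    sp f (insert x D) = sp f D + max (f x) 0 := by
  unfold sp
  rw [Finset.sum_insert hx, add_comm]

/-- adding one element -/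
private theorem Wj_one {Z : Finset G → Finset G} (hZ : Grow Z) {c : G} {K : AddSubgroup G}
    {f : G → ℤ} {F0 D : Finset G} {x : G} (hx0 : x ∉ F0) (hxD : x ∉ D) {a b : ℤ}
    (h : Full c K (Z (F0 ∪ D)) (a - sn f D) (b + sp f D)) (hf : x - f x • c ∈ K)
    (hl : |f x| ≤ (b + sp f D) - (a - sn f D) + 1) :
    Full c K (Z (F0 ∪ insert x D)) (a - sn f (insert x D)) (b + sp f (insert x D)) := by
  have h1 : x ∉ F0 ∪ D := by
    rw [Finset.mem_union]
    exact fun h2 => h2.elim hx0 hxD
  obtain ⟨g1, g2⟩ := hZ (F0 ∪ D) x h1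
  have h2 := Full.step h hf g1 g2 hl
  rw [Finset.union_insert, Wj_sn_insert f hxD, Wj_sp_insert f hxD]
  have e1 : a - (sn f D + max (-f x) 0) = a - sn f D - max (-f x) 0 := by ring
  have e2 : b + (sp f D + max (f x) 0) = b + sp f D + max (f x) 0 := by ring
  rw [e1, e2]
  exact h2

/-- Induction on the finset `F \ F0` with `Full.step`: the window only grows. -/
theorem Full.union {Z : Finset G → Finset G} (hZ : Grow Z) {c : G} {K : AddSubgroup G}
    {f : G → ℤ} {F0 F : Finset G} (hF : F0 ⊆ F) {a b : ℤ} (h : Full c K (Z F0) a b)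
    (hf : ∀ x ∈ F \ F0, x - f x • c ∈ K) (hl : ∀ x ∈ F \ F0, |f x| ≤ b - a + 1) :
    Full c K (Z F) (a - sn f (F \ F0)) (b + sp f (F \ F0)) := by
  have key : ∀ D : Finset G, Disjoint F0 D → (∀ x ∈ D, x - f x • c ∈ K) →
      (∀ x ∈ D, |f x| ≤ b - a + 1) → Full c K (Z (F0 ∪ D)) (a - sn f D) (b + sp f D) := by
    intro D
    induction D using Finset.induction_on with
    | empty =>
      intro _ _ _
      rw [Finset.union_empty]
      have e1 : sn f (∅ : Finset G) = 0 := Finset.sum_empty
      have e2 : sp f (∅ : Finset G) = 0 := Finset.sum_empty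
      rw [e1, e2, sub_zero, add_zero]
      exact h
    | insert x D hx ih =>
      intro hd h1 h2
      rw [Finset.disjoint_insert_right] at hd
      have h3 := ih hd.2 (fun y hy => h1 y (Finset.mem_insert_of_mem hy))
        (fun y hy => h2 y (Finset.mem_insert_of_mem hy))
      refine Wj_one hZ hd.1 hx h3 (h1 x (Finset.mem_insert_self x D)) ?_
      have h4 := h2 x (Finset.mem_insert_self x D)
      have h5 := sn_nonneg f D
      have h6 := sp_nonneg f D
      linarith
  have h1 := key (F \ F0) Finset.disjoint_sdiff hf hl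
  rwa [Finset.union_sdiff_of_subset hF] at h1

/-- If `|Z F| < 2 |K| (b - a + 1)` then every `x ∈ F \ F0` has level at most `b - a + 1`
(`Full.double` for `Z F0` and `Z (insert x F0) ⊆ Z F`), so `Full.union` applies. -/
theorem Full.union_all [Fintype G] {Z : Finset G → Finset G} (hZ : Grow Z) {c : G}
    {K L : AddSubgroup G} {N : ℕ} {f : G → ℤ} (hL : Lvl c K L N f) {F0 F : Finset G}
    (hF : F0 ⊆ F) (hFL : ∀ x ∈ F, x ∈ L) {a b : ℤ} (h : Full c K (Z F0) a b) {len : ℕ}
    (hlen : (len : ℤ) = b - a + 1) (hbig : (Z F).card < 2 * (len * (sf K).card)) :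
    Full c K (Z F) (a - sn f (F \ F0)) (b + sp f (F \ F0)) := by
  refine Full.union hZ hF h ?_ ?_
  · intro x hx
    exact hL.mem x (hFL x (Finset.mem_sdiff.1 hx).1)
  · intro x hx
    by_contra hcon
    have hcon' : (len : ℤ) < |f x| := by
      rw [hlen]
      exact not_le.1 hcon
    obtain ⟨hxF, hx0⟩ := Finset.mem_sdiff.1 hx
    obtain ⟨g1, g2⟩ := hZ F0 x hx0
    have h1 := Full.double hL h (hFL x hxF) g1 g2 hlen hcon'
    have h2 : Z (insert x F0) ⊆ Z F := hZ.mono (Finset.insert_subset hxF hF)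
    have h3 := Finset.card_le_card h2
    omega

/-- The chain. `Full` on `[a, b]`, `a ≤ b`, for `F0`; for every `1 ≤ j ≤ q` there is
`y j ∈ F \ F0` with `|f (y j)| = j` (these `y j` are different). By induction on `i ≤ q` the set
`F0 ∪ {y 1, ..., y i}` has a full window of length at least `1 + i (i + 1) / 2 ≥ i + 1`
(`Full.step`; more precisely the window `[a - sn, b + sp]` of `Full.union`, `sp_add_sn`). For
`i = q` the length is at least `1 + q (q + 1) / 2 ≥ Q`, so all other elements of `F \ F0` can be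
added by `Full.union` (`sp_sdiff`, `sn_sdiff`). -/
theorem Full.chain {Z : Finset G → Finset G} (hZ : Grow Z) {c : G} {K : AddSubgroup G}
    {f : G → ℤ} {F0 F : Finset G} (hF : F0 ⊆ F) {a b : ℤ} (h : Full c K (Z F0) a b)
    (hab : a ≤ b) (hf : ∀ x ∈ F \ F0, x - f x • c ∈ K) {q Q : ℕ}
    (hq : ∀ j : ℕ, 1 ≤ j → j ≤ q → ∃ y ∈ F \ F0, (f y).natAbs = j)
    (hqQ : Q ≤ q * (q + 1) / 2 + 1) (hl : ∀ x ∈ F \ F0, (f x).natAbs ≤ Q) :
    Full c K (Z F) (a - sn f (F \ F0)) (b + sp f (F \ F0)) := by
  have key : ∀ i : ℕ, i ≤ q → ∃ D : Finset G, D ⊆ F \ F0 ∧ (∀ x ∈ D, (f x).natAbs ≤ i) ∧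
      2 * ∑ x ∈ D, (f x).natAbs = i * (i + 1) ∧
      Full c K (Z (F0 ∪ D)) (a - sn f D) (b + sp f D) := by
    intro i
    induction i with
    | zero =>
      intro _
      refine ⟨∅, Finset.empty_subset _, ?_, ?_, ?_⟩
      · intro x hx
        exact absurd hx (Finset.notMem_empty x)
      · rw [Finset.sum_empty]
        norm_num
      · rw [Finset.union_empty]
        have e1 : sn f (∅ : Finset G) = 0 := Finset.sum_empty
        have e2 : sp f (∅ : Finset G) = 0 := Finset.sum_empty
        rw [e1, e2, sub_zero, add_zero]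
        exact h
    | succ i ih =>
      intro hi
      obtain ⟨D, hD1, hD2, hD3, hD4⟩ := ih (by omega)
      obtain ⟨y, hy, hyi⟩ := hq (i + 1) (by omega) hi
      obtain ⟨hyF, hy0⟩ := Finset.mem_sdiff.1 hy
      have hyD : y ∉ D := by
        intro h1
        have := hD2 y h1
        omega
      refine ⟨insert y D, Finset.insert_subset hy hD1, ?_, ?_, ?_⟩
      · intro x hx
        rcases Finset.mem_insert.1 hx with rfl | hx
        · omega
        · have := hD2 x hx
          omega
      · rw [Finset.sum_insert hyD, mul_add, hD3, hyi]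
        ring
      · refine Wj_one hZ hy0 hyD hD4 (hf y hy) ?_
        have h1 := sp_add_sn f D
        have h2 : |f y| = ((i + 1 : ℕ) : ℤ) := by
          rw [← hyi, Int.natCast_natAbs]
        have h3 : i ≤ ∑ x ∈ D, (f x).natAbs := by
          rcases Nat.eq_zero_or_pos i with h4 | h4
          · omega
          · nlinarith
        have h5 : (i : ℤ) ≤ ((∑ x ∈ D, (f x).natAbs : ℕ) : ℤ) := by exact_mod_cast h3
        rw [h2]
        push_cast at h5 h1 ⊢
        linarith
  obtain ⟨D, hD1, -, hD3, hD4⟩ := key q le_rfl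
  have hF1 : F0 ∪ D ⊆ F :=
    Finset.union_subset hF (hD1.trans Finset.sdiff_subset)
  have hsd : F \ (F0 ∪ D) = (F \ F0) \ D := by
    ext x
    simp only [Finset.mem_sdiff, Finset.mem_union]
    tauto
  have h1 := Full.union (f := f) hZ hF1 hD4 ?_ ?_
  · rw [hsd] at h1
    rw [sn_sdiff f hD1, sp_sdiff f hD1]
    have e1 : a - (sn f D + sn f ((F \ F0) \ D)) = a - sn f D - sn f ((F \ F0) \ D) := by ring
    have e2 : b + (sp f D + sp f ((F \ F0) \ D)) = b + sp f D + sp f ((F \ F0) \ D) := by ring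
    rw [e1, e2]
    exact h1
  · intro x hx
    rw [hsd] at hx
    exact hf x (Finset.mem_sdiff.1 hx).1
  · intro x hx
    rw [hsd] at hx
    have h2 := hl x (Finset.mem_sdiff.1 hx).1
    have h3 := sp_add_sn f D
    have h4 : q * (q + 1) / 2 = ∑ x ∈ D, (f x).natAbs := by
      rw [← hD3]
      omega
    have h5 : (f x).natAbs ≤ ∑ x ∈ D, (f x).natAbs + 1 := by omega
    have h6 : |f x| ≤ ((∑ x ∈ D, (f x).natAbs : ℕ) : ℤ) + 1 := by
      rw [← Int.natCast_natAbs]
      exact_mod_cast h5
    linarith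

end Pool.Agent.helper43.Ex
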