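import Pool.Agent.helper43.Ex.Bfa
import Pool.Agent.helper43.Ex.Wj
import Pool.Agent.helper43.Ex.Nrm

/-! EX-Bfb: the bulk of the levels is full (BF of the paper proof). -/

open Finset Pool.Agent.helper43.Rho Pool.Agent.helper43.Asy

set_option linter.unusedSectionVars false

namespace Pool.Agent.helper43.Ex

variable {G : Type*} [AddCommGroup G] [DecidableEq G] [Fintype G]

/-- One pair: for `s ≤ l ≤ w ≤ Q`, `|Z| ≤ 10`, `k ∈ K` there are different `x, y ∈ P` with
`x + y = l c + k`, whose levels are different, not in `Z`, at most `w`, and sum up to `l`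
(`good_pair`, `pigeon`). -/
theorem PosD.pair {c : G} {K : AddSubgroup G} {P : Finset G} {g : G → ℕ} {Q s : ℕ}
    (h : PosD c K P g Q s) {l : ℕ} (hl : s ≤ l) (hlQ : l ≤ Q) {Z : Finset ℕ}
    (hZ : Z.card ≤ 10) {k : G} (hk : k ∈ K) :
    ∃ x ∈ P, ∃ y ∈ P, x ≠ y ∧ g x ∉ Z ∧ g y ∉ Z ∧ g x ≤ l ∧ g y ≤ l ∧ g x ≠ g y ∧
      x + y = l • c + k := by
  obtain ⟨j, hj1, hj2, hj3, hj4, hj5⟩ := h.good_pair hl hlQ hZ
  obtain ⟨x, hx, y, hy, hxy⟩ := pigeon (K := K) (U := P.filter (fun y => g y = j))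
    (V := P.filter (fun y => g y = l - j)) (a := j • c) (b := (l - j) • c)
    (fun x hx => by
      rw [Finset.mem_filter] at hx
      rw [← hx.2]
      exact h.mem x hx.1)
    (fun y hy => by
      rw [Finset.mem_filter] at hy
      rw [← hy.2]
      exact h.mem y hy.1) hj5 (z := l • c + k) (by
      have e : l • c = j • c + (l - j) • c := by
        rw [← add_smul]
        congr 1
        omega
      rw [e, add_sub_cancel_left]
      exact hk)
  rw [Finset.mem_filter] at hx hy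
  have hne : g x ≠ g y := by omega
  refine ⟨x, hx.1, y, hy.1, fun e => hne (by rw [e]), ?_, ?_, by omega, by omega, hne, hxy⟩
  · rw [hx.2]
    exact hj3
  · rw [hy.2]
    exact hj4

private theorem Bfb_pair {F T : Finset G} {x y : G} (hx : x ∈ F) (hy : y ∈ F) (hxy : x ≠ y)
    (hT : T ⊆ F) (hxT : x ∉ T) (hyT : y ∉ T) : x + y + ∑ z ∈ T, z ∈ SS F := by
  rw [mem_SS]
  refine ⟨insert x (insert y T), ?_, ?_⟩
  · intro z hz
    rw [Finset.mem_insert, Finset.mem_insert] at hz
    rcases hz with rfl | rfl | hz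
    · exact hx
    · exact hy
    · exact hT hz
  · rw [Finset.sum_insert, Finset.sum_insert hyT, add_assoc]
    rw [Finset.mem_insert]
    rintro (hz | hz)
    · exact hxy hz
    · exact hxT hz

private theorem PosD.Bfb_one {c : G} {K : AddSubgroup G} {P : Finset G} {g : G → ℕ} {Q s w : ℕ}
    (h : PosD c K P g Q s) (hwQ : w ≤ Q) {Z : Finset ℕ} (hZ : Z.card ≤ 10) {l : ℕ}
    (hl : s ≤ l) (hlw : l ≤ w) {k : G} (hk : k ∈ K) :
    l • c + k ∈ SS (P.filter (fun y => g y ∉ Z ∧ g y ≤ w)) := by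
  obtain ⟨x, hx, y, hy, hxy, h1, h2, h3, h4, -, h6⟩ := h.pair hl (hlw.trans hwQ) hZ hk
  have h7 := Bfb_pair (F := P.filter (fun y => g y ∉ Z ∧ g y ≤ w)) (T := ∅)
    (Finset.mem_filter.2 ⟨hx, h1, h3.trans hlw⟩) (Finset.mem_filter.2 ⟨hy, h2, h4.trans hlw⟩)
    hxy (Finset.empty_subset _) (Finset.notMem_empty _) (Finset.notMem_empty _)
  rwa [Finset.sum_empty, add_zero, h6] at h7

/-- Induction on `t`, with forbidden levels `Z`. `t = 1`: `pair`. Step `t → t + 1`: if `l ≤ w` as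
for `t = 1`. If `l > w`: `l1 = w` if `w + s ≤ l`, and `l1 = w - s` otherwise; then
`s ≤ l1 ≤ w` (`2 s ≤ w`), `l' = l - l1` satisfies `s ≤ l' ≤ t w`. `pair` for `l1`, `k = 0` gives
`x, y` with levels outside `Z`; `Z' = Z ∪ {g x, g y}`; the induction hypothesis for `Z'`, `l'`
gives `l' c + k` as the sum of a subset `T` of `P` with levels outside `Z'` and `≤ w`;
`T ∪ {x, y}` has the sum `l c + k`. -/
theorem PosD.small {c : G} {K : AddSubgroup G} {P : Finset G} {g : G → ℕ} {Q s w : ℕ}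
    (h : PosD c K P g Q s) (hw : 2 * s ≤ w) (hwQ : w ≤ Q) :
    ∀ t : ℕ, 1 ≤ t → ∀ Z : Finset ℕ, Z.card + 2 * t ≤ 12 → ∀ l : ℕ, s ≤ l → l ≤ t * w →
      ∀ k ∈ K, l • c + k ∈ SS (P.filter (fun y => g y ∉ Z ∧ g y ≤ w)) := by
  intro t ht
  induction t, ht using Nat.le_induction with
  | base =>
    intro Z hZ l hl hlw k hk
    exact h.Bfb_one hwQ (by omega) hl (by omega) hk
  | succ t ht ih =>
    intro Z hZ l hl hlw k hk
    by_cases hc : l ≤ w
    · exact h.Bfb_one hwQ (by omega) hl hc hk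
    obtain ⟨l1, h1, h2, h3, h4⟩ : ∃ l1, s ≤ l1 ∧ l1 ≤ w ∧ s ≤ l - l1 ∧ l - l1 ≤ t * w := by
      have hexp : (t + 1) * w = t * w + w := by ring
      have htw : w ≤ t * w := Nat.le_mul_of_pos_left w ht
      by_cases hc2 : w + s ≤ l
      · exact ⟨w, by omega, le_rfl, by omega, by omega⟩
      · exact ⟨w - s, by omega, by omega, by omega, by omega⟩
    obtain ⟨x, hx, y, hy, hxy, a1, a2, a3, a4, a5, a6⟩ := h.pair h1 (h2.trans hwQ)
      (Z := Z) (by omega) K.zero_mem
    have hZ' : (insert (g x) (insert (g y) Z)).card + 2 * t ≤ 12 := by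
      have b1 := Finset.card_insert_le (g x) (insert (g y) Z)
      have b2 := Finset.card_insert_le (g y) Z
      omega
    have hI := ih (insert (g x) (insert (g y) Z)) hZ' (l - l1) h3 h4 k hk
    rw [mem_SS] at hI
    obtain ⟨T, hT, hTs⟩ := hI
    have hTF : T ⊆ P.filter (fun y => g y ∉ Z ∧ g y ≤ w) := by
      intro z hz
      have hz' := hT hz
      rw [Finset.mem_filter] at hz' ⊢
      refine ⟨hz'.1, fun hzZ => hz'.2.1 ?_, hz'.2.2⟩
      exact Finset.mem_insert_of_mem (Finset.mem_insert_of_mem hzZ)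
    have hxT : x ∉ T := by
      intro hz
      have hz' := hT hz
      rw [Finset.mem_filter] at hz'
      exact hz'.2.1 (Finset.mem_insert_self _ _)
    have hyT : y ∉ T := by
      intro hz
      have hz' := hT hz
      rw [Finset.mem_filter] at hz'
      exact hz'.2.1 (Finset.mem_insert_of_mem (Finset.mem_insert_self _ _))
    have h7 := Bfb_pair (F := P.filter (fun y => g y ∉ Z ∧ g y ≤ w)) (T := T)
      (Finset.mem_filter.2 ⟨hx, a1, a3.trans h2⟩) (Finset.mem_filter.2 ⟨hy, a2, a4.trans h2⟩)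
      hxy hTF hxT hyT
    have h8 : x + y + ∑ z ∈ T, z = l • c + k := by
      have e : l • c = l1 • c + (l - l1) • c := by
        rw [← add_smul]
        congr 1
        omega
      rw [a6, hTs, e]
      abel
    rwa [h8] at h7

private theorem PosD.Bfb_low {c : G} {K : AddSubgroup G} {P : Finset G} {g : G → ℕ} {Q s : ℕ}
    (h : PosD c K P g Q s) (w : ℕ) :
    (P.filter (fun y => g y ≤ w)).card ≤ w * (sf K).card := by
  have h1 : (P.filter (fun y => g y ≤ w)).card =
      ∑ l ∈ Icc 1 w, ((P.filter (fun y => g y ≤ w)).filter (fun y => g y = l)).card := by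
    apply Finset.card_eq_sum_card_fiberwise
    intro y hy
    rw [Finset.mem_coe, Finset.mem_filter] at hy
    rw [Finset.mem_coe, Finset.mem_Icc]
    exact ⟨h.one y hy.1, hy.2⟩
  rw [h1]
  have h2 : ∀ l ∈ Icc 1 w,
      ((P.filter (fun y => g y ≤ w)).filter (fun y => g y = l)).card ≤ (sf K).card := by
    intro l _
    refine le_trans (Finset.card_le_card ?_) (h.class_le l)
    exact Finset.filter_subset_filter _ (Finset.filter_subset _ _)
  refine le_trans (Finset.sum_le_sum h2) ?_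
  rw [Finset.sum_const, smul_eq_mul, Nat.card_Icc, Nat.add_sub_cancel]

/-- `w = Q / 4`. By `small` with `t = 6`, `Z = ∅`: `Full (SS P1) [s, 6 w]`,
`P1 = {y ∈ P : g y ≤ w}`. The other elements have levels `≤ Q ≤ 6 w - s + 1` (`Q ≥ 240`,
`8 s ≤ Q`), so `Full.union` (with `f = g`, all positive) gives `Full (SS P) [s, b]`,
`b = 6 w + ∑_{g y > w} g y`. Reflection (`Full.refl`): `Full (SS P) [S - b, S - s]`,
`S = ∑_P g`. It remains `S - b ≤ b + 1` (`Full.join`): `∑_{g y ≤ w} g y ≤ μ w (w + 1)/2 ≤ μ w^2`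
(classes have at most `μ` elements) and at least `|P| - μ w ≥ μ (Q - s/2) - μ w ≥ (11/16) μ Q`
elements have `g y > w`, so `∑_{g y > w} g y ≥ (11/16) μ Q (Q/4) ≥ μ w^2`. -/
theorem PosD.bulk {c : G} {K : AddSubgroup G} {P : Finset G} {g : G → ℕ} {Q s : ℕ}
    (h : PosD c K P g Q s) :
    Full c K (SS P) s ((∑ y ∈ P, g y : ℕ) - s) := by
  have hs30 := h.s30
  have hs8 := h.s8
  obtain ⟨w, hw⟩ : ∃ w, w = Q / 4 := ⟨_, rfl⟩
  have hsw : 2 * s ≤ w := by omega
  have hwQ : w ≤ Q := by omega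
  have hP1 : P.filter (fun y => g y ≤ w) ⊆ P := Finset.filter_subset _ _
  -- the levels up to `6 w`
  have hF1 : Full c K (SS (P.filter (fun y => g y ≤ w))) s (6 * w : ℕ) := by
    intro j hj1 hj2 t ht
    obtain ⟨l, rfl⟩ : ∃ l : ℕ, j = l := ⟨j.toNat, by omega⟩
    have h1 := h.small hsw hwQ 6 (by norm_num) ∅ (by simp) l (by exact_mod_cast hj1)
      (by exact_mod_cast hj2) t ht
    rw [natCast_zsmul]
    refine SS_mono ?_ h1
    intro y hy
    rw [Finset.mem_filter] at hy ⊢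
    exact ⟨hy.1, hy.2.2⟩
  have hlev : ∀ x ∈ P, x - ((g x : ℕ) : ℤ) • c ∈ K := by
    intro x hx
    rw [natCast_zsmul]
    exact h.mem x hx
  have hF2 := Full.union (Z := SS) grow_SS (f := fun y => ((g y : ℕ) : ℤ)) hP1 hF1
    (fun x hx => hlev x (Finset.mem_sdiff.1 hx).1)
    (fun x hx => by
      have h1 := h.le x (Finset.mem_sdiff.1 hx).1
      rw [abs_of_nonneg (Int.natCast_nonneg _)]
      push_cast
      omega)
  have hsn : ∀ F : Finset G, sn (fun y => ((g y : ℕ) : ℤ)) F = 0 := by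
    intro F
    unfold sn
    refine Finset.sum_eq_zero fun x _ => ?_
    have h1 : -((g x : ℕ) : ℤ) ≤ 0 := by omega
    exact max_eq_right h1
  have hsp : ∀ F : Finset G, sp (fun y => ((g y : ℕ) : ℤ)) F = ((∑ y ∈ F, g y : ℕ) : ℤ) := by
    intro F
    unfold sp
    rw [Nat.cast_sum]
    refine Finset.sum_congr rfl fun x _ => ?_
    exact max_eq_left (Int.natCast_nonneg _)
  rw [hsn, hsp, sub_zero] at hF2
  have hF3 := Full.refl (f := fun y => ((g y : ℕ) : ℤ)) hF2 hlev
  have hsum : ∑ x ∈ P, ((g x : ℕ) : ℤ) = ((∑ y ∈ P, g y : ℕ) : ℤ) := by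
    rw [Nat.cast_sum]
  rw [hsum] at hF3
  refine hF2.join hF3 ?_
  -- the small elements have the smaller sum
  have hsplit : ∑ y ∈ P, g y = ∑ y ∈ P.filter (fun y => g y ≤ w), g y +
      ∑ y ∈ P \ P.filter (fun y => g y ≤ w), g y := by
    rw [add_comm]
    exact (Finset.sum_sdiff hP1).symm
  have hlow := h.Bfb_low w
  have hcard : (P \ P.filter (fun y => g y ≤ w)).card + (P.filter (fun y => g y ≤ w)).card =
      P.card := Finset.card_sdiff_add_card_eq_card hP1
  have hmu : 2 * (w * (sf K).card) ≤ P.card := by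
    have h1 := h.hole
    have h2 : (sf K).card * s ≤ (sf K).card * w := Nat.mul_le_mul_left _ (by omega)
    have h3 : (sf K).card * (4 * w) ≤ (sf K).card * Q := Nat.mul_le_mul_left _ (by omega)
    have h4 : (sf K).card * (4 * w) = 4 * (w * (sf K).card) := by ring
    have h5 : (sf K).card * w = w * (sf K).card := Nat.mul_comm _ _
    omega
  have hS1 : ∑ y ∈ P.filter (fun y => g y ≤ w), g y ≤
      (P.filter (fun y => g y ≤ w)).card * w := by
    refine Finset.sum_le_card_nsmul _ _ _ fun y hy => ?_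
    exact (Finset.mem_filter.1 hy).2
  have hS2 : (P \ P.filter (fun y => g y ≤ w)).card * w ≤
      ∑ y ∈ P \ P.filter (fun y => g y ≤ w), g y := by
    refine Finset.card_nsmul_le_sum _ _ _ fun y hy => ?_
    rw [Finset.mem_sdiff, Finset.mem_filter] at hy
    by_contra hcon
    exact hy.2 ⟨hy.1, by omega⟩
  have hS3 : (P.filter (fun y => g y ≤ w)).card * w ≤
      (P \ P.filter (fun y => g y ≤ w)).card * w := Nat.mul_le_mul_right _ (by omega)
  have hfin : ∑ y ∈ P, g y ≤ 2 * ∑ y ∈ P \ P.filter (fun y => g y ≤ w), g y := by omega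
  omega

/-- `PosD c K (F.image (nrm f)) (glev f F) Q s` (`nrm_mem`, `glev_nrm`; the image has `|F|`
elements by `nrm_inj`), `PosD.bulk`, `Full.of_nrm`, and
`∑ glev = ∑ natAbs (f x) = sp + sn` (`sp_add_sn`). -/
theorem bulk {c : G} {K : AddSubgroup G} {F : Finset G} (hF : Asym F) {f : G → ℤ}
    {Q s : ℕ} (hf : ∀ x ∈ F, x - f x • c ∈ K) (h0 : ∀ x ∈ F, f x ≠ 0)
    (hQ : ∀ x ∈ F, |f x| ≤ Q)
    (hh : 2 * ((sf K).card * Q) + 30 * (sf K).card ≤ (sf K).card * s + 2 * F.card)
    (hs : 8 * s ≤ Q) : Full c K (SS F) (-sn f F + s) (sp f F - s) := by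
  have hinj : Set.InjOn (nrm f) (F : Set G) := fun x hx y hy hxy => nrm_inj hF f x hx y hy hxy
  have hP : PosD c K (F.image (nrm f)) (glev f F) Q s := by
    refine ⟨?_, ?_, ?_, ?_, hs⟩
    · intro y hy
      obtain ⟨x, hx, rfl⟩ := Finset.mem_image.1 hy
      rw [glev_nrm hF f hx]
      exact nrm_mem (hf x hx)
    · intro y hy
      obtain ⟨x, hx, rfl⟩ := Finset.mem_image.1 hy
      rw [glev_nrm hF f hx]
      have := h0 x hx
      omega
    · intro y hy
      obtain ⟨x, hx, rfl⟩ := Finset.mem_image.1 hy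
      rw [glev_nrm hF f hx]
      have h1 := hQ x hx
      rw [Int.abs_eq_natAbs] at h1
      exact_mod_cast h1
    · rw [Finset.card_image_of_injOn hinj]
      exact hh
  have h1 := Full.of_nrm hF hf hP.bulk
  have h2 : ∑ y ∈ F.image (nrm f), glev f F y = ∑ x ∈ F, (f x).natAbs := by
    rw [Finset.sum_image hinj]
    exact Finset.sum_congr rfl fun x hx => glev_nrm hF f hx
  have h3 := sp_add_sn f F
  rw [h2, ← h3] at h1
  have h4 : -sn f F + (sp f F + sn f F - (s : ℤ)) = sp f F - s := by ring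
  rwa [h4] at h1

end Pool.Agent.helper43.Ex
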