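import Pool.Agent.helper43.Ex.Cm
import Pool.Agent.helper43.Ex.Bfb

/-! EX-CaA: the case `K = H` (case (A) of section 3 of the paper proof). -/

open Finset Pool.Agent.helper43.Rho Pool.Agent.helper43.Asy

set_option linter.unusedSectionVars false

namespace Pool.Agent.helper43.Ex

variable {n : ℕ} [NeZero n] {m : ℕ} {A As : Finset (ZMod n)} {H : AddSubgroup (ZMod n)}
  {c : ZMod n} {Q δ : ℕ} {E R : Finset (ZMod n)} {N : ℕ} {f : ZMod n → ℤ}

private theorem CaA_outs (h : StrL n m A As H H c Q δ E R N f) : R ⊆ outs As H := by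
  rw [h.str.st.eqR]
  exact Finset.sdiff_subset

private theorem CaA_L (h : StrL n m A As H H c Q δ E R N f) {x : ZMod n}
    (hx : x ∈ outs As H) : x ∈ LL H R :=
  h.As_L x (mem_outs.1 hx).1

private theorem CaA_ne (h : StrL n m A As H H c Q δ E R N f) {x : ZMod n}
    (hx : x ∈ outs As H) : f x ≠ 0 := by
  intro h0
  exact (mem_outs.1 hx).2 ((h.lvl.zero_iff (CaA_L h hx)).1 h0)

private theorem CaA_fib (h : StrL n m A As H H c Q δ E R N f) {F : Finset (ZMod n)}
    (hF : F ⊆ outs As H) (k : ℕ) :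
    (F.filter (fun a => (f a).natAbs = k)).card ≤ (sf H).card := by
  rcases Nat.eq_zero_or_pos k with rfl | hk
  · have e : F.filter (fun a => (f a).natAbs = 0) = ∅ := by
      refine Finset.filter_eq_empty_iff.2 fun x hx h0 => ?_
      exact CaA_ne h (hF hx) (Int.natAbs_eq_zero.1 h0)
    rw [e, Finset.card_empty]
    exact Nat.zero_le _
  · exact h.class_le (fun x hx => (mem_outs.1 (hF hx)).1) hk

private theorem CaA_one (h : StrL n m A As H H c Q δ E R N f) {x : ZMod n}
    (hx : x ∈ outs As H) : 1 ≤ (f x).natAbs := by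
  have := CaA_ne h hx
  omega

/-- The elements of `outs As H` have level `≠ 0` (`Lvl.zero_iff`), and every class has at most
`|H|` elements: `rl`. -/
theorem caseA_sum (h : StrL n m A As H H c Q δ E R N f) {F : Finset (ZMod n)}
    (hF : F ⊆ outs As H) : St (sf H).card F.card ≤ ∑ b ∈ F, (f b).natAbs := by
  exact rl (sf_card_pos H) (fun a ha => CaA_one h (hF ha)) (CaA_fib h hF)

/-- A window of length at least `1 + St h M`: if `N ≤ 1 + St h M` then `Full.all_L` contradicts
`not_full` (`Red.eqv`); otherwise `Full.card` with `len = 1 + St h M`, `TT_eq`. -/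
theorem caseA_end (h : StrL n m A As H H c Q δ E R N f) {a b : ℤ}
    (hw : Full c H (XX H (outs As H)) a b)
    (hlen : (St (sf H).card (outs As H).card : ℤ) ≤ b - a) :
    TT (sf H).card (outs As H).card ≤ (XX H (outs As H)).card := by
  by_cases hN : N ≤ 1 + St (sf H).card (outs As H).card
  · exfalso
    apply h.not_full
    rw [← h.str.red.eqv]
    refine Full.all_L h.lvl hw ?_
    have h1 : (N : ℤ) ≤ 1 + (St (sf H).card (outs As H).card : ℤ) := by exact_mod_cast hN
    linarith
  · rw [TT_eq (sf_card_pos H), mul_comm]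
    refine Full.card h.lvl hw ?_ (by omega)
    push_cast
    linarith

/-- `B = outs As H`, `y j ∈ B` of level `± j`, `j ≤ q ≤ Q`, `F1 = R ∪ {y 1, ..., y q}`.
`Full c H (XX H ∅) 0 0` (`XX_empty`). `Full.chain` with `Z = XX H` (`grow_XX`), `F0 = ∅`, `F = F1`
(all levels `≤ Q`, `levR`) gives the window `[-sn f F1, sp f F1]` of length
`len = 1 + ∑_{F1} |f| ≥ 1 + ∑_R |f| ≥ 1 + St h i` (`sp_add_sn`, `caseA_sum`). `Full.union_all` to
`F = B`: `|XX H B| ≤ TT h (M + 1) < 2 TT h i = 2 h (1 + St h i) ≤ 2 len h` (`Red.up`,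
`Stage.tt`, `TT_eq`). The window for `B` is `[-sn f B, sp f B]` (`sn_sdiff`), of length
`1 + ∑_B |f| ≥ 1 + St h M`: `caseA_end`. -/
theorem caseA_exact (h : StrL n m A As H H c Q δ E R N f) {q : ℕ} (hqQ : q ≤ Q)
    (hQq : Q ≤ q * (q + 1) / 2 + 1)
    (hy : ∀ j : ℕ, 1 ≤ j → j ≤ q → ∃ y ∈ outs As H, (f y).natAbs = j) :
    TT (sf H).card (outs As H).card ≤ (XX H (outs As H)).card := by
  classical
  obtain ⟨F1, hF1⟩ : ∃ F1, F1 = R ∪ (outs As H).filter (fun b => (f b).natAbs ≤ q) := ⟨_, rfl⟩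
  have hRB := CaA_outs h
  have hF1B : F1 ⊆ outs As H := by
    rw [hF1]
    exact Finset.union_subset hRB (Finset.filter_subset _ _)
  have hRF1 : R ⊆ F1 := by
    rw [hF1]
    exact Finset.subset_union_left
  have h0 : Full c H (XX H (∅ : Finset (ZMod n))) 0 0 := by
    intro j hj1 hj2 t ht
    have hj : j = 0 := le_antisymm hj2 hj1
    rw [hj, zero_zsmul, zero_add, XX_empty, mem_sf]
    exact ht
  have hlevQ : ∀ x ∈ F1, (f x).natAbs ≤ Q := by
    intro x hx
    rw [hF1, Finset.mem_union, Finset.mem_filter] at hx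
    rcases hx with hx | hx
    · have h1 := h.levR x hx
      rw [Int.abs_eq_natAbs] at h1
      exact_mod_cast h1
    · exact hx.2.trans hqQ
  have hw1 := Full.chain (Z := XX H) (grow_XX H) (f := f) (F0 := ∅) (F := F1)
    (Finset.empty_subset _) h0 le_rfl
    (fun x hx => h.lvl.mem x (CaA_L h (hF1B (Finset.mem_sdiff.1 hx).1)))
    (q := q) (Q := Q)
    (fun j hj1 hj2 => by
      obtain ⟨y, hy, hyj⟩ := hy j hj1 hj2
      refine ⟨y, Finset.mem_sdiff.2 ⟨?_, Finset.notMem_empty _⟩, hyj⟩
      rw [hF1]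
      exact Finset.mem_union_right _ (Finset.mem_filter.2 ⟨hy, by omega⟩))
    hQq (fun x hx => hlevQ x (Finset.mem_sdiff.1 hx).1)
  rw [Finset.sdiff_empty] at hw1
  have hsum1 := sp_add_sn f F1
  have hlow : St (sf H).card R.card ≤ ∑ x ∈ F1, (f x).natAbs :=
    (caseA_sum h hRB).trans (Finset.sum_le_sum_of_subset hRF1)
  have hup := h.str.red.up
  have htt := h.str.st.tt
  rw [TT_eq (sf_card_pos H) R.card] at htt
  have hbig : (XX H (outs As H)).card <
      2 * ((1 + ∑ x ∈ F1, (f x).natAbs) * (sf H).card) := by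
    have h1 : (sf H).card * (1 + St (sf H).card R.card) ≤
        (1 + ∑ x ∈ F1, (f x).natAbs) * (sf H).card := by
      rw [mul_comm]
      exact Nat.mul_le_mul_right _ (by omega)
    omega
  have hw2 := Full.union_all (Z := XX H) (grow_XX H) h.lvl hF1B
    (fun x hx => CaA_L h hx) hw1 (len := 1 + ∑ x ∈ F1, (f x).natAbs)
    (by push_cast at hsum1 ⊢; linarith) hbig
  refine caseA_end h hw2 ?_
  have hsp := sp_sdiff f hF1B
  have hsn := sn_sdiff f hF1B
  have hsumB := sp_add_sn f (outs As H)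
  have hfin := caseA_sum h (Finset.Subset.refl (outs As H))
  have hfin' : (St (sf H).card (outs As H).card : ℤ) ≤
      ((∑ x ∈ outs As H, (f x).natAbs : ℕ) : ℤ) := by exact_mod_cast hfin
  linarith

/-- `Q ≥ 10^4`, no element of `B = outs As H` has level `± j0`, `1 ≤ j0 ≤ Q / 2`. `s = Q / 50`,
`h = |H|`, `i = |R| ≤ h Q` (`outR_le`, `outs R H = R`), `M = |B|`. `bulk` for `F = R`:
`500000 h Q ≤ 500001 (i + h)` (`nums`) and `i ≤ h Q` give `2 (h Q - i) + 30 h ≤
33 h + h Q / 200000 ≤ h s` (as `s ≥ Q / 51` and `Q ≥ 10^4`). So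
`Full c H (SS R) (-sn f R + s) (sp f R - s)`, also for `XX H R ⊇ SS R`. `len = ∑_R |f| - 2 s + 1`;
`Full.union_all` to `B`: `2 len h ≥ 2 TT h i - 4 h s > TT h (M + 1) + M - 4 h s ≥ |XX H B|`
(`Stage.tt`, `Red.up`; `4 h s ≤ 4 h Q / 50 ≤ M`). The window for `B` has length
`∑_B |f| - 2 s + 1`. `rl2` with `j0` for `B`: `St h M + (M / h + 1) ≤ ∑_B |f| + j0`, and
`M / h + 1 ≥ Q`: otherwise `M < h Q`, while `h Q ≤ (1 + 1/500000) (i + h)`, `20 i ≤ 19 M + 20`, so
`h Q ≤ 0.951 M + 1.1 h + 2 ≤ 0.951 h Q + 1.1 h + 2`, impossible for `Q ≥ 10^4`. So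
`∑_B |f| ≥ St h M + Q / 2 ≥ St h M + 2 s`. `caseA_end`. -/
theorem caseA_bulk (h : StrL n m A As H H c Q δ E R N f) (hQ : 10 ^ 4 ≤ Q) {j : ℕ}
    (hj : 1 ≤ j) (hj2 : 2 * j ≤ Q) (hne : ∀ y ∈ outs As H, (f y).natAbs ≠ j) :
    TT (sf H).card (outs As H).card ≤ (XX H (outs As H)).card := by
  classical
  obtain ⟨s, hs⟩ : ∃ s, s = Q / 50 := ⟨_, rfl⟩
  have hRB := CaA_outs h
  obtain ⟨n1, n2, n3, n4, -, -, n7, n8, -⟩ := h.nums
  have hRH : outs R H = R := by
    refine Finset.filter_true_of_mem fun x hx => (mem_outs.1 (hRB hx)).2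
  have hRQ := h.outR_le
  rw [hRH] at hRQ
  have hh := sf_card_pos H
  -- numbers
  have hX1 : 10 ^ 4 * (sf H).card ≤ (sf H).card * Q := by
    rw [mul_comm]
    exact Nat.mul_le_mul_left _ hQ
  have hX2 : (sf H).card * Q ≤ 50 * ((sf H).card * s) + 49 * (sf H).card := by
    calc (sf H).card * Q ≤ (sf H).card * (50 * s + 49) := Nat.mul_le_mul_left _ (by omega)
      _ = 50 * ((sf H).card * s) + 49 * (sf H).card := by ring
  have hX3 : 50 * ((sf H).card * s) ≤ (sf H).card * Q := by
    calc 50 * ((sf H).card * s) = (sf H).card * (50 * s) := by ring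
      _ ≤ (sf H).card * Q := Nat.mul_le_mul_left _ (by omega)
  have hMbig : 100 ≤ (outs As H).card := by
    refine le_trans ?_ n7
    calc 100 ≤ 2 ^ 7 := by norm_num
      _ ≤ 2 ^ 400 := Nat.pow_le_pow_right (by norm_num) (by norm_num)
  have hs1 : s ≤ (sf H).card * s := Nat.le_mul_of_pos_left _ hh
  have hbulk := bulk (F := R) (h.asym.subset h.R_sub.1)
    (f := f) (c := c) (K := H) (Q := Q) (s := s)
    (fun x hx => h.lvl.mem x (CaA_L h (hRB hx)))
    (fun x hx => CaA_ne h (hRB hx)) h.levR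
    (by
      generalize (sf H).card * Q = X at *
      generalize (sf H).card * s = Y at *
      omega)
    (by omega)
  have hw1 : Full c H (XX H R) (-sn f R + s) (sp f R - s) :=
    hbulk.mono_set fun z hz => mem_XX_of_SS hz
  have hsumR := sp_add_sn f R
  have hlow : St (sf H).card R.card ≤ ∑ x ∈ R, (f x).natAbs := caseA_sum h hRB
  have hRcard : R.card ≤ ∑ x ∈ R, (f x).natAbs := by
    have h1 := Finset.card_nsmul_le_sum R (fun x => (f x).natAbs) 1
      (fun x hx => CaA_one h (hRB hx))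
    simpa using h1
  have h2s : 4 * ((sf H).card * s) + 2 * s ≤ R.card + (outs As H).card ∧
      4 * ((sf H).card * s) ≤ (outs As H).card ∧ 2 * s ≤ R.card := by
    generalize (sf H).card * Q = X at *
    generalize (sf H).card * s = Y at *
    omega
  have hTT : TT (sf H).card ((outs As H).card + 1) + (outs As H).card <
      2 * TT (sf H).card R.card := by
    have hRM : R.card ≤ (outs As H).card := Finset.card_le_card hRB
    have e1 : TT (sf H).card ((outs As H).card + 1) ≤ TT (sf H).card R.card +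
        ((outs As H).card + 1 - R.card) * ((outs As H).card + 1 + (sf H).card) := by
      unfold TT
      rw [add_assoc]
      refine Nat.add_le_add_left ?_ _
      have hsplit : Icc 1 ((outs As H).card + 1) = Icc 1 R.card ∪
          Ioc R.card ((outs As H).card + 1) := by
        ext x
        simp only [Finset.mem_union, Finset.mem_Icc, Finset.mem_Ioc]
        omega
      have hdisj : Disjoint (Icc 1 R.card) (Ioc R.card ((outs As H).card + 1)) := by
        rw [Finset.disjoint_left]
        intro x hx hx'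
        rw [Finset.mem_Icc] at hx
        rw [Finset.mem_Ioc] at hx'
        omega
      rw [hsplit, Finset.sum_union hdisj]
      refine Nat.add_le_add_left ?_ _
      have h1 : ∀ x ∈ Ioc R.card ((outs As H).card + 1),
          rd (sf H).card x ≤ (outs As H).card + 1 + (sf H).card := by
        intro x hx
        rw [Finset.mem_Ioc] at hx
        exact rd_le.trans (by omega)
      refine (Finset.sum_le_card_nsmul _ _ _ h1).trans ?_
      rw [Nat.card_Ioc, smul_eq_mul]
    have e2 : R.card * (R.card + 1) ≤ 2 * TT (sf H).card R.card := by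
      have h1 := sum_rd_ge hh R.card
      unfold TT
      omega
    have e3 : 20 * ((outs As H).card + 1 - R.card) ≤ 3 * (outs As H).card := by omega
    have e4 : 20 * ((outs As H).card + 1 + (sf H).card) ≤ 28 * (outs As H).card := by omega
    have e5 : 81 * (outs As H).card ^ 2 ≤ 100 * (R.card * (R.card + 1)) := by
      have h1 : (9 * (outs As H).card) * (9 * (outs As H).card) ≤ (10 * R.card) * (10 * R.card) :=
        Nat.mul_le_mul n2 n2
      nlinarith
    have e6 : 400 * (((outs As H).card + 1 - R.card) * ((outs As H).card + 1 + (sf H).card)) ≤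
        84 * (outs As H).card ^ 2 := by
      have h1 := Nat.mul_le_mul e3 e4
      nlinarith
    have e7 : 100 * (outs As H).card ≤ (outs As H).card ^ 2 := by
      rw [pow_two]
      exact Nat.mul_le_mul_right _ hMbig
    generalize ((outs As H).card + 1 - R.card) * ((outs As H).card + 1 + (sf H).card) = P at *
    generalize R.card * (R.card + 1) = P2 at *
    generalize (outs As H).card ^ 2 = P3 at *
    omega
  have hup := h.str.red.up
  rw [TT_eq hh R.card] at hTT
  obtain ⟨len, hlen⟩ : ∃ len, len + 2 * s = 1 + ∑ x ∈ R, (f x).natAbs :=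
    ⟨1 + ∑ x ∈ R, (f x).natAbs - 2 * s, by omega⟩
  have hbig : (XX H (outs As H)).card < 2 * (len * (sf H).card) := by
    have h1 : (sf H).card * (1 + St (sf H).card R.card) ≤
        (sf H).card * (1 + ∑ x ∈ R, (f x).natAbs) := Nat.mul_le_mul_left _ (by omega)
    have h2 : (sf H).card * (1 + ∑ x ∈ R, (f x).natAbs) =
        len * (sf H).card + 2 * ((sf H).card * s) := by
      rw [← hlen]
      ring
    omega
  have hw2 := Full.union_all (Z := XX H) (grow_XX H) h.lvl hRB
    (fun x hx => CaA_L h hx) hw1 (len := len)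
    (by
      have h1 : ((len : ℤ)) + 2 * s = 1 + ((∑ x ∈ R, (f x).natAbs : ℕ) : ℤ) := by
        exact_mod_cast hlen
      linarith) hbig
  refine caseA_end h hw2 ?_
  have hsp := sp_sdiff f hRB
  have hsn := sn_sdiff f hRB
  have hsumB := sp_add_sn f (outs As H)
  have hrl := rl2 (A := outs As H) (f := fun a => (f a).natAbs) hh
    (fun a ha => CaA_one h ha) (CaA_fib h (Finset.Subset.refl _)) hj (by
      have e : (outs As H).filter (fun a => (f a).natAbs = j) = ∅ :=
        Finset.filter_eq_empty_iff.2 fun x hx => hne x hx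
      rw [e, Finset.card_empty]
      exact hh)
  have hdiv : Q ≤ (outs As H).card / (sf H).card := by
    rw [Nat.le_div_iff_mul_le hh, mul_comm]
    generalize (sf H).card * Q = X at *
    generalize (sf H).card * s = Y at *
    omega
  have hfin : St (sf H).card (outs As H).card + 2 * s ≤ ∑ x ∈ outs As H, (f x).natAbs := by
    omega
  have hfin' : (St (sf H).card (outs As H).card : ℤ) + 2 * s ≤
      ((∑ x ∈ outs As H, (f x).natAbs : ℕ) : ℤ) := by exact_mod_cast hfin
  linarith

/-- `Q < 10^4`: every level `1 ≤ j ≤ Q` occurs in `R`. `i = |R| ≤ h Q`, so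
`p = rd h (i - δ) ≤ h Q` (`rd_least`); `p = h P`; `P ≤ Q < 10^4`; by `Str.siz`
`500000 Q ≤ 500001 P`, so `Q ≤ P + P / 500000`, `Q ≤ P`. So `h Q = p ≤ (i - δ) + h - 1 < i + h`
(`rd` unfolded). If level `j` did not occur in `R` then `i ≤ h (Q - 1)`, a contradiction. -/
theorem caseA_small (h : StrL n m A As H H c Q δ E R N f) (hQ : Q < 10 ^ 4) :
    ∀ j : ℕ, 1 ≤ j → j ≤ Q → ∃ y ∈ R, (f y).natAbs = j := by
  classical
  intro j hj1 hj2
  by_contra hcon
  push Not at hcon
  have hRB := CaA_outs h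
  have hh := sf_card_pos H
  -- `R` has at most `h (Q - 1)` elements
  have h1 : R.card ≤ (sf H).card * (Q - 1) := by
    have h2 : R.card = ∑ k ∈ (Icc 1 Q).erase j, (R.filter (fun a => (f a).natAbs = k)).card := by
      apply Finset.card_eq_sum_card_fiberwise
      intro x hx
      have hx' := Finset.mem_coe.1 hx
      have h3 := h.levR x hx'
      rw [Int.abs_eq_natAbs] at h3
      have h4 : (f x).natAbs ≤ Q := by exact_mod_cast h3
      rw [Finset.mem_coe, Finset.mem_erase, Finset.mem_Icc]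
      exact ⟨hcon x hx', CaA_one h (hRB hx'), h4⟩
    rw [h2]
    refine (Finset.sum_le_card_nsmul _ _ (sf H).card fun k _ => CaA_fib h hRB k).trans ?_
    rw [Finset.card_erase_of_mem (Finset.mem_Icc.2 ⟨hj1, hj2⟩), Nat.card_Icc, smul_eq_mul,
      mul_comm]
    exact Nat.mul_le_mul_left _ (by omega)
  have h2 : rd (sf H).card (R.card - δ) ≤ (sf H).card * (Q - 1) :=
    (rd_mono (Nat.sub_le _ _)).trans (rd_least hh ⟨_, rfl⟩ h1)
  have h3 := h.str.siz
  have h4 : (sf H).card * Q = (sf H).card * (Q - 1) + (sf H).card := by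
    obtain ⟨q, rfl⟩ : ∃ q, Q = q + 1 := ⟨Q - 1, by omega⟩
    rw [Nat.add_sub_cancel]
    ring
  have h5 : (sf H).card * (Q - 1) ≤ 10 ^ 4 * (sf H).card := by
    rw [mul_comm]
    exact Nat.mul_le_mul_right _ (by omega)
  generalize (sf H).card * (Q - 1) = X at *
  generalize rd (sf H).card (R.card - δ) = Y at *
  omega

/-- `Q < 10^4`: `caseA_small` and `caseA_exact` with `q = Q`. `Q ≥ 10^4`: if all levels
`1 ≤ j ≤ Q / 2` occur in `outs As H` then `caseA_exact` with `q = Q / 2`, otherwise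
`caseA_bulk`. -/
theorem caseA (h : StrL n m A As H H c Q δ E R N f) :
    TT (sf H).card (outs As H).card ≤ (XX H (outs As H)).card := by
  classical
  by_cases hQ : Q < 10 ^ 4
  · refine caseA_exact h (q := Q) le_rfl ?_ ?_
    · rcases Nat.eq_zero_or_pos Q with h0 | h0
      · rw [h0]
        norm_num
      · have h1 : Q * 2 ≤ Q * (Q + 1) := Nat.mul_le_mul_left _ (by omega)
        omega
    · intro j hj1 hj2
      obtain ⟨y, hy, hyj⟩ := caseA_small h hQ j hj1 hj2
      exact ⟨y, CaA_outs h hy, hyj⟩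
  · push Not at hQ
    by_cases hall : ∀ j : ℕ, 1 ≤ j → j ≤ Q / 2 → ∃ y ∈ outs As H, (f y).natAbs = j
    · refine caseA_exact h (q := Q / 2) (Nat.div_le_self _ _) ?_ hall
      have h1 : (Q / 2) * 5000 ≤ (Q / 2) * (Q / 2 + 1) := Nat.mul_le_mul_left _ (by omega)
      omega
    · push Not at hall
      obtain ⟨j, hj1, hj2, hne⟩ := hall
      exact caseA_bulk h hQ hj1 (by omega) hne

end Pool.Agent.helper43.Ex
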