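import Pool.Agent.helper43.Ex.CcN

/-! Proofs by helper59.  EX-CcB: the case `K ≠ H`, `|K| ≥ 10^6`, `Q < 10^4` (case (C) of section 3 of the paper
proof). -/

open Finset Pool.Agent.helper43.Rho Pool.Agent.helper43.Asy

set_option linter.unusedSectionVars false

namespace Pool.Agent.helper43.Ex

variable {n : ℕ} [NeZero n] {m : ℕ} {A As : Finset (ZMod n)} {H K : AddSubgroup (ZMod n)}
  {c : ZMod n} {Q δ : ℕ} {E R : Finset (ZMod n)} {N : ℕ} {f : ZMod n → ℤ}

private theorem ccb_lev (h : StrL n m A As H K c Q δ E R N f) {x : ZMod n}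
    (hx : x ∈ outs R K) : 1 ≤ (f x).natAbs ∧ (f x).natAbs ≤ Q ∧ x - f x • c ∈ K := by
  have hxR := (mem_outs.1 hx).1
  have h1 := h.levR x hxR
  rw [Int.abs_eq_natAbs] at h1
  have h2 : f x ≠ 0 := fun h0 =>
    (mem_outs.1 hx).2 ((h.lvl.zero_iff (mem_LL hxR)).1 h0)
  refine ⟨by omega, by omega, h.lvl.mem x (mem_LL hxR)⟩

private theorem ccb_card (h : StrL n m A As H K c Q δ E R N f) :
    (outs R K).card =
      ∑ j ∈ Icc 1 Q, ((outs R K).filter (fun x => (f x).natAbs = j)).card := by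
  apply Finset.card_eq_sum_card_fiberwise
  intro x hx
  rw [Finset.mem_coe] at hx ⊢
  have h1 := ccb_lev h hx
  exact Finset.mem_Icc.2 ⟨h1.1, h1.2.1⟩

private theorem ccb_sub (h : StrL n m A As H K c Q δ E R N f) : outs R K ⊆ As :=
  fun _ hx => h.R_sub.1 (mem_outs.1 hx).1

private theorem ccb_sum (f : ZMod n → ℤ) {F F' : Finset (ZMod n)} (hF : F' ⊆ F) :
    ∑ x ∈ F, (f x).natAbs = ∑ x ∈ F', (f x).natAbs + ∑ x ∈ F \ F', (f x).natAbs := by
  rw [add_comm]
  exact (Finset.sum_sdiff hF).symm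

/-- `F = outs R K`, `n j` = number of the elements of level `± j`, `n j ≤ μ`, `∑_{j ≤ Q} n j = |F|`.
`10 |F| ≥ 7 μ Q` (`caseC_nums`), so some `1 ≤ j ≤ Q` has `10 n j ≥ 7 μ`. -/
theorem caseC_dense (h : StrL n m A As H K c Q δ E R N f) (hne : H ≠ K)
    (hμ : 10 ^ 6 ≤ (sf K).card) : ∃ j : ℕ, 1 ≤ j ∧ j ≤ Q ∧
      6 * (sf K).card ≤ 10 * ((outs R K).filter (fun x => (f x).natAbs = j)).card := by
  by_contra hno
  push Not at hno
  have h7 := (caseC_nums h hne hμ).2.1
  have hQ1 := h.str.Q1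
  have hcard := ccb_card h
  have hle : 10 * (outs R K).card ≤ 6 * (sf K).card * Q := by
    rw [hcard, Finset.mul_sum]
    refine le_trans (Finset.sum_le_sum (g := fun _ => 6 * (sf K).card) fun j hj => ?_) ?_
    · rw [Finset.mem_Icc] at hj
      exact (hno j hj.1 hj.2).le
    · rw [Finset.sum_const, Nat.card_Icc, Nat.add_sub_cancel, smul_eq_mul, mul_comm]
  have hW : 1 ≤ (sf K).card * Q := Nat.one_le_iff_ne_zero.2
    (Nat.mul_ne_zero (by omega) (by omega))
  have e : 6 * (sf K).card * Q = 6 * ((sf K).card * Q) := by ring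
  omega

/-- `Q < 10^4`: every class `1 ≤ j ≤ Q` of `F = outs R K` has at least `0.4 μ` elements:
`μ Q - |F| ≤ 0.53 μ + μ Q / 10^5 ≤ 0.55 μ` by `caseC_nums`, and the other `Q - 1` classes have at
most `μ` elements each. -/
theorem caseC_all (h : StrL n m A As H K c Q δ E R N f) (hne : H ≠ K)
    (hμ : 10 ^ 6 ≤ (sf K).card) (hQ : Q < 10 ^ 4) {j : ℕ} (hj : 1 ≤ j) (hjQ : j ≤ Q) :
    4 * (sf K).card ≤ 10 * ((outs R K).filter (fun x => (f x).natAbs = j)).card := by
  have hn := h.nums.1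
  have ht := (caseC_t h hμ).2
  have h2 := two_card_le h.str.HK hne
  have hFR : (outs R K).card ≤ R.card := Finset.card_le_card fun x hx => (mem_outs.1 hx).1
  have hcard := ccb_card h
  have hmem : j ∈ Icc 1 Q := Finset.mem_Icc.2 ⟨hj, hjQ⟩
  rw [← Finset.add_sum_erase _ _ hmem] at hcard
  have hle : ∑ k ∈ (Icc 1 Q).erase j, ((outs R K).filter (fun x => (f x).natAbs = k)).card ≤
      (Q - 1) * (sf K).card := by
    refine le_trans (Finset.sum_le_sum (g := fun _ => (sf K).card) fun k hk => ?_) ?_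
    · rw [Finset.mem_erase, Finset.mem_Icc] at hk
      exact h.class_le (ccb_sub h) hk.2.1
    · rw [Finset.sum_const, Finset.card_erase_of_mem hmem, Nat.card_Icc, Nat.add_sub_cancel,
        smul_eq_mul]
  obtain ⟨q, rfl⟩ : ∃ q, Q = q + 1 := ⟨Q - 1, by omega⟩
  rw [Nat.add_sub_cancel] at hle
  have e : (sf K).card * (q + 1) = q * (sf K).card + (sf K).card := by ring
  have h4 : q * (sf K).card ≤ 10 ^ 4 * (sf K).card := Nat.mul_le_mul_right _ (by omega)
  rw [e] at hn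
  omega

/-- `F = outs R K`, `s = Nat.clog 2 μ`. Take `j` from `caseC_dense`,
`P = (F.filter (|f| = j)).image (nrm f)`: it has as many elements as the class (`nrm_inj`) and is
contained in `j c + K` (`nrm_mem`). `exists_gen K` gives `g`, `coset_pairs` gives `P0 ⊆ P`,
`|P0| = 2 s`, with `SS P0 ⊇ s j c + K`. `F0 = F.filter (nrm f x ∈ P0)` (and level `± j`); then
`F0.image (nrm f) = P0`, `|F0| = 2 s`, all its elements have level `± j`. `Full c K (SS P0)` on
`[s j, s j]`, so by `Full.of_nrm` `Full c K (SS F0)` on `[a0, a0]`, `a0 = -sn f F0 + s j`. -/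
theorem caseC_F0 (h : StrL n m A As H K c Q δ E R N f) (hne : H ≠ K)
    (hμ : 10 ^ 6 ≤ (sf K).card) :
    ∃ F0 ⊆ outs R K, F0.card = 2 * Nat.clog 2 (sf K).card ∧
      ∑ x ∈ F0, (f x).natAbs ≤ 2 * Nat.clog 2 (sf K).card * Q ∧
      ∃ a0 : ℤ, Full c K (SS F0) a0 a0 := by
  obtain ⟨j, hj1, hjQ, hj6⟩ := caseC_dense h hne hμ
  obtain ⟨s, hs⟩ : ∃ s, s = Nat.clog 2 (sf K).card := ⟨_, rfl⟩
  have hF : Asym (outs R K) := h.asym.subset (ccb_sub h)
  have hinj : Set.InjOn (nrm f) (outs R K : Finset (ZMod n)) :=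
    fun x hx y hy hxy => nrm_inj hF f x hx y hy hxy
  obtain ⟨Fj, hFj⟩ : ∃ Fj, Fj = (outs R K).filter (fun x => (f x).natAbs = j) := ⟨_, rfl⟩
  have hFjF : Fj ⊆ outs R K := by
    rw [hFj]
    exact Finset.filter_subset _ _
  rw [← hFj] at hj6
  have hPc : (Fj.image (nrm f)).card = Fj.card :=
    Finset.card_image_of_injOn (hinj.mono (Finset.coe_subset.2 hFjF))
  obtain ⟨g, hg, -⟩ := exists_gen K
  obtain ⟨P0, hP0, hP0c, hP0s⟩ := coset_pairs (P := Fj.image (nrm f)) (a := j • c) hg hμ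
    (by
      intro y hy
      obtain ⟨x, hx, rfl⟩ := Finset.mem_image.1 hy
      have hxj : (f x).natAbs = j := by
        rw [hFj] at hx
        exact (Finset.mem_filter.1 hx).2
      have h1 := nrm_mem (ccb_lev h (hFjF hx)).2.2
      rwa [hxj] at h1)
    (by rw [hPc]; exact hj6)
  rw [← hs] at hP0c hP0s ⊢
  have hF0 : Fj.filter (fun x => nrm f x ∈ P0) ⊆ outs R K :=
    (Finset.filter_subset _ _).trans hFjF
  have himg : (Fj.filter (fun x => nrm f x ∈ P0)).image (nrm f) = P0 := by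
    ext y
    rw [Finset.mem_image]
    constructor
    · rintro ⟨x, hx, rfl⟩
      exact (Finset.mem_filter.1 hx).2
    · intro hy
      obtain ⟨x, hx, rfl⟩ := Finset.mem_image.1 (hP0 hy)
      exact ⟨x, Finset.mem_filter.2 ⟨hx, hy⟩, rfl⟩
  have hcard : (Fj.filter (fun x => nrm f x ∈ P0)).card = 2 * s := by
    have h1 := congrArg Finset.card himg
    rw [Finset.card_image_of_injOn (hinj.mono (Finset.coe_subset.2 hF0)), hP0c] at h1
    exact h1
  refine ⟨_, hF0, hcard, ?_, ?_⟩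
  · rw [← hcard]
    refine le_trans (Finset.sum_le_card_nsmul _ _ Q fun x hx => (ccb_lev h (hF0 hx)).2.1) ?_
    rw [smul_eq_mul]
  · have hfull : Full c K (SS ((Fj.filter (fun x => nrm f x ∈ P0)).image (nrm f)))
        ((s : ℤ) * j) ((s : ℤ) * j) := by
      rw [himg]
      intro i hi1 hi2 t ht
      have hi : i = (s : ℤ) * j := le_antisymm hi2 hi1
      apply hP0s
      have e : i • c + t - s • j • c = t := by
        rw [hi, mul_smul, natCast_zsmul, natCast_zsmul]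
        abel
      rw [e]
      exact ht
    have hfin := Full.of_nrm (hF.subset hF0) (fun x hx => (ccb_lev h (hF0 hx)).2.2) hfull
    exact ⟨_, hfin⟩

/-- `F = outs R K`, `F0`, `a0` from `caseC_F0`, `s = Nat.clog 2 μ`, `1000 s ≤ μ` (`clog_small`).
Every class `1 ≤ j ≤ Q` of `F \ F0` is nonempty (`caseC_all`: at least `0.4 μ > 2 s` elements).
`Full.chain` with `Z = SS`, `q = Q`: `Full c K (SS F)` on a window of length
`len = 1 + ∑_F |f| - ∑_{F0} |f|`. `2 len μ ≥ 2 μ St μ |F| - 4 s μ Q ≥ |F|^2 - 4 s μ Q`, and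
`4 s μ Q ≤ 4 μ (μ Q) / 1000 ≤ 4 (1.38 m)^2 / 1000 ≤ 0.01 m^2`, `|F|^2 ≥ 0.54 m^2`, so
`2 len μ > m (m + 1) / 2`. `caseC_ext`: the window for `As` has length
`1 + ∑_{As} |f| - ∑_{F0} |f|` and `∑_{As} |f| ≥ S_* + (μ/5) Q / 4`, where
`(μ / 5) Q / 4 ≥ 2 s Q + 1`. `caseC_end`. -/
theorem caseC_small (h : StrL n m A As H K c Q δ E R N f) (hne : H ≠ K)
    (hμ : 10 ^ 6 ≤ (sf K).card) (hQ : Q < 10 ^ 4) : False := by
  obtain ⟨F0, hF0, hF0c, hF0s, a0, hfull⟩ := caseC_F0 h hne hμ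
  obtain ⟨s, hs⟩ : ∃ s, s = Nat.clog 2 (sf K).card := ⟨_, rfl⟩
  have hs1 := clog_small hμ
  rw [← hs] at hF0c hF0s hs1
  obtain ⟨-, -, -, -, n5, n6⟩ := caseC_nums h hne hμ
  have hQ1 := h.str.Q1
  have hm0 : 2 ^ 10 ≤ m := le_trans (Nat.pow_le_pow_right (by norm_num) (by norm_num)) h.str.m0
  -- every class is still nonempty
  have hq : ∀ j : ℕ, 1 ≤ j → j ≤ Q → ∃ y ∈ outs R K \ F0, (f y).natAbs = j := by
    intro j hj hjQ
    have h4 := caseC_all h hne hμ hQ hj hjQ
    have hlt : F0.card < ((outs R K).filter (fun x => (f x).natAbs = j)).card := by omega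
    obtain ⟨y, hy, hyF⟩ := Finset.exists_mem_notMem_of_card_lt_card hlt
    rw [Finset.mem_filter] at hy
    exact ⟨y, Finset.mem_sdiff.2 ⟨hy.1, hyF⟩, hy.2⟩
  have hwin := Full.chain (Z := SS) grow_SS (f := f) hF0 hfull le_rfl
    (fun x hx => (ccb_lev h (Finset.mem_sdiff.1 hx).1).2.2) hq (Q := Q)
    (by
      have h1 : Q * 2 ≤ Q * (Q + 1) := Nat.mul_le_mul_left _ (by omega)
      omega)
    (fun x hx => (ccb_lev h (Finset.mem_sdiff.1 hx).1).2.1)
  have hspsn := sp_add_sn f (outs R K \ F0)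
  have hspsn2 := sp_add_sn f (As \ outs R K)
  have hsum1 := ccb_sum f hF0
  have hsum2 := ccb_sum f (ccb_sub h)
  have hSt := caseC_sum h (ccb_sub h) fun x hx => (mem_outs.1 hx).2
  have h2St := two_St_ge (μ := (sf K).card) (by omega) (outs R K).card
  have hS := caseC_S h hne hμ
  -- numbers
  have hW1 : (sf K).card ≤ (sf K).card * Q := Nat.le_mul_of_pos_right _ (by omega)
  have hsW : 10 ^ 7 * (s * ((sf K).card * Q)) ≤ 19044 * m ^ 2 := by
    have e1 : 1000 * (s * ((sf K).card * Q)) ≤ ((sf K).card * Q) ^ 2 := by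
      have e3 := Nat.mul_le_mul_right ((sf K).card * Q) (hs1.trans hW1)
      calc 1000 * (s * ((sf K).card * Q)) = 1000 * s * ((sf K).card * Q) := by ring
        _ ≤ (sf K).card * Q * ((sf K).card * Q) := e3
        _ = _ := by ring
    have e2 : 10 ^ 4 * ((sf K).card * Q) ^ 2 ≤ 19044 * m ^ 2 := by
      have e4 := Nat.pow_le_pow_left n6 2
      calc 10 ^ 4 * ((sf K).card * Q) ^ 2 = (100 * ((sf K).card * Q)) ^ 2 := by ring
        _ ≤ (138 * m) ^ 2 := e4
        _ = _ := by ring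
    omega
  have hmm : 2 ^ 10 * m ≤ m ^ 2 := by
    rw [pow_two m]
    exact Nat.mul_le_mul_right _ hm0
  have hlenN : ∃ D, D = ∑ x ∈ outs R K \ F0, (f x).natAbs := ⟨_, rfl⟩
  obtain ⟨D, hD⟩ := hlenN
  rw [← hD] at hspsn hsum1
  have hDS : (sf K).card * St (sf K).card (outs R K).card ≤
      2 * (s * ((sf K).card * Q)) + (sf K).card * D := by
    have e5 : St (sf K).card (outs R K).card ≤ 2 * s * Q + D := by omega
    have e6 := Nat.mul_le_mul_left (sf K).card e5
    calc (sf K).card * St (sf K).card (outs R K).card ≤ (sf K).card * (2 * s * Q + D) := e6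
      _ = _ := by ring
  have hbig : m * (m + 1) / 2 < 2 * ((D + 1) * (sf K).card) := by
    have e7 : (D + 1) * (sf K).card = (sf K).card * D + (sf K).card := by ring
    have e8 : (outs R K).card * ((outs R K).card + 1) =
        (outs R K).card ^ 2 + (outs R K).card := by ring
    have e9 : m * (m + 1) = m ^ 2 + m := by ring
    rw [e8] at h2St
    rw [e7, e9]
    omega
  have hext := caseC_ext h hwin (len := D + 1) (by push_cast; omega) hbig
  refine caseC_end h hext ?_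
  have hSQ : 8 * (s * Q) + 4 ≤ (sf K).card / 5 * Q := by
    have e10 : 8 * s + 4 ≤ (sf K).card / 5 := by omega
    have e11 := Nat.mul_le_mul_right Q e10
    have e12 : (8 * s + 4) * Q = 8 * (s * Q) + 4 * Q := by ring
    omega
  have e13 : 2 * s * Q = 2 * (s * Q) := by ring
  rw [e13] at hF0s
  omega

/-- `caseC_bulk`, `caseC_small` -/
theorem caseC (h : StrL n m A As H K c Q δ E R N f) (hne : H ≠ K)
    (hμ : 10 ^ 6 ≤ (sf K).card) : False := by
  rcases Nat.lt_or_ge Q (10 ^ 4) with hQ | hQ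
  · exact caseC_small h hne hμ hQ
  · exact caseC_bulk h hne hμ hQ

end Pool.Agent.helper43.Ex
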