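import Pool.Agent.helper43.Ex.Defs

/-! EX-Prs: pairs with prescribed differences in a dense subset of a coset of a cyclic group
(case (C) of section 3 of the paper proof). (proofs: helper41) -/

open Finset Pool.Agent.helper43.Rho Pool.Agent.helper43.Asy

set_option linter.unusedSectionVars false

namespace Pool.Agent.helper43.Ex

/-- `s = Nat.clog 2 μ`: `μ ≤ 2^s` (`Nat.le_pow_clog`), `2^(s-1) < μ` (`Nat.pow_pred_clog_lt_self`),
`1000 s ≤ 2^(s-1)` for `s ≥ 15` by induction; if `s < 15` then `1000 s ≤ 15000 ≤ μ`. -/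
theorem clog_small {μ : ℕ} (hμ : 10 ^ 6 ≤ μ) : 1000 * Nat.clog 2 μ ≤ μ := by
  have h1 : 2 ^ (Nat.clog 2 μ).pred < μ := Nat.pow_pred_clog_lt_self (by norm_num) (by omega)
  have h2 : ∀ k : ℕ, 1000 * (k + 15) ≤ 2 ^ (k + 14) := by
    intro k
    induction k with
    | zero => norm_num
    | succ k ih =>
      have h3 : 2 ^ (k + 1 + 14) = 2 * 2 ^ (k + 14) := by
        rw [show k + 1 + 14 = (k + 14) + 1 by ring, pow_succ]
        ring
      omega
  rcases Nat.lt_or_ge (Nat.clog 2 μ) 15 with h | h
  · omega
  · have h3 := h2 (Nat.clog 2 μ - 15)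
    have h4 : Nat.clog 2 μ - 15 + 14 = (Nat.clog 2 μ).pred := by
      rw [Nat.pred_eq_sub_one]
      omega
    rw [h4] at h3
    have h5 : Nat.clog 2 μ - 15 + 15 = Nat.clog 2 μ := by omega
    rw [h5] at h3
    exact h3.trans h1.le

variable {G : Type*} [AddCommGroup G] [DecidableEq G] [Fintype G]

/-- One pair. `P` is a subset of the coset `a + K`, `10 |P| ≥ 6 |K|`, `t ∈ K`, `U` a set with
`10 |U| < |K|`. The sets `P` and `P - t` are in `a + K`, so they have at least
`2 |P| - |K| ≥ |K| / 5` common elements `x`; at most `2 |U|` of them have `x ∈ U` or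
`x + t ∈ U`. -/
theorem one_pair {K : AddSubgroup G} {P U : Finset G} {a t : G} (hP : ∀ x ∈ P, x - a ∈ K)
    (h6 : 6 * (sf K).card ≤ 10 * P.card) (ht : t ∈ K) (hU : 10 * U.card < (sf K).card) :
    ∃ x ∈ P, x + t ∈ P ∧ x ∉ U ∧ x + t ∉ U := by
  classical
  have hCP : P ⊆ (sf K).image (fun k => a + k) := by
    intro x hx
    rw [Finset.mem_image]
    exact ⟨x - a, (mem_sf _).2 (hP x hx), by abel⟩
  have hCP' : P.image (fun x => x - t) ⊆ (sf K).image (fun k => a + k) := by
    intro y hy
    obtain ⟨x, hx, rfl⟩ := Finset.mem_image.1 hy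
    rw [Finset.mem_image]
    exact ⟨x - a - t, (mem_sf _).2 (K.sub_mem (hP x hx) ht), by abel⟩
  have hcard : ((sf K).image (fun k => a + k)).card ≤ (sf K).card := Finset.card_image_le
  have hcP' : (P.image (fun x => x - t)).card = P.card :=
    Finset.card_image_of_injective _ (fun x y h => sub_left_injective h)
  have hun := Finset.card_union_add_card_inter P (P.image (fun x => x - t))
  have hle := Finset.card_le_card (Finset.union_subset hCP hCP')
  have hbad : (U ∪ U.image (fun x => x - t)).card ≤ 2 * U.card := by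
    have h1 := Finset.card_union_le U (U.image (fun x => x - t))
    have h2 : (U.image (fun x => x - t)).card ≤ U.card := Finset.card_image_le
    omega
  have hlt : (U ∪ U.image (fun x => x - t)).card < (P ∩ P.image (fun x => x - t)).card := by
    omega
  obtain ⟨x, hx, hxU⟩ := Finset.exists_mem_notMem_of_card_lt_card hlt
  rw [Finset.mem_inter, Finset.mem_image] at hx
  rw [Finset.mem_union, not_or, Finset.mem_image] at hxU
  obtain ⟨hx1, y, hy, hyx⟩ := hx
  refine ⟨x, hx1, ?_, hxU.1, ?_⟩
  · rw [← hyx, sub_add_cancel]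
    exact hy
  · intro h
    exact hxU.2 ⟨x + t, h, by abel⟩

/-- Induction on `r`: for `20 r < |K|` and `t 0, ..., t (r-1) ∈ K`, all `≠ 0`, there are
`x 0, ..., x (r-1)` such that the `2 r` elements `x e`, `x e + t e` are different and in `P`
(`one_pair` with `U` = the elements chosen before). Conclusion: `P0` = the set of these `2 r`
elements, `σ = ∑ x e`, and every `σ + ∑_{e ∈ T} t e` is in `SS P0`. -/
theorem pairs {K : AddSubgroup G} {P : Finset G} {a : G} (hP : ∀ x ∈ P, x - a ∈ K)
    (h6 : 6 * (sf K).card ≤ 10 * P.card) (t : ℕ → G) (r : ℕ) (hr : 20 * r < (sf K).card)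
    (ht : ∀ e < r, t e ∈ K ∧ t e ≠ 0) :
    ∃ P0 ⊆ P, P0.card = 2 * r ∧ ∃ σ : G, σ - r • a ∈ K ∧
      ∀ T ⊆ Finset.range r, σ + ∑ e ∈ T, t e ∈ SS P0 := by
  classical
  induction r with
  | zero =>
    refine ⟨∅, Finset.empty_subset _, rfl, 0, ?_, ?_⟩
    · rw [zero_smul, sub_zero]
      exact K.zero_mem
    · intro T hT
      rw [Finset.range_zero, Finset.subset_empty] at hT
      subst hT
      rw [Finset.sum_empty, add_zero]
      exact zero_mem_SS _
  | succ r ih =>
    obtain ⟨P0, hP0, hcard, σ, hσ, hall⟩ := ih (by omega) (fun e he => ht e (by omega))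
    obtain ⟨htK, ht0⟩ := ht r (by omega)
    obtain ⟨x, hxP, hxtP, hx0, hxt0⟩ := one_pair hP h6 htK (U := P0) (by omega)
    have hne : x ≠ x + t r := fun h => ht0 (by
      have h1 : x + 0 = x + t r := by rw [add_zero]; exact h
      exact (add_left_cancel h1).symm)
    refine ⟨insert x (insert (x + t r) P0), ?_, ?_, σ + x, ?_, ?_⟩
    · intro y hy
      rw [Finset.mem_insert, Finset.mem_insert] at hy
      rcases hy with rfl | rfl | hy
      · exact hxP
      · exact hxtP
      · exact hP0 hy
    · rw [Finset.card_insert_of_notMem, Finset.card_insert_of_notMem hxt0, hcard]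
      · ring
      · rw [Finset.mem_insert, not_or]
        exact ⟨hne, hx0⟩
    · have h1 : σ + x - (r + 1) • a = (σ - r • a) + (x - a) := by
        rw [add_smul, one_smul]
        abel
      rw [h1]
      exact K.add_mem hσ (hP x hxP)
    · intro T hT
      by_cases hr' : r ∈ T
      · have h1 : T.erase r ⊆ Finset.range r := by
          intro e he
          rw [Finset.mem_erase] at he
          have h2 := Finset.mem_range.1 (hT he.2)
          rw [Finset.mem_range]
          omega
        obtain ⟨B, hB, hBs⟩ := mem_SS.1 (hall _ h1)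
        refine mem_SS.2 ⟨insert (x + t r) B, ?_, ?_⟩
        · intro y hy
          rw [Finset.mem_insert] at hy
          rw [Finset.mem_insert, Finset.mem_insert]
          rcases hy with rfl | hy
          · exact Or.inr (Or.inl rfl)
          · exact Or.inr (Or.inr (hB hy))
        · rw [Finset.sum_insert (fun h => hxt0 (hB h)), hBs, ← Finset.add_sum_erase T t hr']
          abel
      · have h1 : T ⊆ Finset.range r := by
          intro e he
          have h2 := Finset.mem_range.1 (hT he)
          rw [Finset.mem_range]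
          have h3 : e ≠ r := fun h => hr' (h ▸ he)
          omega
        obtain ⟨B, hB, hBs⟩ := mem_SS.1 (hall _ h1)
        refine mem_SS.2 ⟨insert x B, ?_, ?_⟩
        · intro y hy
          rw [Finset.mem_insert] at hy
          rw [Finset.mem_insert, Finset.mem_insert]
          rcases hy with rfl | hy
          · exact Or.inl rfl
          · exact Or.inr (Or.inr (hB hy))
        · rw [Finset.sum_insert (fun h => hx0 (hB h)), hBs]
          abel

/-- `K = ⟨g⟩` cyclic, `g` of order `μ = |K| ≥ 10^6`, `s = Nat.clog 2 μ`, `t e = 2^e g` for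
`e < s`: not `0` since `2^e < μ`. `pairs` with `r = s` (`clog_small`). An element `z` of
`s a + K` is `σ + v g`, `0 ≤ v < μ ≤ 2^s`, `v = ∑_{e ∈ T} 2^e` with `T ⊆ range s` (the binary
expansion, `Nat.bitIndices` or `Finset` of bits; or induction on `s`). -/
theorem coset_pairs {K : AddSubgroup G} {g : G} (hg : AddSubgroup.zmultiples g = K)
    (hμ : 10 ^ 6 ≤ (sf K).card) {P : Finset G} {a : G} (hP : ∀ x ∈ P, x - a ∈ K)
    (h6 : 6 * (sf K).card ≤ 10 * P.card) :
    ∃ P0 ⊆ P, P0.card = 2 * Nat.clog 2 (sf K).card ∧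
      ∀ z, z - (Nat.clog 2 (sf K).card) • a ∈ K → z ∈ SS P0 := by
  classical
  set μ := (sf K).card with hμd
  set s := Nat.clog 2 μ with hs
  have hord : addOrderOf g = μ := by
    rw [hμd, card_sf, ← hg]
    exact (Nat.card_zmultiples g).symm
  have hcs : 1000 * s ≤ μ := clog_small hμ
  have hbin : ∀ k v : ℕ, v < 2 ^ k → ∃ T ⊆ Finset.range k, ∑ e ∈ T, 2 ^ e = v := by
    intro k
    induction k with
    | zero =>
      intro v hv
      refine ⟨∅, Finset.empty_subset _, ?_⟩
      rw [Finset.sum_empty]
      rw [pow_zero] at hv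
      omega
    | succ k ih =>
      intro v hv
      rcases Nat.lt_or_ge v (2 ^ k) with h | h
      · obtain ⟨T, hT, hTs⟩ := ih v h
        exact ⟨T, hT.trans (Finset.range_subset_range.2 (Nat.le_succ k)), hTs⟩
      · obtain ⟨T, hT, hTs⟩ := ih (v - 2 ^ k) (by rw [pow_succ] at hv; omega)
        have hk : k ∉ T := fun h1 => by
          have := Finset.mem_range.1 (hT h1)
          omega
        refine ⟨insert k T, ?_, ?_⟩
        · intro e he
          rw [Finset.mem_insert] at he
          rw [Finset.mem_range]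
          rcases he with rfl | he
          · omega
          · have := Finset.mem_range.1 (hT he)
            omega
        · rw [Finset.sum_insert hk, hTs]
          omega
  have hgK : g ∈ K := by
    rw [← hg]
    exact AddSubgroup.mem_zmultiples g
  obtain ⟨P0, hP0, hcard, σ, hσ, hall⟩ := pairs hP h6 (fun e => 2 ^ e • g) s
    (by omega) (by
      intro e he
      refine ⟨K.nsmul_mem hgK _, ?_⟩
      intro h0
      have h1 : μ ∣ 2 ^ e := by
        rw [← hord]
        exact addOrderOf_dvd_of_nsmul_eq_zero h0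
      have h2 : μ ≤ 2 ^ e := Nat.le_of_dvd (by positivity) h1
      have h3 : 2 ^ s.pred < μ := Nat.pow_pred_clog_lt_self (by norm_num) (by omega)
      have h4 : 2 ^ e ≤ 2 ^ s.pred := Nat.pow_le_pow_right (by norm_num) (by
        rw [Nat.pred_eq_sub_one]
        omega)
      omega)
  refine ⟨P0, hP0, hcard, fun z hz => ?_⟩
  have h1 : z - σ ∈ AddSubgroup.zmultiples g := by
    rw [hg]
    have h2 : z - σ = (z - s • a) - (σ - s • a) := by abel
    rw [h2]
    exact K.sub_mem hz hσ
  rw [mem_zmultiples_iff_mem_range_addOrderOf, Finset.mem_image] at h1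
  obtain ⟨v, hv, hvz⟩ := h1
  rw [Finset.mem_range, hord] at hv
  obtain ⟨T, hT, hTs⟩ := hbin s v (hv.trans_le (Nat.le_pow_clog (by norm_num) μ))
  have h3 := hall T hT
  rw [← Finset.sum_smul, hTs, hvz, add_sub_cancel] at h3
  exact h3

end Pool.Agent.helper43.Ex
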