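import Pool.Agent.helper43.Ex.Cm
import Pool.Agent.helper43.Ex.Bfb
import Pool.Agent.helper43.Ex.Prs

/-! EX-CcN: the case `K ≠ H`, `|K| ≥ 10^6`: numbers, and the case `Q ≥ 10^4` (case (C) of
section 3 of the paper proof). -/

open Finset Pool.Agent.helper43.Rho Pool.Agent.helper43.Asy

set_option linter.unusedSectionVars false

namespace Pool.Agent.helper43.Ex

variable {n : ℕ} [NeZero n] {m : ℕ} {A As : Finset (ZMod n)} {H K : AddSubgroup (ZMod n)}
  {c : ZMod n} {Q δ : ℕ} {E R : Finset (ZMod n)} {N : ℕ} {f : ZMod n → ℤ}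

private theorem ccn_R_outs (h : StrL n m A As H K c Q δ E R N f) : R ⊆ outs As H := by
  rw [h.str.st.eqR]
  exact Finset.sdiff_subset

private theorem ccn_Fst (n m : ℕ) : Fst n m ≤ FF n m := min_le_left _ _

private theorem ccn_big (h : StrL n m A As H K c Q δ E R N f) : 10 ^ 4 ≤ (outs As H).card := by
  obtain ⟨-, -, -, -, -, -, n7, -, -⟩ := h.nums
  have h1 : (10 : ℕ) ^ 4 ≤ 2 ^ 14 := by norm_num
  exact h1.trans ((Nat.pow_le_pow_right (by norm_num) (by norm_num)).trans n7)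

/-- `t = |ins (outs As H) K|` satisfies `t^2 ≤ 400 μ` (`quone`, `Red.ap`), so with `μ ≥ 10^6`:
`(50 t)^2 ≤ 10^6 μ ≤ μ^2`, `50 t ≤ μ`. `ins R K ⊆ ins (outs As H) K`. -/
theorem caseC_t (h : StrL n m A As H K c Q δ E R N f) (hμ : 10 ^ 6 ≤ (sf K).card) :
    50 * (ins (outs As H) K).card ≤ (sf K).card ∧
      50 * (R.card - (outs R K).card) ≤ (sf K).card := by
  have h1 := quone h.str.red.ap h.str.HK
  have h2 : 50 * (ins (outs As H) K).card ≤ (sf K).card := by
    by_contra hcon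
    have h3 : (sf K).card < 50 * (ins (outs As H) K).card := Nat.lt_of_not_le hcon
    have h4 : (sf K).card ^ 2 < (50 * (ins (outs As H) K).card) ^ 2 :=
      Nat.pow_lt_pow_left h3 (by norm_num)
    have h5 : (50 * (ins (outs As H) K).card) ^ 2 ≤ 10 ^ 6 * (sf K).card := by
      rw [mul_pow]
      omega
    have h6 : 10 ^ 6 * (sf K).card ≤ (sf K).card * (sf K).card := Nat.mul_le_mul_right _ hμ
    rw [sq] at h4
    omega
  refine ⟨h2, ?_⟩
  have h3 := card_ins_add_outs R K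
  have h4 : (ins R K).card ≤ (ins (outs As H) K).card := by
    apply Finset.card_le_card
    intro x hx
    rw [mem_ins] at hx ⊢
    exact ⟨ccn_R_outs h hx.1, hx.2⟩
  omega

/-- Numbers. `h = |H| ≤ μ / 2` (`two_card_le`), `i = |R|`, `F = outs R K`.
1. `|ins As K| ≤ |ins As H| + t ≤ (h - 1)/2 + μ/50 ≤ 27 μ / 100` (`two_card_ins`), `κ = (μ - 1)/2`,
   so `κ - |ins As K| ≥ μ/5 + 2`, `|outs As K| = |As| - |ins As K| ≥ m - 1 - |ins As K|`, hence
   `m - κ + μ/5 ≤ |outs As K|` (`κ ≤ m` because `μ ≤ μ Q ≤ 1.38 i`).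
2. `μ Q ≤ (1 + 1/500000)(i + h)`, `h ≤ i / 2.7`, so `μ Q ≤ 1.38 i`; `|F| ≥ i - μ/50`, so
   `10 |F| ≥ 7 μ Q` and `50 |F| ≥ 48 i`.
3. Holes: `μ Q - |F| ≤ h + μ/50 + (i + h)/500000`, `i ≤ μ Q + μ/50`, so
   `100 (μ Q) ≤ 100 |F| + 53 μ + μ Q / 1000`.
4. `μ Q ≤ 1.00001 (m + μ/2)` gives `(m - κ)/μ + 1 ≥ 0.999 Q - 1` and it is `≥ 1`, so
   `Q ≤ 4 ((m - κ)/μ + 1)`.
5. `|F| ≥ 0.96 i`, `i ≥ 0.9 M`, `7 M ≥ 6 m - 6`: `|F| ≥ 0.74 (m - 1)`, `|F|^2 ≥ 0.54 m^2`.
6. `μ Q ≤ 1.38 m`. -/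
theorem caseC_nums (h : StrL n m A As H K c Q δ E R N f) (hne : H ≠ K)
    (hμ : 10 ^ 6 ≤ (sf K).card) :
    m - ((sf K).card - 1) / 2 + (sf K).card / 5 ≤ (outs As K).card ∧
    7 * ((sf K).card * Q) ≤ 10 * (outs R K).card ∧
    100 * ((sf K).card * Q) ≤ 100 * (outs R K).card + 53 * (sf K).card +
      (sf K).card * Q / 1000 ∧
    Q ≤ 4 * ((m - ((sf K).card - 1) / 2) / (sf K).card + 1) ∧
    54 * m ^ 2 ≤ 100 * (outs R K).card ^ 2 ∧
    100 * ((sf K).card * Q) ≤ 138 * m := by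
  obtain ⟨t1, t2⟩ := caseC_t h hμ
  obtain ⟨n1, n2, n3, n4, n5, n6, -, n8, n9⟩ := h.nums
  have n7 := ccn_big h
  have hH2 := two_card_le h.str.HK hne
  have hQ1 := h.str.Q1
  have hmuQ : (sf K).card ≤ (sf K).card * Q := Nat.le_mul_of_pos_right _ hQ1
  have hF := h.outR_le
  have hins := card_ins_add_outs R K
  have hAs := card_ins_add_outs As K
  have hAsH := card_ins_add_outs As H
  have hinsH : 2 * (ins As H).card + 1 ≤ (sf H).card := by
    rw [card_sf]
    exact two_card_ins h.asym H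
  have hinsK : (ins As K).card ≤ (ins As H).card + (ins (outs As H) K).card := by
    refine le_trans (Finset.card_le_card (t := ins As H ∪ ins (outs As H) K) ?_)
      (Finset.card_union_le _ _)
    intro x hx
    rw [mem_ins] at hx
    rw [Finset.mem_union, mem_ins, mem_ins, mem_outs]
    by_cases hxH : x ∈ H
    · exact Or.inl ⟨hx.1, hxH⟩
    · exact Or.inr ⟨⟨hx.1, hxH⟩, hx.2⟩
  have hbig := h.str.red.big
  have hdiv := Nat.lt_mul_div_succ (m - ((sf K).card - 1) / 2)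
    (show 0 < (sf K).card by omega)
  obtain ⟨X, hX⟩ : ∃ X, X = (sf K).card * Q := ⟨_, rfl⟩
  rw [← hX] at n1 hmuQ hF ⊢
  refine ⟨by omega, by omega, by omega, ?_, ?_, by omega⟩
  · by_contra hcon
    have h1 : 4 * ((m - ((sf K).card - 1) / 2) / (sf K).card + 1) + 1 ≤ Q := by omega
    have h2 := Nat.mul_le_mul_left (sf K).card h1
    have h3 : (sf K).card * (4 * ((m - ((sf K).card - 1) / 2) / (sf K).card + 1) + 1) =
        4 * ((sf K).card * ((m - ((sf K).card - 1) / 2) / (sf K).card + 1)) + (sf K).card := by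
      ring
    have h5 : (sf K).card * 5 ≤ (sf K).card * Q := Nat.mul_le_mul_left _ (by omega)
    rw [← hX] at h2 h5
    rw [h3] at h2
    omega
  · have h1 : 74 * m ≤ 100 * (outs R K).card := by omega
    have h2 := Nat.mul_le_mul h1 h1
    have h3 : 74 * m * (74 * m) = 5476 * m ^ 2 := by ring
    have h4 : 100 * (outs R K).card * (100 * (outs R K).card) =
        10000 * (outs R K).card ^ 2 := by ring
    rw [h3, h4] at h2
    omega

/-- The elements of `F ⊆ As` outside `K` have nonzero level (`Lvl.zero_iff`): `rl`, `class_le`. -/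
theorem caseC_sum (h : StrL n m A As H K c Q δ E R N f) {F : Finset (ZMod n)}
    (hF : F ⊆ As) (hK : ∀ x ∈ F, x ∉ K) : St (sf K).card F.card ≤ ∑ b ∈ F, (f b).natAbs := by
  have hμ : 0 < (sf K).card := Finset.card_pos.2 ⟨0, (mem_sf 0).2 K.zero_mem⟩
  have hne : ∀ b ∈ F, f b ≠ 0 := by
    intro b hb h0
    exact hK b hb ((h.lvl.zero_iff (h.As_L b (hF hb))).1 h0)
  apply rl hμ
  · intro b hb
    have := hne b hb
    omega
  · intro k
    rcases Nat.eq_zero_or_pos k with hk | hk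
    · have h1 : F.filter (fun a => (f a).natAbs = k) = ∅ := by
        rw [Finset.filter_eq_empty_iff]
        intro b hb h2
        have := hne b hb
        omega
      rw [h1, Finset.card_empty]
      exact Nat.zero_le _
    · exact h.class_le hF hk

/-- `∑_{As} |f| = ∑_{outs As K} |f| ≥ St μ (m - κ + μ/5) ≥ St μ (m - κ) + (μ/5) ((m - κ)/μ + 1)`
(`caseC_sum`, `St_mono`, `St_add_ge`), and `4 ((m - κ)/μ + 1) ≥ Q`. -/
theorem caseC_S (h : StrL n m A As H K c Q δ E R N f) (hne : H ≠ K)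
    (hμ : 10 ^ 6 ≤ (sf K).card) :
    4 * St (sf K).card (m - ((sf K).card - 1) / 2) + (sf K).card / 5 * Q ≤
      4 * ∑ b ∈ As, (f b).natAbs := by
  obtain ⟨c1, -, -, c4, -, -⟩ := caseC_nums h hne hμ
  have hsub : outs As K ⊆ As := fun x hx => (mem_outs.1 hx).1
  have h1 := caseC_sum h hsub (fun x hx => (mem_outs.1 hx).2)
  have h2 : ∑ b ∈ outs As K, (f b).natAbs ≤ ∑ b ∈ As, (f b).natAbs :=
    Finset.sum_le_sum_of_subset hsub
  have h3 := St_mono (μ := (sf K).card) c1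
  have h4 := St_add_ge (sf K).card (m - ((sf K).card - 1) / 2) ((sf K).card / 5)
  have h5 : (sf K).card / 5 * Q ≤
      (sf K).card / 5 * (4 * ((m - ((sf K).card - 1) / 2) / (sf K).card + 1)) :=
    Nat.mul_le_mul_left _ c4
  have h6 : (sf K).card / 5 * (4 * ((m - ((sf K).card - 1) / 2) / (sf K).card + 1)) =
      4 * ((sf K).card / 5 * ((m - ((sf K).card - 1) / 2) / (sf K).card + 1)) := by ring
  rw [h6] at h5
  omega

/-- A window of length at least `2 + S_*`, `S_* = St μ (m - κ)`, for `SS As` is impossible: if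
`N ≤ S_* + 2` then `Full.all_L` contradicts `not_full`; otherwise
`μ (S_* + 2) ≤ |SS As| ≤ Fst n m ≤ FF n m ≤ μ (1 + S_*)` (`Full.card`, `Red.fst`, `FF_le`,
`card_sf_dvd`). -/
theorem caseC_end (h : StrL n m A As H K c Q δ E R N f) {a b : ℤ}
    (hw : Full c K (SS As) a b)
    (hlen : (St (sf K).card (m - ((sf K).card - 1) / 2) : ℤ) + 1 ≤ b - a) : False := by
  have hμ : 0 < (sf K).card := Finset.card_pos.2 ⟨0, (mem_sf 0).2 K.zero_mem⟩
  by_cases hN : N ≤ St (sf K).card (m - ((sf K).card - 1) / 2) + 2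
  · have hN' : (N : ℤ) ≤ b - a + 1 := by
      have : (N : ℤ) ≤ (St (sf K).card (m - ((sf K).card - 1) / 2) : ℤ) + 2 := by
        exact_mod_cast hN
      omega
    exact h.not_full (Full.all_L h.lvl hw hN')
  · have h1 := Full.card h.lvl hw (len := St (sf K).card (m - ((sf K).card - 1) / 2) + 2)
      (by push_cast; omega) (by omega)
    have h2 := h.str.red.fst
    have h3 := ccn_Fst n m
    have h4 : FF n m ≤ _ := FF_le (m := m) (card_sf_dvd K)
    have h5 : (St (sf K).card (m - ((sf K).card - 1) / 2) + 2) * (sf K).card =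
        (sf K).card * (1 + St (sf K).card (m - ((sf K).card - 1) / 2)) + (sf K).card := by ring
    omega

/-- `F = outs R K ⊆ F' ⊆ As`..., general extension: if `Full c K (SS F) a b` with
`F = outs R K`, `b - a + 1 = len` and `2 len μ > m (m + 1) / 2`, then
`Full c K (SS As) (a - sn f (As \ F)) (b + sp f (As \ F))`: `Full.union_all`, as
`|SS As| ≤ Fst n m ≤ m (m + 1) / 2`. -/
theorem caseC_ext (h : StrL n m A As H K c Q δ E R N f) {a b : ℤ} {len : ℕ}
    (hw : Full c K (SS (outs R K)) a b) (hlen : (len : ℤ) = b - a + 1)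
    (hbig : m * (m + 1) / 2 < 2 * (len * (sf K).card)) :
    Full c K (SS As) (a - sn f (As \ outs R K)) (b + sp f (As \ outs R K)) := by
  have hsub : outs R K ⊆ As := fun x hx => h.R_sub.1 (mem_outs.1 hx).1
  refine Full.union_all grow_SS h.lvl hsub h.As_L hw hlen ?_
  have h1 := h.str.red.fst
  have h2 : Fst n m ≤ m * (m + 1) / 2 - corr n m := min_le_right _ _
  omega

/-- `Q ≥ 10^4`: `F = outs R K`, `s = Q / 50`. `bulk` for `F`: `2 (μ Q - |F|) + 30 μ ≤
32 μ + μ Q / 50000 ≤ μ s` (third part of `caseC_nums`). The window has length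
`len = ∑_F |f| - 2 s + 1`; `2 len μ ≥ 2 μ St μ |F| - 4 μ s ≥ |F|^2 - 4 μ s ≥ 0.54 m^2 - 0.12 m >
m (m + 1) / 2` (`two_St_ge`). `caseC_ext`; the window for `As` has length `∑_{As} |f| - 2 s + 1`,
and `caseC_S`: `∑_{As} |f| ≥ S_* + (μ/5) Q / 4 ≥ S_* + 2 s + 1`. `caseC_end`. -/
theorem caseC_bulk (h : StrL n m A As H K c Q δ E R N f) (hne : H ≠ K)
    (hμ : 10 ^ 6 ≤ (sf K).card) (hQ : 10 ^ 4 ≤ Q) : False := by
  obtain ⟨c1, c2, c3, c4, c5, c6⟩ := caseC_nums h hne hμ
  have hFR : outs R K ⊆ R := fun x hx => (mem_outs.1 hx).1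
  have hsub : outs R K ⊆ As := hFR.trans h.R_sub.1
  have hm : 10 ^ 4 ≤ m := by
    obtain ⟨-, -, -, -, -, n6, -, -, -⟩ := h.nums
    exact (ccn_big h).trans n6
  obtain ⟨s, hs⟩ : ∃ s, s = Q / 50 := ⟨_, rfl⟩
  have hs1 : 50 * s ≤ Q := by omega
  have hs2 : Q ≤ 50 * s + 49 := by omega
  have hms : (sf K).card * Q ≤ (sf K).card * (50 * s + 49) := Nat.mul_le_mul_left _ hs2
  have hms2 : (sf K).card * (50 * s) ≤ (sf K).card * Q := Nat.mul_le_mul_left _ hs1
  have hmQ : (sf K).card * 10 ^ 4 ≤ (sf K).card * Q := Nat.mul_le_mul_left _ hQ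
  have e1 : (sf K).card * (50 * s + 49) = 50 * ((sf K).card * s) + 49 * (sf K).card := by ring
  have e2 : (sf K).card * (50 * s) = 50 * ((sf K).card * s) := by ring
  rw [e1] at hms
  rw [e2] at hms2
  have hw := bulk (F := outs R K) (h.asym.subset hsub) (f := f) (c := c) (K := K) (Q := Q)
    (s := s) (fun x hx => h.lvl.mem x (h.As_L x (hsub hx)))
    (fun x hx h0 => (mem_outs.1 hx).2 ((h.lvl.zero_iff (h.As_L x (hsub hx))).1 h0))
    (fun x hx => h.levR x (hFR hx)) (by omega) (by omega)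
  have hsum := caseC_sum h hsub (fun x hx => (mem_outs.1 hx).2)
  have h2St := two_St_ge (μ := (sf K).card) (by omega) (outs R K).card
  have hsp := sp_add_sn f (outs R K)
  obtain ⟨S1, hS1⟩ : ∃ S1, S1 = ∑ b ∈ outs R K, (f b).natAbs := ⟨_, rfl⟩
  rw [← hS1] at hsum hsp
  have hm2 : m * 10 ^ 4 ≤ m * m := Nat.mul_le_mul_left _ hm
  have hX1 : (sf K).card * St (sf K).card (outs R K).card ≤ (sf K).card * S1 :=
    Nat.mul_le_mul_left _ hsum
  have hF2 : (outs R K).card * ((outs R K).card + 1) = (outs R K).card ^ 2 + (outs R K).card := by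
    ring
  have hm3 : m ^ 2 = m * m := by ring
  have hm4 : m * (m + 1) = m * m + m := by ring
  rw [hF2] at h2St
  rw [hm3] at c5
  have hXs : (sf K).card * (2 * s) ≤ (sf K).card * S1 := by
    have e3 : (sf K).card * (2 * s) = 2 * ((sf K).card * s) := by ring
    rw [e3]
    omega
  have hsS : 2 * s ≤ S1 := Nat.le_of_mul_le_mul_left hXs (by omega)
  obtain ⟨len, hlen⟩ : ∃ len, len = S1 - 2 * s + 1 := ⟨_, rfl⟩
  have hlen2 : (sf K).card * len + 2 * ((sf K).card * s) = (sf K).card * S1 + (sf K).card := by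
    obtain ⟨d, hd⟩ := Nat.exists_eq_add_of_le hsS
    rw [hlen, hd, Nat.add_sub_cancel_left]
    ring
  have hext := caseC_ext h hw (len := len) (by omega) (by
    rw [hm4, Nat.mul_comm len]
    omega)
  have hspA := sp_sdiff f hsub
  have hsnA := sn_sdiff f hsub
  have hA := sp_add_sn f As
  have hS := caseC_S h hne hμ
  have hq5 : 200000 ≤ (sf K).card / 5 := by omega
  have hq := Nat.mul_le_mul_right Q hq5
  refine caseC_end h hext ?_
  obtain ⟨S2, hS2⟩ : ∃ S2, S2 = ∑ b ∈ As, (f b).natAbs := ⟨_, rfl⟩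
  rw [← hS2] at hS hA
  omega

end Pool.Agent.helper43.Ex
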