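import Pool.Agent.helper43.Asy.Concl

/-!
Project EX (problem MP_2e436f_co): the exact value of the minimum for all large `m`.
Paper proof: /team-store/2e436f_exact_helper43.md. Definitions.
`sf H` is the finset of the elements of the subgroup `H`; `SS A` the set of all subset sums,
`SigmaStar A` the set of the sums of the nonempty subsets; `XX H E = H + SS E`.
-/

open Finset Pool.Agent.helper43.Rho Pool.Agent.helper43.Asy

set_option linter.unusedSectionVars false

namespace Pool.Agent.helper43.Ex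

/-- the correction term -/
def corr (n m : ℕ) : ℕ :=
  if m % 5 = 2 ∧ m * (m + 1) / 2 - 3 ∣ n then 4
  else if (m % 9 = 4 ∧ 9 ∣ n) ∨ m * (m + 1) / 2 - 1 ∣ n then 2
  else if (m % 3 = 1 ∧ 3 ∣ n) ∨ (m % 5 = 2 ∧ 5 ∣ n) ∨ m * (m + 1) / 2 ∣ n then 1
  else 0

/-- the exact value of the minimum (for large `m`) -/
noncomputable def Fst (n m : ℕ) : ℕ := min (FF n m) (m * (m + 1) / 2 - corr n m)

/-- `∑_{t < M} (⌊t / μ⌋ + 1)`: the least sum of `M` positive integers if every integer may be used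
at most `μ` times -/
def St (μ M : ℕ) : ℕ := ∑ t ∈ Finset.range M, (t / μ + 1)

variable {G : Type*} [AddCommGroup G] [DecidableEq G]

/-- all the elements of the levels `a, ..., b` (level `j` is the coset `j c + K`) are in `Y` -/
def Full (c : G) (K : AddSubgroup G) (Y : Finset G) (a b : ℤ) : Prop :=
  ∀ j : ℤ, a ≤ j → j ≤ b → ∀ t ∈ K, j • c + t ∈ Y

/-- sum of the positive levels of the elements of `F` -/
def sp (f : G → ℤ) (F : Finset G) : ℤ := ∑ x ∈ F, max (f x) 0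

/-- minus the sum of the negative levels of the elements of `F` -/
def sn (f : G → ℤ) (F : Finset G) : ℤ := ∑ x ∈ F, max (-f x) 0

variable [Fintype G]

/-- the largest `|XX H E|`, `E ⊆ B`, `|E| = k` -/
noncomputable def Phi (H : AddSubgroup G) (B : Finset G) (k : ℕ) : ℕ :=
  (B.powersetCard k).sup (fun E => (XX H E).card)

/-- `rd h (i - δ)` is very close to `rd h i` -/
def Good (h δ i : ℕ) : Prop := 10 ^ 10 * (rd h i - rd h (i - δ)) ≤ rd h i

/-- the stage of section 1 of the paper proof (`B = E ∪ R`) -/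
structure Stage (H : AddSubgroup G) (B E R : Finset G) (δ : ℕ) : Prop where
  sub : E ⊆ B
  eqR : R = B \ E
  lo : 9 * B.card ≤ 10 * R.card
  hi : 20 * R.card ≤ 19 * B.card + 20
  hδ : 800 * rd (sf H).card R.card ≤ δ ^ 2
  hδ' : 10 * δ ≤ B.card
  lamb : ∀ r ∈ R, 5 * 10 ^ 8 * lam (XX H E) r ≤ (5 * 10 ^ 8 + 1) * rd (sf H).card (R.card - δ)
  cE : B.card ^ 2 ≤ 25 * (XX H E).card
  cR : B.card ^ 2 ≤ 3 * (XX H R).card
  gen : ∀ b ∈ B, b ∈ LL H R
  sum : (XX H E).card + (XX H R).card ≤ (sf (LL H R)).card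
  tt : TT (sf H).card (B.card + 1) + B.card < 2 * TT (sf H).card R.card

/-- `f a` is the level of `a ∈ L`: `a ∈ f a c + K`, `2 |f a| ≤ N`, `N` = number of the cosets of `K`
in `L = ⟨c⟩ + K` -/
structure Lvl (c : G) (K L : AddSubgroup G) (N : ℕ) (f : G → ℤ) : Prop where
  cL : c ∈ L
  KL : K ≤ L
  card : (sf L).card = N * (sf K).card
  ord : ∀ j : ℤ, j • c ∈ K ↔ (N : ℤ) ∣ j
  mem : ∀ a ∈ L, a - f a • c ∈ K
  small : ∀ a ∈ L, 2 * |f a| ≤ N

/-- result of the reduction (section 0): `As = A` or `As` is `A` without one element,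
`H = stab (SS As)` -/
structure Red (n m : ℕ) [NeZero n] (A As : Finset (ZMod n)) (H : AddSubgroup (ZMod n)) : Prop where
  hn : 2 * m < n
  asym : Asym A
  card : A.card = m
  lt : (SigmaStar A).card < Fst n m
  sub : As ⊆ A
  big : m ≤ As.card + 1
  ap : Ap H (outs As H)
  eqv : XX H (outs As H) = SS As
  ne : (outs As H).Nonempty
  up : (XX H (outs As H)).card ≤ TT (sf H).card ((outs As H).card + 1)
  cl : 11 ≤ (sf H).card → (XX H (outs As H)).card < TT (sf H).card (outs As H).card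
  fst : (SS As).card ≤ Fst n m
  mem : ∀ L : AddSubgroup (ZMod n), H ≤ L → (∀ a ∈ As, a ∈ L) → ∀ a ∈ A, a ∈ L

/-- everything that is known after the structure theorem -/
structure Str (n m : ℕ) [NeZero n] (A As : Finset (ZMod n)) (H K : AddSubgroup (ZMod n))
    (c : ZMod n) (Q δ : ℕ) (E R : Finset (ZMod n)) : Prop where
  red : Red n m A As H
  m0 : 2 ^ 401 ≤ m
  M0 : 2 ^ 400 ≤ (outs As H).card
  M3 : 3 * (sf H).card < (outs As H).card
  st : Stage H (outs As H) E R δ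
  HK : H ≤ K
  KL : K ≤ LL H R
  cL : c ∈ LL H R
  Q1 : 1 ≤ Q
  lev : ∀ r ∈ R, ∃ j : ℤ, |j| ≤ Q ∧ r - j • c ∈ K
  siz : 500000 * ((sf K).card * Q) ≤ 500001 * rd (sf H).card (R.card - δ)

/-- the hypotheses of Theorem I (section 4) -/
structure Reg (n m : ℕ) [NeZero n] (A F : Finset (ZMod n)) (c : ZMod n)
    (K L : AddSubgroup (ZMod n)) (N : ℕ) (f : ZMod n → ℤ) (Q : ℕ) : Prop where
  m0 : 2 ^ 300 ≤ m
  hn : 2 * m < n
  asym : Asym A
  card : A.card = m
  lvl : Lvl c K L N f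
  AL : ∀ a ∈ A, a ∈ L
  FA : F ⊆ A
  F0 : ∀ x ∈ F, f x ≠ 0
  FQ : ∀ x ∈ F, |f x| ≤ Q
  mu : (sf K).card ≤ 10 ^ 6
  hole : 1000 * ((sf K).card * Q) ≤ 1000 * F.card + (sf K).card * Q
  F4 : 4 * m ≤ 5 * F.card

end Pool.Agent.helper43.Ex
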