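import Pool.Agent.helper43.Ex.Fou
import Pool.Agent.helper43.Ex.Defs

/-! Proofs by helper59.  EX-Chr: a character that is almost constant on a set with few new translates
(2.3 of the paper proof). -/

open Finset Pool.Agent.helper43.Rho Pool.Agent.helper43.Asy

set_option linter.unusedSectionVars false

namespace Pool.Agent.helper43.Ex

variable {G : Type*} [AddCommGroup G] [DecidableEq G] [Fintype G]

/-- the balanced indicator function of `X` in `L` -/
noncomputable def bal (X : Finset G) (L : AddSubgroup G) (x : G) : ℝ :=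
  (if x ∈ X then 1 else 0) - (X.card : ℝ) / (sf L).card * (if x ∈ sf L then 1 else 0)

private theorem Chr_sumX (X : Finset G) (t : G) :
    ∑ x, (if x + t ∈ X then (1 : ℝ) else 0) = X.card := by
  have h := Equiv.sum_comp (Equiv.addRight t) (fun x => if x ∈ X then (1 : ℝ) else 0)
  simp only [Equiv.coe_addRight] at h
  have h' := h.trans (by simp : ∑ i, (if i ∈ X then (1 : ℝ) else 0) = X.card)
  exact h'

private theorem Chr_mem_add {L : AddSubgroup G} {t : G} (ht : t ∈ L) (x : G) :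
    x + t ∈ sf L ↔ x ∈ sf L := by
  rw [mem_sf, mem_sf]
  exact AddSubgroup.add_mem_cancel_right L ht

/-- `X ⊆ sf L`, `t ∈ L`, `ρ = |X| / |L|`. `∑_x bal (x + t) bal x = |X ∩ (X - t)| - 2 ρ |X| +
ρ^2 |L| = itc X t - |X|^2 / |L| = |X| - lam X t - |X|^2 / |L|` (`itc_add_lam`). -/
theorem bal_corr {X : Finset G} {L : AddSubgroup G} (hXL : X ⊆ sf L) {t : G} (ht : t ∈ L) :
    ∑ x, bal X L (x + t) * bal X L x =
      (X.card : ℝ) - (X.card : ℝ) ^ 2 / (sf L).card - lam X t := by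
  have hL0 : (0 : ℝ) < (sf L).card := by
    exact_mod_cast Finset.card_pos.2 ⟨0, (mem_sf (0 : G)).2 L.zero_mem⟩
  obtain ⟨ρ, hρ⟩ : ∃ ρ : ℝ, ρ = (X.card : ℝ) / (sf L).card := ⟨_, rfl⟩
  have h1 : ∀ x, bal X L (x + t) * bal X L x =
      (if x ∈ X then (if x + t ∈ X then (1 : ℝ) else 0) else 0) -
      ρ * (if x + t ∈ X then (1 : ℝ) else 0) - ρ * (if x ∈ X then (1 : ℝ) else 0) +
      ρ ^ 2 * (if x ∈ sf L then (1 : ℝ) else 0) := by
    intro x
    unfold bal
    rw [← hρ]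
    have h2 := Chr_mem_add ht x
    by_cases a1 : x + t ∈ X <;> by_cases a2 : x ∈ X <;> by_cases a3 : x ∈ sf L
    · simp only [a1, a2, a3, h2.2 a3, if_true]
      ring
    · exact absurd (hXL a2) a3
    · simp only [a1, a2, a3, h2.2 a3, if_true, if_false]
      ring
    · exact absurd (h2.1 (hXL a1)) a3
    · simp only [a1, a2, a3, h2.2 a3, if_true, if_false]
      ring
    · exact absurd (hXL a2) a3
    · simp only [a1, a2, a3, h2.2 a3, if_true, if_false]
      ring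
    · have a4 : x + t ∉ sf L := fun h => a3 (h2.1 h)
      simp only [a1, a2, a3, a4, if_false]
      ring
  have h3 : ∑ x, (if x ∈ X then (if x + t ∈ X then (1 : ℝ) else 0) else 0) =
      (X.card : ℝ) - lam X t := by
    have h4 : ((itc X t : ℕ) : ℝ) + lam X t = X.card := by exact_mod_cast itc_add_lam X t
    have h5 : ∑ x, (if x ∈ X then (if x + t ∈ X then (1 : ℝ) else 0) else 0) =
        ((itc X t : ℕ) : ℝ) := by
      unfold itc
      rw [Finset.card_filter]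
      push_cast
      rw [Finset.sum_ite_mem, Finset.univ_inter]
    rw [h5]
    linarith
  have h4 : ∑ x, (if x ∈ X then (1 : ℝ) else 0) = X.card := by simp
  have h5 : ∑ x, (if x ∈ sf L then (1 : ℝ) else 0) = (sf L).card := by simp
  rw [Finset.sum_congr rfl (fun x _ => h1 x), Finset.sum_add_distrib, Finset.sum_sub_distrib,
    Finset.sum_sub_distrib, ← Finset.mul_sum, ← Finset.mul_sum, ← Finset.mul_sum, h3,
    Chr_sumX X t, h4, h5, hρ]
  field_simp
  ring

/-- `∑_y |bal (y - t) - bal y| = ∑_y |1_X (y - t) - 1_X y| = 2 lam X t` for `t ∈ L` (the indicator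
function of `L` does not change; the two kinds of `y` are
`y ∈ X + t \ X` and `y ∈ X \ (X + t)`, each `lam X t` many, `lam_neg`). -/
theorem bal_shift {X : Finset G} {L : AddSubgroup G} {t : G} (ht : t ∈ L) :
    ∑ y, |bal X L (y - t) - bal X L y| = 2 * lam X t := by
  have h1 : ∀ y, |bal X L (y - t) - bal X L y| =
      (if y - t ∈ X then (if y ∉ X then (1 : ℝ) else 0) else 0) +
      (if y ∈ X then (if y + -t ∉ X then (1 : ℝ) else 0) else 0) := by
    intro y
    unfold bal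
    have h2 : y - t ∈ sf L ↔ y ∈ sf L := by
      rw [sub_eq_add_neg]
      exact Chr_mem_add (L.neg_mem ht) y
    have h3 : (if y - t ∈ sf L then (1 : ℝ) else 0) = (if y ∈ sf L then (1 : ℝ) else 0) := by
      by_cases a : y ∈ sf L
      · rw [if_pos a, if_pos (h2.2 a)]
      · rw [if_neg a, if_neg (fun h => a (h2.1 h))]
    rw [h3, ← sub_eq_add_neg, sub_sub_sub_cancel_right]
    by_cases a1 : y - t ∈ X <;> by_cases a2 : y ∈ X
    · simp [a1, a2]
    · simp [a1, a2]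
    · simp [a1, a2]
    · simp [a1, a2]
  have h2 : ∑ y, (if y - t ∈ X then (if y ∉ X then (1 : ℝ) else 0) else 0) = lam X t := by
    rw [← Equiv.sum_comp (Equiv.addRight t)]
    unfold lam
    rw [Finset.card_filter]
    push_cast
    rw [← Finset.univ_inter X, ← Finset.sum_ite_mem]
    refine Finset.sum_congr rfl (fun y _ => ?_)
    rw [Equiv.coe_addRight, add_sub_cancel_right, Finset.univ_inter]
  have h3 : ∑ y, (if y ∈ X then (if y + -t ∉ X then (1 : ℝ) else 0) else 0) = lam X t := by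
    rw [← lam_neg X t]
    unfold lam
    rw [Finset.card_filter]
    push_cast
    rw [Finset.sum_ite_mem, Finset.univ_inter]
  rw [Finset.sum_congr rfl (fun y _ => h1 y), Finset.sum_add_distrib, h2, h3]
  ring

/-- `∑_x bal x χ x = |X| - |X| = 0` if `χ = 1` on `L`, `X ⊆ L`. -/
theorem ft_bal_zero {X : Finset G} {L : AddSubgroup G} (hXL : X ⊆ sf L) {χ : AddChar G ℂ}
    (hχ : ∀ t ∈ L, χ t = 1) : ft (bal X L) χ = 0 := by
  have hL0 : (0 : ℝ) < (sf L).card := by
    exact_mod_cast Finset.card_pos.2 ⟨0, (mem_sf (0 : G)).2 L.zero_mem⟩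
  have h1 : ft (bal X L) χ = ((∑ x, bal X L x : ℝ) : ℂ) := by
    unfold ft
    rw [Complex.ofReal_sum]
    refine Finset.sum_congr rfl (fun x _ => ?_)
    by_cases hx : x ∈ sf L
    · rw [hχ x ((mem_sf x).1 hx), mul_one]
    · have h2 : x ∉ X := fun h => hx (hXL h)
      unfold bal
      rw [if_neg h2, if_neg hx, mul_zero, sub_zero, Complex.ofReal_zero, zero_mul]
  have h2 : ∑ x, bal X L x = 0 := by
    unfold bal
    rw [Finset.sum_sub_distrib, ← Finset.mul_sum]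
    have h4 : ∑ x, (if x ∈ X then (1 : ℝ) else 0) = X.card := by simp
    have h5 : ∑ x, (if x ∈ sf L then (1 : ℝ) else 0) = (sf L).card := by simp
    rw [h4, h5]
    field_simp
    ring
  rw [h1, h2, Complex.ofReal_zero]

/-- `u = |X|`, `u' = u - u^2 / |L| ∈ [u / 2, u]` (`h2`), `f = bal X L`, `c t = ∑_x f (x+t) f x`.
`c t = u' - lam X t ≥ u' - u / 4 ≥ u' / 2` for `t ∈ D`, `∑ f^2 = c 0 = u'`. `exists_big`:
`|D| u'^2 / 4 ≤ ‖ft f χ‖^2 u'`, so `‖ft f χ‖^2 ≥ |D| u' / 4 ≥ (9 u / 20) (u / 2) / 4 ≥ u^2 / 36`,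
`‖ft f χ‖ ≥ u / 6 > 0`. So `χ` is not `1` on `L` (`ft_bal_zero`), and
`‖χ t - 1‖ u / 6 ≤ ‖χ t - 1‖ ‖ft f χ‖ ≤ 2 lam X t` (`ft_shift`, `bal_shift`). -/
theorem exists_char {L : AddSubgroup G} {X D : Finset G} (hX : X.Nonempty) (hXL : X ⊆ sf L)
    (h2 : 2 * X.card ≤ (sf L).card) (hDL : D ⊆ sf L)
    (hlam : ∀ t ∈ D, 4 * lam X t ≤ X.card) (hD : 9 * X.card ≤ 20 * D.card) :
    ∃ χ : AddChar G ℂ, (∃ t ∈ L, χ t ≠ 1) ∧
      ∀ t ∈ L, (X.card : ℝ) * ‖χ t - 1‖ ≤ 12 * lam X t := by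
  have hL0 : (0 : ℝ) < (sf L).card := by
    exact_mod_cast Finset.card_pos.2 ⟨0, (mem_sf (0 : G)).2 L.zero_mem⟩
  obtain ⟨u, hu⟩ : ∃ u : ℝ, u = X.card := ⟨_, rfl⟩
  have hu0 : 0 < u := by
    rw [hu]
    exact_mod_cast Finset.card_pos.2 hX
  have h2' : 2 * u ≤ (sf L).card := by
    rw [hu]
    exact_mod_cast h2
  obtain ⟨u', hu'⟩ : ∃ u' : ℝ, u' = u - u ^ 2 / (sf L).card := ⟨_, rfl⟩
  have h3 : u ^ 2 / (sf L).card ≤ u / 2 := by
    rw [div_le_iff₀ hL0]
    nlinarith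
  have hu'1 : u / 2 ≤ u' := by
    rw [hu']
    linarith
  have hu'0 : 0 < u' := by linarith
  obtain ⟨χ, hχ⟩ := exists_big (bal X L)
  have hc0 : ∑ x, bal X L x ^ 2 = u' := by
    have h4 := bal_corr hXL L.zero_mem
    rw [lam_zero, Nat.cast_zero, sub_zero, ← hu, ← hu'] at h4
    rw [← h4]
    refine Finset.sum_congr rfl (fun x _ => ?_)
    rw [add_zero, sq]
  rw [hc0] at hχ
  have hD1 : (D.card : ℝ) * (u' ^ 2 / 4) ≤ ∑ t, (∑ x, bal X L (x + t) * bal X L x) ^ 2 := by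
    calc (D.card : ℝ) * (u' ^ 2 / 4) = ∑ _t ∈ D, u' ^ 2 / 4 := by
          rw [Finset.sum_const, nsmul_eq_mul]
      _ ≤ ∑ t ∈ D, (∑ x, bal X L (x + t) * bal X L x) ^ 2 := by
          refine Finset.sum_le_sum (fun t ht => ?_)
          rw [bal_corr hXL ((mem_sf t).1 (hDL ht)), ← hu, ← hu']
          have h4 : 4 * (lam X t : ℝ) ≤ u := by
            rw [hu]
            exact_mod_cast hlam t ht
          have h5 : u' / 2 ≤ u' - lam X t := by linarith
          have h6 : (u' / 2) ^ 2 ≤ (u' - lam X t) ^ 2 := pow_le_pow_left₀ (by linarith) h5 2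
          calc u' ^ 2 / 4 = (u' / 2) ^ 2 := by ring
            _ ≤ _ := h6
      _ ≤ _ := Finset.sum_le_sum_of_subset_of_nonneg (Finset.subset_univ _)
          (fun _ _ _ => sq_nonneg _)
  have hD2 : 9 * u ≤ 20 * D.card := by
    rw [hu]
    exact_mod_cast hD
  have hft : (u / 6) ^ 2 ≤ ‖ft (bal X L) χ‖ ^ 2 := by
    have h4 : (D.card : ℝ) * (u' ^ 2 / 4) ≤ ‖ft (bal X L) χ‖ ^ 2 * u' := hD1.trans hχ
    have h5 : ((D.card : ℝ) * (u' / 4)) * u' ≤ ‖ft (bal X L) χ‖ ^ 2 * u' := by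
      calc ((D.card : ℝ) * (u' / 4)) * u' = (D.card : ℝ) * (u' ^ 2 / 4) := by ring
        _ ≤ _ := h4
    have h6 := le_of_mul_le_mul_right h5 hu'0
    refine le_trans ?_ h6
    calc (u / 6) ^ 2 ≤ (9 * u / 20) * (u / 2 / 4) := by nlinarith
      _ ≤ (D.card : ℝ) * (u' / 4) := by
          have h7 : 9 * u / 20 ≤ (D.card : ℝ) := by linarith
          gcongr
  have hft' : u / 6 ≤ ‖ft (bal X L) χ‖ := by
    exact (pow_le_pow_iff_left₀ (by positivity) (norm_nonneg _) two_ne_zero).1 hft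
  refine ⟨χ, ?_, ?_⟩
  · by_contra hno
    have h4 : ∀ t ∈ L, χ t = 1 := by
      intro t ht
      by_contra h5
      exact hno ⟨t, ht, h5⟩
    rw [ft_bal_zero hXL h4, norm_zero] at hft'
    linarith
  · intro t ht
    have h4 := ft_shift (bal X L) χ t
    rw [bal_shift ht] at h4
    have h5 : ‖χ t - 1‖ * (u / 6) ≤ ‖χ t - 1‖ * ‖ft (bal X L) χ‖ := by gcongr
    rw [← hu]
    linarith

end Pool.Agent.helper43.Ex
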