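import Pool.Agent.helper43.Ex.Defs

/-! EX-RL: the rearrangement lemma (RL, RL2, RL3 of the paper proof) and facts on `St`. -/

open Finset Pool.Agent.helper43.Rho Pool.Agent.helper43.Asy

namespace Pool.Agent.helper43.Ex

theorem St_zero (μ : ℕ) : St μ 0 = 0 := by
  simp [St]

theorem St_succ (μ M : ℕ) : St μ (M + 1) = St μ M + (M / μ + 1) := by
  unfold St
  exact Finset.sum_range_succ _ _

theorem St_mono {μ M M' : ℕ} (h : M ≤ M') : St μ M ≤ St μ M' := by
  unfold St
  exact Finset.sum_le_sum_of_subset (Finset.range_mono h)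

/-- each term is at least `M / μ + 1` -/
theorem St_add_ge (μ M k : ℕ) : St μ M + k * (M / μ + 1) ≤ St μ (M + k) := by
  induction k with
  | zero => simp
  | succ k ih =>
    have h1 : M / μ ≤ (M + k) / μ := Nat.div_le_div_right (Nat.le_add_right _ _)
    have h2 := St_succ μ (M + k)
    have h3 : (k + 1) * (M / μ + 1) = k * (M / μ + 1) + (M / μ + 1) := by ring
    rw [show M + (k + 1) = M + k + 1 from rfl, h2, h3]
    omega

/-- `μ (⌊t / μ⌋ + 1) ≥ t + 1` -/
theorem two_St_ge {μ : ℕ} (hμ : 0 < μ) (M : ℕ) : M * (M + 1) ≤ 2 * (μ * St μ M) := by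
  induction M with
  | zero => simp
  | succ M ih =>
    have h1 : M < μ * (M / μ + 1) := Nat.lt_mul_div_succ M hμ
    rw [St_succ]
    have h2 : 2 * (μ * (St μ M + (M / μ + 1))) = 2 * (μ * St μ M) + 2 * (μ * (M / μ + 1)) := by
      ring
    have h3 : (M + 1) * (M + 1 + 1) = M * (M + 1) + 2 * (M + 1) := by ring
    rw [h2, h3]
    omega

/-- `sum_rd_eq` -/
theorem TT_eq {h : ℕ} (hh : 0 < h) (M : ℕ) : TT h M = h * (1 + St h M) := by
  unfold TT
  rw [sum_rd_eq hh M]
  unfold St
  ring

/-- `FF n m` is a minimum over the divisors of `n` (`Nat.sInf_le`) -/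
theorem FF_le {n m h : ℕ} (hh : h ∣ n) : FF n m ≤ h * (1 + St h (m - (h - 1) / 2)) := by
  exact Nat.sInf_le ⟨h, hh, rfl⟩

/-- `St μ M = ∑_k max(M - μ k, 0)`: count the pairs `(t, k)`, `k ≤ ⌊t / μ⌋`, that is
`μ k ≤ t < M` (`Finset.sum_comm`, or induction on `M`). -/
theorem St_eq {μ : ℕ} (hμ : 0 < μ) (M : ℕ) : St μ M = ∑ k ∈ Finset.range M, (M - μ * k) := by
  induction M with
  | zero => simp [St]
  | succ M ih =>
    rw [St_succ, ih]
    have h1 : ∀ k ∈ Finset.range (M + 1),
        M + 1 - μ * k = (M - μ * k) + (if k ≤ M / μ then 1 else 0) := by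
      intro k _
      have h2 : k ≤ M / μ ↔ μ * k ≤ M := by
        rw [Nat.le_div_iff_mul_le hμ, mul_comm]
      by_cases h3 : μ * k ≤ M
      · rw [if_pos (h2.mpr h3)]
        omega
      · rw [if_neg (fun h => h3 (h2.mp h))]
        omega
    rw [Finset.sum_congr rfl h1, Finset.sum_add_distrib, Finset.sum_range_succ
      (fun k => M - μ * k) M]
    have h4 : M - μ * M = 0 := by
      have : M ≤ μ * M := Nat.le_mul_of_pos_left M hμ
      omega
    have h5 : ∑ k ∈ Finset.range (M + 1), (if k ≤ M / μ then 1 else 0) = M / μ + 1 := by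
      rw [← Finset.card_filter]
      have h6 : (Finset.range (M + 1)).filter (fun k => k ≤ M / μ) = Finset.range (M / μ + 1) := by
        ext k
        simp only [Finset.mem_filter, Finset.mem_range]
        have := Nat.div_le_self M μ
        omega
      rw [h6, Finset.card_range]
    rw [h4, h5, add_zero]

/-- Rearrangement: `∑ f = ∑_{k ≥ 0} |{a : k < f a}|` and `|{a : f a ≤ k}| ≤ μ k` (the fibre of `0`
is empty), so `|{a : k < f a}| ≥ |A| - μ k`; `St_eq`. -/
theorem rl {α : Type*} [DecidableEq α] {A : Finset α} {f : α → ℕ} {μ : ℕ} (hμ : 0 < μ)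
    (hf : ∀ a ∈ A, 1 ≤ f a) (hfib : ∀ k, (A.filter (fun a => f a = k)).card ≤ μ) :
    St μ A.card ≤ ∑ a ∈ A, f a := by
  obtain ⟨m, hm⟩ : ∃ m, A.card = m := ⟨_, rfl⟩
  induction m generalizing A with
  | zero =>
    rw [hm, St_zero]
    exact Nat.zero_le _
  | succ m ih =>
    have hne : A.Nonempty := Finset.card_pos.mp (by omega)
    obtain ⟨a, ha, hmax⟩ := Finset.exists_max_image A f hne
    have h1 : A.card ≤ μ * (Finset.Icc 1 (f a)).card :=
      Finset.card_le_mul_card_image_of_maps_to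
        (fun b hb => Finset.mem_Icc.mpr ⟨hf b hb, hmax b hb⟩) μ (fun k _ => hfib k)
    rw [Nat.card_Icc, Nat.add_sub_cancel] at h1
    have h2 : m / μ < f a := by
      rw [Nat.div_lt_iff_lt_mul hμ, mul_comm]
      omega
    have h3 : (A.erase a).card = m := by
      rw [Finset.card_erase_of_mem ha, hm, Nat.add_sub_cancel]
    have h4 := ih (A := A.erase a) (fun b hb => hf b (Finset.mem_of_mem_erase hb))
      (fun k => le_trans (Finset.card_le_card
        (Finset.filter_subset_filter _ (Finset.erase_subset _ _))) (hfib k)) h3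
    rw [h3] at h4
    rw [hm, St_succ, ← Finset.add_sum_erase A f ha]
    omega

/-- Add a new element (`Option α`, or `Finset.disjSum`) at level `j` to `A` and apply `rl`:
`∑ f + j ≥ St μ (|A| + 1) = St μ |A| + (|A| / μ + 1)`. -/
theorem rl2 {α : Type*} [DecidableEq α] {A : Finset α} {f : α → ℕ} {μ : ℕ} (hμ : 0 < μ)
    (hf : ∀ a ∈ A, 1 ≤ f a) (hfib : ∀ k, (A.filter (fun a => f a = k)).card ≤ μ) {j : ℕ}
    (hj : 1 ≤ j) (hjf : (A.filter (fun a => f a = j)).card < μ) :
    St μ A.card + (A.card / μ + 1) ≤ ∑ a ∈ A, f a + j := by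
  have h1 := rl (A := Finset.insertNone A) (f := fun o : Option α => o.elim j f) hμ ?_ ?_
  · rw [Finset.card_insertNone, St_succ, Finset.sum_insertNone] at h1
    simp only [Option.elim] at h1
    omega
  · intro o ho
    cases o with
    | none => exact hj
    | some a => exact hf a (Finset.some_mem_insertNone.mp ho)
  · intro k
    rw [Finset.card_filter, Finset.sum_insertNone, ← Finset.card_filter]
    simp only [Option.elim]
    by_cases hk : j = k
    · subst hk
      rw [if_pos rfl]
      omega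
    · rw [if_neg hk, zero_add]
      exact hfib k

/-- `rl` for `A.erase b`. -/
theorem rl3 {α : Type*} [DecidableEq α] {A : Finset α} {f : α → ℕ} {μ : ℕ} (hμ : 0 < μ)
    (hf : ∀ a ∈ A, 1 ≤ f a) (hfib : ∀ k, (A.filter (fun a => f a = k)).card ≤ μ) {b : α}
    (hb : b ∈ A) : St μ (A.card - 1) + f b ≤ ∑ a ∈ A, f a := by
  have h1 := rl (A := A.erase b) (f := f) hμ (fun a ha => hf a (Finset.mem_of_mem_erase ha))
    (fun k => le_trans (Finset.card_le_card
      (Finset.filter_subset_filter _ (Finset.erase_subset _ _))) (hfib k))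
  rw [Finset.card_erase_of_mem hb] at h1
  rw [← Finset.add_sum_erase A f hb]
  omega

end Pool.Agent.helper43.Ex
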