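import Pool.Agent.helper43.Ex.Defs

/-! EX-Grp: distribution of a coloured set into groups without repeated colours. -/

open Finset

namespace Pool.Agent.helper43.Ex

/-- An enumeration of `B` in which the colour classes (of size `≤ h`) are contiguous. Strong
induction on `|B|`: take `b ∈ B`, `K = B.filter (cl · = cl b)`, `B' = B \ K`; a `pos` for `B'`, and
on `K` put `pos x = |B'| + e x`, where `e : K → {0, ..., |K| - 1}` is a bijection. -/
theorem exists_pos {α β : Type*} [DecidableEq α] [DecidableEq β] {B : Finset α} {cl : α → β}
    {h : ℕ} (hcl : ∀ b ∈ B, (B.filter (fun x => cl x = cl b)).card ≤ h) :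
    ∃ pos : α → ℕ, (∀ b ∈ B, pos b < B.card) ∧
      (∀ b ∈ B, ∀ b' ∈ B, pos b = pos b' → b = b') ∧
      (∀ b ∈ B, ∀ b' ∈ B, cl b = cl b' → pos b < pos b' + h) := by
  classical
  induction B using Finset.strongInduction with
  | H B ih =>
    rcases B.eq_empty_or_nonempty with rfl | ⟨b, hb⟩
    · exact ⟨fun _ => 0, by simp, by simp, by simp⟩
    · have hbK : b ∈ B.filter (fun x => cl x = cl b) := by simp [hb]
      have hss : B.filter (fun x => ¬ cl x = cl b) ⊂ B := by
        refine Finset.ssubset_iff_subset_ne.mpr ⟨Finset.filter_subset _ _, fun h => ?_⟩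
        have : b ∈ B.filter (fun x => ¬ cl x = cl b) := by rw [h]; exact hb
        simp at this
      obtain ⟨pos, h1, h2, h3⟩ := ih _ hss (fun c hc => le_trans (Finset.card_le_card
        (Finset.filter_subset_filter _ (Finset.filter_subset _ _)))
        (hcl c (Finset.mem_filter.mp hc).1))
      have hcard : (B.filter (fun x => ¬ cl x = cl b)).card +
          (B.filter (fun x => cl x = cl b)).card = B.card := by
        rw [add_comm]
        exact Finset.card_filter_add_card_filter_not (fun x => cl x = cl b)
      let e := (B.filter (fun x => cl x = cl b)).equivFin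
      let q : α → ℕ := fun x => if hx : x ∈ B.filter (fun x => cl x = cl b) then
        (B.filter (fun x => ¬ cl x = cl b)).card + (e ⟨x, hx⟩ : ℕ) else pos x
      have hq1 : ∀ x (hx : x ∈ B.filter (fun x => cl x = cl b)),
          q x = (B.filter (fun x => ¬ cl x = cl b)).card + (e ⟨x, hx⟩ : ℕ) := by
        intro x hx
        simp only [q, dif_pos hx]
      have hq2 : ∀ x, x ∉ B.filter (fun x => cl x = cl b) → q x = pos x := by
        intro x hx
        simp only [q, dif_neg hx]
      have hmem : ∀ x ∈ B, x ∉ B.filter (fun x => cl x = cl b) →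
          x ∈ B.filter (fun x => ¬ cl x = cl b) := by
        intro x hx hn
        rw [Finset.mem_filter] at hn ⊢
        exact ⟨hx, fun h => hn ⟨hx, h⟩⟩
      refine ⟨q, ?_, ?_, ?_⟩
      · intro x hx
        by_cases hK : x ∈ B.filter (fun x => cl x = cl b)
        · rw [hq1 x hK]
          have := (e ⟨x, hK⟩).2
          omega
        · rw [hq2 x hK]
          have := h1 x (hmem x hx hK)
          omega
      · intro x hx y hy hxy
        by_cases hK : x ∈ B.filter (fun x => cl x = cl b)
        · by_cases hK' : y ∈ B.filter (fun x => cl x = cl b)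
          · rw [hq1 x hK, hq1 y hK'] at hxy
            have h4 : e ⟨x, hK⟩ = e ⟨y, hK'⟩ := Fin.ext (by omega)
            have h5 := e.injective h4
            exact congrArg Subtype.val h5
          · rw [hq1 x hK, hq2 y hK'] at hxy
            have := h1 y (hmem y hy hK')
            omega
        · by_cases hK' : y ∈ B.filter (fun x => cl x = cl b)
          · rw [hq2 x hK, hq1 y hK'] at hxy
            have := h1 x (hmem x hx hK)
            omega
          · rw [hq2 x hK, hq2 y hK'] at hxy
            exact h2 x (hmem x hx hK) y (hmem y hy hK') hxy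
      · intro x hx y hy hxy
        by_cases hK : x ∈ B.filter (fun x => cl x = cl b)
        · have hK' : y ∈ B.filter (fun x => cl x = cl b) := by
            rw [Finset.mem_filter] at hK ⊢
            exact ⟨hy, hxy ▸ hK.2⟩
          rw [hq1 x hK, hq1 y hK']
          have h4 := (e ⟨x, hK⟩).2
          have h5 := hcl b hb
          omega
        · have hK' : y ∉ B.filter (fun x => cl x = cl b) := by
            intro h
            apply hK
            rw [Finset.mem_filter] at h ⊢
            exact ⟨hx, hxy.trans h.2⟩
          rw [hq2 x hK, hq2 y hK']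
          exact h3 x (hmem x hx hK) y (hmem y hy hK') hxy

/-- `g b = pos b % h`. Two elements of the same class in the same group: `|pos b - pos b'| < h` and
`h ∣ pos b - pos b'`, so they are equal. The elements of group `s` have different positions
`s + h u < |B| ≤ k h`, so `u < k`. -/
theorem exists_groups {α β : Type*} [DecidableEq α] [DecidableEq β] {B : Finset α} {cl : α → β}
    {h k : ℕ} (hh : 0 < h) (hcl : ∀ b ∈ B, (B.filter (fun x => cl x = cl b)).card ≤ h)
    (hB : B.card ≤ k * h) :
    ∃ g : α → ℕ, (∀ b ∈ B, g b < h) ∧
      (∀ b ∈ B, ∀ b' ∈ B, cl b = cl b' → g b = g b' → b = b') ∧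
      ∀ s, (B.filter (fun x => g x = s)).card ≤ k := by
  obtain ⟨pos, h1, h2, h3⟩ := exists_pos hcl
  refine ⟨fun b => pos b % h, fun b _ => Nat.mod_lt _ hh, ?_, ?_⟩
  · intro b hb b' hb' hc hg
    apply h2 b hb b' hb'
    have h4 := h3 b hb b' hb' hc
    have h5 := h3 b' hb' b hb hc.symm
    have hg' : pos b % h = pos b' % h := hg
    have e1 := Nat.div_add_mod (pos b) h
    have e2 := Nat.div_add_mod (pos b') h
    have h6 : pos b / h = pos b' / h := by
      rcases lt_trichotomy (pos b / h) (pos b' / h) with h7 | h7 | h7
      · have : h * (pos b / h + 1) ≤ h * (pos b' / h) := Nat.mul_le_mul_left _ h7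
        rw [mul_add, mul_one] at this
        omega
      · exact h7
      · have : h * (pos b' / h + 1) ≤ h * (pos b / h) := Nat.mul_le_mul_left _ h7
        rw [mul_add, mul_one] at this
        omega
    rw [h6, hg'] at e1
    omega
  · intro s
    have hmap : ∀ x ∈ B.filter (fun x => pos x % h = s), pos x / h ∈ Finset.range k := by
      intro x hx
      rw [Finset.mem_filter] at hx
      rw [Finset.mem_range]
      apply Nat.div_lt_of_lt_mul
      have := h1 x hx.1
      rw [mul_comm]
      omega
    have hinj : Set.InjOn (fun x => pos x / h) (B.filter (fun x => pos x % h = s) : Finset α) := by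
      intro x hx y hy hxy
      rw [Finset.mem_coe, Finset.mem_filter] at hx hy
      apply h2 x hx.1 y hy.1
      have e1 := Nat.div_add_mod (pos x) h
      have e2 := Nat.div_add_mod (pos y) h
      have hxy' : pos x / h = pos y / h := hxy
      rw [hxy', hx.2] at e1
      rw [hy.2] at e2
      omega
    have := Finset.card_le_card_of_injOn (fun x => pos x / h) hmap hinj
    simpa using this

end Pool.Agent.helper43.Ex
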