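import Pool.Agent.helper43.Ex.Defs

/-! EX-Tri: lower bounds for `XX H K`, `|K| ≤ 3` (E3 of the paper proof). -/

open Finset Pool.Agent.helper43.Rho Pool.Agent.helper43.Asy

set_option linter.unusedSectionVars false

namespace Pool.Agent.helper43.Ex

variable {G : Type*} [AddCommGroup G] [DecidableEq G] [Fintype G]

/-- a periodic set has at least as many cosets as there are different classes in it -/
private theorem tri_cosets {H : AddSubgroup G} {X V : Finset G} (hX : Per H X) (hV : V ⊆ X)
    (hd : ∀ u ∈ V, ∀ v ∈ V, u ≠ v → u - v ∉ H) : V.card * (sf H).card ≤ X.card := by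
  rw [← Finset.card_product]
  refine Finset.card_le_card_of_injOn (fun p => p.1 + p.2) ?_ ?_
  · intro p hp
    have hp' := Finset.mem_product.1 (Finset.mem_coe.1 hp)
    exact Finset.mem_coe.2 (hX _ (hV hp'.1) _ ((mem_sf _).1 hp'.2))
  · intro p hp q hq hpq
    have hp' := Finset.mem_product.1 (Finset.mem_coe.1 hp)
    have hq' := Finset.mem_product.1 (Finset.mem_coe.1 hq)
    have hpq' : p.1 + p.2 = q.1 + q.2 := hpq
    have h1 : p.1 = q.1 := by
      by_contra hne
      refine hd p.1 hp'.1 q.1 hq'.1 hne ?_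
      have h2 : p.1 - q.1 = q.2 - p.2 := by
        rw [sub_eq_sub_iff_add_eq_add, hpq', add_comm]
      rw [h2]
      exact H.sub_mem ((mem_sf _).1 hq'.2) ((mem_sf _).1 hp'.2)
    have h2 : p.2 = q.2 := by
      rw [h1] at hpq'
      exact add_left_cancel hpq'
    exact Prod.ext h1 h2

private theorem tri_mem {H : AddSubgroup G} {x y w : G} (hne : x ≠ y)
    (hw : w ∈ XX H {x, y}) : w ∈ H ∨ w - x ∈ H ∨ w - y ∈ H ∨ w - x - y ∈ H := by
  have hx : x ∉ ({y} : Finset G) := by
    rw [Finset.mem_singleton]
    exact hne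
  rw [XX_insert hx, Finset.mem_union, Finset.mem_image] at hw
  have key : ∀ v ∈ XX H ({y} : Finset G), v ∈ H ∨ v - y ∈ H := by
    intro v hv
    have h3 := XX_insert (H := H) (E := (∅ : Finset G)) (r := y) (Finset.notMem_empty y)
    rw [XX_empty, Finset.insert_empty] at h3
    rw [h3, Finset.mem_union, Finset.mem_image] at hv
    rcases hv with hv | ⟨t, ht, rfl⟩
    · exact Or.inl ((mem_sf _).1 hv)
    · right
      rw [add_sub_cancel_right]
      exact (mem_sf _).1 ht
  rcases hw with hw | ⟨t, ht, rfl⟩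
  · rcases key w hw with h | h
    · exact Or.inl h
    · exact Or.inr (Or.inr (Or.inl h))
  · rcases key t ht with h | h
    · right; left
      rw [add_sub_cancel_right]
      exact h
    · right; right; right
      rw [add_sub_cancel_right]
      exact h

private theorem tri_sums {H : AddSubgroup G} {x y : G} (hne : x ≠ y) :
    ({0, x, y, x + y} : Finset G) ⊆ XX H {x, y} := by
  intro w hw
  simp only [Finset.mem_insert, Finset.mem_singleton] at hw
  rcases hw with rfl | rfl | rfl | rfl
  · exact zero_mem_XX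
  · refine mem_XX_of_SS (mem_SS.2 ⟨{w}, ?_, Finset.sum_singleton _ _⟩)
    exact Finset.singleton_subset_iff.2 (Finset.mem_insert_self _ _)
  · refine mem_XX_of_SS (mem_SS.2 ⟨{w}, ?_, Finset.sum_singleton _ _⟩)
    exact Finset.singleton_subset_iff.2
      (Finset.mem_insert_of_mem (Finset.mem_singleton_self _))
  · exact mem_XX_of_SS (mem_SS.2 ⟨{x, y}, subset_rfl, Finset.sum_pair hne⟩)

private theorem tri_dist {H : AddSubgroup G} {x y : G} (hx : x ∉ H) (hy : y ∉ H)
    (h1 : x - y ∉ H) (h2 : x + y ∉ H) :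
    ∀ u ∈ ({0, x, y, x + y} : Finset G), ∀ v ∈ ({0, x, y, x + y} : Finset G),
      u ≠ v → u - v ∉ H := by
  intro u hu v hv huv
  have hyx : y - x ∉ H := fun h => h1 (by rw [← neg_sub]; exact H.neg_mem h)
  have nx : -x ∉ H := fun h => hx (by rw [← neg_neg x]; exact H.neg_mem h)
  have ny : -y ∉ H := fun h => hy (by rw [← neg_neg y]; exact H.neg_mem h)
  have nxy : -(x + y) ∉ H := fun h => h2 (by rw [← neg_neg (x + y)]; exact H.neg_mem h)
  simp only [Finset.mem_insert, Finset.mem_singleton] at hu hv
  rcases hu with rfl | rfl | rfl | rfl <;> rcases hv with rfl | rfl | rfl | rfl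
  · exact absurd rfl huv
  · rwa [zero_sub]
  · rwa [zero_sub]
  · rwa [zero_sub]
  · rwa [sub_zero]
  · exact absurd rfl huv
  · exact h1
  · have h : u - (u + y) = -y := by abel
    rwa [h]
  · rwa [sub_zero]
  · exact hyx
  · exact absurd rfl huv
  · have h : u - (x + u) = -x := by abel
    rwa [h]
  · rwa [sub_zero]
  · have h : v + y - v = y := by abel
    rwa [h]
  · have h : x + v - v = x := by abel
    rwa [h]
  · exact absurd rfl huv

private theorem tri_card {H : AddSubgroup G} {x y : G} (hx : x ∉ H) (hy : y ∉ H)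
    (h1 : x ≠ y) (h2 : x + y ∉ H) : ({0, x, y, x + y} : Finset G).card = 4 := by
  have x0 : (0 : G) ≠ x := fun h => hx (h ▸ H.zero_mem)
  have y0 : (0 : G) ≠ y := fun h => hy (h ▸ H.zero_mem)
  have s0 : (0 : G) ≠ x + y := fun h => h2 (h ▸ H.zero_mem)
  have sx : x ≠ x + y := fun h => y0 (by
    have h' : x + 0 = x + y := by rw [add_zero]; exact h
    exact add_left_cancel h')
  have sy : y ≠ x + y := fun h => x0 (by
    have h' : 0 + y = x + y := by rw [zero_add]; exact h
    exact add_right_cancel h')
  rw [Finset.card_insert_of_notMem, Finset.card_insert_of_notMem, Finset.card_insert_of_notMem,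
    Finset.card_singleton]
  · simpa using sy
  · simp only [Finset.mem_insert, Finset.mem_singleton, not_or]
    exact ⟨h1, sx⟩
  · simp only [Finset.mem_insert, Finset.mem_singleton, not_or]
    exact ⟨x0, y0, s0⟩

/-- `x`, `y` different, in different classes up to sign modulo `H`. The four cosets of `0`, `x`,
`y`, `x + y` are different: `x`, `y ∉ H` (`hB.out`), `x + y ∉ H`, `x - y ∉ H`. (Use
`card_XX_insert` with `E = {x}`, `r = y`: `lam (XX H {x}) y = 2 h`, or count directly.) -/
theorem card_XX_pair {H : AddSubgroup G} {B : Finset G} (hB : Ap H B) {x y : G} (hx : x ∈ B)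
    (hy : y ∈ B) (hne : x ≠ y) (h1 : x - y ∉ H) (h2 : x + y ∉ H) :
    4 * (sf H).card ≤ (XX H {x, y}).card := by
  have h := tri_cosets (per_XX H {x, y}) (tri_sums hne)
    (tri_dist (hB.out x hx) (hB.out y hy) h1 h2)
  rwa [tri_card (hB.out x hx) (hB.out y hy) hne h2] at h

/-- `lam (XX H {x, y}) z ≥ 3 h`, so `|XX H {x, y, z}| ≥ 7 h` (`card_XX_insert`). `XX H {x, y}` is
the union of the cosets of `s ∈ S = {0, x, y, x + y}`. If `s + z` is in the coset of `s' ∈ S` then,
since `z`, `z - x`, `z + x`, `z - y`, `z + y ∉ H`, modulo `H` one of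
`z = x + y` (only `s = 0`), `z = -(x + y)` (only `s = x + y`), `z = y - x` (only `s = x`),
`z = x - y` (only `s = y`) holds; two of these can not hold together since `2 x`, `2 y`,
`2 z ∉ H` (`hB.two`). So at most one of the four cosets is mapped into `XX H {x, y}` by `+ z`. -/
theorem card_XX_triple {H : AddSubgroup G} {B : Finset G} (hB : Ap H B) {x y z : G}
    (hx : x ∈ B) (hy : y ∈ B) (hz : z ∈ B) (hxy : x ≠ y) (hxz : x ≠ z) (hyz : y ≠ z)
    (h1 : x - y ∉ H) (h2 : x + y ∉ H) (h3 : x - z ∉ H) (h4 : x + z ∉ H) (h5 : y - z ∉ H)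
    (h6 : y + z ∉ H) : 7 * (sf H).card ≤ (XX H {x, y, z}).card := by
  have hxH := hB.out x hx
  have hyH := hB.out y hy
  have hzH := hB.out z hz
  have x2 := hB.two hx
  have y2 := hB.two hy
  have z2 := hB.two hz
  have hzs : z ∉ ({x, y} : Finset G) := by
    simp only [Finset.mem_insert, Finset.mem_singleton, not_or]
    exact ⟨hxz.symm, hyz.symm⟩
  have hset : ({x, y, z} : Finset G) = insert z {x, y} := by
    ext w
    simp only [Finset.mem_insert, Finset.mem_singleton]
    tauto
  rw [hset, card_XX_insert hzs]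
  have hpair := card_XX_pair hB hx hy hxy h1 h2
  suffices hlam : 3 * (sf H).card ≤ lam (XX H {x, y}) z by omega
  -- the periodic set
  have hper := per_XX H ({x, y} : Finset G)
  have hF : Per H ((XX H {x, y}).filter (fun s => s + z ∉ XX H {x, y})) := by
    intro s hs k hk
    rw [Finset.mem_filter] at hs ⊢
    refine ⟨hper s hs.1 k hk, ?_⟩
    intro hcon
    apply hs.2
    have h7 := hper _ hcon (-k) (H.neg_mem hk)
    have h8 : s + k + z + -k = s + z := by abel
    rwa [h8] at h7
  have hzx : z - x ∉ H := fun h => h3 (by rw [← neg_sub]; exact H.neg_mem h)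
  have hzy : z - y ∉ H := fun h => h5 (by rw [← neg_sub]; exact H.neg_mem h)
  -- what `s + z ∈ XX H {x, y}` means
  have p0 : (0 : G) + z ∈ XX H {x, y} → z - x - y ∈ H := by
    intro h
    rw [zero_add] at h
    rcases tri_mem hxy h with h | h | h | h
    · exact absurd h hzH
    · exact absurd h hzx
    · exact absurd h hzy
    · exact h
  have px : x + z ∈ XX H {x, y} → x + z - y ∈ H := by
    intro h
    rcases tri_mem hxy h with h | h | h | h
    · exact absurd h h4
    · rw [add_sub_cancel_left] at h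
      exact absurd h hzH
    · exact h
    · have h' : x + z - x - y = z - y := by abel
      rw [h'] at h
      exact absurd h hzy
  have py : y + z ∈ XX H {x, y} → y + z - x ∈ H := by
    intro h
    rcases tri_mem hxy h with h | h | h | h
    · exact absurd h h6
    · exact h
    · rw [add_sub_cancel_left] at h
      exact absurd h hzH
    · have h' : y + z - x - y = z - x := by abel
      rw [h'] at h
      exact absurd h hzx
  have ps : x + y + z ∈ XX H {x, y} → x + y + z ∈ H := by
    intro h
    rcases tri_mem hxy h with h | h | h | h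
    · exact h
    · have h' : x + y + z - x = y + z := by abel
      rw [h'] at h
      exact absurd h h6
    · have h' : x + y + z - y = x + z := by abel
      rw [h'] at h
      exact absurd h h4
    · have h' : x + y + z - x - y = z := by abel
      rw [h'] at h
      exact absurd h hzH
  -- at most one of the four is mapped into the set
  have hone : (({0, x, y, x + y} : Finset G).filter (fun s => s + z ∈ XX H {x, y})).card ≤ 1 := by
    rw [Finset.card_le_one]
    intro a ha b hb
    rw [Finset.mem_filter] at ha hb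
    obtain ⟨ha, ha'⟩ := ha
    obtain ⟨hb, hb'⟩ := hb
    simp only [Finset.mem_insert, Finset.mem_singleton] at ha hb
    have key : ∀ u v t : G, u ∈ H → v ∈ H → t ∉ H → (u + v = t ∨ u - v = t ∨ v - u = t) →
        False := by
      intro u v t hu hv ht h
      rcases h with h | h | h
      · exact ht (h ▸ H.add_mem hu hv)
      · exact ht (h ▸ H.sub_mem hu hv)
      · exact ht (h ▸ H.sub_mem hv hu)
    rcases ha with rfl | rfl | rfl | rfl <;> rcases hb with rfl | rfl | rfl | rfl
    · rfl
    · exact (key _ _ _ (p0 ha') (px hb') x2 (Or.inr (Or.inr (by abel)))).elim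
    · exact (key _ _ _ (p0 ha') (py hb') y2 (Or.inr (Or.inr (by abel)))).elim
    · exact (key _ _ _ (p0 ha') (ps hb') z2 (Or.inl (by abel))).elim
    · exact (key _ _ _ (p0 hb') (px ha') x2 (Or.inr (Or.inr (by abel)))).elim
    · rfl
    · exact (key _ _ _ (px ha') (py hb') z2 (Or.inl (by abel))).elim
    · exact (key _ _ _ (px ha') (ps hb') y2 (Or.inr (Or.inr (by abel)))).elim
    · exact (key _ _ _ (p0 hb') (py ha') y2 (Or.inr (Or.inr (by abel)))).elim
    · exact (key _ _ _ (px hb') (py ha') z2 (Or.inl (by abel))).elim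
    · rfl
    · exact (key _ _ _ (py ha') (ps hb') x2 (Or.inr (Or.inr (by abel)))).elim
    · exact (key _ _ _ (p0 hb') (ps ha') z2 (Or.inl (by abel))).elim
    · exact (key _ _ _ (px hb') (ps ha') y2 (Or.inr (Or.inr (by abel)))).elim
    · exact (key _ _ _ (py hb') (ps ha') x2 (Or.inr (Or.inr (by abel)))).elim
    · rfl
  have hthree : 3 ≤ (({0, x, y, x + y} : Finset G).filter
      (fun s => s + z ∉ XX H {x, y})).card := by
    have h7 := Finset.card_filter_add_card_filter_not (s := ({0, x, y, x + y} : Finset G))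
      (fun s => s + z ∈ XX H {x, y})
    rw [tri_card hxH hyH hxy h2] at h7
    omega
  have hsub : ({0, x, y, x + y} : Finset G).filter (fun s => s + z ∉ XX H {x, y}) ⊆
      (XX H {x, y}).filter (fun s => s + z ∉ XX H {x, y}) :=
    Finset.filter_subset_filter _ (tri_sums hxy)
  have hfin := tri_cosets hF hsub (fun u hu v hv huv =>
    tri_dist hxH hyH h1 h2 u (Finset.mem_of_mem_filter _ hu) v
      (Finset.mem_of_mem_filter _ hv) huv)
  calc 3 * (sf H).card ≤ _ := Nat.mul_le_mul_right _ hthree
    _ ≤ _ := hfin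
    _ = lam (XX H {x, y}) z := rfl

/-- Cases `|K| = 0` (`XX_empty`), `1` (`Ap.card_ge` for the subset, or `card_XX_insert`), `2`, `3`
(`Finset.card_eq_two`, `Finset.card_eq_three`). -/
theorem card_XX_group {H : AddSubgroup G} {B K : Finset G} (hB : Ap H B) (hK : K ⊆ B)
    (h3 : K.card ≤ 3) (hcl : ∀ x ∈ K, ∀ y ∈ K, x ≠ y → x - y ∉ H ∧ x + y ∉ H) :
    (sf H).card * (1 + K.card * (K.card + 1) / 2) ≤ (XX H K).card := by
  have hc : K.card = 0 ∨ K.card = 1 ∨ K.card = 2 ∨ K.card = 3 := by omega
  rcases hc with hc | hc | hc | hc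
  · have h := (hB.subset hK).card_ge
    rw [hc] at h ⊢
    simpa using h
  · have h := (hB.subset hK).card_ge
    rw [hc] at h ⊢
    simpa using h
  · rw [hc]
    obtain ⟨x, y, hne, rfl⟩ := Finset.card_eq_two.1 hc
    have hx : x ∈ ({x, y} : Finset G) := by simp
    have hy : y ∈ ({x, y} : Finset G) := by simp
    have h := card_XX_pair hB (hK hx) (hK hy) hne (hcl x hx y hy hne).1 (hcl x hx y hy hne).2
    have e : 1 + 2 * (2 + 1) / 2 = 4 := by norm_num
    rw [e, mul_comm]
    exact h
  · rw [hc]
    obtain ⟨x, y, z, hxy, hxz, hyz, rfl⟩ := Finset.card_eq_three.1 hc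
    have hx : x ∈ ({x, y, z} : Finset G) := by simp
    have hy : y ∈ ({x, y, z} : Finset G) := by simp
    have hz : z ∈ ({x, y, z} : Finset G) := by simp
    have h := card_XX_triple hB (hK hx) (hK hy) (hK hz) hxy hxz hyz
      (hcl x hx y hy hxy).1 (hcl x hx y hy hxy).2 (hcl x hx z hz hxz).1 (hcl x hx z hz hxz).2
      (hcl y hy z hz hyz).1 (hcl y hy z hz hyz).2
    have e : 1 + 3 * (3 + 1) / 2 = 7 := by norm_num
    rw [e, mul_comm]
    exact h

end Pool.Agent.helper43.Ex
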