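import Pool.Agent.helper43.Ex.Kn
import Pool.Agent.helper43.Ex.RL
import Pool.Agent.helper43.Ex.Grp
import Pool.Agent.helper43.Ex.Tri

/-! EX-E3: the exact lower bound for `|B| ≤ 3 h` (E3 of the paper proof). -/

open Finset Pool.Agent.helper43.Rho Pool.Agent.helper43.Asy

set_option linter.unusedSectionVars false

namespace Pool.Agent.helper43.Ex

variable {G : Type*} [AddCommGroup G] [DecidableEq G] [Fintype G]

/-- the class of `x` up to sign modulo `H` -/
noncomputable def clH (H : AddSubgroup G) (x : G) : Finset G :=
  (sf H).image (fun k => x + k) ∪ (sf H).image (fun k => -x + k)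

private theorem E3_mem {H : AddSubgroup G} {x z : G} :
    z ∈ clH H x ↔ z - x ∈ H ∨ z + x ∈ H := by
  unfold clH
  rw [Finset.mem_union, Finset.mem_image, Finset.mem_image]
  constructor
  · rintro (⟨k, hk, rfl⟩ | ⟨k, hk, rfl⟩)
    · left
      rw [add_sub_cancel_left]
      exact (mem_sf k).1 hk
    · right
      rw [show -x + k + x = k by abel]
      exact (mem_sf k).1 hk
  · rintro (h | h)
    · exact Or.inl ⟨z - x, (mem_sf _).2 h, by abel⟩
    · exact Or.inr ⟨z + x, (mem_sf _).2 h, by abel⟩

theorem clH_eq {H : AddSubgroup G} {x y : G} : clH H x = clH H y ↔ x - y ∈ H ∨ x + y ∈ H := by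
  constructor
  · intro h
    have h1 : x ∈ clH H x := E3_mem.2 (Or.inl (by rw [sub_self]; exact H.zero_mem))
    rw [h] at h1
    exact E3_mem.1 h1
  · intro h
    ext z
    rw [E3_mem, E3_mem]
    rcases h with h | h
    · have e1 : z - x ∈ H ↔ z - y ∈ H := by
        rw [show z - y = (z - x) + (x - y) by abel]
        exact (H.add_mem_cancel_right h).symm
      have e2 : z + x ∈ H ↔ z + y ∈ H := by
        rw [show z + x = (z + y) + (x - y) by abel]
        exact H.add_mem_cancel_right h
      rw [e1, e2]
    · have e1 : z - x ∈ H ↔ z + y ∈ H := by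
        rw [show z + y = (z - x) + (x + y) by abel]
        exact (H.add_mem_cancel_right h).symm
      have e2 : z + x ∈ H ↔ z - y ∈ H := by
        rw [show z + x = (z - y) + (x + y) by abel]
        exact H.add_mem_cancel_right h
      rw [e1, e2]
      exact Or.comm

/-- `B` is asymmetric: every class contains at most `h` elements of `B`. The map sending `y` in the
class of `x` to `y` if `y - x ∈ H` and to `-y` otherwise (then `x + y ∈ H`, so
`-y - x ∈ H`) is injective on this class of `B` and has values in `x + H`. -/
theorem card_clH {H : AddSubgroup G} {B : Finset G} (hB : Asym B) (x : G) :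
    (B.filter (fun y => clH H y = clH H x)).card ≤ (sf H).card := by
  classical
  refine Finset.card_le_card_of_injOn (fun y => if y - x ∈ H then y - x else -y - x) ?_ ?_
  · intro y hy
    have hy' := (Finset.mem_filter.1 (Finset.mem_coe.1 hy)).2
    rw [Finset.mem_coe, mem_sf]
    show (if y - x ∈ H then y - x else -y - x) ∈ H
    split_ifs with h
    · exact h
    · have h1 : y + x ∈ H := (clH_eq.1 hy').resolve_left h
      rw [show -y - x = -(y + x) by abel]
      exact H.neg_mem h1
  · intro y hy y' hy' h
    have b1 := (Finset.mem_filter.1 (Finset.mem_coe.1 hy)).1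
    have b2 := (Finset.mem_filter.1 (Finset.mem_coe.1 hy')).1
    have h' : (if y - x ∈ H then y - x else -y - x) =
      (if y' - x ∈ H then y' - x else -y' - x) := h
    split_ifs at h' with h1 h2 h2
    · exact sub_left_injective h'
    · exfalso
      have h3 : y = -y' := sub_left_injective h'
      exact hB y' b2 (h3 ▸ b1)
    · exfalso
      have h3 : -y = y' := sub_left_injective h'
      exact hB y b1 (h3 ▸ b2)
    · exact neg_injective (sub_left_injective h')

/-- Induction on `m`: `K : ℕ → Finset G` with pairwise disjoint subsets of `B`; `kn_ap`. -/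
theorem kn_many {H : AddSubgroup G} {B : Finset G} (hB : Ap H B) {K : ℕ → Finset G}
    (hK : ∀ s, K s ⊆ B) (hd : ∀ s t, s ≠ t → Disjoint (K s) (K t)) (m : ℕ) :
    ∑ s ∈ Finset.range m, (XX H (K s)).card + (sf H).card ≤
      (XX H ((Finset.range m).biUnion K)).card + m * (sf H).card := by
  induction m with
  | zero => simp [XX_empty]
  | succ m ih =>
    have h1 : (Finset.range m).biUnion K ⊆ B := by
      intro z hz
      obtain ⟨s, -, hs⟩ := Finset.mem_biUnion.1 hz
      exact hK s hs
    have h2 : Disjoint ((Finset.range m).biUnion K) (K m) := by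
      rw [Finset.disjoint_biUnion_left]
      intro s hs
      exact hd s m (Finset.mem_range.1 hs).ne
    have h3 := kn_ap hB h1 (hK m) h2
    have h4 : (Finset.range (m + 1)).biUnion K = (Finset.range m).biUnion K ∪ K m := by
      rw [Finset.range_add_one, Finset.biUnion_insert, Finset.union_comm]
    rw [h4, Finset.sum_range_succ, Nat.add_mul, one_mul]
    omega

/-- Pure arithmetic, by `rl`: `k s ≤ 3`, `∑_{s < h} k s = M`. The set of the pairs `(s, u)`,
`s < h`, `u < k s`, with `f (s, u) = u + 1` has `M` elements, fibres of size `≤ h`, and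
`∑ f = ∑_s k s (k s + 1) / 2` (no bound on `k s` is needed). -/
theorem St_groups {h M : ℕ} (hh : 0 < h) {k : ℕ → ℕ} (hk : ∑ s ∈ Finset.range h, k s = M) :
    St h M ≤ ∑ s ∈ Finset.range h, k s * (k s + 1) / 2 := by
  have h1 := rl (A := (Finset.range h).sigma (fun s => Finset.range (k s)))
    (f := fun p => p.2 + 1) hh (fun p _ => Nat.le_add_left 1 _) (fun j => by
      refine (Finset.card_le_card_of_injOn (t := Finset.range h) (fun p => p.1) ?_ ?_).trans
        (le_of_eq (Finset.card_range h))
      · intro p hp
        have := (Finset.mem_sigma.1 (Finset.mem_filter.1 (Finset.mem_coe.1 hp)).1).1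
        exact Finset.mem_coe.2 this
      · intro p hp q hq hpq
        have e1 := (Finset.mem_filter.1 (Finset.mem_coe.1 hp)).2
        have e2 := (Finset.mem_filter.1 (Finset.mem_coe.1 hq)).2
        obtain ⟨p1, p2⟩ := p
        obtain ⟨q1, q2⟩ := q
        simp only at e1 e2 hpq
        subst hpq
        have : p2 = q2 := by omega
        rw [this])
  rw [Finset.card_sigma, Finset.sum_sigma] at h1
  simp only [Finset.card_range] at h1
  rw [hk] at h1
  refine h1.trans (le_of_eq (Finset.sum_congr rfl fun s _ => ?_))
  have h2 := Finset.sum_range_succ' (fun i => i) (k s)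
  have h3 := Finset.sum_range_id (k s + 1)
  rw [h3] at h2
  simp only [add_zero, Nat.add_sub_cancel] at h2
  rw [← h2, mul_comm]

/-- `exists_groups` for `clH H` and `k = 3`: `K s = B.filter (g · = s)`, `s < h`; `card_XX_group`
for every `K s` (two different elements of `K s` are in different classes, `clH_eq`);
`kn_many` with `m = h`: `|XX H B| + h h ≥ h ∑_s (1 + k s (k s + 1)/2) + h`; `St_groups`,
`TT_eq`. -/
theorem exact3 {H : AddSubgroup G} {B : Finset G} (hB : Ap H B)
    (h3 : B.card ≤ 3 * (sf H).card) : TT (sf H).card B.card ≤ (XX H B).card := by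
  classical
  have hh := sf_card_pos H
  obtain ⟨g, hg1, hg2, hg3⟩ := exists_groups (cl := clH H) hh
    (fun b _ => card_clH hB.asym b) h3
  set K : ℕ → Finset G := fun s => B.filter (fun x => g x = s) with hKdef
  have hKB : ∀ s, K s ⊆ B := fun s => Finset.filter_subset _ _
  have hKd : ∀ s t, s ≠ t → Disjoint (K s) (K t) := by
    intro s t hst
    rw [Finset.disjoint_left]
    intro x hx hx'
    exact hst ((Finset.mem_filter.1 hx).2.symm.trans (Finset.mem_filter.1 hx').2)
  have hun : (Finset.range (sf H).card).biUnion K = B := by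
    ext x
    rw [Finset.mem_biUnion]
    constructor
    · rintro ⟨s, -, hs⟩
      exact hKB s hs
    · intro hx
      exact ⟨g x, Finset.mem_range.2 (hg1 x hx), Finset.mem_filter.2 ⟨hx, rfl⟩⟩
  have h4 := kn_many hB hKB hKd (sf H).card
  rw [hun] at h4
  have h5 : ∀ s, (sf H).card * (1 + (K s).card * ((K s).card + 1) / 2) ≤ (XX H (K s)).card := by
    intro s
    refine card_XX_group hB (hKB s) (hg3 s) ?_
    intro x hx y hy hxy
    have hx' := Finset.mem_filter.1 hx
    have hy' := Finset.mem_filter.1 hy
    have h6 : ¬ clH H x = clH H y := fun h =>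
      hxy (hg2 x hx'.1 y hy'.1 h (hx'.2.trans hy'.2.symm))
    rw [clH_eq, not_or] at h6
    exact h6
  have h6 : ∑ s ∈ Finset.range (sf H).card, (K s).card = B.card := by
    rw [← Finset.card_biUnion (fun s _ t _ hst => hKd s t hst), hun]
  have h7 := St_groups hh h6
  have h8 : ∑ s ∈ Finset.range (sf H).card,
      (sf H).card * (1 + (K s).card * ((K s).card + 1) / 2) ≤
      ∑ s ∈ Finset.range (sf H).card, (XX H (K s)).card :=
    Finset.sum_le_sum fun s _ => h5 s
  rw [← Finset.mul_sum, Finset.sum_add_distrib, Finset.sum_const, Finset.card_range,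
    smul_eq_mul, mul_one, Nat.mul_add] at h8
  rw [TT_eq hh, Nat.mul_add, mul_one]
  have h9 := Nat.mul_le_mul_left (sf H).card h7
  omega

end Pool.Agent.helper43.Ex
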