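import Pool.Agent.helper43.Ex.RdA

/-! EX-RdB: the two cases of the reduction (section 0 of the paper proof). -/

open Finset Pool.Agent.helper43.Rho Pool.Agent.helper43.Asy

set_option linter.unusedSectionVars false

namespace Pool.Agent.helper43.Ex

variable {n : ℕ} [NeZero n]

private theorem rdb_Fst_le (n m : ℕ) : Fst n m ≤ FF n m := min_le_left _ _

private theorem rdb_TT_mono {h : ℕ} (hh : 0 < h) {i M : ℕ} (hi : TT h i ≤ TT h M) : i ≤ M := by
  by_contra hcon
  have := TT_lt hh (i := M) (M := i) (by omega)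
  omega

private theorem rdb_TT_le {h : ℕ} (hh : 0 < h) {i M : ℕ} (hi : i ≤ M) : TT h i ≤ TT h M := by
  rcases Nat.lt_or_ge i M with h1 | h1
  · exact (TT_lt hh h1).le
  · have : i = M := by omega
    rw [this]

private theorem rdb_FF_le_TT {h m : ℕ} (hh : 0 < h) (hd : h ∣ n) :
    FF n m ≤ TT h (m - (h - 1) / 2) := by
  rw [TT_eq hh]
  exact FF_le hd

private theorem rdb_pos (H : AddSubgroup (ZMod n)) : 0 < (sf H).card :=
  Finset.card_pos.2 ⟨0, (mem_sf 0).2 H.zero_mem⟩

private theorem rdb_SS_eq {X : Finset (ZMod n)} (h : ∀ x ∈ X, x ∈ stab (SS X)) :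
    SS X = sf (stab (SS X)) := by
  apply Finset.Subset.antisymm
  · intro z hz
    exact (mem_sf z).2 (SS_subset_subgroup h z hz)
  · intro z hz
    have h1 := (mem_stab_iff.1 ((mem_sf z).1 hz) 0).2 (zero_mem_SS X)
    rwa [zero_add] at h1

private theorem rdb_two_card {A : Finset (ZMod n)} (hA : Asym A) (H : AddSubgroup (ZMod n)) :
    2 * (ins A H).card + 1 ≤ (sf H).card := by
  rw [card_sf]
  exact two_card_ins hA H

private theorem rdb_split {A : Finset (ZMod n)} {a : ZMod n} (ha : a ∈ A) {z : ZMod n}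
    (hz : z ∈ SS A) : z ∈ SS (A.erase a) ∨ ∃ s ∈ SS (A.erase a), s + a = z := by
  rw [← Finset.insert_erase ha, SS_insert (Finset.notMem_erase a A), Finset.mem_union,
    Finset.mem_image] at hz
  exact hz

private theorem rdb_outs_card {A : Finset (ZMod n)} {H : AddSubgroup (ZMod n)}
    (h : ∃ a ∈ A, a ∉ H) : (outs A H).Nonempty := by
  obtain ⟨a, ha, haH⟩ := h
  exact ⟨a, mem_outs.2 ⟨ha, haH⟩⟩

/-- Case 1: `A` is not contained in `H = stab (SS A)`. `As = A`. `B = outs A H` is nonempty,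
`ap_stab`. Let `M = |B|`, `k = (h - 1) / 2 ≥ |ins A H|` (`two_card_ins`, `card_sf`),
`m = |ins A H| + M` (`card_ins_add_outs`), so `m - k ≤ M`.
`|XX H B| = |SS A| ≤ |SigmaStar A| + 1 ≤ Fst n m ≤ FF n m ≤ TT h M ≤ TT h (M + 1)`
(`card_SS_le_SigmaStar`, `FF_le_TT` with `card_sf_dvd`).
`cl`: suppose `11 ≤ h` and `TT h M ≤ |XX H B|`. Then `TT h M ≤ FF n m ≤ TT h (m - k)`
(`FF_le`, `TT_eq`), so `M ≤ m - k` (`TT_lt`), and `M ≥ 1`, so `M = m - k`, `|ins A H| = k`, and
`zs_sub` gives `0 ∈ SigmaStar (ins A H) ⊆ SigmaStar A`, `SigmaStar A = SS A` (`SigmaStar_eq`), so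
`|SigmaStar A| = |XX H B| ≥ TT h M ≥ FF n m ≥ Fst n m`, a contradiction. -/
theorem red1 {m : ℕ} (hn : 2 * m < n) {A : Finset (ZMod n)} (hA : Asym A)
    (hc : A.card = m) (hlt : (SigmaStar A).card < Fst n m) (h1 : ∃ a ∈ A, a ∉ stab (SS A)) :
    Red n m A A (stab (SS A)) := by
  obtain ⟨hap, heqv⟩ := ap_stab hA
  set H := stab (SS A) with hH
  have hn0 : 0 < n := by omega
  have hh : 0 < (sf H).card := rdb_pos H
  have hd : (sf H).card ∣ n := card_sf_dvd H
  have hcard := card_ins_add_outs A H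
  have h2 := rdb_two_card hA H
  have hne := rdb_outs_card h1
  have hpos := hne.card_pos
  have hSS : (SS A).card ≤ Fst n m := by
    have := card_SS_le_SigmaStar A
    omega
  have hF := rdb_Fst_le n m
  have hT : FF n m ≤ TT (sf H).card (outs A H).card := FF_le_TT hn0 hd (by omega)
  refine ⟨hn, hA, hc, hlt, Finset.Subset.refl A, by omega, hap, heqv, hne, ?_, ?_, hSS,
    fun L _ h => h⟩
  · rw [heqv]
    exact (hSS.trans (hF.trans hT)).trans (rdb_TT_le hh (Nat.le_succ _))
  · intro h11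
    by_contra hcon
    have hcon' := Nat.le_of_not_lt hcon
    rw [heqv] at hcon'
    have hT2 : FF n m ≤ TT (sf H).card (m - ((sf H).card - 1) / 2) := rdb_FF_le_TT hh hd
    have h3 : (outs A H).card ≤ m - ((sf H).card - 1) / 2 :=
      rdb_TT_mono hh (hcon'.trans (hSS.trans (hF.trans hT2)))
    have h4 : (outs A H).card = m - ((sf H).card - 1) / 2 := by omega
    have h5 : ((sf H).card - 1) / 2 ≤ (ins A H).card := by omega
    have h6 : (0 : ZMod n) ∈ SigmaStar A :=
      SigmaStar_mono (fun x hx => (mem_ins.1 hx).1)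
        (zs_sub (ins_asym hA H) (fun j hj => (mem_ins.1 hj).2) h11 h5)
    rw [SigmaStar_eq h6] at hlt
    rw [← h4] at hT2
    omega

/-- Case 2, first part: `A ≤ K0 = stab (SS A)`, `m ≥ 30`. `0 ∈ SS A`, so `sf K0 ⊆ SS A`, and
`SS A ⊆ sf K0` (`SS_subset_subgroup`): `SS A = sf K0`. `FF n m ≤ |K0|` (`FF_le_card`),
`|SigmaStar A| ≥ |K0| - 1`, so `Fst n m = |K0|` and `0 ∉ SigmaStar A`. Let `a ∈ A`,
`As = A.erase a`, `H = stab (SS As)`. `-a ∉ SS As` (`zero_mem_of_neg`). Suppose all elements of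
`As` are in `H`: `SS As = sf H` as above, `a ∉ H`, `SS A = SS As ∪ tr (SS As) a` (`SS_insert`)
has `2 h` elements, `|K0| = 2 h`. `m - 1 ≤ k = (h - 1) / 2`. If `m ≤ k`: `FF n m ≤ h` (`FF_le`,
`m - k = 0`), contradiction with `FF n m ≥ Fst n m = 2 h`. If `m = k + 1`: `k ≥ 29`, `h ≥ 11`,
`zs_sub` gives `0 ∈ SigmaStar As ⊆ SigmaStar A`, contradiction. -/
theorem red2 {m : ℕ} (hn : 2 * m < n) (hm : 30 ≤ m) {A : Finset (ZMod n)} (hA : Asym A)
    (hc : A.card = m) (hlt : (SigmaStar A).card < Fst n m)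
    (h2 : ∀ a ∈ A, a ∈ stab (SS A)) {a : ZMod n} (ha : a ∈ A) :
    SS A = sf (stab (SS A)) ∧ Fst n m = (sf (stab (SS A))).card ∧ (0 : ZMod n) ∉ SigmaStar A ∧
      ∃ b ∈ A.erase a, b ∉ stab (SS (A.erase a)) := by
  have hSA := rdb_SS_eq h2
  have hFc := FF_le_card hA hc h2
  have hF := rdb_Fst_le n m
  have h1 := card_SS_le_SigmaStar A
  have hcS : (SS A).card = (sf (stab (SS A))).card := congrArg Finset.card hSA
  have hFst : Fst n m = (sf (stab (SS A))).card := by omega
  have h0 : (0 : ZMod n) ∉ SigmaStar A := by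
    intro h0
    rw [SigmaStar_eq h0] at hlt
    omega
  refine ⟨hSA, hFst, h0, ?_⟩
  by_contra hcon
  push Not at hcon
  have hB := rdb_SS_eq hcon
  have hAs : Asym (A.erase a) := hA.subset (Finset.erase_subset _ _)
  have hna : a ∉ stab (SS (A.erase a)) := by
    intro haH
    apply h0
    apply zero_mem_of_neg ha
    rw [hB, mem_sf]
    exact AddSubgroup.neg_mem _ haH
  have hlt2 : (sf (stab (SS (A.erase a)))).card < (sf (stab (SS A))).card := by
    rw [← hcS, ← hB]
    apply Finset.card_lt_card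
    rw [Finset.ssubset_iff_of_subset (SS_mono (Finset.erase_subset _ _))]
    refine ⟨a, ?_, ?_⟩
    · rw [mem_SS]
      exact ⟨{a}, Finset.singleton_subset_iff.2 ha, Finset.sum_singleton _ _⟩
    · rw [hB, mem_sf]
      exact hna
  have hcA : (A.erase a).card = m - 1 := by
    rw [Finset.card_erase_of_mem ha, hc]
  have h3 : 2 * (A.erase a).card + 1 ≤ (sf (stab (SS (A.erase a)))).card := by
    rw [card_sf]
    exact asym_card_subgroup hAs _ hcon
  have hh := rdb_pos (stab (SS (A.erase a)))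
  have hd := card_sf_dvd (stab (SS (A.erase a)))
  by_cases hmk : m ≤ ((sf (stab (SS (A.erase a)))).card - 1) / 2
  · have h4 := FF_le (m := m) hd
    rw [Nat.sub_eq_zero_of_le hmk, St_zero, add_zero, mul_one] at h4
    omega
  · apply h0
    apply SigmaStar_mono (Finset.erase_subset a A)
    apply zs_sub hAs hcon (by omega) (by omega)

/-- Case 2, second part. Notation as above, `B = outs As H` is nonempty, `ap_stab` for `As`,
`M = |B|`, `|As| = m - 1 = |ins As H| + M`, `|ins As H| ≤ k`. `SS As ⊆ SS A = sf K0` and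
`-a ∈ sf K0 \ SS As`, so `|XX H B| = |SS As| ≤ |K0| - 1 = Fst n m - 1`.
`up`: `m ≤ (M + 1) + k`, `FF_le_TT`. `cl`: if `TT h M ≤ |XX H B| < FF n m ≤ TT h (m - k)` then
`M < m - k` (`TT_lt`, monotone), `|ins As H| = m - 1 - M ≥ k`, `zs_sub` gives
`0 ∈ SigmaStar As ⊆ SigmaStar A`, contradiction.
`mem`: let `H ≤ L`, `As` in `L`, suppose `a ∉ L`. An element `z ∈ K0 ⊓ L` is in
`SS A = SS As ∪ (SS As + a)`; `SS As ⊆ L`; if `z = s + a` then `a = z - s ∈ L`, no; so
`z ∈ SS As`, and `SS As = sf (K0 ⊓ L)` (`SS As ⊆ sf K0`, `SS As ⊆ sf L`) is a subgroup, so it is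
its own stabiliser: `As ⊆ SS As = sf H`, contradiction. -/
theorem red3 {m : ℕ} (hn : 2 * m < n) (hm : 30 ≤ m) {A : Finset (ZMod n)} (hA : Asym A)
    (hc : A.card = m) (hlt : (SigmaStar A).card < Fst n m)
    (h2 : ∀ a ∈ A, a ∈ stab (SS A)) {a : ZMod n} (ha : a ∈ A) :
    Red n m A (A.erase a) (stab (SS (A.erase a))) := by
  obtain ⟨hSA, hFst, h0, hex⟩ := red2 hn hm hA hc hlt h2 ha
  have hAs : Asym (A.erase a) := hA.subset (Finset.erase_subset _ _)
  obtain ⟨hap, heqv⟩ := ap_stab hAs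
  set H := stab (SS (A.erase a)) with hH
  have hn0 : 0 < n := by omega
  have hh : 0 < (sf H).card := rdb_pos H
  have hd : (sf H).card ∣ n := card_sf_dvd H
  have hcard := card_ins_add_outs (A.erase a) H
  have h3 := rdb_two_card hAs H
  have hcA : (A.erase a).card = m - 1 := by
    rw [Finset.card_erase_of_mem ha, hc]
  have hF := rdb_Fst_le n m
  have hlt2 : (SS (A.erase a)).card < Fst n m := by
    rw [hFst, ← congrArg Finset.card hSA]
    apply Finset.card_lt_card
    rw [Finset.ssubset_iff_of_subset (SS_mono (Finset.erase_subset _ _))]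
    refine ⟨-a, ?_, fun hneg => h0 (zero_mem_of_neg ha hneg)⟩
    rw [hSA, mem_sf]
    exact AddSubgroup.neg_mem _ (h2 a ha)
  refine ⟨hn, hA, hc, hlt, Finset.erase_subset _ _, by omega, hap, heqv, rdb_outs_card hex,
    ?_, ?_, hlt2.le, ?_⟩
  · rw [heqv]
    exact hlt2.le.trans (hF.trans (FF_le_TT hn0 hd (by omega)))
  · intro h11
    by_contra hcon
    have hcon' := Nat.le_of_not_lt hcon
    rw [heqv] at hcon'
    have hT2 : FF n m ≤ TT (sf H).card (m - ((sf H).card - 1) / 2) := rdb_FF_le_TT hh hd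
    have h4 : (outs (A.erase a) H).card < m - ((sf H).card - 1) / 2 := by
      by_contra hge
      have := rdb_TT_le hh (Nat.le_of_not_lt hge)
      omega
    have h5 : ((sf H).card - 1) / 2 ≤ (ins (A.erase a) H).card := by omega
    exact h0 (SigmaStar_mono (fun x hx => Finset.mem_of_mem_erase (mem_ins.1 hx).1)
        (zs_sub (ins_asym hAs H) (fun j hj => (mem_ins.1 hj).2) h11 h5))
  · intro L hHL hL
    by_cases haL : a ∈ L
    · intro b hb
      by_cases hba : b = a
      · rw [hba]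
        exact haL
      · exact hL b (Finset.mem_erase.2 ⟨hba, hb⟩)
    · exfalso
      have hstab : ∀ x, x ∈ stab (SS A) → x ∈ L → x ∈ H := by
        intro x hx hxL
        apply mem_stab_of
        intro s hs
        have hsA : s ∈ SS A := SS_mono (Finset.erase_subset _ _) hs
        have hsL : s ∈ L := SS_subset_subgroup hL s hs
        have hz : s + x ∈ SS A := (mem_stab_iff.1 hx s).2 hsA
        rcases rdb_split ha hz with h4 | ⟨t, ht, hta⟩
        · exact h4
        · exfalso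
          apply haL
          have htL : t ∈ L := SS_subset_subgroup hL t ht
          have h5 : a = s + x - t := by
            rw [← hta]
            abel
          rw [h5]
          exact L.sub_mem (L.add_mem hsL hxL) htL
      obtain ⟨b, hb, hbH⟩ := hex
      exact hbH (hstab b (h2 b (Finset.mem_of_mem_erase hb)) (hL b hb))

/-- `red1`, `red3` -/
theorem reduction {m : ℕ} (hn : 2 * m < n) (hm : 30 ≤ m) {A : Finset (ZMod n)} (hA : Asym A)
    (hc : A.card = m) (hlt : (SigmaStar A).card < Fst n m) : ∃ As H, Red n m A As H := by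
  by_cases h : ∃ a ∈ A, a ∉ stab (SS A)
  · exact ⟨A, _, red1 hn hA hc hlt h⟩
  · push Not at h
    have hne : A.Nonempty := Finset.card_pos.1 (by omega)
    obtain ⟨a, ha⟩ := hne
    exact ⟨A.erase a, _, red3 hn hm hA hc hlt h ha⟩

end Pool.Agent.helper43.Ex
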