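import Pool.Agent.helper43.Ex.StS

/-! EX-Stg: the stage theorem S1 of the paper proof. -/

open Finset Pool.Agent.helper43.Rho Pool.Agent.helper43.Asy

set_option linter.unusedSectionVars false

namespace Pool.Agent.helper43.Ex

variable {G : Type*} [AddCommGroup G] [DecidableEq G] [Fintype G]

private theorem stg_pow : 1000 ≤ 2 ^ 400 := by
  have h1 : (2 : ℕ) ^ 10 ≤ 2 ^ 400 := Nat.pow_le_pow_right (by norm_num) (by norm_num)
  have h2 : (2 : ℕ) ^ 10 = 1024 := by norm_num
  omega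

private theorem stg_pow2 : 2 ^ 400 = 2 * 2 ^ 399 := pow_succ' 2 399

private theorem stg_pow3 {M : ℕ} (hM : 2 ^ 400 ≤ M) : 2 * 2 ^ 399 ≤ M := by
  rw [← stg_pow2]
  exact hM

private theorem stg_pow4 {M : ℕ} (hM : 2 ^ 400 ≤ M) : 1000 ≤ M := stg_pow.trans hM

/-- If `b ∉ LL H R`, `b ∈ B`, `R ⊆ B`, then `XX H R ⊆ sf (LL H R)` and its translate by `b` are
disjoint: `|XX H B| ≥ |XX H (insert b R)| = |XX H R| + lam (XX H R) b = 2 |XX H R|`
(`card_XX_insert`, `XX_mono`, `XX_mem_subgroup`). -/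
theorem two_card_of_not_mem {H : AddSubgroup G} {B R : Finset G} (hR : R ⊆ B) {b : G}
    (hb : b ∈ B) (hbL : b ∉ LL H R) : 2 * (XX H R).card ≤ (XX H B).card := by
  have hbR : b ∉ R := fun h => hbL (mem_LL h)
  have h1 := card_XX_insert (H := H) hbR
  have h2 : (XX H (insert b R)).card ≤ (XX H B).card :=
    Finset.card_le_card (XX_mono (Finset.insert_subset hb hR))
  have h3 : lam (XX H R) b = (XX H R).card := by
    unfold lam
    rw [Finset.filter_true_of_mem]
    intro s hs hsb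
    apply hbL
    have h4 := XX_mem_subgroup (le_LL H R) (fun e he => mem_LL he) s hs
    have h5 := XX_mem_subgroup (le_LL H R) (fun e he => mem_LL he) (s + b) hsb
    have h6 := (LL H R).sub_mem h5 h4
    have h7 : s + b - s = b := by abel
    rwa [h7] at h6
  omega

/-- Pigeonhole: `E`, `R` disjoint, `E ∪ R = B`, all elements of `B` in `L = LL H R`. If
`|XX H E| + |XX H R| > |L|` then for every `z ∈ L` the sets `XX H E` and `z - XX H R` (both inside
`sf L`) meet, so `z ∈ XX H B` (`mem_XX_union'` or `mem_XX_union`), hence `XX H B = sf L`, every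
element of `L` stabilises `XX H B`, so `L ≤ H` by `hB.st`, and the element of `R` is in `H`, a
contradiction (`hB.out`). -/
theorem card_add_le_LL {H : AddSubgroup G} {B E R : Finset G} (hB : Ap H B) (hE : E ⊆ B)
    (hR : R = B \ E) (hne : R.Nonempty) (hL : ∀ b ∈ B, b ∈ LL H R) :
    (XX H E).card + (XX H R).card ≤ (sf (LL H R)).card := by
  by_contra hcon
  push Not at hcon
  have hEs : XX H E ⊆ sf (LL H R) := by
    intro x hx
    exact (mem_sf x).2 (XX_mem_subgroup (le_LL H R) (fun e he => hL e (hE he)) x hx)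
  have hRs : XX H R ⊆ sf (LL H R) := by
    intro x hx
    exact (mem_sf x).2 (XX_mem_subgroup (le_LL H R) (fun e he => mem_LL he) x hx)
  have hBs : XX H B ⊆ sf (LL H R) := by
    intro x hx
    exact (mem_sf x).2 (XX_mem_subgroup (le_LL H R) hL x hx)
  have hd : Disjoint E R := by
    rw [hR]
    exact Finset.disjoint_sdiff
  have hu : E ∪ R = B := by
    rw [hR]
    exact Finset.union_sdiff_of_subset hE
  have hall : ∀ z ∈ LL H R, z ∈ XX H B := by
    intro z hz
    have h1 : (XX H R).image (fun s => z - s) ⊆ sf (LL H R) := by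
      intro x hx
      obtain ⟨s, hs, rfl⟩ := Finset.mem_image.1 hx
      exact (mem_sf _).2 ((LL H R).sub_mem hz ((mem_sf s).1 (hRs hs)))
    have h2 : ((XX H R).image (fun s => z - s)).card = (XX H R).card :=
      Finset.card_image_of_injective _ (fun a b hab => by simpa using hab)
    obtain ⟨x, hx⟩ := Finset.inter_nonempty_of_card_lt_card_add_card hEs h1 (by rw [h2]; exact hcon)
    rw [Finset.mem_inter, Finset.mem_image] at hx
    obtain ⟨hx1, s, hs, hsx⟩ := hx
    rw [← hu, mem_XX_union' hd]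
    exact ⟨x, hx1, s, hs, by rw [← hsx]; abel⟩
  obtain ⟨r, hr⟩ := hne
  have hrB : r ∈ B := by
    rw [hR, Finset.mem_sdiff] at hr
    exact hr.1
  refine hB.out r hrB (hB.st r fun s hs => hall _ ?_)
  exact (LL H R).add_mem ((mem_sf s).1 (hBs hs)) (hL r hrB)

/-- Pure arithmetic: `3 h < M`, `2^400 ≤ M`, `9 M ≤ 10 i`, `i ≤ M`:
`TT h (M + 1) - TT h i = ∑_{Ioc i (M+1)} rd h j ≤ (M + 1 - i) (M + 1 + h) ≤
(M/10 + 1) (4 M / 3 + 1)` and `TT h i ≥ i^2 / 2 ≥ 0.4 M^2` (`TT_ge`). -/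
theorem stage_tt {h M i : ℕ} (hh : 0 < h) (h3 : 3 * h < M) (hM : 2 ^ 400 ≤ M)
    (h9 : 9 * M ≤ 10 * i) (hi : i ≤ M) :
    TT h (M + 1) + M + M ^ 2 / 10 ≤ 2 * TT h i ∧ 4 * M ^ 2 ≤ 10 * TT h i := by
  have hM' : 1000 ≤ M := stg_pow4 hM
  clear hM
  have h1 := TT_split (h := h) (i := i) (M := M + 1) (by omega)
  have h2 := sum_rd_Ioc_le (h := h) (i := i) (M := M + 1)
  have h4 := TT_ge hh i
  obtain ⟨x, rfl⟩ : ∃ x, M = i + x := ⟨M - i, by omega⟩
  have h5 : i + x + 1 - i = x + 1 := by omega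
  rw [h5] at h2
  have h6 : 30 * ((x + 1) * (i + x + 1 + h)) ≤ (i + x + 10) * (4 * (i + x) + 2) := by
    have h7 : 10 * (x + 1) ≤ i + x + 10 := by omega
    have h8 : 3 * (i + x + 1 + h) ≤ 4 * (i + x) + 2 := by omega
    calc 30 * ((x + 1) * (i + x + 1 + h)) = (10 * (x + 1)) * (3 * (i + x + 1 + h)) := by ring
      _ ≤ _ := Nat.mul_le_mul h7 h8
  have h9' : 81 * (i + x) ^ 2 ≤ 100 * i ^ 2 := by
    have := Nat.mul_le_mul h9 h9
    nlinarith
  have h10 : i * (i + 1) = i ^ 2 + i := by ring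
  have h11 : (i + x + 10) * (4 * (i + x) + 2) = 4 * (i + x) ^ 2 + 42 * (i + x) + 20 := by ring
  have h12 : 1000 * (i + x) ≤ (i + x) ^ 2 := by
    rw [pow_two]
    exact Nat.mul_le_mul_right _ hM'
  rw [h10] at h4
  rw [h11] at h6
  generalize (x + 1) * (i + x + 1 + h) = P at *
  generalize hQ : (i + x) ^ 2 = Q at *
  generalize i ^ 2 = J at *
  generalize ∑ j ∈ Ioc i (i + x + 1), rd h j = S at *
  generalize TT h (i + x + 1) = T1 at *
  generalize TT h i = T0 at *
  constructor <;> omega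

/-- `δ = 40 (Nat.sqrt M + 1)`, `k` from `stage_sum`, `E` from `exists_Phi` for this `k`,
`R = B \ E`, `|R| = M - k = i`.
* `lo`, `hi`: clear. `hδ`: `rd h i ≤ rd h M ≤ 2 M`, `1600 M ≤ 1600 (Nat.sqrt M + 1)^2`. `hδ'`:
  `sqrt_big`.
* `lamb`: `10^9 lam ≤ (10^9 + 1) rd h i` (`Phi_lam` and `stage_sum`) and
  `10^10 (rd h i - rd h (i - δ)) ≤ rd h i`, so `(10^10 - 1) rd h i ≤ 10^10 rd h (i - δ)`; this
  gives `5 * 10^8 lam ≤ (5 * 10^8 + 1) rd h (i - δ)`.
* `cE`: `mid_lower` for `i` gives `E'` with `|E'| = k`, `|XX H E| = Phi H B k ≥ |XX H E'|` and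
  `10^13 |XX H E'| + M^2 ≥ 10^13 (M - i) i` (`sum_rd_Ioc_ge`), where `(M - i) i = k (M - k) ≥
  (M/20) (9 M/10) = 0.045 M^2`.
* `cR`: `low_TT`, `stage_tt` (`10 TT h i ≥ 4 M^2`).
* `gen`: otherwise `two_card_of_not_mem`, `low_TT`, `stage_tt`:
  `|XX H B| ≥ 2 |XX H R| ≥ 2 (1 - 10^(-15)) TT h i > TT h (M + 1)` (`TT_le`).
* `sum`: `card_add_le_LL`. `tt`: `stage_tt`. -/
theorem stage {H : AddSubgroup G} {B : Finset G} (hB : Ap H B) (hM : 2 ^ 400 ≤ B.card)
    (h3 : 3 * (sf H).card < B.card)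
    (hX : (XX H B).card ≤ TT (sf H).card (B.card + 1)) :
    ∃ E R δ, Stage H B E R δ := by
  classical
  have hh : 0 < (sf H).card := sf_card_pos H
  have hM2 := stg_pow3 hM
  have hpos : 1000 ≤ B.card := stg_pow4 hM
  have hM399 : 2 ^ 399 ≤ B.card := by
    generalize 2 ^ 399 = Z at hM2 ⊢
    omega
  have hsq := sqrt_big hM399
  obtain ⟨k, hk1, hk2, hgood, hPhi⟩ := stage_sum hB hM h3 hX
    (δ := 40 * (Nat.sqrt B.card + 1)) (by omega)
  obtain ⟨E, hE, hEk, hEP⟩ := exists_Phi H (B := B) (k := k) (by omega)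
  have hRk : (B \ E).card = B.card - k := by
    rw [Finset.card_sdiff_of_subset hE, hEk]
  have hRsub : B \ E ⊆ B := Finset.sdiff_subset
  have hne : (B \ E).Nonempty := by
    rw [← Finset.card_pos, hRk]
    omega
  obtain ⟨ht1, ht2⟩ := stage_tt (h := (sf H).card) (M := B.card) (i := B.card - k) hh h3 hM
    (by omega) (by omega)
  have hR399 : 2 ^ 399 ≤ (B \ E).card := by
    rw [hRk]
    clear hsq hPhi hgood ht1 ht2 hM hM399
    generalize 2 ^ 399 = Z at hM2 ⊢
    omega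
  clear hM2
  have hlow := low_TT (hB.subset hRsub) hR399 (by rw [hRk]; omega)
  rw [hRk] at hlow
  have hTTle : TT (sf H).card (B.card - k) ≤ 3 * B.card ^ 2 := by
    refine (TT_le (h := (sf H).card) (M := B.card - k) (by omega)).trans ?_
    exact Nat.mul_le_mul_left _ (Nat.pow_le_pow_left (Nat.sub_le _ _) 2)
  have hMsq : 1000 * B.card ≤ B.card ^ 2 := by
    rw [pow_two]
    exact Nat.mul_le_mul_right _ hpos
  have hgen : ∀ b ∈ B, b ∈ LL H (B \ E) := by
    intro b hb
    by_contra hbL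
    have h1 := two_card_of_not_mem hRsub hb hbL
    omega
  have hX3 : (XX H B).card ≤ 3 * B.card ^ 2 := by
    refine hX.trans ?_
    have h1 := TT_split (h := (sf H).card) (i := 0) (M := B.card + 1) (by omega)
    have h2 := sum_rd_Ioc_le (h := (sf H).card) (i := 0) (M := B.card + 1)
    have h4 : TT (sf H).card 0 = (sf H).card := by simp [TT]
    rw [h4] at h1
    rw [h1]
    have h5 : (B.card + 1 - 0) * (B.card + 1 + (sf H).card) ≤
        (B.card + 1) * (2 * B.card) := by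
      rw [Nat.sub_zero]
      exact Nat.mul_le_mul_left _ (by omega)
    have h6 : (B.card + 1) * (2 * B.card) = 2 * B.card ^ 2 + 2 * B.card := by ring
    omega
  refine ⟨E, B \ E, 40 * (Nat.sqrt B.card + 1), ?_⟩
  refine ⟨hE, rfl, ?_, ?_, ?_, ?_, ?_, ?_, ?_, hgen, ?_, ?_⟩
  · rw [hRk]
    omega
  · rw [hRk]
    omega
  · rw [hRk]
    have h1 := rd_le_two (h := (sf H).card) (x := B.card - k) (by omega)
    have h2 : B.card < (Nat.sqrt B.card + 1) * (Nat.sqrt B.card + 1) := Nat.lt_succ_sqrt _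
    have h4 : (40 * (Nat.sqrt B.card + 1)) ^ 2 =
        1600 * ((Nat.sqrt B.card + 1) * (Nat.sqrt B.card + 1)) := by ring
    rw [h4]
    omega
  · omega
  · intro r hr
    have h1 := Phi_lam hE hEk hEP hr
    rw [hRk]
    unfold Good at hgood
    have h2 : rd (sf H).card (B.card - k - 40 * (Nat.sqrt B.card + 1)) ≤
        rd (sf H).card (B.card - k) := rd_mono (Nat.sub_le _ _)
    generalize rd (sf H).card (B.card - k - 40 * (Nat.sqrt B.card + 1)) = b at *
    generalize rd (sf H).card (B.card - k) = a at *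
    generalize lam (XX H E) r = l at *
    generalize Phi H B k = p at *
    generalize Phi H B (k + 1) = q at *
    omega
  · obtain ⟨E', hE', hE'c, hmid⟩ := mid_lower hB hM399 (by omega) hX3 (i := B.card - k)
      (by omega) (by omega)
    have h1 : E'.card = k := by omega
    have h2 := Phi_ge hE' h1 (H := H)
    have h4 := sum_rd_Ioc_ge hh (i := B.card - k) (M := B.card)
    have h5 : B.card - (B.card - k) = k := by omega
    rw [h5] at h4
    have h6 : 9 * B.card ^ 2 ≤ 200 * (k * (B.card - k)) := by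
      have h7 : 9 * B.card ≤ 10 * (B.card - k) := by omega
      calc 9 * B.card ^ 2 = B.card * (9 * B.card) := by ring
        _ ≤ (20 * k) * (10 * (B.card - k)) := Nat.mul_le_mul hk1 h7
        _ = _ := by ring
    rw [hEP]
    omega
  · omega
  · exact card_add_le_LL hB hE rfl hne hgen
  · rw [hRk]
    omega

end Pool.Agent.helper43.Ex
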