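import Pool.Agent.helper43.Ex.STh
import Pool.Agent.helper43.Ex.Stg
import Pool.Agent.helper43.Ex.RdB
import Pool.Agent.helper43.Ex.E3

/-! EX-StE: existence of the structure `Str`. -/

open Finset Pool.Agent.helper43.Rho Pool.Agent.helper43.Asy

set_option linter.unusedSectionVars false

namespace Pool.Agent.helper43.Ex

section General
variable {G : Type*} [AddCommGroup G] [DecidableEq G] [Fintype G]

/-- `X ⊆ sf L`, `t ∈ L`: `lam (sf L \ X) t = lam X (-t) = lam X t`: the elements `s ∈ sf L \ X`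
with `s + t ∉ sf L \ X` are those with `s + t ∈ X`; `s ↦ s + t` is a bijection onto the
`x ∈ X` with `x - t ∉ X`. (`lam_neg`; compare `lam_eq_of_xor`, `two_lam` in Rho.Dyn.) -/
theorem lam_compl {L : AddSubgroup G} {X : Finset G} (hX : X ⊆ sf L) {t : G} (ht : t ∈ L) :
    lam (sf L \ X) t = lam X t := by
  apply lam_eq_of_xor
  intro z
  have h1 : z + t ∈ L ↔ z ∈ L := L.add_mem_cancel_right ht
  rw [Finset.mem_sdiff, Finset.mem_sdiff, mem_sf, mem_sf, h1]
  by_cases hz : z ∈ L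
  · tauto
  · have h2 : z ∉ X := fun h => hz ((mem_sf z).1 (hX h))
    have h3 : z + t ∉ X := fun h => hz (h1.1 ((mem_sf _).1 (hX h)))
    tauto

/-- For the stage `(E, R, δ)`: `L = LL H R`, `p = rd h (|R| - δ)`, `X = XX H E` or
`sf L \ XX H E`, whichever is smaller. `Iso H R p` by `strong` (`R ⊆ B`, `hδ`). `1 ≤ p`:
`|R| ≥ 0.9 M`, `10 δ ≤ M`, `p ≥ |R| - δ ≥ 1` (`le_rd`). `X ⊆ sf L` (`XX_mem_subgroup`, `gen`,
`le_LL`), `Per H X` (`per_XX`; the complement in `sf L` is periodic as well). `2 |X| ≤ |L|`.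
`|X| ≥ 10^10 p`: `p ≤ |R| + h ≤ 2 M`, `|XX H E| ≥ M^2 / 25`, and
`|sf L \ XX H E| ≥ |XX H R| ≥ M^2 / 3` (`sum`), `M ≥ 2^400`. `lamb` and `lam_compl`.
`structure_thm`. -/
theorem stage_structure {H : AddSubgroup G} {B E R : Finset G} {δ : ℕ} (hB : Ap H B)
    (hM : 2 ^ 400 ≤ B.card) (h3 : 3 * (sf H).card < B.card) (hS : Stage H B E R δ) :
    ∃ (K : AddSubgroup G) (c : G) (Q : ℕ), H ≤ K ∧ K ≤ LL H R ∧ c ∈ LL H R ∧ 1 ≤ Q ∧
      (∀ r ∈ R, ∃ j : ℤ, |j| ≤ Q ∧ r - j • c ∈ K) ∧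
      500000 * ((sf K).card * Q) ≤ 500001 * rd (sf H).card (R.card - δ) := by
  have hh := sf_card_pos H
  have hR : R ⊆ B := by
    rw [hS.eqR]
    exact Finset.sdiff_subset
  have hI := strong hB hR hS.hδ
  have hM50 : 10 ^ 12 ≤ B.card := by
    refine le_trans ?_ hM
    have h1 : (2 : ℕ) ^ 50 ≤ 2 ^ 400 := Nat.pow_le_pow_right (by norm_num) (by norm_num)
    refine le_trans ?_ h1
    norm_num
  clear hM
  have hlo := hS.lo
  have hd := hS.hδ'
  have hcE := hS.cE
  have hcR := hS.cR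
  have hsum := hS.sum
  have hRB := Finset.card_le_card hR
  have hp1 : 1 ≤ rd (sf H).card (R.card - δ) := by
    have h1 := le_rd (x := R.card - δ) hh
    omega
  have hp2 : rd (sf H).card (R.card - δ) ≤ 2 * B.card := by
    have h1 := rd_le (h := (sf H).card) (x := R.card - δ)
    omega
  have hM2 : 10 ^ 12 * B.card ≤ B.card ^ 2 := by
    rw [pow_two]
    exact Nat.mul_le_mul_right _ hM50
  have hsub : XX H E ⊆ sf (LL H R) := by
    intro x hx
    exact (mem_sf x).2 (XX_mem_subgroup (le_LL H R) (fun e he => hS.gen e (hS.sub he)) x hx)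
  by_cases hcase : 2 * (XX H E).card ≤ (sf (LL H R)).card
  · refine structure_thm hI hp1 (per_XX H E) hsub hcase ?_ hS.lamb
    generalize rd (sf H).card (R.card - δ) = p at *
    omega
  · have hcard : (sf (LL H R) \ XX H E).card = (sf (LL H R)).card - (XX H E).card :=
      Finset.card_sdiff_of_subset hsub
    refine structure_thm (X := sf (LL H R) \ XX H E) hI hp1 ?_ Finset.sdiff_subset ?_ ?_ ?_
    · intro x hx k hk
      rw [Finset.mem_sdiff, mem_sf] at hx ⊢
      refine ⟨(LL H R).add_mem hx.1 (le_LL H R hk), fun h => hx.2 ?_⟩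
      have h1 := per_XX H E (x + k) h (-k) (H.neg_mem hk)
      rwa [add_neg_cancel_right] at h1
    · omega
    · rw [hcard]
      generalize rd (sf H).card (R.card - δ) = p at *
      omega
    · intro r hr
      rw [lam_compl hsub (mem_LL hr)]
      exact hS.lamb r hr

end General

variable {n : ℕ} [NeZero n]

/-- `B = outs As H`, `M = |B|`, `h = |H|`. `m ≤ |As| + 1`, `|As| = |ins As H| + M`,
`2 |ins As H| + 1 ≤ h` (`two_card_ins`, `card_sf`, `card_ins_add_outs`). If `M ≤ 3 h` then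
`h ≥ 11` and `exact3` contradicts `Red.cl`. So `M > 3 h`, and `m ≤ M + 1 + M / 6`,
`M ≥ 2^400`. `stage` (`Red.up`), `stage_structure`. -/
theorem exists_str {m : ℕ} (hm : 2 ^ 401 ≤ m) {A As : Finset (ZMod n)}
    {H : AddSubgroup (ZMod n)} (hr : Red n m A As H) :
    ∃ K c Q δ E R, Str n m A As H K c Q δ E R := by
  have hh := sf_card_pos H
  have hcard := card_ins_add_outs As H
  have h2 := two_card_ins (hr.asym.subset hr.sub) H
  rw [← card_sf] at h2
  have hbig := hr.big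
  have e401 : (2 : ℕ) ^ 401 = 2 * 2 ^ 400 := pow_succ' 2 400
  have hZ : 1000 ≤ (2 : ℕ) ^ 400 := by
    have h1 : (2 : ℕ) ^ 10 ≤ 2 ^ 400 := Nat.pow_le_pow_right (by norm_num) (by norm_num)
    have h2 : (2 : ℕ) ^ 10 = 1024 := by norm_num
    omega
  have hm' : 2 * 2 ^ 400 ≤ m := by
    rw [← e401]
    exact hm
  have h3 : 3 * (sf H).card < (outs As H).card := by
    by_contra hcon
    have h4 := exact3 hr.ap (Nat.not_lt.mp hcon)
    have h5 := hr.cl (by
      clear h4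
      generalize 2 ^ 400 = Z at *
      omega)
    exact absurd h5 (Nat.not_lt.mpr h4)
  have hM : 2 ^ 400 ≤ (outs As H).card := by
    clear e401 hm
    generalize 2 ^ 400 = Z at *
    omega
  obtain ⟨E, R, δ, hS⟩ := stage hr.ap hM h3 hr.up
  obtain ⟨K, c, Q, hHK, hKL, hcL, hQ, hlev, hsiz⟩ := stage_structure hr.ap hM h3 hS
  exact ⟨K, c, Q, δ, E, R, ⟨hr, hm, hM, h3, hS, hHK, hKL, hcL, hQ, hlev, hsiz⟩⟩

end Pool.Agent.helper43.Ex
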