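import Pool.Agent.helper43.Ex.Wj
import Pool.Agent.helper43.Ex.RL
import Pool.Agent.helper43.Ex.StE

/-! EX-Cm: common facts after the structure theorem (section 3 of the paper proof). -/

open Finset Pool.Agent.helper43.Rho Pool.Agent.helper43.Asy

set_option linter.unusedSectionVars false

namespace Pool.Agent.helper43.Ex

variable {n : ℕ} [NeZero n]

/-- `Str` together with a choice of levels -/
structure StrL (n m : ℕ) [NeZero n] (A As : Finset (ZMod n)) (H K : AddSubgroup (ZMod n))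
    (c : ZMod n) (Q δ : ℕ) (E R : Finset (ZMod n)) (N : ℕ) (f : ZMod n → ℤ) : Prop where
  str : Str n m A As H K c Q δ E R
  lvl : Lvl c K (LL H R) N f

/-- `exists_lvl`; every element of `LL H R` is in some `j c + K`: `LL_le` with the subgroup
`K ⊔ AddSubgroup.zmultiples c` (`H ≤ K`, `Str.lev`), `AddSubgroup.mem_sup`. -/
theorem Str.exists_strL {m : ℕ} {A As : Finset (ZMod n)} {H K : AddSubgroup (ZMod n)}
    {c : ZMod n} {Q δ : ℕ} {E R : Finset (ZMod n)} (h : Str n m A As H K c Q δ E R) :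
    ∃ N f, StrL n m A As H K c Q δ E R N f := by
  have h1 : LL H R ≤ K ⊔ AddSubgroup.zmultiples c := by
    refine LL_le (h.HK.trans le_sup_left) ?_
    intro r hr
    obtain ⟨j, _, hj⟩ := h.lev r hr
    rw [AddSubgroup.mem_sup]
    exact ⟨r - j • c, hj, j • c, AddSubgroup.zsmul_mem_zmultiples c j, sub_add_cancel _ _⟩
  obtain ⟨N, f, hL⟩ := exists_lvl h.cL h.KL (by
    intro a ha
    obtain ⟨k, hk, z, hz, rfl⟩ := AddSubgroup.mem_sup.1 (h1 ha)
    obtain ⟨j, rfl⟩ := AddSubgroup.mem_zmultiples_iff.1 hz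
    exact ⟨j, by rw [add_sub_cancel_right]; exact hk⟩)
  exact ⟨N, f, h, hL⟩

variable {m : ℕ} {A As : Finset (ZMod n)} {H K : AddSubgroup (ZMod n)} {c : ZMod n} {Q δ : ℕ}
  {E R : Finset (ZMod n)} {N : ℕ} {f : ZMod n → ℤ}

/-- `a ∈ H` or `a ∈ outs As H` (then `Stage.gen`) -/
theorem StrL.As_L (h : StrL n m A As H K c Q δ E R N f) : ∀ a ∈ As, a ∈ LL H R := by
  intro a ha
  by_cases haH : a ∈ H
  · exact le_LL H R haH
  · exact h.str.st.gen a (mem_outs.2 ⟨ha, haH⟩)

/-- `Red.mem` -/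
theorem StrL.A_L (h : StrL n m A As H K c Q δ E R N f) : ∀ a ∈ A, a ∈ LL H R :=
  h.str.red.mem (LL H R) (le_LL H R) h.As_L

private theorem Cm_R_outs (h : StrL n m A As H K c Q δ E R N f) : R ⊆ outs As H := by
  have h1 := h.str.st.eqR
  rw [h1]
  exact Finset.sdiff_subset

/-- `R ⊆ outs As H`, so `R ⊆ As` and the elements of `R` are not in `H`. -/
theorem StrL.R_sub (h : StrL n m A As H K c Q δ E R N f) :
    R ⊆ As ∧ ∀ r ∈ R, r ∉ H :=
  ⟨fun _ hr => (mem_outs.1 (Cm_R_outs h hr)).1, fun _ hr => (mem_outs.1 (Cm_R_outs h hr)).2⟩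

theorem StrL.asym (h : StrL n m A As H K c Q δ E R N f) : Asym As :=
  h.str.red.asym.subset h.str.red.sub

/-- `Str.lev`, `Lvl.min` -/
theorem StrL.levR (h : StrL n m A As H K c Q δ E R N f) : ∀ r ∈ R, |f r| ≤ Q := by
  intro r hr
  obtain ⟨j, hj1, hj2⟩ := h.str.lev r hr
  exact (h.lvl.min (mem_LL hr) hj2).trans hj1

/-- `Lvl.class_card` -/
theorem StrL.class_le (h : StrL n m A As H K c Q δ E R N f) {F : Finset (ZMod n)}
    (hF : F ⊆ As) {k : ℕ} (hk : 1 ≤ k) :
    (F.filter (fun a => (f a).natAbs = k)).card ≤ (sf K).card :=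
  h.lvl.class_card (h.asym.subset hF) (fun a ha => h.As_L a (hF ha)) k hk

/-- The elements of `R` outside `K` have levels between `1` and `Q`. -/
theorem StrL.outR_le (h : StrL n m A As H K c Q δ E R N f) :
    (outs R K).card ≤ (sf K).card * Q := by
  have h1 : ∀ r ∈ outs R K, (f r).natAbs ∈ Finset.Icc 1 Q := by
    intro r hr
    obtain ⟨hrR, hrK⟩ := mem_outs.1 hr
    have h2 := h.levR r hrR
    rw [Int.abs_eq_natAbs] at h2
    have h3 := h.lvl.mem r (mem_LL hrR)
    have h4 : f r ≠ 0 := by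
      intro h5
      rw [h5, zero_smul, sub_zero] at h3
      exact hrK h3
    rw [Finset.mem_Icc]
    omega
  have h2 := Finset.card_le_mul_card_image_of_maps_to (f := fun r => (f r).natAbs) h1
    (sf K).card (fun k hk => by
      have hsub : outs R K ⊆ As := fun r hr => h.R_sub.1 (mem_outs.1 hr).1
      exact h.class_le hsub (Finset.mem_Icc.1 hk).1)
  rwa [Nat.card_Icc, Nat.add_sub_cancel] at h2

/-- `SS As = XX H (outs As H)` (`Red.eqv`), inside `sf (LL H R)`. If it contained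
`sf (LL H R)`, then every `x ∈ LL H R` would stabilise it, so `x ∈ H` by `Red.ap.st`; but
`R` is nonempty (`Stage.lo`) and its elements are in `LL H R` and not in `H`. -/
theorem StrL.not_full (h : StrL n m A As H K c Q δ E R N f) :
    ¬ sf (LL H R) ⊆ SS As := by
  intro hfull
  have hM := h.str.red.ne.card_pos
  have hlo := h.str.st.lo
  have hR : 0 < R.card := by omega
  obtain ⟨r, hr⟩ := Finset.card_pos.1 hR
  refine h.R_sub.2 r hr (h.str.red.ap.st r ?_)
  intro s hs
  have h1 := XX_mem_subgroup (le_LL H R) h.str.st.gen s hs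
  have h2 : s + r ∈ sf (LL H R) := (mem_sf _).2 ((LL H R).add_mem h1 (mem_LL hr))
  rw [h.str.red.eqv]
  exact hfull h2

/-- With `h = |H|`, `M = |outs As H|`, `i = |R|`, `μ = |K|`:
`rd h (i - δ) ≤ i + h` (`rd_le`), `Str.siz`; `m ≤ |As| + 1`, `|As| = |ins As H| + M`,
`2 |ins As H| + 1 ≤ h < M / 3`; `|R| ≤ M ≤ m`. -/
theorem StrL.nums (h : StrL n m A As H K c Q δ E R N f) :
    500000 * ((sf K).card * Q) ≤ 500001 * (R.card + (sf H).card) ∧
    9 * (outs As H).card ≤ 10 * R.card ∧ 20 * R.card ≤ 19 * (outs As H).card + 20 ∧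
    3 * (sf H).card < (outs As H).card ∧ 6 * m ≤ 7 * (outs As H).card + 6 ∧
    (outs As H).card ≤ m ∧ 2 ^ 400 ≤ (outs As H).card ∧ 1 ≤ (sf H).card ∧
    (sf H).card ≤ (sf K).card := by
  have hsiz := h.str.siz
  have hrd := rd_le (h := (sf H).card) (x := R.card - δ)
  have h3 := h.str.M3
  have hlo := h.str.st.lo
  have hhi := h.str.st.hi
  have hcard := card_ins_add_outs As H
  have h2 := two_card_ins h.asym H
  rw [← card_sf] at h2
  have hbig := h.str.red.big
  have hsub := Finset.card_le_card h.str.red.sub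
  have hA := h.str.red.card
  have hK := Finset.card_le_card (sf_mono h.str.HK)
  have hh := sf_card_pos H
  refine ⟨?_, hlo, hhi, h3, ?_, ?_, h.str.M0, hh, hK⟩
  · generalize (sf K).card * Q = P at *
    omega
  · omega
  · omega

/-- `H ≠ K`: `2 |H| ≤ |K|` (index at least `2`; Lagrange `AddSubgroup.card_dvd_of_le`, or
`half_card` in Rho.Main). -/
theorem two_card_le {H K : AddSubgroup (ZMod n)} (h : H ≤ K) (hne : H ≠ K) :
    2 * (sf H).card ≤ (sf K).card :=
  half_card (lt_of_le_of_ne h hne)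

end Pool.Agent.helper43.Ex
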