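import Pool.Agent.helper43.Ex.Defs

/-! EX-Dbl: a symmetric set in `G × ℝ` with small sumset (2.5 of the paper proof). -/

open Finset Pool.Agent.helper43.Rho Pool.Agent.helper43.Asy

set_option linter.unusedSectionVars false

namespace Pool.Agent.helper43.Ex

private theorem Dbl_half {Q : Type*} [AddCommGroup Q] [DecidableEq Q] {B : Finset Q}
    (hs : ∀ b ∈ B, -b ∈ B) (hc : 2 * (sumS B B).card < 3 * B.card) {x : Q}
    (hx : x ∈ sumS B B) : B.card < 2 * (B.filter (fun t => t - x ∈ B)).card := by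
  classical
  obtain ⟨a, ha, a', ha', rfl⟩ := mem_sumS.1 hx
  set U : Finset Q := B.image (fun t => t + a) with hU
  set V : Finset Q := B.image (fun t => t - a') with hV
  have hUc : U.card = B.card := Finset.card_image_of_injective _ (fun s t h => by simpa using h)
  have hVc : V.card = B.card := Finset.card_image_of_injective _ (fun s t h => by simpa using h)
  have hUV : U ∪ V ⊆ sumS B B := by
    intro z hz
    rcases Finset.mem_union.1 hz with h | h
    · obtain ⟨t, ht, rfl⟩ := Finset.mem_image.1 h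
      exact mem_sumS.2 ⟨t, ht, a, ha, rfl⟩
    · obtain ⟨t, ht, rfl⟩ := Finset.mem_image.1 h
      exact mem_sumS.2 ⟨t, ht, -a', hs _ ha', by rw [sub_eq_add_neg]⟩
  have h1 := Finset.card_union_add_card_inter U V
  have h2 := Finset.card_le_card hUV
  have h3 : (U ∩ V).card ≤ (B.filter (fun t => t - (a + a') ∈ B)).card := by
    refine Finset.card_le_card_of_injOn (fun z => z + a') ?_ (fun s _ t _ h => by simpa using h)
    intro z hz
    obtain ⟨hz1, hz2⟩ := Finset.mem_inter.1 (Finset.mem_coe.1 hz)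
    obtain ⟨t, ht, rfl⟩ := Finset.mem_image.1 hz1
    obtain ⟨u, hu, huz⟩ := Finset.mem_image.1 hz2
    have e1 : t + a + a' = u := by
      rw [← huz]; abel
    refine Finset.mem_coe.2 (Finset.mem_filter.2 ⟨by show t + a + a' ∈ B; rw [e1]; exact hu, ?_⟩)
    show t + a + a' - (a + a') ∈ B
    have e2 : t + a + a' - (a + a') = t := by abel
    rw [e2]; exact ht
  omega

/-- `|B + B| < (3/2) |B|`, `B = -B`. For `a, b ∈ B` the translates `B + a`, `B + b` are in `B + B`,
so they have more than `|B| / 2` common elements; in other words for `x = a - b` more than half of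
the `t ∈ B` have `t - x ∈ B` (and, replacing `x` by `-x`, more than half have `t + x ∈ B`). Let
`x, y ∈ B + B = B - B`. There is `t ∈ B` with `t - x ∈ B` and `t + y ∈ B`, so
`x + y = (t + y) - (t - x) ∈ B - B = B + B`. (This is also `Finset.invMulSubgroup` of
Mathlib.Combinatorics.Additive.VerySmallDoubling.) -/
theorem sym_double {Q : Type*} [AddCommGroup Q] [DecidableEq Q] {B : Finset Q}
    (hs : ∀ b ∈ B, -b ∈ B) (hc : 2 * (sumS B B).card < 3 * B.card) {x y : Q}
    (hx : x ∈ sumS B B) (hy : y ∈ sumS B B) : x + y ∈ sumS B B := by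
  classical
  have hny : -y ∈ sumS B B := by
    obtain ⟨a, ha, a', ha', rfl⟩ := mem_sumS.1 hy
    exact mem_sumS.2 ⟨-a, hs _ ha, -a', hs _ ha', by abel⟩
  have h1 := Dbl_half hs hc hx
  have h2 := Dbl_half hs hc hny
  have h3 := Finset.card_union_add_card_inter (B.filter (fun t => t - x ∈ B))
    (B.filter (fun t => t - -y ∈ B))
  have h4 : ((B.filter (fun t => t - x ∈ B)) ∪ (B.filter (fun t => t - -y ∈ B))).card ≤ B.card :=
    Finset.card_le_card (Finset.union_subset (Finset.filter_subset _ _) (Finset.filter_subset _ _))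
  have h5 : ((B.filter (fun t => t - x ∈ B)) ∩ (B.filter (fun t => t - -y ∈ B))).Nonempty := by
    rw [← Finset.card_pos]; omega
  obtain ⟨t, ht⟩ := h5
  obtain ⟨ht1, ht2⟩ := Finset.mem_inter.1 ht
  have k1 := (Finset.mem_filter.1 ht1).2
  have k2 := (Finset.mem_filter.1 ht2).2
  refine mem_sumS.2 ⟨t - -y, k2, -(t - x), hs _ k1, by abel⟩

variable {G : Type*} [AddCommGroup G] [DecidableEq G]

open scoped Classical in
/-- `P' = P + P`, `π : G × ℝ → (G × ℝ) ⧸ zmultiples P'`, `B = π (A)`, `T` = the filter in `hcard`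
(the top).
* `π` is injective on `A \ T`: `a - b = k P'`, real parts: `a.2, b.2 ∈ [-P.2, P.2)`, so
  `|a.2 - b.2| < 2 P.2` and `k = 0`. So `|B| ≥ |A| - |T|`.
* `|B + B| + |A| ≤ |A + A|`: `B + B = π (A + A)`. For `z ∈ B + B` let `s z` be the element of
  `A + A` over `z` with the smallest real part. `s z` is not in the translate `A + P` of `A`:
  otherwise `s z = a + P`, and `s z - P' = a + (-P)` is in `A + A`, over the same `z`, with a
  smaller real part. So `s` is an injective map from `B + B` into `(A + A) \ (A + P)`, and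
  `A + P ⊆ A + A` has `|A|` elements.
* So `2 |B + B| ≤ 2 |A + A| - 2 |A| < 3 |A| - 3 |T| ≤ 3 |B|`, and by `sym_double` `B + B` is closed
  under addition; it is symmetric and contains `0` (`0 ∈ A`). `W` = the preimage of `B + B` under
  `π`. `A ⊆ W` since `a = a + 0`. An element of `W` is congruent to some `a + b`. `F` maps
  injectively into `B + B`. -/
theorem dbl {A : Finset (G × ℝ)} (hs : ∀ a ∈ A, -a ∈ A) (h0 : (0 : G × ℝ) ∈ A) {P : G × ℝ}
    (hP : P ∈ A) (hP2 : 0 < P.2) (hmax : ∀ a ∈ A, a.2 ≤ P.2)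
    (hcard : 2 * (sumS A A).card + 3 * (A.filter (fun a => a.2 = P.2)).card < 5 * A.card) :
    ∃ W : AddSubgroup (G × ℝ), (∀ a ∈ A, a ∈ W) ∧
      (∀ x ∈ W, ∃ a ∈ A, ∃ b ∈ A, ∃ k : ℤ, x = a + b + k • (P + P)) ∧
      ∀ F : Finset (G × ℝ), (∀ x ∈ F, x ∈ W) →
        (∀ x ∈ F, ∀ y ∈ F, ∀ k : ℤ, x - y = k • (P + P) → x = y) →
        F.card + A.card ≤ (sumS A A).card := by
  set N : AddSubgroup (G × ℝ) := AddSubgroup.zmultiples (P + P) with hN
  let π : (G × ℝ) →+ ((G × ℝ) ⧸ N) := QuotientAddGroup.mk' N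
  have hπ : ∀ x y : G × ℝ, π x = π y ↔ ∃ k : ℤ, x - y = k • (P + P) := by
    intro x y
    have e : π x = π y ↔ x - y ∈ N := by
      constructor
      · intro h
        have h' : π (x - y) = 0 := by rw [map_sub, h, sub_self]
        exact (QuotientAddGroup.eq_zero_iff (x - y)).1 h'
      · intro h
        have h' : π (x - y) = 0 := (QuotientAddGroup.eq_zero_iff (x - y)).2 h
        rw [map_sub] at h'
        exact sub_eq_zero.1 h'
    rw [e, hN, AddSubgroup.mem_zmultiples_iff]
    exact ⟨fun ⟨k, hk⟩ => ⟨k, hk.symm⟩, fun ⟨k, hk⟩ => ⟨k, hk.symm⟩⟩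
  set B : Finset ((G × ℝ) ⧸ N) := A.image π with hB
  have hBs : ∀ b ∈ B, -b ∈ B := by
    intro b hb
    obtain ⟨a, ha, rfl⟩ := Finset.mem_image.1 hb
    exact Finset.mem_image.2 ⟨-a, hs a ha, map_neg π a⟩
  have hBB : ∀ z, z ∈ sumS B B ↔ ∃ c ∈ sumS A A, π c = z := by
    intro z
    constructor
    · intro hz
      obtain ⟨b, hb, b', hb', rfl⟩ := mem_sumS.1 hz
      obtain ⟨a, ha, rfl⟩ := Finset.mem_image.1 hb
      obtain ⟨a', ha', rfl⟩ := Finset.mem_image.1 hb'
      exact ⟨a + a', mem_sumS.2 ⟨a, ha, a', ha', rfl⟩, map_add π a a'⟩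
    · rintro ⟨c, hc, rfl⟩
      obtain ⟨a, ha, a', ha', rfl⟩ := mem_sumS.1 hc
      exact mem_sumS.2 ⟨π a, Finset.mem_image_of_mem _ ha, π a', Finset.mem_image_of_mem _ ha',
        (map_add π a a').symm⟩
  -- (1)
  have hlow : ∀ a ∈ A, -P.2 ≤ a.2 := by
    intro a ha
    have := hmax _ (hs a ha)
    simp only [Prod.snd_neg] at this
    linarith
  have hcB : A.card ≤ B.card + (A.filter (fun a => a.2 = P.2)).card := by
    have h1 : (A.filter (fun a => a.2 = P.2)).card + (A.filter (fun a => ¬ a.2 = P.2)).card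
        = A.card := Finset.card_filter_add_card_filter_not _
    have h2 : (A.filter (fun a => ¬ a.2 = P.2)).card ≤ B.card := by
      refine Finset.card_le_card_of_injOn π ?_ ?_
      · intro a ha
        have ha' := (Finset.mem_filter.1 (Finset.mem_coe.1 ha)).1
        exact Finset.mem_coe.2 (Finset.mem_image_of_mem _ ha')
      · intro a ha b hb hab
        obtain ⟨ha1, ha2⟩ := Finset.mem_filter.1 (Finset.mem_coe.1 ha)
        obtain ⟨hb1, hb2⟩ := Finset.mem_filter.1 (Finset.mem_coe.1 hb)
        obtain ⟨k, hk⟩ := (hπ a b).1 hab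
        have hk2 : a.2 - b.2 = (k : ℝ) * (P.2 + P.2) := by
          have := congrArg Prod.snd hk
          simp only [Prod.snd_sub, Prod.snd_add, Prod.smul_snd, zsmul_eq_mul] at this
          exact this
        have ha3 := lt_of_le_of_ne (hmax a ha1) ha2
        have hb3 := lt_of_le_of_ne (hmax b hb1) hb2
        have ha4 := hlow a ha1
        have hb4 := hlow b hb1
        have hk0 : k = 0 := by
          rcases lt_trichotomy k 0 with h | h | h
          · exfalso
            have : (k : ℝ) ≤ -1 := by exact_mod_cast (by omega : k ≤ -1)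
            nlinarith
          · exact h
          · exfalso
            have : (1 : ℝ) ≤ k := by exact_mod_cast (by omega : 1 ≤ k)
            nlinarith
        rw [hk0, zero_smul] at hk
        exact sub_eq_zero.1 hk
    omega
  -- (2)
  have hcBB : (sumS B B).card + A.card ≤ (sumS A A).card := by
    set AP : Finset (G × ℝ) := A.image (fun a => a + P) with hAP
    have hAPc : AP.card = A.card :=
      Finset.card_image_of_injective _ (fun s t h => by simpa using h)
    have hAPs : AP ⊆ sumS A A := by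
      intro z hz
      obtain ⟨a, ha, rfl⟩ := Finset.mem_image.1 hz
      exact mem_sumS.2 ⟨a, ha, P, hP, rfl⟩
    have hsub : sumS B B ⊆ (sumS A A \ AP).image π := by
      intro z hz
      obtain ⟨c, hc, hcz⟩ := (hBB z).1 hz
      obtain ⟨d, hd, hmin⟩ := Finset.exists_min_image ((sumS A A).filter (fun c => π c = z))
        (fun c => c.2) ⟨c, Finset.mem_filter.2 ⟨hc, hcz⟩⟩
      obtain ⟨hd1, hd2⟩ := Finset.mem_filter.1 hd
      refine Finset.mem_image.2 ⟨d, Finset.mem_sdiff.2 ⟨hd1, ?_⟩, hd2⟩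
      intro hdAP
      obtain ⟨a, ha, had⟩ := Finset.mem_image.1 hdAP
      have had' : a + P = d := had
      have h1 : a + -P ∈ sumS A A := mem_sumS.2 ⟨a, ha, -P, hs P hP, rfl⟩
      have h2 : π (a + -P) = z := by
        rw [← hd2, ← had']
        refine (hπ _ _).2 ⟨-1, ?_⟩
        rw [neg_one_zsmul]; abel
      have h3 := hmin (a + -P) (Finset.mem_filter.2 ⟨h1, h2⟩)
      rw [← had'] at h3
      simp only [Prod.snd_add, Prod.snd_neg] at h3
      linarith
    have h1 := (Finset.card_le_card hsub).trans Finset.card_image_le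
    have h2 : (sumS A A \ AP).card + AP.card = (sumS A A).card :=
      Finset.card_sdiff_add_card_eq_card hAPs
    omega
  have hBd : 2 * (sumS B B).card < 3 * B.card := by omega
  let W : AddSubgroup (G × ℝ) :=
    { carrier := {x | π x ∈ sumS B B}
      zero_mem' := by
        refine (hBB _).2 ⟨0, mem_sumS.2 ⟨0, h0, 0, h0, add_zero 0⟩, rfl⟩
      add_mem' := by
        intro x y hx hy
        have hx' : π x ∈ sumS B B := hx
        have hy' : π y ∈ sumS B B := hy
        show π (x + y) ∈ sumS B B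
        rw [map_add]
        exact sym_double hBs hBd hx' hy'
      neg_mem' := by
        intro x hx
        have hx' : π x ∈ sumS B B := hx
        show π (-x) ∈ sumS B B
        rw [map_neg]
        obtain ⟨a, ha, a', ha', h⟩ := mem_sumS.1 hx'
        refine mem_sumS.2 ⟨-a, hBs _ ha, -a', hBs _ ha', ?_⟩
        rw [← h]; abel }
  have hW : ∀ x, x ∈ W ↔ π x ∈ sumS B B := fun x => Iff.rfl
  refine ⟨W, ?_, ?_, ?_⟩
  · intro a ha
    rw [hW]
    exact (hBB _).2 ⟨a, mem_sumS.2 ⟨a, ha, 0, h0, add_zero a⟩, rfl⟩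
  · intro x hx
    rw [hW] at hx
    obtain ⟨c, hc, hcx⟩ := (hBB _).1 hx
    obtain ⟨a, ha, b, hb, rfl⟩ := mem_sumS.1 hc
    obtain ⟨k, hk⟩ := (hπ x (a + b)).1 hcx.symm
    exact ⟨a, ha, b, hb, k, by rw [← hk]; abel⟩
  · intro F hF hinj
    have h1 : F.card ≤ (sumS B B).card := by
      refine Finset.card_le_card_of_injOn π ?_ ?_
      · intro x hx
        exact Finset.mem_coe.2 ((hW x).1 (hF x (Finset.mem_coe.1 hx)))
      · intro x hx y hy hxy
        obtain ⟨k, hk⟩ := (hπ x y).1 hxy
        exact hinj x (Finset.mem_coe.1 hx) y (Finset.mem_coe.1 hy) k hk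
    omega

end Pool.Agent.helper43.Ex
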