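import Pool.Agent.helper43.Ex.Defs

/-! EX-Ext: a subgroup of `G × ℝ` of finite index over a cyclic group (2.6 of the paper
proof). -/

open Finset Pool.Agent.helper43.Rho Pool.Agent.helper43.Asy

set_option linter.unusedSectionVars false

namespace Pool.Agent.helper43.Ex

variable {G : Type*} [AddCommGroup G] [DecidableEq G] [Fintype G]

/-- `W` is a subgroup of `G × ℝ`, `P ∈ W`, `P.2 > 0`, and at most `b` elements of `W` can be
pairwise incongruent modulo `P + P`. Let `w = P.2`. For `x ∈ W` the `b + 1` elements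
`0, x, ..., b x` of `W` are not pairwise incongruent (or not distinct), so there is `1 ≤ e ≤ b`
with `e x = k (P + P)`, `e x.2 = 2 k w`; hence `b! x.2` is an integer multiple of `2 w`. (`b ≥ 1`:
take `F = {0}`.) Let `k0 ≥ 1` be the smallest positive integer such that some `(c, w0) ∈ W` has
`b! w0 = 2 k0 w` (`P + P ∈ W` shows that there is one); `w0 > 0`. For `x ∈ W`,
`b! x.2 = 2 k' w`, `k' = j k0 + r`, `0 ≤ r < k0`, the element `x - j (c, w0)` has
`b!` (real part) `= 2 r w`, so `r = 0`: `x.2 = j w0`, and `x - j (c, w0) = (x.1 - j c, 0) ∈ W`.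
`K = {t : (t, 0) ∈ W}`. For `x = P + P`: `2 w = l w0`, `l ≥ 1`. The `|K| l` elements
`(t + j c, j w0)`, `t ∈ K`, `0 ≤ j < l`, are in `W` and pairwise incongruent modulo `P + P` (real
parts differ by less than `l w0 = 2 w`, so they are equal, then `j = j'`, `t = t'`). -/
theorem extract {W : AddSubgroup (G × ℝ)} {P : G × ℝ} (hP : P ∈ W) (hP2 : 0 < P.2) {b : ℕ}
    (hb : ∀ F : Finset (G × ℝ), (∀ x ∈ F, x ∈ W) →
      (∀ x ∈ F, ∀ y ∈ F, ∀ k : ℤ, x - y = k • (P + P) → x = y) → F.card ≤ b) :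
    ∃ (K : AddSubgroup G) (c : G) (w0 : ℝ) (l : ℕ), 0 < w0 ∧ 1 ≤ l ∧
      2 * P.2 = l * w0 ∧ (∀ t, t ∈ K ↔ (t, (0 : ℝ)) ∈ W) ∧ (c, w0) ∈ W ∧
      (∀ x ∈ W, ∃ j : ℤ, x.2 = j * w0 ∧ x.1 - j • c ∈ K) ∧ (sf K).card * l ≤ b := by
  classical
  have hFpos : 0 < b.factorial := Nat.factorial_pos b
  have hFposR : (0 : ℝ) < (b.factorial : ℝ) := by exact_mod_cast hFpos
  -- step 1
  have h1 : ∀ x ∈ W, ∃ k : ℤ, (b.factorial : ℝ) * x.2 = k * (2 * P.2) := by
    intro x hx
    by_contra hcon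
    have aux : ∀ i ≤ b, ∀ j ≤ b, j < i → ∀ k : ℤ, i • x - j • x = k • (P + P) → False := by
      intro i hi j hj hji k hk
      apply hcon
      have hr : ((i : ℝ) - j) * x.2 = k * (2 * P.2) := by
        have h := congrArg Prod.snd hk
        simp only [Prod.snd_sub, Prod.smul_snd, Prod.snd_add, nsmul_eq_mul, zsmul_eq_mul] at h
        linarith
      have hdvd : (i - j) ∣ b.factorial :=
        Nat.dvd_factorial (by omega) (by omega)
      obtain ⟨q, hq⟩ := hdvd
      refine ⟨q * k, ?_⟩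
      have hq' : (b.factorial : ℝ) = ((i : ℝ) - j) * q := by
        rw [hq, Nat.cast_mul, Nat.cast_sub hji.le]
      rw [hq']
      push_cast
      calc ((i : ℝ) - j) * q * x.2 = q * (((i : ℝ) - j) * x.2) := by ring
        _ = q * k * (2 * P.2) := by rw [hr]; ring
    have key : ∀ i ≤ b, ∀ j ≤ b, ∀ k : ℤ, i • x - j • x = k • (P + P) → i = j := by
      intro i hi j hj k hk
      rcases lt_trichotomy i j with h | h | h
      · refine (aux j hj i hi h (-k) ?_).elim
        rw [neg_smul, ← hk, neg_sub]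
      · exact h
      · exact (aux i hi j hj h k hk).elim
    have hinj : Set.InjOn (fun i : ℕ => i • x) (range (b + 1) : Set ℕ) := by
      intro i hi j hj hij
      have hi' : i ≤ b := by
        have := Finset.mem_range.1 (Finset.mem_coe.1 hi); omega
      have hj' : j ≤ b := by
        have := Finset.mem_range.1 (Finset.mem_coe.1 hj); omega
      refine key i hi' j hj' 0 ?_
      have hij' : i • x = j • x := hij
      rw [hij', sub_self, zero_smul]
    have hcard : ((range (b + 1)).image (fun i : ℕ => i • x)).card = b + 1 := by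
      rw [card_image_of_injOn hinj, card_range]
    have hle := hb ((range (b + 1)).image (fun i : ℕ => i • x)) (by
      intro y hy
      obtain ⟨i, _, rfl⟩ := mem_image.1 hy
      exact W.nsmul_mem hx i) (by
      intro y hy z hz k hk
      obtain ⟨i, hi, rfl⟩ := mem_image.1 hy
      obtain ⟨j, hj, rfl⟩ := mem_image.1 hz
      have hi' : i ≤ b := by
        have := Finset.mem_range.1 hi; omega
      have hj' : j ≤ b := by
        have := Finset.mem_range.1 hj; omega
      rw [key i hi' j hj' k hk])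
    omega
  -- step 2
  have hex : ∃ k : ℕ, 0 < k ∧ ∃ y ∈ W, (b.factorial : ℝ) * y.2 = k * (2 * P.2) := by
    refine ⟨b.factorial, hFpos, P + P, W.add_mem hP hP, ?_⟩
    rw [Prod.snd_add]
    ring
  obtain ⟨hk0, y, hyW, hy⟩ := Nat.find_spec hex
  set k0 := Nat.find hex with hk0def
  have hk0R : (0 : ℝ) < (k0 : ℝ) := by exact_mod_cast hk0
  have hw0 : 0 < y.2 := by
    have h : 0 < (b.factorial : ℝ) * y.2 := by
      rw [hy]; positivity
    exact (pos_iff_pos_of_mul_pos h).1 hFposR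
  -- step 3
  have h3 : ∀ x ∈ W, ∃ j : ℤ, x.2 = j * y.2 ∧ (x.1 - j • y.1, (0 : ℝ)) ∈ W := by
    intro x hx
    obtain ⟨k', hk'⟩ := h1 x hx
    have hzW : x - (k' / (k0 : ℤ)) • y ∈ W := W.sub_mem hx (W.zsmul_mem hyW _)
    have hz : (b.factorial : ℝ) * (x - (k' / (k0 : ℤ)) • y).2
        = ((k' % (k0 : ℤ) : ℤ) : ℝ) * (2 * P.2) := by
      have hdiv : (k' : ℝ) = ((k0 : ℤ) : ℝ) * ((k' / (k0 : ℤ) : ℤ) : ℝ)
          + ((k' % (k0 : ℤ) : ℤ) : ℝ) := by
        exact_mod_cast (Int.mul_ediv_add_emod k' (k0 : ℤ)).symm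
      rw [Prod.snd_sub, Prod.smul_snd, zsmul_eq_mul]
      calc (b.factorial : ℝ) * (x.2 - ((k' / (k0 : ℤ) : ℤ) : ℝ) * y.2)
          = (b.factorial : ℝ) * x.2
            - ((k' / (k0 : ℤ) : ℤ) : ℝ) * ((b.factorial : ℝ) * y.2) := by ring
        _ = k' * (2 * P.2) - ((k' / (k0 : ℤ) : ℤ) : ℝ) * (k0 * (2 * P.2)) := by rw [hk', hy]
        _ = ((k' % (k0 : ℤ) : ℤ) : ℝ) * (2 * P.2) := by
            rw [hdiv]; push_cast; ring
    have hr0 : 0 ≤ k' % (k0 : ℤ) := Int.emod_nonneg _ (by exact_mod_cast hk0.ne')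
    have hrlt : k' % (k0 : ℤ) < k0 := Int.emod_lt_of_pos _ (by exact_mod_cast hk0)
    have hr : k' % (k0 : ℤ) = 0 := by
      by_contra hne
      have hpos : 0 < k' % (k0 : ℤ) := lt_of_le_of_ne hr0 (Ne.symm hne)
      have hmin := Nat.find_min hex (m := (k' % (k0 : ℤ)).toNat) (by
        rw [← hk0def]; omega)
      apply hmin
      refine ⟨by omega, _, hzW, ?_⟩
      rw [hz]
      congr 1
      have : (((k' % (k0 : ℤ)).toNat : ℤ) : ℝ) = ((k' % (k0 : ℤ) : ℤ) : ℝ) := by
        rw [Int.toNat_of_nonneg hr0]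
      rw [← this]
      push_cast
      rfl
    have hz0 : (x - (k' / (k0 : ℤ)) • y).2 = 0 := by
      rw [hr] at hz
      have : (b.factorial : ℝ) * (x - (k' / (k0 : ℤ)) • y).2 = 0 := by
        rw [hz]; simp
      exact (mul_eq_zero.1 this).resolve_left hFposR.ne'
    refine ⟨k' / (k0 : ℤ), ?_, ?_⟩
    · rw [Prod.snd_sub, Prod.smul_snd, zsmul_eq_mul] at hz0
      linarith
    · have he : (x.1 - (k' / (k0 : ℤ)) • y.1, (0 : ℝ)) = x - (k' / (k0 : ℤ)) • y := by
        refine Prod.ext ?_ ?_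
        · simp
        · exact hz0.symm
      rw [he]
      exact hzW
  -- step 4
  obtain ⟨l', hl', -⟩ := h3 (P + P) (W.add_mem hP hP)
  have hl'2 : 2 * P.2 = (l' : ℝ) * y.2 := by
    rw [Prod.snd_add] at hl'
    linarith
  have hl'pos : 0 < l' := by
    have h : 0 < (l' : ℝ) * y.2 := by
      rw [← hl'2]; positivity
    have h2 : 0 < (l' : ℝ) := (pos_iff_pos_of_mul_pos h).2 hw0
    exact_mod_cast h2
  obtain ⟨l, rfl⟩ := Int.eq_ofNat_of_zero_le hl'pos.le
  have hlR : 2 * P.2 = (l : ℝ) * y.2 := by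
    rw [hl'2]; push_cast; rfl
  have hl1 : 1 ≤ l := by exact_mod_cast hl'pos
  refine ⟨W.comap (AddMonoidHom.inl G ℝ), y.1, y.2, l, hw0, hl1, hlR, fun t => Iff.rfl, hyW,
    fun x hx => ?_, ?_⟩
  · obtain ⟨j, hj1, hj2⟩ := h3 x hx
    exact ⟨j, hj1, hj2⟩
  -- step 5
  set K : AddSubgroup G := W.comap (AddMonoidHom.inl G ℝ) with hK
  have hinj : Set.InjOn (fun p : G × ℕ => ((p.1 + (p.2 : ℤ) • y.1, (p.2 : ℝ) * y.2) : G × ℝ))
      ((sf K ×ˢ range l : Finset (G × ℕ)) : Set (G × ℕ)) := by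
    rintro ⟨t, j⟩ _ ⟨t', j'⟩ _ h
    have h2 : (j : ℝ) * y.2 = (j' : ℝ) * y.2 := congrArg Prod.snd h
    have h1' : t + (j : ℤ) • y.1 = t' + (j' : ℤ) • y.1 := congrArg Prod.fst h
    have hjj : j = j' := by
      have := mul_right_cancel₀ hw0.ne' h2
      exact_mod_cast this
    subst hjj
    have htt : t = t' := add_right_cancel h1'
    rw [htt]
  have hcard : ((sf K ×ˢ range l).image
      (fun p : G × ℕ => ((p.1 + (p.2 : ℤ) • y.1, (p.2 : ℝ) * y.2) : G × ℝ))).card
      = (sf K).card * l := by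
    rw [card_image_of_injOn hinj, card_product, card_range]
  rw [← hcard]
  refine hb _ ?_ ?_
  · intro x hx
    obtain ⟨⟨t, j⟩, hp, rfl⟩ := mem_image.1 hx
    have ht : (t, (0 : ℝ)) ∈ W := (mem_sf t).1 (mem_product.1 hp).1
    have he : ((t + (j : ℤ) • y.1, (j : ℝ) * y.2) : G × ℝ) = (t, (0 : ℝ)) + (j : ℤ) • y := by
      refine Prod.ext ?_ ?_
      · simp
      · simp
    show ((t + (j : ℤ) • y.1, (j : ℝ) * y.2) : G × ℝ) ∈ W
    rw [he]
    exact W.add_mem ht (W.zsmul_mem hyW _)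
  · intro x hx x' hx' k hk
    obtain ⟨⟨t, j⟩, hp, rfl⟩ := mem_image.1 hx
    obtain ⟨⟨t', j'⟩, hp', rfl⟩ := mem_image.1 hx'
    have hj : j < l := Finset.mem_range.1 (mem_product.1 hp).2
    have hj' : j' < l := Finset.mem_range.1 (mem_product.1 hp').2
    have h2 := congrArg Prod.snd hk
    simp only [Prod.snd_sub, Prod.smul_snd, Prod.snd_add, zsmul_eq_mul] at h2
    have h3' : ((j : ℝ) - j') * y.2 = (k * l : ℝ) * y.2 := by
      have : (k : ℝ) * (P.2 + P.2) = (k * l : ℝ) * y.2 := by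
        rw [mul_assoc, ← hlR]; ring
      rw [← this, ← h2]; ring
    have h4 := mul_right_cancel₀ hw0.ne' h3'
    have h5 : (j : ℤ) - j' = k * l := by exact_mod_cast h4
    have hk0' : k = 0 := by
      by_contra hne
      have h6 : (l : ℤ) ≤ |k * l| := by
        rw [abs_mul, Nat.abs_cast]
        have : 1 ≤ |k| := Int.one_le_abs hne
        nlinarith
      have h7 : |(j : ℤ) - j'| < l := by
        rw [abs_lt]; constructor <;> omega
      rw [h5] at h7
      omega
    rw [hk0', zero_smul] at hk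
    exact sub_eq_zero.1 hk

end Pool.Agent.helper43.Ex
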