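import Mathlib

/-! EX-Fou: Fourier analysis on a finite abelian group. -/

open Finset

set_option linter.unusedSectionVars false

namespace Pool.Agent.helper43.Ex

variable {G : Type*} [AddCommGroup G] [DecidableEq G] [Fintype G]

/-- the Fourier transform (without conjugation) of a real function -/
noncomputable def ft (f : G → ℝ) (χ : AddChar G ℂ) : ℂ := ∑ x, (f x : ℂ) * χ x

theorem Fou_conj (f : G → ℝ) (χ : AddChar G ℂ) :
    (starRingEnd ℂ) (ft f χ) = ∑ x, (f x : ℂ) * χ (-x) := by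
  unfold ft
  rw [map_sum]
  refine Finset.sum_congr rfl fun x _ => ?_
  rw [map_mul, Complex.conj_ofReal, AddChar.map_neg_eq_conj]

/-- `‖ft f χ‖^2 = (∑_y f y χ y) (∑_x f x χ (-x)) = ∑_x ∑_t f (x + t) f x χ t`, with
`y = x + t`. -/
theorem ft_corr (f : G → ℝ) (χ : AddChar G ℂ) :
    ((‖ft f χ‖ ^ 2 : ℝ) : ℂ) = ft (fun t => ∑ x, f (x + t) * f x) χ := by
  rw [Complex.ofReal_pow, ← Complex.mul_conj', Fou_conj]
  unfold ft
  rw [Finset.sum_mul_sum, Finset.sum_comm]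
  have h1 : ∀ x : G, (∑ y, (f y : ℂ) * χ y * ((f x : ℂ) * χ (-x))) =
      ∑ t, (f (x + t) : ℂ) * (f x : ℂ) * χ t := by
    intro x
    rw [← Equiv.sum_comp (Equiv.addLeft x)]
    refine Finset.sum_congr rfl fun t _ => ?_
    rw [Equiv.coe_addLeft]
    have h2 : χ t = χ (x + t) * χ (-x) := by
      rw [← AddChar.map_add_eq_mul]
      congr 1
      abel
    rw [h2]
    ring
  rw [Finset.sum_congr rfl fun x _ => h1 x, Finset.sum_comm]
  refine Finset.sum_congr rfl fun t _ => ?_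
  rw [Complex.ofReal_sum, Finset.sum_mul]
  refine Finset.sum_congr rfl fun x _ => ?_
  rw [Complex.ofReal_mul]

/-- Expand: `‖ft f χ‖^2 = ∑_{x, y} f x f y χ (x - y)` (the conjugate of `χ y` is `χ (-y)`,
`AddChar.map_neg_eq_conj`), exchange the sums, and `AddChar.sum_apply_eq_ite`. (Or from `ft_corr`:
sum over all `χ`, only `t = 0` survives.) -/
theorem parseval (f : G → ℝ) :
    ∑ χ : AddChar G ℂ, ‖ft f χ‖ ^ 2 = Fintype.card G * ∑ x, f x ^ 2 := by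
  have h1 : ((∑ χ : AddChar G ℂ, ‖ft f χ‖ ^ 2 : ℝ) : ℂ) =
      ((Fintype.card G * ∑ x, f x ^ 2 : ℝ) : ℂ) := by
    rw [Complex.ofReal_sum, Finset.sum_congr rfl fun χ _ => ft_corr f χ]
    unfold ft
    rw [Finset.sum_comm]
    have h2 : ∀ t : G, (∑ χ : AddChar G ℂ, (((∑ x, f (x + t) * f x : ℝ) : ℂ)) * χ t) =
        if t = 0 then ((∑ x, f (x + t) * f x : ℝ) : ℂ) * (Fintype.card G : ℂ) else 0 := by
      intro t
      rw [← Finset.mul_sum, AddChar.sum_apply_eq_ite]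
      split_ifs
      · rfl
      · rw [mul_zero]
    rw [Finset.sum_congr rfl fun t _ => h2 t, Finset.sum_ite_eq' Finset.univ (0 : G),
      if_pos (Finset.mem_univ _)]
    rw [Complex.ofReal_mul, mul_comm, Complex.ofReal_natCast]
    congr 2
    refine Finset.sum_congr rfl fun x _ => ?_
    rw [add_zero, sq]
  exact_mod_cast h1

/-- Let `χ` maximise `‖ft f χ‖^2` (`Finset.exists_max_image`). With `c t = ∑_x f (x + t) f x`:
`|G| ∑ c^2 = ∑_χ ‖ft c χ‖^2 = ∑_χ ‖ft f χ‖^4 ≤ max ‖ft f χ‖^2 * ∑_χ ‖ft f χ‖^2 =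
max ‖ft f χ‖^2 * |G| ∑ f^2`. -/
theorem exists_big (f : G → ℝ) :
    ∃ χ : AddChar G ℂ, ∑ t, (∑ x, f (x + t) * f x) ^ 2 ≤ ‖ft f χ‖ ^ 2 * ∑ x, f x ^ 2 := by
  obtain ⟨χ, _, hχ⟩ := Finset.exists_max_image (Finset.univ : Finset (AddChar G ℂ))
    (fun χ => ‖ft f χ‖ ^ 2) ⟨1, Finset.mem_univ _⟩
  refine ⟨χ, ?_⟩
  have h1 := parseval (fun t : G => ∑ x, f (x + t) * f x)
  have h2 := parseval f
  have h3 : ∀ ψ : AddChar G ℂ, ‖ft (fun t => ∑ x, f (x + t) * f x) ψ‖ = ‖ft f ψ‖ ^ 2 := by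
    intro ψ
    rw [← ft_corr, Complex.norm_real, Real.norm_of_nonneg (sq_nonneg _)]
  have hcard : (0 : ℝ) < Fintype.card G := by
    exact_mod_cast Fintype.card_pos_iff.2 ⟨(0 : G)⟩
  have h4 : ∑ ψ : AddChar G ℂ, ‖ft (fun t => ∑ x, f (x + t) * f x) ψ‖ ^ 2 ≤
      ‖ft f χ‖ ^ 2 * ∑ ψ : AddChar G ℂ, ‖ft f ψ‖ ^ 2 := by
    rw [Finset.mul_sum]
    refine Finset.sum_le_sum fun ψ _ => ?_
    rw [h3 ψ, sq (‖ft f ψ‖ ^ 2)]
    exact mul_le_mul_of_nonneg_right (hχ ψ (Finset.mem_univ _)) (sq_nonneg _)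
  rw [h1, h2] at h4
  have h5 : (Fintype.card G : ℝ) * ∑ t, (∑ x, f (x + t) * f x) ^ 2 ≤
      (Fintype.card G : ℝ) * (‖ft f χ‖ ^ 2 * ∑ x, f x ^ 2) := by
    calc (Fintype.card G : ℝ) * ∑ t, (∑ x, f (x + t) * f x) ^ 2
        ≤ ‖ft f χ‖ ^ 2 * (Fintype.card G * ∑ x, f x ^ 2) := h4
      _ = (Fintype.card G : ℝ) * (‖ft f χ‖ ^ 2 * ∑ x, f x ^ 2) := by ring
  exact le_of_mul_le_mul_left h5 hcard

/-- `χ t ft f χ = ∑_x f x χ (x + t) = ∑_y f (y - t) χ y`, so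
`‖(χ t - 1) ft f χ‖ ≤ ∑_y |f (y - t) - f y|`. -/
theorem ft_shift (f : G → ℝ) (χ : AddChar G ℂ) (t : G) :
    ‖χ t - 1‖ * ‖ft f χ‖ ≤ ∑ y, |f (y - t) - f y| := by
  have h1 : χ t * ft f χ = ∑ y, (f (y - t) : ℂ) * χ y := by
    unfold ft
    rw [Finset.mul_sum, ← Equiv.sum_comp (Equiv.subRight t)]
    refine Finset.sum_congr rfl fun y _ => ?_
    rw [Equiv.subRight_apply]
    have h2 : χ y = χ t * χ (y - t) := by
      rw [← AddChar.map_add_eq_mul]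
      congr 1
      abel
    rw [h2]
    ring
  have h2 : (χ t - 1) * ft f χ = ∑ y, ((f (y - t) - f y : ℝ) : ℂ) * χ y := by
    rw [sub_mul, one_mul, h1]
    unfold ft
    rw [← Finset.sum_sub_distrib]
    refine Finset.sum_congr rfl fun y _ => ?_
    rw [Complex.ofReal_sub]
    ring
  rw [← norm_mul, h2]
  refine le_trans (norm_sum_le _ _) (Finset.sum_le_sum fun y _ => ?_)
  rw [norm_mul, AddChar.norm_apply, mul_one, Complex.norm_real, Real.norm_eq_abs]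

end Pool.Agent.helper43.Ex
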