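import Pool.Agent.helper43.Ex.Defs

/-! EX-HS: half systems in a cyclic group. Proved by helper11. -/

open Finset Pool.Agent.helper43.Rho Pool.Agent.helper43.Asy

set_option linter.unusedSectionVars false

namespace Pool.Agent.helper43.Ex

variable {G : Type*} [AddCommGroup G] [DecidableEq G]

private theorem HS_rep {c : G} {N : ℕ} (hN : 1 ≤ N) (hc : addOrderOf c = N) {j : G}
    (hj : j ∈ AddSubgroup.zmultiples c) : ∃ t : ℕ, t < N ∧ t • c = j := by
  obtain ⟨k, hk⟩ := AddSubgroup.mem_zmultiples_iff.mp hj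
  have hN' : (0 : ℤ) < N := by exact_mod_cast hN
  refine ⟨(k % (N : ℤ)).toNat, ?_, ?_⟩
  · have h1 := Int.emod_lt_of_pos k hN'
    have h2 := Int.emod_nonneg k (ne_of_gt hN')
    omega
  · have h2 := Int.emod_nonneg k (ne_of_gt hN')
    have h3 : (((k % (N : ℤ)).toNat : ℕ) : ℤ) • c = j := by
      rw [Int.toNat_of_nonneg h2, ← hk]
      have h4 : k = k % (N : ℤ) + (k / (N : ℤ)) * (N : ℤ) := by
        have := Int.emod_add_mul_ediv k (N : ℤ)
        linarith
      have h5 : ((N : ℤ)) • c = 0 := by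
        rw [natCast_zsmul, ← hc]
        exact addOrderOf_nsmul_eq_zero c
      conv_rhs => rw [h4]
      rw [add_zsmul, mul_zsmul, h5, zsmul_zero, add_zero]
    rw [natCast_zsmul] at h3
    exact h3

private theorem HS_dvd {c : G} {N : ℕ} (hc : addOrderOf c = N) {t : ℕ} (h : t • c = 0) :
    N ∣ t := by
  rw [← hc]
  exact addOrderOf_dvd_of_nsmul_eq_zero h

private theorem HS_inj {c : G} {N : ℕ} (hc : addOrderOf c = N) {a b : ℕ} (ha : a < N)
    (hb : b < N) (h : a • c = b • c) : a = b := by
  rcases le_total a b with hab | hab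
  · obtain ⟨d, rfl⟩ := Nat.exists_eq_add_of_le hab
    rw [add_nsmul] at h
    have h1 : d • c = 0 := by
      have h2 : a • c + d • c = a • c + 0 := by rw [add_zero]; exact h.symm
      exact add_left_cancel h2
    have h3 := Nat.eq_zero_of_dvd_of_lt (HS_dvd hc h1) (by omega)
    omega
  · obtain ⟨d, rfl⟩ := Nat.exists_eq_add_of_le hab
    rw [add_nsmul] at h
    have h1 : d • c = 0 := by
      have h2 : b • c + d • c = b • c + 0 := by rw [add_zero]; exact h
      exact add_left_cancel h2
    have h3 := Nat.eq_zero_of_dvd_of_lt (HS_dvd hc h1) (by omega)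
    omega

private theorem HS_sums (κ : ℕ) : ∀ s : ℕ, s ≤ κ * (κ + 1) / 2 →
    ∃ T : Finset ℕ, T ⊆ Finset.Icc 1 κ ∧ ∑ i ∈ T, i = s := by
  induction κ with
  | zero =>
    intro s hs
    refine ⟨∅, by simp, ?_⟩
    simp at hs
    simp [hs]
  | succ κ ih =>
    intro s hs
    have h1 : (κ + 1) * (κ + 1 + 1) / 2 = κ * (κ + 1) / 2 + (κ + 1) := by
      have h2 : (κ + 1) * (κ + 1 + 1) = κ * (κ + 1) + (κ + 1) * 2 := by ring
      rw [h2, Nat.add_mul_div_right _ _ (by norm_num)]
    rw [h1] at hs
    by_cases hle : s ≤ κ * (κ + 1) / 2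
    · obtain ⟨T, hT, hs'⟩ := ih s hle
      refine ⟨T, fun x hx => ?_, hs'⟩
      have h3 := Finset.mem_Icc.mp (hT hx)
      exact Finset.mem_Icc.mpr ⟨h3.1, by omega⟩
    · have h4 : κ ≤ κ * (κ + 1) / 2 := by
        rcases Nat.eq_zero_or_pos κ with h0 | h0
        · subst h0; simp
        · rw [Nat.le_div_iff_mul_le (by norm_num)]
          exact Nat.mul_le_mul_left κ (by omega)
      obtain ⟨T, hT, hs'⟩ := ih (s - (κ + 1)) (by omega)
      have hnot : κ + 1 ∉ T := fun h => by
        have h5 := Finset.mem_Icc.mp (hT h)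
        omega
      refine ⟨insert (κ + 1) T, ?_, ?_⟩
      · intro x hx
        rcases Finset.mem_insert.mp hx with rfl | hx
        · exact Finset.mem_Icc.mpr ⟨by omega, le_refl _⟩
        · have h3 := Finset.mem_Icc.mp (hT hx)
          exact Finset.mem_Icc.mpr ⟨h3.1, by omega⟩
      · rw [Finset.sum_insert hnot, hs']
        omega

/-- `c` has order `N`. For `1 ≤ i`, `2 i < N` the pairs `{i c, - i c}` are pairwise disjoint, and
they contain all elements `x` of `⟨c⟩` with `x ≠ -x` (write `x = t c`, `0 ≤ t < N`,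
`i = min(t, N - t)`). An asymmetric set `J ⊆ ⟨c⟩` contains no `x` with `x = -x` and at most one
element of every pair; there are `(N - 1) / 2` pairs, so it meets every pair if
`|J| ≥ (N - 1) / 2` (for instance: map `J` into `Finset.Icc 1 ((N-1)/2)` by `i`, this is
injective, hence surjective). -/
theorem half_mem {c : G} {N : ℕ} (hN : 1 ≤ N) (hc : addOrderOf c = N) {J : Finset G}
    (hJ : Asym J) (hJc : ∀ j ∈ J, j ∈ AddSubgroup.zmultiples c) (hcard : (N - 1) / 2 ≤ J.card)
    {i : ℕ} (hi : 1 ≤ i) (hi2 : 2 * i < N) : i • c ∈ J ∨ -(i • c) ∈ J := by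
  have hrep : ∀ j ∈ J, ∃ t : ℕ, t < N ∧ t • c = j := fun j hj => HS_rep hN hc (hJc j hj)
  choose! t ht using hrep
  have hNc : N • c = 0 := by rw [← hc]; exact addOrderOf_nsmul_eq_zero c
  have hneg : ∀ a : ℕ, a ≤ N → (N - a) • c = -(a • c) := by
    intro a ha
    rw [eq_neg_iff_add_eq_zero, ← add_nsmul, Nat.sub_add_cancel ha, hNc]
  have hpos : ∀ j ∈ J, 1 ≤ t j := by
    intro j hj
    by_contra h0
    have h1 : t j = 0 := by omega
    have h2 : j = 0 := by
      rw [← (ht j hj).2, h1, zero_nsmul]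
    have h3 := hJ j hj
    rw [h2, neg_zero, ← h2] at h3
    exact h3 hj
  have hhalf : ∀ j ∈ J, 2 * t j ≠ N := by
    intro j hj h0
    have h1 : j + j = 0 := by
      rw [← (ht j hj).2, ← two_nsmul, ← mul_nsmul, mul_comm, h0, hNc]
    have h2 : -j = j := by
      rw [neg_eq_iff_add_eq_zero]; exact h1
    have h3 := hJ j hj
    rw [h2] at h3
    exact h3 hj
  have himg : J.image (fun j => min (t j) (N - t j)) ⊆ Finset.Icc 1 ((N - 1) / 2) := by
    intro x hx
    obtain ⟨j, hj, rfl⟩ := Finset.mem_image.mp hx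
    have h1 := (ht j hj).1
    have h2 := hpos j hj
    have h3 := hhalf j hj
    rw [Finset.mem_Icc]
    constructor
    · exact le_min h2 (by omega)
    · rcases le_total (t j) (N - t j) with h | h
      · rw [min_eq_left h]; omega
      · rw [min_eq_right h]; omega
  have hinj : Set.InjOn (fun j => min (t j) (N - t j)) (J : Set G) := by
    intro a ha b hb hab
    have ha' : a ∈ J := ha
    have hb' : b ∈ J := hb
    have ha1 := (ht a ha').1
    have hb1 := (ht b hb').1
    have h1 : t a = t b ∨ t a = N - t b := by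
      have hab' : min (t a) (N - t a) = min (t b) (N - t b) := hab
      omega
    rcases h1 with h1 | h1
    · rw [← (ht a ha').2, ← (ht b hb').2, h1]
    · exfalso
      have h2 : a = -b := by
        have h3 : t a • c = -(t b • c) := by rw [h1]; exact hneg _ (by omega)
        rw [(ht a ha').2, (ht b hb').2] at h3
        exact h3
      have h4 := hJ b hb'
      rw [← h2] at h4
      exact h4 ha'
  have hcard2 : (J.image (fun j => min (t j) (N - t j))).card = J.card :=
    Finset.card_image_of_injOn hinj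
  have heq : J.image (fun j => min (t j) (N - t j)) = Finset.Icc 1 ((N - 1) / 2) := by
    apply Finset.eq_of_subset_of_card_le himg
    rw [hcard2, Nat.card_Icc]
    omega
  have hmem : i ∈ J.image (fun j => min (t j) (N - t j)) := by
    rw [heq, Finset.mem_Icc]
    omega
  obtain ⟨j, hj, hji⟩ := Finset.mem_image.mp hmem
  have h1 := (ht j hj).1
  have h5 : t j = i ∨ N - t j = i := by
    have hji' : min (t j) (N - t j) = i := hji
    omega
  rcases h5 with h5 | h5
  · left
    rw [← h5, (ht j hj).2]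
    exact hj
  · right
    have h6 : t j = N - i := by omega
    have h7 := (ht j hj).2
    rw [h6, hneg i (by omega)] at h7
    rw [h7]
    exact hj

/-- `SS J` is a translate of the sums of `{1 c, ..., κ c}`: let `y` be the sum of the elements
`-(i c)` of `J`. For `0 ≤ s ≤ κ (κ + 1) / 2` write `s` as the sum of a subset `T` of
`{1, ..., κ}` (well known; induction on `κ`); the sum of the `i c`, `i ∈ T`, `i c ∈ J`, and of the
`-(i c)`, `i ∉ T`, `-(i c) ∈ J`, is `y + s c`. So `SS J` contains `y + s c` for all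
`s ≤ κ (κ + 1) / 2`, which are `min(N, κ (κ + 1) / 2 + 1)` different elements. -/
theorem card_SS_half {c : G} {N κ : ℕ} (hκ : N = 2 * κ + 1) (hc : addOrderOf c = N)
    {J : Finset G} (hJ : Asym J) (hJc : ∀ j ∈ J, j ∈ AddSubgroup.zmultiples c)
    (hcard : κ ≤ J.card) : min N (κ * (κ + 1) / 2 + 1) ≤ (SS J).card := by
  classical
  have hN : 1 ≤ N := by omega
  have hmem : ∀ i ∈ Finset.Icc 1 κ, i • c ∈ J ∨ -(i • c) ∈ J := by
    intro i hi
    have hi' := Finset.mem_Icc.mp hi
    exact half_mem hN hc hJ hJc (by omega) hi'.1 (by omega)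
  let e : ℕ → G := fun i => if i • c ∈ J then i • c else -(i • c)
  have heJ : ∀ i ∈ Finset.Icc 1 κ, e i ∈ J := by
    intro i hi
    change (if i • c ∈ J then i • c else -(i • c)) ∈ J
    split_ifs with h
    · exact h
    · exact (hmem i hi).resolve_left h
  have hadd : ∀ i ∈ Finset.Icc 1 κ, ∀ i' ∈ Finset.Icc 1 κ, i • c ≠ -(i' • c) := by
    intro i hi i' hi' h
    have h1 := Finset.mem_Icc.mp hi
    have h2 := Finset.mem_Icc.mp hi'
    rw [eq_neg_iff_add_eq_zero, ← add_nsmul] at h
    have h3 := Nat.eq_zero_of_dvd_of_lt (HS_dvd hc h) (by omega)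
    omega
  have heinj : ∀ i ∈ Finset.Icc 1 κ, ∀ i' ∈ Finset.Icc 1 κ, e i = e i' → i = i' := by
    intro i hi i' hi' h
    have h1 := Finset.mem_Icc.mp hi
    have h2 := Finset.mem_Icc.mp hi'
    change (if i • c ∈ J then i • c else -(i • c)) =
      (if i' • c ∈ J then i' • c else -(i' • c)) at h
    split_ifs at h with h3 h4 h4
    · exact HS_inj hc (by omega) (by omega) h
    · exact absurd h (hadd i hi i' hi')
    · exact absurd h.symm (hadd i' hi' i hi)
    · exact HS_inj hc (by omega) (by omega) (neg_injective h)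
  set y : G := ∑ i ∈ (Finset.Icc 1 κ).filter (fun i => ¬ i • c ∈ J), -(i • c) with hy
  have hsub : ∀ s : ℕ, s ≤ κ * (κ + 1) / 2 → y + s • c ∈ SS J := by
    intro s hs
    obtain ⟨T, hT, hTs⟩ := HS_sums κ s hs
    set U : Finset ℕ := (Finset.Icc 1 κ).filter (fun i => (i • c ∈ J ↔ i ∈ T)) with hU
    have hUs : U ⊆ Finset.Icc 1 κ := Finset.filter_subset _ _
    rw [mem_SS]
    refine ⟨U.image e, ?_, ?_⟩
    · intro x hx
      obtain ⟨i, hi, rfl⟩ := Finset.mem_image.mp hx
      exact heJ i (hUs hi)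
    · rw [Finset.sum_image (fun a ha b hb hab => heinj a (hUs ha) b (hUs hb) hab)]
      have h1 : s • c = ∑ i ∈ Finset.Icc 1 κ, if i ∈ T then i • c else 0 := by
        rw [← Finset.sum_filter, Finset.filter_mem_eq_inter, Finset.inter_eq_right.mpr hT,
          ← hTs, Finset.sum_nsmul_assoc]
      rw [h1, hy, hU, Finset.sum_filter, Finset.sum_filter, ← Finset.sum_add_distrib]
      refine Finset.sum_congr rfl (fun i _ => ?_)
      change (if (i • c ∈ J ↔ i ∈ T) then (if i • c ∈ J then i • c else -(i • c)) else 0) = _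
      by_cases h2 : i • c ∈ J <;> by_cases h3 : i ∈ T <;> simp [h2, h3]
  have hsub2 : (Finset.range (min N (κ * (κ + 1) / 2 + 1))).image (fun s => y + s • c) ⊆ SS J := by
    intro x hx
    obtain ⟨s, hs, rfl⟩ := Finset.mem_image.mp hx
    have h1 := Finset.mem_range.mp hs
    exact hsub s (by have := lt_min_iff.mp h1; omega)
  have hcard3 : ((Finset.range (min N (κ * (κ + 1) / 2 + 1))).image (fun s => y + s • c)).card =
      min N (κ * (κ + 1) / 2 + 1) := by
    rw [Finset.card_image_of_injOn, Finset.card_range]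
    intro a ha b hb hab
    have h1 := lt_min_iff.mp (Finset.mem_range.mp (Finset.mem_coe.mp ha))
    have h2 := lt_min_iff.mp (Finset.mem_range.mp (Finset.mem_coe.mp hb))
    exact HS_inj hc h1.1 h2.1 (add_left_cancel hab)
  rw [← hcard3]
  exact Finset.card_le_card hsub2

end Pool.Agent.helper43.Ex
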