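import Pool.Agent.helper43.Ex.Defs

/-! EX-KE: the e-transform (K2 of the paper proof). -/

open Finset Pool.Agent.helper43.Rho Pool.Agent.helper43.Asy

set_option linter.unusedSectionVars false

namespace Pool.Agent.helper43.Ex

variable {G : Type*} [AddCommGroup G] [DecidableEq G] [Fintype G]

/-- Translations do not change the stabiliser. -/
theorem stab_tr (C : Finset G) (z : G) : stab (tr C z) = stab C := by
  ext x
  rw [mem_stab_iff, mem_stab_iff]
  constructor
  · intro h s
    have h1 := h (s + z)
    rw [mem_tr, mem_tr, show s + z + x - z = s + x by abel, add_sub_cancel_right] at h1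
    exact h1
  · intro h s
    have h1 := h (s - z)
    rw [mem_tr, mem_tr, show s + x - z = s - z + x by abel]
    exact h1

/-- Case `a = b = 0`. Among all pairs `(A', B')` with `0 ∈ A'`, `0 ∈ B'`, `sumS A' B' ⊆ sumS A B`,
`|A'| + |B'| = |A| + |B|` (`(A, B)` is one; strong induction on `|B'|`, or a minimal `|B'|`) take
one with `|B'|` minimal. For `e ∈ A'` the pair `A' ∪ (B' + e)`, `B' ∩ (A' - e)` (that is
`B'.filter (fun b => b + e ∈ A')`) is again such a pair: `0` is in both (`0 + e ∈ A'`); for
`x = b + e` (`b ∈ B'`) and `y ∈ B'` with `y + e ∈ A'` the sum `x + y = (y + e) + b` is in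
`sumS A' B'`; and the cardinalities: `|A' ∪ (B' + e)| - |A'| = |{b ∈ B' : b + e ∉ A'}|`. By
minimality `b + e ∈ A'` for all `b ∈ B'`, `e ∈ A'`. So every `b ∈ B'` is in `stab A'`
(`mem_stab_of`), `|B'| ≤ |stab A'|`, and `C = A'` works (`A' ⊆ sumS A' B'` as `0 ∈ B'`). -/
theorem etrans0 {A B : Finset G} (ha : (0 : G) ∈ A) (hb : (0 : G) ∈ B) :
    ∃ C ⊆ sumS A B, (0 : G) ∈ C ∧ A.card + B.card ≤ C.card + (sf (stab C)).card := by
  induction hk : B.card using Nat.strong_induction_on generalizing A B with
  | _ k ih =>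
    subst hk
    by_cases hall : ∀ b ∈ B, ∀ e ∈ A, e + b ∈ A
    · refine ⟨A, fun x hx => mem_sumS.2 ⟨x, hx, 0, hb, add_zero x⟩, ha, ?_⟩
      have hsub : B ⊆ sf (stab A) := fun b hb' => (mem_sf b).2 (mem_stab_of (hall b hb'))
      have := Finset.card_le_card hsub
      omega
    · push Not at hall
      obtain ⟨b0, hb0, e, he, hbe⟩ := hall
      obtain ⟨A', hA'⟩ : ∃ A', A' = A ∪ tr B e := ⟨_, rfl⟩
      obtain ⟨B', hB'⟩ : ∃ B', B' = B.filter (fun b => b + e ∈ A) := ⟨_, rfl⟩
      have h0A : (0 : G) ∈ A' := by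
        rw [hA']
        exact Finset.mem_union_left _ ha
      have h0B : (0 : G) ∈ B' := by
        rw [hB', Finset.mem_filter, zero_add]
        exact ⟨hb, he⟩
      have hlt : B'.card < B.card := by
        refine Finset.card_lt_card ?_
        rw [hB']
        refine (Finset.filter_ssubset).2 ⟨b0, hb0, ?_⟩
        rwa [add_comm]
      have hdis : Disjoint A ((B.filter (fun b => b + e ∉ A)).image (fun b => b + e)) := by
        rw [Finset.disjoint_left]
        intro x hx hx2
        rw [Finset.mem_image] at hx2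
        obtain ⟨b, hb', rfl⟩ := hx2
        exact (Finset.mem_filter.1 hb').2 hx
      have hun : A' = A ∪ (B.filter (fun b => b + e ∉ A)).image (fun b => b + e) := by
        rw [hA']
        ext x
        rw [Finset.mem_union, Finset.mem_union, mem_tr, Finset.mem_image]
        constructor
        · rintro (hx | hx)
          · exact Or.inl hx
          · by_cases hxA : x ∈ A
            · exact Or.inl hxA
            · refine Or.inr ⟨x - e, Finset.mem_filter.2 ⟨hx, ?_⟩, sub_add_cancel x e⟩
              rwa [sub_add_cancel]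
        · rintro (hx | ⟨b, hb', rfl⟩)
          · exact Or.inl hx
          · rw [add_sub_cancel_right]
            exact Or.inr (Finset.mem_filter.1 hb').1
      have hcard : A'.card + B'.card = A.card + B.card := by
        rw [hun, Finset.card_union_of_disjoint hdis,
          Finset.card_image_of_injective _ (add_left_injective e), hB']
        have := Finset.card_filter_add_card_filter_not (s := B) (fun b => b + e ∈ A)
        omega
      obtain ⟨C, hC, h0C, hcC⟩ := ih B'.card hlt h0A h0B rfl
      refine ⟨C, fun x hx => ?_, h0C, ?_⟩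
      · obtain ⟨a, ha', y, hy, rfl⟩ := mem_sumS.1 (hC hx)
        rw [hB', Finset.mem_filter] at hy
        rw [hA', Finset.mem_union, mem_tr] at ha'
        rcases ha' with ha' | ha'
        · exact mem_sumS.2 ⟨a, ha', y, hy.1, rfl⟩
        · exact mem_sumS.2 ⟨y + e, hy.2, a - e, ha', by abel⟩
      · omega

/-- `etrans0` for `tr A (-a)`, `tr B (-b)`, translated back by `a + b`. -/
theorem etrans {A B : Finset G} {a b : G} (ha : a ∈ A) (hb : b ∈ B) :
    ∃ C ⊆ sumS A B, a + b ∈ C ∧ A.card + B.card ≤ C.card + (sf (stab C)).card := by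
  have h0A : (0 : G) ∈ tr A (-a) := by
    rw [mem_tr, sub_neg_eq_add, zero_add]
    exact ha
  have h0B : (0 : G) ∈ tr B (-b) := by
    rw [mem_tr, sub_neg_eq_add, zero_add]
    exact hb
  obtain ⟨C, hC, h0C, hcC⟩ := etrans0 h0A h0B
  rw [card_tr, card_tr] at hcC
  refine ⟨tr C (a + b), fun x hx => ?_, ?_, ?_⟩
  · rw [mem_tr] at hx
    obtain ⟨u, hu, v, hv, huv⟩ := mem_sumS.1 (hC hx)
    rw [mem_tr, sub_neg_eq_add] at hu hv
    refine mem_sumS.2 ⟨u + a, hu, v + b, hv, ?_⟩
    rw [show u + a + (v + b) = u + v + (a + b) by abel, huv]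
    exact sub_add_cancel x (a + b)
  · rw [mem_tr, sub_self]
    exact h0C
  · rw [card_tr, stab_tr]
    exact hcC

end Pool.Agent.helper43.Ex
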