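import Pool.Agent.helper43.Ex.Defs

/-! EX-KU: the union lemma behind Kneser's theorem, case of trivially intersecting stabilisers
(K1 of the paper proof). -/

open Finset Pool.Agent.helper43.Rho Pool.Agent.helper43.Asy

set_option linter.unusedSectionVars false

namespace Pool.Agent.helper43.Ex

variable {G : Type*} [AddCommGroup G] [DecidableEq G] [Fintype G]

/-- Let `H1 = stab C1`, `H2 = stab C2` (they intersect in `0`). Let `X` be the set of the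
`h1 ∈ H1` with `z + h1 ∈ C2` and `Y` the set of the `h2 ∈ H2` with `z + h2 ∈ C1`,
`x = |X|`, `y = |Y|`. For `h1 ∈ H1`, `h2 ∈ H2`: `z + h1 + h2 ∈ C2` iff `h1 ∈ X` (`h2`
stabilises `C2`, `mem_stab_iff`), and `z + h1 + h2 ∈ C1` iff `h2 ∈ Y`. The map
`(h1, h2) ↦ z + h1 + h2` is injective on `H1 × H2`, and maps `X × (H2 \ Y)` into `C2 \ C1`,
`(H1 \ X) × Y` into `C1 \ C2`. -/
theorem grid {C1 C2 : Finset G} (hd : ∀ x, x ∈ stab C1 → x ∈ stab C2 → x = 0) (z : G) :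
    ∃ x y : ℕ, x ≤ (sf (stab C1)).card ∧ y ≤ (sf (stab C2)).card ∧
      x * ((sf (stab C2)).card - y) ≤ (C2 \ C1).card ∧
      ((sf (stab C1)).card - x) * y ≤ (C1 \ C2).card ∧
      (z ∈ C2 → 1 ≤ x) ∧ (z ∉ C2 → x < (sf (stab C1)).card) ∧
      (z ∈ C1 → 1 ≤ y) ∧ (z ∉ C1 → y < (sf (stab C2)).card) := by
  classical
  obtain ⟨X, hX⟩ : ∃ X, X = (sf (stab C1)).filter (fun h => z + h ∈ C2) := ⟨_, rfl⟩
  obtain ⟨Y, hY⟩ : ∃ Y, Y = (sf (stab C2)).filter (fun h => z + h ∈ C1) := ⟨_, rfl⟩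
  have mX : ∀ h, h ∈ X ↔ h ∈ stab C1 ∧ z + h ∈ C2 := by
    intro h
    rw [hX, mem_filter, mem_sf]
  have mY : ∀ h, h ∈ Y ↔ h ∈ stab C2 ∧ z + h ∈ C1 := by
    intro h
    rw [hY, mem_filter, mem_sf]
  have sX : X ⊆ sf (stab C1) := by
    rw [hX]
    exact filter_subset _ _
  have sY : Y ⊆ sf (stab C2) := by
    rw [hY]
    exact filter_subset _ _
  have k2 : ∀ h1 ∈ stab C1, ∀ h2 ∈ stab C2, (z + h1 + h2 ∈ C2 ↔ z + h1 ∈ C2) :=
    fun h1 _ h2 m2 => mem_stab_iff.1 m2 (z + h1)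
  have k1 : ∀ h1 ∈ stab C1, ∀ h2 ∈ stab C2, (z + h1 + h2 ∈ C1 ↔ z + h2 ∈ C1) := by
    intro h1 m1 h2 _
    have e : z + h1 + h2 = z + h2 + h1 := by abel
    rw [e]
    exact mem_stab_iff.1 m1 (z + h2)
  have inj : ∀ h1 ∈ stab C1, ∀ h2 ∈ stab C2, ∀ h1' ∈ stab C1, ∀ h2' ∈ stab C2,
      z + h1 + h2 = z + h1' + h2' → h1 = h1' ∧ h2 = h2' := by
    intro h1 m1 h2 m2 h1' m1' h2' m2' he
    have e1 : h1 - h1' = h2' - h2 := by
      have e2 : z + h1 + h2 - (z + h1' + h2') = 0 := sub_eq_zero.2 he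
      have e3 : h1 - h1' - (h2' - h2) = 0 := by
        rw [← e2]
        abel
      exact sub_eq_zero.1 e3
    have m3 : h1 - h1' ∈ stab C1 := AddSubgroup.sub_mem _ m1 m1'
    have m4 : h1 - h1' ∈ stab C2 := by
      rw [e1]
      exact AddSubgroup.sub_mem _ m2' m2
    have e4 := hd _ m3 m4
    refine ⟨sub_eq_zero.1 e4, ?_⟩
    rw [e1] at e4
    exact (sub_eq_zero.1 e4).symm
  have cX : (sf (stab C1) \ X).card = (sf (stab C1)).card - X.card := by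
    have := card_sdiff_add_card_eq_card sX
    omega
  have cY : (sf (stab C2) \ Y).card = (sf (stab C2)).card - Y.card := by
    have := card_sdiff_add_card_eq_card sY
    omega
  refine ⟨X.card, Y.card, card_le_card sX, card_le_card sY, ?_, ?_, ?_, ?_, ?_, ?_⟩
  · rw [← cY, ← card_product]
    refine card_le_card_of_injOn (fun p => z + p.1 + p.2) ?_ ?_
    · intro p hp
      rw [mem_coe, mem_product, mem_sdiff, mem_sf] at hp
      obtain ⟨hp1, hp2, hp3⟩ := hp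
      have hp4 := (mX _).1 hp1
      rw [mem_coe, mem_sdiff]
      refine ⟨(k2 _ hp4.1 _ hp2).2 hp4.2, fun hc => hp3 ((mY _).2 ⟨hp2, ?_⟩)⟩
      exact (k1 _ hp4.1 _ hp2).1 hc
    · intro p hp q hq hpq
      rw [mem_coe, mem_product, mem_sdiff, mem_sf] at hp hq
      obtain ⟨r1, r2⟩ := inj _ ((mX _).1 hp.1).1 _ hp.2.1 _ ((mX _).1 hq.1).1 _ hq.2.1 hpq
      exact Prod.ext r1 r2
  · rw [← cX, ← card_product]
    refine card_le_card_of_injOn (fun p => z + p.1 + p.2) ?_ ?_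
    · intro p hp
      rw [mem_coe, mem_product, mem_sdiff, mem_sf] at hp
      obtain ⟨⟨hp1, hp2⟩, hp3⟩ := hp
      have hp4 := (mY _).1 hp3
      rw [mem_coe, mem_sdiff]
      refine ⟨(k1 _ hp1 _ hp4.1).2 hp4.2, fun hc => hp2 ((mX _).2 ⟨hp1, ?_⟩)⟩
      exact (k2 _ hp1 _ hp4.1).1 hc
    · intro p hp q hq hpq
      rw [mem_coe, mem_product, mem_sdiff, mem_sf] at hp hq
      obtain ⟨r1, r2⟩ := inj _ hp.1.1 _ ((mY _).1 hp.2).1 _ hq.1.1 _ ((mY _).1 hq.2).1 hpq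
      exact Prod.ext r1 r2
  · intro hz
    exact card_pos.2 ⟨0, (mX _).2 ⟨zero_mem _, by rw [add_zero]; exact hz⟩⟩
  · intro hz
    refine card_lt_card ⟨sX, fun hc => hz ?_⟩
    have h0 := (mX 0).1 (hc ((mem_sf 0).2 (zero_mem _)))
    rw [add_zero] at h0
    exact h0.2
  · intro hz
    exact card_pos.2 ⟨0, (mY _).2 ⟨zero_mem _, by rw [add_zero]; exact hz⟩⟩
  · intro hz
    refine card_lt_card ⟨sY, fun hc => hz ?_⟩
    have h0 := (mY 0).1 (hc ((mem_sf 0).2 (zero_mem _)))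
    rw [add_zero] at h0
    exact h0.2

private theorem KU_pq {p q : ℕ} (hp : 1 ≤ p) (hq : 1 ≤ q) : p + q ≤ p * q + 1 := by
  obtain ⟨p', rfl⟩ := Nat.exists_eq_add_of_le hp
  obtain ⟨q', rfl⟩ := Nat.exists_eq_add_of_le hq
  nlinarith [Nat.zero_le (p' * q')]

private theorem KU_four {m1 m2 a b x y : ℕ} (h1 : a + 1 < m1) (h2 : b + 1 < m2)
    (hx : 1 ≤ x) (hy : 1 ≤ y) (hx' : x < m1) (hy' : y < m2)
    (e1 : x * (m2 - y) ≤ a) (e2 : (m1 - x) * y ≤ b) : False := by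
  have q1 := KU_pq hx (show 1 ≤ m2 - y by omega)
  have q2 := KU_pq (show 1 ≤ m1 - x by omega) hy
  omega

/-- Arithmetic. First `(x, y)`: `x = m1` would give `m1 ≤ x (m2 - y) ≤ a`; so `x < m1`. If
`1 ≤ y` put `α = m1 - x ≥ 1`, `β = m2 - y ≥ 1`; `x + β - 1 ≤ x β ≤ a ≤ m1 - 2` gives
`β + 1 ≤ α`, and `α + y - 1 ≤ α y ≤ b ≤ m2 - 2` gives `α + 1 ≤ β`, a contradiction. So `y = 0`
and `m2 ≤ x m2 ≤ a`, so `m2 + 1 < m1`. In the same way `(x', y')` gives `m1 + 1 < m2`. -/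
theorem grid_arith {m1 m2 a b x y x' y' : ℕ} (h1 : a + 1 < m1) (h2 : b + 1 < m2)
    (hx : x ≤ m1) (hy : y ≤ m2) (hx' : x' ≤ m1) (hy' : y' ≤ m2)
    (e1 : x * (m2 - y) ≤ a) (e2 : (m1 - x) * y ≤ b)
    (e3 : x' * (m2 - y') ≤ a) (e4 : (m1 - x') * y' ≤ b)
    (p1 : 1 ≤ x) (p2 : y < m2) (p3 : 1 ≤ y') (p4 : x' < m1) : False := by
  have hxm : x < m1 := by
    by_contra hc
    have e : x = m1 := by omega
    have h3 : m1 * 1 ≤ x * (m2 - y) := by
      rw [e]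
      exact Nat.mul_le_mul_left _ (by omega)
    omega
  have hym : y' < m2 := by
    by_contra hc
    have e : y' = m2 := by omega
    have h3 : 1 * m2 ≤ (m1 - x') * y' := by
      rw [e]
      exact Nat.mul_le_mul_right _ (by omega)
    omega
  have c1 : m2 + 1 < m1 := by
    rcases Nat.eq_zero_or_pos y with h0 | h0
    · rw [h0, Nat.sub_zero] at e1
      have h3 : 1 * m2 ≤ x * m2 := Nat.mul_le_mul_right _ p1
      omega
    · exact (KU_four h1 h2 p1 h0 hxm p2 e1 e2).elim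
  have c2 : m1 + 1 < m2 := by
    rcases Nat.eq_zero_or_pos x' with h0 | h0
    · rw [h0, Nat.sub_zero] at e4
      have h3 : m1 * 1 ≤ m1 * y' := Nat.mul_le_mul_left _ p3
      omega
    · exact (KU_four h1 h2 h0 p3 p4 hym e3 e4).elim
  omega

/-- If both inequalities fail apply `grid` with some `z ∈ C2 \ C1` and with some `z' ∈ C1 \ C2`
and `grid_arith` with `a = |C2 \ C1|`, `b = |C1 \ C2|`. -/
theorem union_stab_aux {C1 C2 : Finset G} (hd : ∀ x, x ∈ stab C1 → x ∈ stab C2 → x = 0)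
    (h12 : ¬ C1 ⊆ C2) (h21 : ¬ C2 ⊆ C1) :
    (sf (stab C1)).card ≤ (C2 \ C1).card + 1 ∨ (sf (stab C2)).card ≤ (C1 \ C2).card + 1 := by
  by_contra hcon
  rw [not_or, not_le, not_le] at hcon
  obtain ⟨z, hz2, hz1⟩ := not_subset.1 h21
  obtain ⟨z', hz1', hz2'⟩ := not_subset.1 h12
  obtain ⟨x, y, a1, a2, a3, a4, a5, -, -, a8⟩ := grid hd z
  obtain ⟨x', y', b1, b2, b3, b4, -, b6, b7, -⟩ := grid hd z'
  exact grid_arith hcon.1 hcon.2 a1 a2 b1 b2 a3 a4 b3 b4 (a5 hz2) (a8 hz1) (b7 hz1') (b6 hz2')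

/-- If `C1 ⊆ C2` or `C2 ⊆ C1` it is clear. Otherwise `union_stab_aux`,
`|C1 ∪ C2| = |C1| + |C2 \ C1| = |C2| + |C1 \ C2|` and `|stab| ≥ 1` (`sf_card_pos`). -/
theorem union_stab0 {C1 C2 : Finset G} (hd : ∀ x, x ∈ stab C1 → x ∈ stab C2 → x = 0) :
    min (C1.card + (sf (stab C1)).card) (C2.card + (sf (stab C2)).card) ≤
      (C1 ∪ C2).card + (sf (stab (C1 ∪ C2))).card := by
  by_cases h12 : C1 ⊆ C2
  · rw [union_eq_right.2 h12]
    exact min_le_right _ _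
  by_cases h21 : C2 ⊆ C1
  · rw [union_eq_left.2 h21]
    exact min_le_left _ _
  have hs := sf_card_pos (stab (C1 ∪ C2))
  have u1 : (C1 ∪ C2).card = C1.card + (C2 \ C1).card := by
    rw [← union_sdiff_self_eq_union, card_union_of_disjoint disjoint_sdiff]
  have u2 : (C1 ∪ C2).card = C2.card + (C1 \ C2).card := by
    rw [union_comm, ← union_sdiff_self_eq_union, card_union_of_disjoint disjoint_sdiff]
  rcases union_stab_aux hd h12 h21 with h | h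
  · refine le_trans (min_le_left _ _) ?_
    omega
  · refine le_trans (min_le_right _ _) ?_
    omega

end Pool.Agent.helper43.Ex
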