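import Pool.Agent.helper43.Ex.KU

/-! EX-KV: the union lemma in general (K1 of the paper proof), by passing to a quotient. -/

open Finset Pool.Agent.helper43.Rho Pool.Agent.helper43.Asy

set_option linter.unusedSectionVars false

namespace Pool.Agent.helper43.Ex

variable {G : Type*} [AddCommGroup G] [DecidableEq G] [Fintype G]

private theorem kv_mem_image {D : AddSubgroup G} [DecidableEq (G ⧸ D)]
    {C : Finset G} (hD : D ≤ stab C) (s : G) :
    (QuotientAddGroup.mk s : G ⧸ D) ∈ C.image (QuotientAddGroup.mk : G → G ⧸ D) ↔ s ∈ C := by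
  constructor
  · intro h
    obtain ⟨c, hc, hcs⟩ := Finset.mem_image.1 h
    have h1 : -c + s ∈ D := QuotientAddGroup.eq.1 hcs
    have h2 := (mem_stab_iff.1 (hD h1) c).2 hc
    rwa [add_neg_cancel_left] at h2
  · intro h
    exact Finset.mem_image_of_mem _ h

private theorem kv_stab_iff {D : AddSubgroup G} [DecidableEq (G ⧸ D)]
    {C : Finset G} (hD : D ≤ stab C) (x : G) :
    (QuotientAddGroup.mk x : G ⧸ D) ∈ stab (C.image (QuotientAddGroup.mk : G → G ⧸ D)) ↔
      x ∈ stab C := by
  rw [mem_stab_iff, mem_stab_iff]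
  constructor
  · intro h s
    have h1 := h (QuotientAddGroup.mk s)
    rw [← QuotientAddGroup.mk_add, kv_mem_image hD, kv_mem_image hD] at h1
    exact h1
  · intro h t
    obtain ⟨s, rfl⟩ := QuotientAddGroup.mk_surjective t
    rw [← QuotientAddGroup.mk_add, kv_mem_image hD, kv_mem_image hD]
    exact h s

private theorem kv_per {D : AddSubgroup G} {C : Finset G} (hD : D ≤ stab C) : Per D C := by
  intro x hx k hk
  exact (mem_stab_iff.1 (hD hk) x).2 hx

/-- The stabiliser of the image of `C` in `G ⧸ D`, `D ≤ stab C`: an element `x` of `G` is in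
`stab C` iff its class is in the stabiliser of the image (`C` is a union of cosets of `D`). So
`sf (stab C)` is the preimage of `sf (stab (image))`, and it is `D`-periodic: `Per.card_eq` for
`X = sf (stab C)` (its image is `sf (stab (image))`). -/
theorem card_stab_image {D : AddSubgroup G} [DecidableEq (G ⧸ D)] [Fintype (G ⧸ D)]
    {C : Finset G} (hD : D ≤ stab C) :
    (sf (stab C)).card =
      (sf D).card * (sf (stab (C.image (QuotientAddGroup.mk : G → G ⧸ D)))).card := by
  have hP : Per D (sf (stab C)) := by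
    intro x hx k hk
    exact (mem_sf _).2 (AddSubgroup.add_mem _ ((mem_sf x).1 hx) (hD hk))
  rw [hP.card_eq, mul_comm]
  congr 2
  ext t
  rw [mem_sf]
  constructor
  · intro h
    obtain ⟨x, hx, rfl⟩ := Finset.mem_image.1 h
    exact (kv_stab_iff hD x).2 ((mem_sf x).1 hx)
  · intro h
    obtain ⟨x, rfl⟩ := QuotientAddGroup.mk_surjective t
    exact Finset.mem_image.2 ⟨x, (mem_sf x).2 ((kv_stab_iff hD x).1 h), rfl⟩

/-- Let `D = stab C1 ⊓ stab C2`. If `C1 ⊆ C2` or `C2 ⊆ C1` it is clear (one of the two numbers in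
the minimum is the right hand side). Otherwise `D ≤ stab (C1 ∪ C2)`; the images of `C1`, `C2`,
`C1 ∪ C2` in `G ⧸ D` have `|C| / |D|` elements (`Per.card_eq`), their stabilisers `|stab C| / |D|`
elements (`card_stab_image`), the image of the union is the union of the images, and the two
stabilisers of the images intersect in `0` (if the class of `x` is in both, `x` is in both
stabilisers, so in `D`). `union_stab0` in `G ⧸ D`, multiplied by `|D|`. -/
theorem union_stab (C1 C2 : Finset G) :
    min (C1.card + (sf (stab C1)).card) (C2.card + (sf (stab C2)).card) ≤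
      (C1 ∪ C2).card + (sf (stab (C1 ∪ C2))).card := by
  classical
  obtain ⟨D, hDef⟩ : ∃ D, D = stab C1 ⊓ stab C2 := ⟨_, rfl⟩
  have hD1 : D ≤ stab C1 := hDef ▸ inf_le_left
  have hD2 : D ≤ stab C2 := hDef ▸ inf_le_right
  have hDU : D ≤ stab (C1 ∪ C2) := by
    intro x hx
    rw [mem_stab_iff]
    intro s
    rw [Finset.mem_union, Finset.mem_union, mem_stab_iff.1 (hD1 hx) s, mem_stab_iff.1 (hD2 hx) s]
  have : Fintype (G ⧸ D) := Fintype.ofFinite _
  have h0 := @union_stab0 (G ⧸ D) _ _ _
    (C1.image (QuotientAddGroup.mk : G → G ⧸ D)) (C2.image (QuotientAddGroup.mk : G → G ⧸ D))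
    (by
      intro t h1 h2
      obtain ⟨x, rfl⟩ := QuotientAddGroup.mk_surjective t
      have hx : x ∈ D := by
        rw [hDef]
        exact ⟨(kv_stab_iff hD1 x).1 h1, (kv_stab_iff hD2 x).1 h2⟩
      exact (QuotientAddGroup.eq_zero_iff x).2 hx)
  rw [← Finset.image_union] at h0
  have e1 := (kv_per hD1).card_eq
  have e2 := (kv_per hD2).card_eq
  have e3 := (kv_per hDU).card_eq
  have f1 := card_stab_image hD1
  have f2 := card_stab_image hD2
  have f3 := card_stab_image hDU
  rw [mul_comm] at e1 e2 e3
  rw [f1, f2, f3, e1, e2, e3, ← mul_add, ← mul_add, ← mul_add, Nat.mul_min_mul_left]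
  exact Nat.mul_le_mul_left _ h0

/-- Induction on `S` with `union_stab`: the union of a nonempty finite family of sets `C` with
`w ≤ |C| + |stab C|` has the same property. -/
theorem biUnion_stab {α : Type*} [DecidableEq α] {S : Finset α} (hS : S.Nonempty)
    {C : α → Finset G} {w : ℕ} (h : ∀ s ∈ S, w ≤ (C s).card + (sf (stab (C s))).card) :
    w ≤ (S.biUnion C).card + (sf (stab (S.biUnion C))).card := by
  induction hS using Finset.Nonempty.cons_induction with
  | singleton a =>
    rw [Finset.singleton_biUnion]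
    exact h a (Finset.mem_singleton_self a)
  | cons a s ha hs ih =>
    rw [Finset.cons_eq_insert, Finset.biUnion_insert]
    have h1 := h a (Finset.mem_cons_self a s)
    have h2 := ih (fun b hb => h b (Finset.mem_cons_of_mem hb))
    exact le_trans (le_min h1 h2) (union_stab _ _)

end Pool.Agent.helper43.Ex
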