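import Pool.Agent.helper43.Ex.KV
import Pool.Agent.helper43.Ex.KE

/-! EX-Kn: Kneser's theorem and two consequences (K3, K4, K5 of the paper proof). -/

open Finset Pool.Agent.helper43.Rho Pool.Agent.helper43.Asy

set_option linter.unusedSectionVars false

namespace Pool.Agent.helper43.Ex

variable {G : Type*} [AddCommGroup G] [DecidableEq G] [Fintype G]

/-- **Kneser's theorem.** `sumS A B` is the union over `(a, b) ∈ A ×ˢ B` of the sets of `etrans`;
`biUnion_stab`. -/
theorem kneser {A B : Finset G} (hA : A.Nonempty) (hB : B.Nonempty) :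
    A.card + B.card ≤ (sumS A B).card + (sf (stab (sumS A B))).card := by
  classical
  let C : G × G → Finset G := fun s =>
    if h : s.1 ∈ A ∧ s.2 ∈ B then (etrans h.1 h.2).choose else ∅
  have hC : ∀ s ∈ A ×ˢ B, C s ⊆ sumS A B ∧ s.1 + s.2 ∈ C s ∧
      A.card + B.card ≤ (C s).card + (sf (stab (C s))).card := by
    intro s hs
    have h : s.1 ∈ A ∧ s.2 ∈ B := Finset.mem_product.1 hs
    have hCs : C s = (etrans h.1 h.2).choose := dif_pos h
    rw [hCs]
    exact (etrans h.1 h.2).choose_spec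
  have hU : (A ×ˢ B).biUnion C = sumS A B := by
    ext z
    rw [Finset.mem_biUnion]
    constructor
    · rintro ⟨s, hs, hz⟩
      exact (hC s hs).1 hz
    · intro hz
      obtain ⟨a, ha, b, hb, rfl⟩ := mem_sumS.1 hz
      have hs : (a, b) ∈ A ×ˢ B := Finset.mem_product.2 ⟨ha, hb⟩
      exact ⟨(a, b), hs, (hC _ hs).2.1⟩
  have h1 := biUnion_stab (S := A ×ˢ B) (hA.product hB) (C := C) (w := A.card + B.card)
    (fun s hs => (hC s hs).2.2)
  rwa [hU] at h1

/-- `XX H (E ∪ F) = sumS (XX H E) (XX H F)` (`mem_XX_union`; `H + H = H`), and the stabiliser of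
`XX H (E ∪ F)` is contained in `H` by `(hB.subset _).st`. -/
theorem kn_ap {H : AddSubgroup G} {B E F : Finset G} (hB : Ap H B) (hE : E ⊆ B) (hF : F ⊆ B)
    (hd : Disjoint E F) :
    (XX H E).card + (XX H F).card ≤ (XX H (E ∪ F)).card + (sf H).card := by
  have h1 : sumS (XX H E) (XX H F) = XX H (E ∪ F) := by
    ext z
    rw [mem_sumS, mem_XX_union' hd]
  have h2 := kneser (A := XX H E) (B := XX H F) XX_nonempty XX_nonempty
  rw [h1] at h2
  have h3 : sf (stab (XX H (E ∪ F))) ⊆ sf H := by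
    intro x hx
    rw [mem_sf] at hx ⊢
    exact (hB.subset (Finset.union_subset hE hF)).st x (fun s hs => (mem_stab_iff.1 hx s).2 hs)
  have h4 := Finset.card_le_card h3
  omega

/-- `sumS (DR H R i) (DR H R j) = DR H R (i + j)` (induction on `j`; `DR H R 0 = sf H` and
`DR H R i` is `H`-periodic). -/
theorem DR_add {H : AddSubgroup G} {R : Finset G} (i j : ℕ) :
    sumS (DR H R i) (DR H R j) = DR H R (i + j) := by
  have hper : ∀ k, Per H (DR H R k) := by
    intro k
    cases k with
    | zero =>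
      intro x hx l hl
      change x ∈ sf H at hx
      change x + l ∈ sf H
      rw [mem_sf] at hx ⊢
      exact H.add_mem hx hl
    | succ k => exact per_sumS per_CR
  induction j with
  | zero =>
    change sumS (DR H R i) (sf H) = DR H R i
    ext z
    rw [mem_sumS]
    constructor
    · rintro ⟨x, hx, k, hk, rfl⟩
      exact hper i x hx k ((mem_sf k).1 hk)
    · intro hz
      exact ⟨z, hz, 0, (mem_sf 0).2 H.zero_mem, add_zero z⟩
  | succ j ih =>
    change sumS (DR H R i) (sumS (DR H R j) (CR H R)) = sumS (DR H R (i + j)) (CR H R)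
    rw [← ih]
    ext z
    constructor
    · intro hz
      obtain ⟨x, hx, y, hy, rfl⟩ := mem_sumS.1 hz
      obtain ⟨u, hu, c, hc, rfl⟩ := mem_sumS.1 hy
      exact mem_sumS.2 ⟨x + u, mem_sumS.2 ⟨x, hx, u, hu, rfl⟩, c, hc, by abel⟩
    · intro hz
      obtain ⟨y, hy, c, hc, rfl⟩ := mem_sumS.1 hz
      obtain ⟨x, hx, u, hu, rfl⟩ := mem_sumS.1 hy
      exact mem_sumS.2 ⟨x, hx, u + c, mem_sumS.2 ⟨u, hu, c, hc, rfl⟩, by abel⟩

/-- `stab (DR i) ≤ stab (DR (i + j))` since `DR (i + j)` is a sumset with `DR i`. -/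
theorem stab_DR_mono {H : AddSubgroup G} {R : Finset G} {i j : ℕ} (h : i ≤ j) :
    stab (DR H R i) ≤ stab (DR H R j) := by
  obtain ⟨d, rfl⟩ := Nat.exists_eq_add_of_le h
  intro x hx
  apply mem_stab_of
  intro s hs
  rw [← DR_add] at hs ⊢
  obtain ⟨y, hy, c, hc, rfl⟩ := mem_sumS.1 hs
  exact mem_sumS.2 ⟨y + x, (mem_stab_iff.1 hx y).2 hy, c, hc, by abel⟩

/-- Induction on `k`: `kneser` for `DR (k J)` and `DR J`, `DR_add`, and
`|stab (DR (k J))| ≤ |stab (DR ((k + 1) J))|` (`stab_DR_mono`, `sf_mono`). -/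
theorem kn_DR {H : AddSubgroup G} {R : Finset G} (J : ℕ) {k : ℕ} (hk : 1 ≤ k) :
    k * (DR H R J).card ≤
      (DR H R (k * J)).card + (k - 1) * (sf (stab (DR H R (k * J)))).card := by
  induction k, hk using Nat.le_induction with
  | base => simp
  | succ k hk ih =>
    have h1 := kneser (A := DR H R (k * J)) (B := DR H R J) (DR_nonempty _) (DR_nonempty _)
    rw [DR_add] at h1
    have h2 : k * J + J = (k + 1) * J := by ring
    rw [h2] at h1
    have h3 : (sf (stab (DR H R (k * J)))).card ≤ (sf (stab (DR H R ((k + 1) * J)))).card :=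
      Finset.card_le_card (sf_mono (stab_DR_mono (Nat.mul_le_mul_right J (Nat.le_succ k))))
    have h4 : (k - 1) * (sf (stab (DR H R (k * J)))).card ≤
        (k - 1) * (sf (stab (DR H R ((k + 1) * J)))).card := Nat.mul_le_mul_left _ h3
    have h5 : k + 1 - 1 = (k - 1) + 1 := by omega
    rw [h5, Nat.add_mul (k - 1) 1, one_mul, Nat.add_mul k 1, one_mul]
    omega

end Pool.Agent.helper43.Ex
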