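import Pool.Agent.helper43.Ex.Kn

/-! EX-Lay: layer counting (2.1 of the paper proof) and growth of `DR`. -/

open Finset Pool.Agent.helper43.Rho Pool.Agent.helper43.Asy

set_option linter.unusedSectionVars false

namespace Pool.Agent.helper43.Ex

variable {G : Type*} [AddCommGroup G] [DecidableEq G] [Fintype G]

/-- Induction on `k` (`neg_mem_CR`, `DR H R 0 = sf H`). -/
theorem neg_mem_DR {H : AddSubgroup G} {R : Finset G} {k : ℕ} {t : G} (ht : t ∈ DR H R k) :
    -t ∈ DR H R k := by
  induction k generalizing t with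
  | zero =>
    have h1 : t ∈ H := (mem_sf t).1 ht
    exact (mem_sf (-t)).2 (H.neg_mem h1)
  | succ k ih =>
    obtain ⟨x, hx, c, hc, rfl⟩ := mem_sumS.1 (show t ∈ sumS (DR H R k) (CR H R) from ht)
    exact mem_sumS.2 ⟨-x, ih hx, -c, neg_mem_CR hc, by abel⟩

/-- Induction on `j` from `a`: `DR (j + 1) = sumS (DR j) (CR H R)`, `hI`; `DR_subset`,
`DR_nonempty`, `DR_mono`. -/
theorem gr_from {H : AddSubgroup G} {R : Finset G} {p : ℕ} (hI : Iso H R p) {a j : ℕ}
    (haj : a ≤ j) (hj : (DR H R j).card < (sf (LL H R)).card) :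
    (DR H R a).card + 2 * p * (j - a) ≤ (DR H R j).card := by
  induction j, haj using Nat.le_induction with
  | base => simp
  | succ j haj ih =>
    have h1 : (DR H R j).card ≤ (DR H R (j + 1)).card :=
      Finset.card_le_card (DR_mono (Nat.le_succ j))
    have h2 := ih (lt_of_le_of_lt h1 hj)
    have h3 : (DR H R j).card + 2 * p ≤ (sumS (DR H R j) (CR H R)).card :=
      hI _ (DR_subset j) (DR_nonempty j) hj
    have h4 : (sumS (DR H R j) (CR H R)).card = (DR H R (j + 1)).card := rfl
    have h5 : j + 1 - a = (j - a) + 1 := by omega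
    rw [h5]
    have h6 : 2 * p * ((j - a) + 1) = 2 * p * (j - a) + 2 * p := by ring
    omega

/-- Induction on `j` from `a`. For `a ≤ i` the set `DR i` is `F`-periodic (`stab_DR_mono`,
`mem_stab_iff`). If `|DR (i+1)| < |L|` then `|DR i| < |DR (i+1)|` (`hI`, `p ≥ 1`), so
`DR (i+1) \ DR i` is nonempty, and `F`-periodic, so it has at least `|F|` elements
(`Per.card_ge`). -/
theorem gr_stab {H F : AddSubgroup G} {R : Finset G} {p : ℕ} (hI : Iso H R p) (hp : 1 ≤ p)
    {a j : ℕ} (hF : F ≤ stab (DR H R a)) (haj : a ≤ j)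
    (hj : (DR H R j).card < (sf (LL H R)).card) :
    (sf F).card * (j - a) ≤ (DR H R j).card := by
  induction j, haj using Nat.le_induction with
  | base => simp
  | succ j haj ih =>
    have h1 : (DR H R j).card ≤ (DR H R (j + 1)).card :=
      Finset.card_le_card (DR_mono (Nat.le_succ j))
    have h2 := ih (lt_of_le_of_lt h1 hj)
    have h3 : (DR H R j).card + 2 * p ≤ (sumS (DR H R j) (CR H R)).card :=
      hI _ (DR_subset j) (DR_nonempty j) hj
    have h4 : (sumS (DR H R j) (CR H R)).card = (DR H R (j + 1)).card := rfl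
    have hsub : DR H R j ⊆ DR H R (j + 1) := DR_mono (Nat.le_succ j)
    have hFj : F ≤ stab (DR H R j) := hF.trans (stab_DR_mono haj)
    have hFj1 : F ≤ stab (DR H R (j + 1)) := hF.trans (stab_DR_mono (haj.trans (Nat.le_succ j)))
    have hper : Per F (DR H R (j + 1) \ DR H R j) := by
      intro x hx k hk
      rw [Finset.mem_sdiff] at hx ⊢
      refine ⟨(mem_stab_iff.1 (hFj1 hk) x).2 hx.1, fun h => hx.2 ?_⟩
      exact (mem_stab_iff.1 (hFj hk) x).1 h
    have hcd : (DR H R (j + 1) \ DR H R j).card = (DR H R (j + 1)).card - (DR H R j).card :=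
      Finset.card_sdiff_of_subset hsub
    have hne : (DR H R (j + 1) \ DR H R j).Nonempty := by
      rw [← Finset.card_pos, hcd]
      omega
    have h7 := hper.card_ge hne
    rw [hcd] at h7
    have h5 : j + 1 - a = (j - a) + 1 := by omega
    rw [h5]
    have h6 : (sf F).card * ((j - a) + 1) = (sf F).card * (j - a) + (sf F).card := by ring
    omega

/-- `u = |X|`, `d j = |DR j|`. If `u = 0` it is clear; otherwise `u ≥ h` (`Per.card_ge`), so
`d 0 = h < 2 u ≤ d K`; take `k` with `d k < 2 u ≤ d (k + 1)`, `k + 1 ≤ K`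
(`DR_mono`), and `T` with `DR k ⊆ T ⊆ DR (k+1)`, `|T| = 2 u`
(`Finset.exists_subsuperset_card_eq`). `sum_lam_ge`: `2 u u ≤ ∑_{t ∈ T} lam X t + u u`. For
`t ∈ T` let `ν t = |{j < K : t ∉ DR j}|`; as the `DR j` increase and `t ∈ DR (k+1)`,
`t ∈ DR (ν t)`, so `lam X t ≤ ν t g` (`lam_DR_le`). `∑_{t ∈ T} ν t = ∑_{j < K} |T \ DR j|`
(`Finset.sum_card_bipartiteAbove_eq_sum_card_bipartiteBelow`, or `Finset.sum_comm`), and
`|T \ DR j| ≤ 2 u - d j` (for `j ≤ k` since `DR j ⊆ T`, for `j > k` since `T ⊆ DR j`, the left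
hand side is `0`). -/
theorem layer_ineq {H : AddSubgroup G} {R X : Finset G} (hX : Per H X) {g : ℕ}
    (hg : ∀ r ∈ R, lam X r ≤ g) {K : ℕ} (hK : 2 * X.card ≤ (DR H R K).card) :
    X.card ^ 2 ≤ g * ∑ j ∈ Finset.range K, (2 * X.card - (DR H R j).card) := by
  classical
  rcases Nat.eq_zero_or_pos X.card with h0 | hpos
  · rw [h0]
    simp
  have hXne : X.Nonempty := Finset.card_pos.1 hpos
  have hge := hX.card_ge hXne
  have hex : ∃ k, 2 * X.card ≤ (DR H R k).card := ⟨K, hK⟩
  obtain ⟨k, hk, hmin⟩ : ∃ k, 2 * X.card ≤ (DR H R k).card ∧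
      ∀ j < k, (DR H R j).card < 2 * X.card :=
    ⟨Nat.find hex, Nat.find_spec hex, fun j hj => not_le.1 (Nat.find_min hex hj)⟩
  cases k with
  | zero =>
    exfalso
    have h1 : (DR H R 0).card = (sf H).card := rfl
    omega
  | succ k =>
    have hkK : k + 1 ≤ K := by
      by_contra hcon
      have := hmin K (not_le.1 hcon)
      omega
    obtain ⟨T, hT1, hT2, hTc⟩ := Finset.exists_subsuperset_card_eq
      (DR_mono (H := H) (R := R) (Nat.le_succ k)) (hmin k (Nat.lt_succ_self k)).le hk
    set S : ℕ := ∑ t ∈ T, ((Finset.range (k + 1)).filter fun j => t ∉ DR H R j).card with hS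
    have h1 : ∑ t ∈ T, lam X t ≤ S * g := by
      rw [hS, Finset.sum_mul]
      refine Finset.sum_le_sum fun t ht => ?_
      have htk : ∃ j, t ∈ DR H R j := ⟨k + 1, hT2 ht⟩
      have hj1 : t ∈ DR H R (Nat.find htk) := Nat.find_spec htk
      have hj2 : Nat.find htk ≤ k + 1 := Nat.find_min' htk (hT2 ht)
      refine (lam_DR_le hX hg _ t hj1).trans (Nat.mul_le_mul_right g ?_)
      have hsub : Finset.range (Nat.find htk) ⊆
          (Finset.range (k + 1)).filter fun j => t ∉ DR H R j := by
        intro j hj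
        rw [Finset.mem_range] at hj
        rw [Finset.mem_filter, Finset.mem_range]
        exact ⟨lt_of_lt_of_le hj hj2, Nat.find_min htk hj⟩
      have := Finset.card_le_card hsub
      rwa [Finset.card_range] at this
    have h2 : S = ∑ j ∈ Finset.range (k + 1), (T.filter fun t => t ∉ DR H R j).card := by
      rw [hS]
      simp only [Finset.card_filter]
      exact Finset.sum_comm
    have h3 : S ≤ ∑ j ∈ Finset.range (k + 1), (2 * X.card - (DR H R j).card) := by
      rw [h2]
      refine Finset.sum_le_sum fun j hj => ?_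
      rw [Finset.mem_range] at hj
      have hjT : DR H R j ⊆ T := (DR_mono (Nat.lt_succ_iff.1 hj)).trans hT1
      have h5 : (T.filter fun t => t ∉ DR H R j).card = T.card - (DR H R j).card := by
        rw [← Finset.card_sdiff_of_subset hjT]
        congr 1
        ext t
        rw [Finset.mem_filter, Finset.mem_sdiff]
      rw [h5, hTc]
    have h4 : ∑ j ∈ Finset.range (k + 1), (2 * X.card - (DR H R j).card) ≤
        ∑ j ∈ Finset.range K, (2 * X.card - (DR H R j).card) :=
      Finset.sum_le_sum_of_subset (Finset.range_subset_range.2 hkK)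
    have h6 := sum_lam_ge X T
    rw [hTc] at h6
    have h7 : X.card ^ 2 ≤ S * g := by
      have e : X.card ^ 2 = X.card * X.card := sq _
      have e2 : 2 * X.card * X.card = X.card * X.card + X.card * X.card := by ring
      omega
    calc X.card ^ 2 ≤ S * g := h7
      _ ≤ (∑ j ∈ Finset.range K, (2 * X.card - (DR H R j).card)) * g :=
          Nat.mul_le_mul_right _ (h3.trans h4)
      _ = g * ∑ j ∈ Finset.range K, (2 * X.card - (DR H R j).card) := Nat.mul_comm _ _

end Pool.Agent.helper43.Ex
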