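import Pool.Agent.helper43.Ex.Defs

/-! EX-Lv: levels. -/

open Finset Pool.Agent.helper43.Rho Pool.Agent.helper43.Asy

set_option linter.unusedSectionVars false

namespace Pool.Agent.helper43.Ex

variable {G : Type*} [AddCommGroup G] [DecidableEq G] [Fintype G]

/-- `N` = the least positive integer with `N c ∈ K` (the order of `c` in the quotient); `j c ∈ K`
iff `N ∣ j` (division with remainder). `sf L` is the disjoint union of the cosets `j c + K`,
`0 ≤ j < N` (by `hg`), so `|L| = N |K|` (a bijection of `range N ×ˢ sf K` with `sf L`). For `a ∈ L`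
choose `j` with `a - j c ∈ K` and replace it by `j - N q`, `q` the nearest integer to `j / N`, to get
`2 |f a| ≤ N` (for instance `Int.bmod j N`). -/
theorem exists_lvl {c : G} {K L : AddSubgroup G} (hcL : c ∈ L) (hKL : K ≤ L)
    (hg : ∀ a ∈ L, ∃ j : ℤ, a - j • c ∈ K) : ∃ N f, Lvl c K L N f := by
  obtain ⟨N, hN⟩ : ∃ N, N = addOrderOf (QuotientAddGroup.mk c : G ⧸ K) := ⟨_, rfl⟩
  have hN0 : 0 < N := by
    rw [hN]
    exact addOrderOf_pos _
  have hord : ∀ j : ℤ, j • c ∈ K ↔ (N : ℤ) ∣ j := by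
    intro j
    rw [hN, addOrderOf_dvd_iff_zsmul_eq_zero, ← QuotientAddGroup.mk_zsmul,
      QuotientAddGroup.eq_zero_iff]
  choose! g hgK using hg
  refine ⟨N, fun a => Int.bmod (g a) N, hcL, hKL, ?_, hord, ?_, ?_⟩
  · rw [← Finset.card_range N, ← Finset.card_product]
    symm
    refine Finset.card_bij (fun z _ => (z.1 : ℤ) • c + z.2) ?_ ?_ ?_
    · rintro ⟨i, t⟩ hit
      rw [Finset.mem_product, mem_sf] at hit
      rw [mem_sf]
      exact L.add_mem (L.zsmul_mem hcL _) (hKL hit.2)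
    · rintro ⟨i, t⟩ hit ⟨i', t'⟩ hit' heq
      rw [Finset.mem_product, mem_sf, Finset.mem_range] at hit hit'
      simp only at hit hit' heq
      have h1 : ((i : ℤ) - i') • c ∈ K := by
        have h2 : ((i : ℤ) - i') • c = t' - t := by
          rw [sub_smul, sub_eq_sub_iff_add_eq_add, heq, add_comm]
        rw [h2]
        exact K.sub_mem hit'.2 hit.2
      rw [hord] at h1
      have h3 : (i : ℤ) - i' = 0 := by
        refine Int.eq_zero_of_abs_lt_dvd h1 ?_
        rw [abs_lt]
        omega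
      have h4 : i = i' := by omega
      subst h4
      rw [add_right_inj] at heq
      rw [heq]
    · intro a ha
      rw [mem_sf] at ha
      have h1 : 0 ≤ g a % (N : ℤ) := Int.emod_nonneg _ (by omega)
      have h2 : g a % (N : ℤ) < N := Int.emod_lt_of_pos _ (by omega)
      have h3 : ((g a % (N : ℤ)).toNat : ℤ) = g a % (N : ℤ) := Int.toNat_of_nonneg h1
      refine ⟨((g a % (N : ℤ)).toNat, a - (g a % (N : ℤ)) • c), ?_, ?_⟩
      · rw [Finset.mem_product, mem_sf, Finset.mem_range]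
        refine ⟨by omega, ?_⟩
        have h4 : a - (g a % (N : ℤ)) • c = (a - g a • c) + (g a - g a % (N : ℤ)) • c := by
          rw [sub_zsmul]
          abel
        simp only
        rw [h4]
        refine K.add_mem (hgK a ha) ((hord _).2 (Int.dvd_self_sub_emod))
      · simp only
        rw [h3]
        abel
  · intro a ha
    have h4 : a - (Int.bmod (g a) N) • c = (a - g a • c) - (Int.bmod (g a) N - g a) • c := by
      rw [sub_zsmul]
      abel
    rw [h4]
    exact K.sub_mem (hgK a ha) ((hord _).2 Int.dvd_bmod_sub_self)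
  · intro a _
    have h1 := Int.bmod_lt (x := g a) hN0
    have h2 := Int.le_bmod (x := g a) hN0
    have h3 : |Int.bmod (g a) N| ≤ (N : ℤ) / 2 := abs_le.2 ⟨h2, by omega⟩
    omega

theorem Lvl.pos {c : G} {K L : AddSubgroup G} {N : ℕ} {f : G → ℤ} (h : Lvl c K L N f) :
    1 ≤ N := by
  by_contra hN
  have h1 : N = 0 := by omega
  have h2 := h.card
  rw [h1, zero_mul, Finset.card_eq_zero] at h2
  have h3 : (0 : G) ∈ sf L := (mem_sf 0).2 L.zero_mem
  rw [h2] at h3
  exact absurd h3 (Finset.notMem_empty _)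

/-- `i c + s = j c + t` with `s, t ∈ K` implies `N ∣ i - j`. -/
theorem Lvl.cong {c : G} {K L : AddSubgroup G} {N : ℕ} {f : G → ℤ} (h : Lvl c K L N f)
    {i j : ℤ} {s t : G} (hs : s ∈ K) (ht : t ∈ K) (he : i • c + s = j • c + t) :
    (N : ℤ) ∣ i - j := by
  rw [← h.ord]
  have h2 : (i - j) • c = t - s := by
    rw [sub_smul, sub_eq_sub_iff_add_eq_add, he, add_comm]
  rw [h2]
  exact K.sub_mem ht hs

/-- `f a` has the smallest absolute value: `N ∣ f a - j`, and if `f a ≠ j` then
`|j| ≥ N - |f a| ≥ |f a|`. -/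
theorem Lvl.min {c : G} {K L : AddSubgroup G} {N : ℕ} {f : G → ℤ} (h : Lvl c K L N f)
    {a : G} (ha : a ∈ L) {j : ℤ} (hj : a - j • c ∈ K) : |f a| ≤ |j| := by
  have h1 : (N : ℤ) ∣ f a - j := by
    rw [← h.ord]
    have h2 : (f a - j) • c = (a - j • c) - (a - f a • c) := by
      rw [sub_zsmul]
      abel
    rw [h2]
    exact K.sub_mem hj (h.mem a ha)
  have h3 := h.small a ha
  by_cases h4 : f a = j
  · rw [h4]
  · have h5 : (N : ℤ) ≤ |f a - j| := by
      by_contra h6
      exact h4 (sub_eq_zero.1 (Int.eq_zero_of_abs_lt_dvd h1 (not_le.1 h6)))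
    have h6 := abs_sub (f a) j
    omega

theorem Lvl.zero_iff {c : G} {K L : AddSubgroup G} {N : ℕ} {f : G → ℤ} (h : Lvl c K L N f)
    {a : G} (ha : a ∈ L) : f a = 0 ↔ a ∈ K := by
  constructor
  · intro h0
    have h1 := h.mem a ha
    rwa [h0, zero_zsmul, sub_zero] at h1
  · intro hK
    have h1 := h.min ha (j := 0) (by rwa [zero_zsmul, sub_zero])
    rw [abs_zero] at h1
    exact abs_nonpos_iff.1 h1

/-- replace `c` by `-c` -/
theorem Lvl.neg {c : G} {K L : AddSubgroup G} {N : ℕ} {f : G → ℤ} (h : Lvl c K L N f) :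
    Lvl (-c) K L N (fun a => -f a) := by
  refine ⟨L.neg_mem h.cL, h.KL, h.card, ?_, ?_, ?_⟩
  · intro j
    rw [zsmul_neg, neg_mem_iff]
    exact h.ord j
  · intro a ha
    rw [neg_zsmul, zsmul_neg, neg_neg]
    exact h.mem a ha
  · intro a ha
    rw [abs_neg]
    exact h.small a ha

/-- `sf L` has `N |K|` elements and `j c + t ∈ L`. -/
theorem Lvl.mem_L {c : G} {K L : AddSubgroup G} {N : ℕ} {f : G → ℤ} (h : Lvl c K L N f)
    (j : ℤ) {t : G} (ht : t ∈ K) : j • c + t ∈ L :=
  L.add_mem (L.zsmul_mem h.cL j) (h.KL ht)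

/-- The injective map of `Lvl.class_card`. -/
private def lvMap (c : G) (f : G → ℤ) (k : ℕ) (a : G) : G :=
  (if f a = k then a else -a) - (k : ℤ) • c

private theorem lvMap_mem {c : G} {K L : AddSubgroup G} {N : ℕ} {f : G → ℤ}
    (h : Lvl c K L N f) {A : Finset G} (hAL : ∀ a ∈ A, a ∈ L) (k : ℕ) {a : G}
    (ha : a ∈ A.filter (fun a => (f a).natAbs = k)) : lvMap c f k a ∈ K := by
  rw [Finset.mem_filter] at ha
  have h1 := h.mem a (hAL a ha.1)
  unfold lvMap
  split_ifs with h2
  · rwa [h2] at h1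
  · have h3 : f a = -(k : ℤ) := by omega
    have h4 : -a - (k : ℤ) • c = -(a - f a • c) := by
      rw [h3, neg_zsmul]
      abel
    rw [h4]
    exact K.neg_mem h1

private theorem lvMap_inj {c : G} {f : G → ℤ} {A : Finset G} (hA : Asym A) (k : ℕ) :
    Set.InjOn (lvMap c f k) (A.filter (fun a => (f a).natAbs = k) : Finset G) := by
  intro a ha b hb hab
  rw [Finset.mem_coe, Finset.mem_filter] at ha hb
  unfold lvMap at hab
  rw [sub_left_inj] at hab
  split_ifs at hab with h1 h2 h2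
  · exact hab
  · exact absurd (hab ▸ ha.1) (hA b hb.1)
  · exact absurd (hab.symm ▸ hb.1) (hA a ha.1)
  · exact neg_injective hab

/-- The elements of `A` with `|f a| = k`: the map sending `a` to `a` if `f a = k` and to `-a` if
`f a = -k` has values in `k c + K` and is injective since `A` is asymmetric. -/
theorem Lvl.class_card {c : G} {K L : AddSubgroup G} {N : ℕ} {f : G → ℤ}
    (h : Lvl c K L N f) {A : Finset G} (hA : Asym A) (hAL : ∀ a ∈ A, a ∈ L) (k : ℕ)
    (hk : 1 ≤ k) : (A.filter (fun a => (f a).natAbs = k)).card ≤ (sf K).card :=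
  Finset.card_le_card_of_injOn (lvMap c f k)
    (fun _ ha => Finset.mem_coe.2 ((mem_sf _).2 (lvMap_mem h hAL k ha))) (lvMap_inj hA k)

/-- The same, with equality: if the class `k ≥ 1` of `A` has `|K|` elements, then every element `z`
of `k c + K` satisfies `z ∈ A ∧ f z = k` or `-z ∈ A ∧ f (-z) = -k` (the injective map of
`Lvl.class_card` is surjective onto `k c + K`). -/
theorem Lvl.class_full {c : G} {K L : AddSubgroup G} {N : ℕ} {f : G → ℤ}
    (h : Lvl c K L N f) {A : Finset G} (hA : Asym A) (hAL : ∀ a ∈ A, a ∈ L) {k : ℕ}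
    (hk : 1 ≤ k) (hc : (A.filter (fun a => (f a).natAbs = k)).card = (sf K).card) {z : G}
    (hz : z - k • c ∈ K) : (z ∈ A ∧ f z = k) ∨ (-z ∈ A ∧ f (-z) = -k) := by
  have hsurj := Finset.surjOn_of_injOn_of_card_le (lvMap c f k)
    (s := A.filter (fun a => (f a).natAbs = k)) (t := sf K)
    (fun _ ha => Finset.mem_coe.2 ((mem_sf _).2 (lvMap_mem h hAL k ha))) (lvMap_inj hA k) hc.ge
  obtain ⟨a, ha, haz⟩ := hsurj (Finset.mem_coe.2 ((mem_sf _).2 hz))
  rw [Finset.mem_coe, Finset.mem_filter] at ha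
  unfold lvMap at haz
  rw [natCast_zsmul, sub_left_inj] at haz
  split_ifs at haz with h2
  · left
    rw [← haz]
    exact ⟨ha.1, h2⟩
  · right
    rw [← haz, neg_neg]
    exact ⟨ha.1, by omega⟩

end Pool.Agent.helper43.Ex
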