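import Pool.Agent.helper43.Ex.Defs

/-! EX-NB: numerical facts for `M ≥ 2 ^ 399` and sums of `rd h j` over intervals. -/

open Finset Pool.Agent.helper43.Rho Pool.Agent.helper43.Asy

namespace Pool.Agent.helper43.Ex

private theorem nb_pow (k : ℕ) (hk : 199 ≤ k) : 10 ^ 30 * (2 * k + 2) ^ 3 ≤ 2 ^ k := by
  induction k, hk using Nat.le_induction with
  | base => norm_num
  | succ k hk ih =>
    have h1 : (2 * (k + 1) + 2) ^ 3 ≤ 2 * (2 * k + 2) ^ 3 := by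
      nlinarith [Nat.mul_le_mul hk hk, Nat.mul_le_mul (Nat.mul_le_mul hk hk) hk,
        Nat.mul_le_mul (Nat.mul_le_mul hk (le_refl k)) (le_refl k)]
    calc 10 ^ 30 * (2 * (k + 1) + 2) ^ 3 ≤ 10 ^ 30 * (2 * (2 * k + 2) ^ 3) :=
          Nat.mul_le_mul_left _ h1
      _ = 2 * (10 ^ 30 * (2 * k + 2) ^ 3) := by ring
      _ ≤ 2 * 2 ^ k := Nat.mul_le_mul_left _ ih
      _ = 2 ^ (k + 1) := by ring

private theorem nb_split (f : ℕ → ℕ) {i M : ℕ} (hi : i ≤ M) :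
    ∑ j ∈ Icc 1 M, f j = ∑ j ∈ Icc 1 i, f j + ∑ j ∈ Ioc i M, f j := by
  have hd : Disjoint (Icc 1 i) (Ioc i M) := by
    rw [Finset.disjoint_left]
    intro j hj hj'
    rw [Finset.mem_Icc] at hj
    rw [Finset.mem_Ioc] at hj'
    omega
  rw [← Finset.sum_union hd]
  congr 1
  ext j
  rw [Finset.mem_union, Finset.mem_Icc, Finset.mem_Icc, Finset.mem_Ioc]
  omega

/-- Let `l = Nat.log 2 M ≥ 399`, `k = l / 2 ≥ 199`. `2^l ≤ M`, so `2^k ≤ Nat.sqrt M`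
(`Nat.le_sqrt`). It remains `10^30 (2 k + 2)^3 ≤ 2^k` for `k ≥ 199` (induction on `k`: true for
`k = 199` by `norm_num`, and `(2 k + 4)^3 ≤ 2 (2 k + 2)^3`). -/
theorem num_big {M : ℕ} (hM : 2 ^ 399 ≤ M) :
    10 ^ 30 * (Nat.log 2 M + 1) ^ 3 ≤ Nat.sqrt M := by
  have hM0 : M ≠ 0 := by
    rintro rfl
    norm_num at hM
  have hl : 399 ≤ Nat.log 2 M := Nat.le_log_of_pow_le (by norm_num) hM
  have hle : 2 ^ Nat.log 2 M ≤ M := Nat.pow_log_le_self 2 hM0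
  obtain ⟨k, hk⟩ : ∃ k, k = Nat.log 2 M / 2 := ⟨_, rfl⟩
  have hk1 : 199 ≤ k := by omega
  have hk2 : Nat.log 2 M + 1 ≤ 2 * k + 2 := by omega
  have hk3 : k + k ≤ Nat.log 2 M := by omega
  have h1 : 2 ^ k ≤ Nat.sqrt M := by
    rw [Nat.le_sqrt, ← pow_add]
    exact (Nat.pow_le_pow_right (by norm_num) hk3).trans hle
  calc 10 ^ 30 * (Nat.log 2 M + 1) ^ 3 ≤ 10 ^ 30 * (2 * k + 2) ^ 3 :=
        Nat.mul_le_mul_left _ (Nat.pow_le_pow_left hk2 3)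
    _ ≤ 2 ^ k := nb_pow k hk1
    _ ≤ Nat.sqrt M := h1

/-- `2^199 ≤ Nat.sqrt M`, `10^50 ≤ 2^199`, `Nat.sqrt M * Nat.sqrt M ≤ M`. -/
theorem sqrt_big {M : ℕ} (hM : 2 ^ 399 ≤ M) : 10 ^ 50 * (Nat.sqrt M + 1) ≤ M := by
  have h1 : 2 ^ 199 ≤ Nat.sqrt M := by
    rw [Nat.le_sqrt, ← pow_add]
    exact (Nat.pow_le_pow_right (by norm_num) (by norm_num)).trans hM
  have h2 : Nat.sqrt M * Nat.sqrt M ≤ M := Nat.sqrt_le M
  have h3 : 2 * 10 ^ 50 ≤ 2 ^ 199 := by norm_num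
  have h4 : 1 ≤ Nat.sqrt M := le_trans (Nat.one_le_two_pow) h1
  calc 10 ^ 50 * (Nat.sqrt M + 1) ≤ 10 ^ 50 * (2 * Nat.sqrt M) :=
        Nat.mul_le_mul_left _ (by omega)
    _ = (2 * 10 ^ 50) * Nat.sqrt M := by ring
    _ ≤ Nat.sqrt M * Nat.sqrt M := Nat.mul_le_mul_right _ (h3.trans h1)
    _ ≤ M := h2

/-- `sum_rd_shift` for `Icc 1 M`, minus the same sum over `Icc 1 i` with
`rd h (j - δ) ≤ rd h j` (`rd_mono`). -/
theorem sum_rd_Ioc_shift {h : ℕ} (hh : 0 < h) {i M : ℕ} (hi : i ≤ M) (δ : ℕ) :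
    ∑ j ∈ Ioc i M, rd h j ≤ ∑ j ∈ Ioc i M, rd h (j - δ) + δ * rd h M := by
  have h1 := sum_rd_shift hh M δ
  rw [nb_split (fun j => rd h j) hi, nb_split (fun j => rd h (j - δ)) hi] at h1
  have h2 : ∑ j ∈ Icc 1 i, rd h (j - δ) ≤ ∑ j ∈ Icc 1 i, rd h j :=
    Finset.sum_le_sum (fun j _ => rd_mono (Nat.sub_le _ _))
  omega

/-- `rd_le` -/
theorem sum_rd_Ioc_le {h i M : ℕ} : ∑ j ∈ Ioc i M, rd h j ≤ (M - i) * (M + h) := by
  calc ∑ j ∈ Ioc i M, rd h j ≤ (Ioc i M).card • (M + h) := by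
        apply Finset.sum_le_card_nsmul
        intro j hj
        rw [Finset.mem_Ioc] at hj
        have := rd_le (h := h) (x := j)
        omega
    _ = (M - i) * (M + h) := by rw [Nat.card_Ioc, smul_eq_mul]

/-- `le_rd` -/
theorem sum_rd_Ioc_ge {h : ℕ} (hh : 0 < h) {i M : ℕ} :
    (M - i) * i ≤ ∑ j ∈ Ioc i M, rd h j := by
  calc (M - i) * i = (Ioc i M).card • i := by rw [Nat.card_Ioc, smul_eq_mul]
    _ ≤ ∑ j ∈ Ioc i M, rd h j := by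
        apply Finset.card_nsmul_le_sum
        intro j hj
        rw [Finset.mem_Ioc] at hj
        have := le_rd (x := j) hh
        omega

theorem TT_split {h i M : ℕ} (hi : i ≤ M) : TT h M = TT h i + ∑ j ∈ Ioc i M, rd h j := by
  unfold TT
  rw [nb_split (fun j => rd h j) hi, add_assoc]

/-- `TT h` is strictly increasing for `h > 0`. -/
theorem TT_lt {h : ℕ} (hh : 0 < h) {i M : ℕ} (hi : i < M) : TT h i < TT h M := by
  rw [TT_split (h := h) hi.le]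
  have h1 : rd h M ≤ ∑ j ∈ Ioc i M, rd h j :=
    Finset.single_le_sum (f := fun j => rd h j) (fun j _ => Nat.zero_le _)
      (Finset.mem_Ioc.2 ⟨hi, le_rfl⟩)
  have h2 := le_rd (x := M) hh
  omega

theorem TT_succ (h M : ℕ) : TT h (M + 1) = TT h M + rd h (M + 1) := by
  unfold TT
  rw [Finset.sum_Icc_succ_top (by omega), add_assoc]

/-- `sum_rd_ge` -/
theorem TT_ge {h : ℕ} (hh : 0 < h) (M : ℕ) : M * (M + 1) ≤ 2 * TT h M := by
  have := sum_rd_ge hh M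
  unfold TT
  omega

/-- each `rd h j ≤ j + h < 2 M` -/
theorem TT_le {h M : ℕ} (hM : h < M) : TT h M ≤ 3 * M ^ 2 := by
  have h1 := sum_rd_Ioc_le (h := h) (i := 0) (M := M)
  have h2 : TT h M = TT h 0 + ∑ j ∈ Ioc 0 M, rd h j := TT_split (Nat.zero_le M)
  have h3 : TT h 0 = h := by simp [TT]
  rw [h2, h3]
  rw [Nat.sub_zero] at h1
  nlinarith

end Pool.Agent.helper43.Ex
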