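import Mathlib

/-! EX-NmA: two numerical lemmas for 2.2 of the paper proof. Truncated subtraction. -/

open Finset

namespace Pool.Agent.helper43.Ex

theorem NmA_prog (u p K : ℕ) :
    p * ∑ j ∈ Finset.range K, (2 * u - 2 * (p * j)) + ((u - p * K) ^ 2 + 2 * (p * (u - p * K))) ≤
      u ^ 2 + 2 * (p * u) := by
  induction K with
  | zero => simp
  | succ K ih =>
    obtain ⟨w, hw⟩ : ∃ w, w = u - p * K := ⟨_, rfl⟩
    have h1 : u - p * (K + 1) = w - p := by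
      rw [hw, Nat.mul_add, Nat.mul_one, Nat.sub_sub]
    have h2 : 2 * u - 2 * (p * K) = 2 * w := by
      rw [hw]
      omega
    rw [Finset.sum_range_succ, Nat.mul_add, h1, h2]
    rw [← hw] at ih
    rcases le_total p w with h | h
    · obtain ⟨t, rfl⟩ : ∃ t, w = p + t := ⟨w - p, by omega⟩
      rw [Nat.add_sub_cancel_left]
      nlinarith
    · rw [Nat.sub_eq_zero_of_le h]
      nlinarith

/-- Arithmetic progression: `∑_{j < K} (2 u - 2 (p j)) ≤ u^2 / p + 2 u`. More precisely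
`p ∑ ≤ u^2 + 2 p u` if `p ≤ u` (only the `j ≤ n = u / p` count:
`∑_{j ≤ n} (2 u - 2 p j) = (n + 1) (2 u - p n)`, and with `u = p n + r`, `0 ≤ r < p`:
`p (n + 1) (2 u - p n) = (u - r + p) (u + r) = u^2 - r^2 + p u + p r`). -/
theorem sum_prog {u p : ℕ} (hp : 1 ≤ p) (hu : p ≤ u) (K : ℕ) :
    p * ∑ j ∈ Finset.range K, (2 * u - 2 * (p * j)) ≤ u ^ 2 + 2 * (p * u) :=
  (Nat.le_add_right _ _).trans (NmA_prog u p K)

/-- Savings. `a`, `b` with `b ≤ K`: if the terms with `a ≤ j < b` are smaller by at least `s`: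
`∑_{j < K} y j + s (b - a) ≤ ∑_{j < K} x j` (`y ≤ x` everywhere, `y j + s ≤ x j` on `[a, b)`). -/
theorem sum_save {x y : ℕ → ℕ} {a b s K : ℕ} (hbK : b ≤ K)
    (h : ∀ j, j < K → y j ≤ x j) (hs : ∀ j, a ≤ j → j < b → y j + s ≤ x j) :
    ∑ j ∈ Finset.range K, y j + s * (b - a) ≤ ∑ j ∈ Finset.range K, x j := by
  have h1 : s * (b - a) = ∑ j ∈ Finset.range K, (if a ≤ j ∧ j < b then s else 0) := by
    rw [← Finset.sum_filter, Finset.sum_const, smul_eq_mul, mul_comm]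
    congr 1
    rw [← Nat.card_Ico]
    congr 1
    ext j
    rw [Finset.mem_Ico, Finset.mem_filter, Finset.mem_range]
    constructor
    · rintro ⟨h2, h3⟩
      exact ⟨by omega, h2, h3⟩
    · rintro ⟨-, h2⟩
      exact h2
  rw [h1, ← Finset.sum_add_distrib]
  refine Finset.sum_le_sum fun j hj => ?_
  rw [Finset.mem_range] at hj
  split_ifs with h2
  · exact hs j h2.1 h2.2
  · exact h j hj

/-- Case (ii). WLOG `K > u / p` (enlarging `K` does not decrease the sum).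
`x j = 2 u - 2 (p j)`, `y j = 2 u - d j`. `y j ≤ x j` by `h1` (if `d j ≥ 2 u` then `y j = 0`).
With `k = u / (8 p J)`: `8 p J k > u - 8 p J ≥ u - 128 * 10^6 p ≥ 0.98 u`
(as `p ≤ u / 10^10`), so by `h2`, for `j ≥ k J` with `d j < 2 u`:
`2 * 10^6 d j ≥ 4 * 10^6 p j + 0.36 u`, that is `d j ≥ 2 p j + s` with `s = u / (6 * 10^6)`
(floor). For `j ≥ u / (8 p) + 1`
and `2 p j ≤ u` also `x j ≥ u ≥ s`. So `y j + s ≤ x j` for `a = u / (8 p) + 1 ≤ j <
b = u / (2 p)` (if `d j ≥ 2 u` then `y j = 0` and `s ≤ x j`). `sum_save` and `sum_prog`: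
`p ∑ y ≤ u^2 + 2 p u - p s (b - a)`, `p (b - a) ≥ 3 u / 8 - 3 p ≥ u / 3`,
`s ≥ u / 10^7`, so `p ∑ y ≤ u^2 (1 + 2 * 10^(-10) - 10^(-7) / 3)`, stronger than the claim. -/
theorem numA {d : ℕ → ℕ} {p u J k : ℕ} (K : ℕ) (hp : 1 ≤ p) (hu : 10 ^ 10 * p ≤ u)
    (hJ : 1 ≤ J) (hJ2 : J ≤ 16 * 10 ^ 6) (hk : k = u / (8 * p * J))
    (h1 : ∀ j, d j < 2 * u → 2 * (p * j) ≤ d j)
    (h2 : ∀ j, k * J ≤ j → d j < 2 * u →
      4 * 10 ^ 6 * (p * j) + 3 * (k * (p * J)) ≤ 2 * 10 ^ 6 * d j) :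
    10 ^ 9 * (p * ∑ j ∈ Finset.range K, (2 * u - d j)) ≤ (10 ^ 9 - 5) * u ^ 2 := by
  obtain ⟨a, ha⟩ : ∃ a, a = u / (8 * p) + 1 := ⟨_, rfl⟩
  obtain ⟨b, hb⟩ : ∃ b, b = u / (2 * p) := ⟨_, rfl⟩
  obtain ⟨s, hs⟩ : ∃ s, s = u / (6 * 10 ^ 6) := ⟨_, rfl⟩
  obtain ⟨K', hK'⟩ : ∃ K', K' = max K b := ⟨_, rfl⟩
  have hKK : ∑ j ∈ Finset.range K, (2 * u - d j) ≤ ∑ j ∈ Finset.range K', (2 * u - d j) :=
    Finset.sum_le_sum_of_subset (Finset.range_subset_range.2 (by omega))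
  -- facts on k, a, b, s
  have hkJ : k * J ≤ u / (8 * p) := by
    rw [hk, ← Nat.div_div_eq_div_mul]
    exact Nat.div_mul_le_self _ _
  have hk2 : u < 8 * (k * (p * J)) + 8 * (p * J) := by
    have h0 : 0 < 8 * p * J := by positivity
    have h3 := Nat.lt_mul_div_succ u h0
    rw [← hk] at h3
    calc u < 8 * p * J * (k + 1) := h3
      _ = 8 * (k * (p * J)) + 8 * (p * J) := by ring
  have hpJ : p * J ≤ p * (16 * 10 ^ 6) := Nat.mul_le_mul_left p hJ2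
  have hk3 : u ≤ 9 * (k * (p * J)) := by omega
  have hs1 : s * (6 * 10 ^ 6) ≤ u := by
    rw [hs]
    exact Nat.div_mul_le_self _ _
  have hs2 : u < s * (6 * 10 ^ 6) + 6 * 10 ^ 6 := by
    have h3 := Nat.lt_mul_div_succ u (show 0 < 6 * 10 ^ 6 by norm_num)
    rw [← hs] at h3
    omega
  have hs3 : u ≤ 10 ^ 7 * s := by omega
  have ha1 : 8 * (p * a) ≤ u + 8 * p := by
    have h3 := Nat.div_mul_le_self u (8 * p)
    rw [ha]
    calc 8 * (p * (u / (8 * p) + 1)) = u / (8 * p) * (8 * p) + 8 * p := by ring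
      _ ≤ _ := by omega
  have hb1 : 2 * (p * b) ≤ u := by
    have h3 := Nat.div_mul_le_self u (2 * p)
    rw [hb]
    calc 2 * (p * (u / (2 * p))) = u / (2 * p) * (2 * p) := by ring
      _ ≤ _ := h3
  have hb2 : u < 2 * (p * b) + 2 * p := by
    have h3 := Nat.lt_mul_div_succ u (show 0 < 2 * p by omega)
    rw [← hb] at h3
    calc u < 2 * p * (b + 1) := h3
      _ = _ := by ring
  have hT : u ≤ 3 * (p * (b - a)) := by
    rw [Nat.mul_sub]
    omega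
  have hsave := sum_save (x := fun j => 2 * u - 2 * (p * j)) (y := fun j => 2 * u - d j)
    (a := a) (b := b) (s := s) (K := K') (by omega)
    (by
      intro j _
      by_cases hd : d j < 2 * u
      · have := h1 j hd
        omega
      · omega)
    (by
      intro j haj hjb
      have hpj : p * j ≤ p * b := Nat.mul_le_mul_left p hjb.le
      by_cases hd : d j < 2 * u
      · have h3 := h2 j (by omega) hd
        omega
      · omega)
  have hprog := sum_prog hp (show p ≤ u by omega) K'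
  have hA : p * ∑ j ∈ Finset.range K', (2 * u - d j) + s * (p * (b - a)) ≤ u ^ 2 + 2 * (p * u) := by
    calc p * ∑ j ∈ Finset.range K', (2 * u - d j) + s * (p * (b - a))
        = p * (∑ j ∈ Finset.range K', (2 * u - d j) + s * (b - a)) := by ring
      _ ≤ p * ∑ j ∈ Finset.range K', (2 * u - 2 * (p * j)) := Nat.mul_le_mul_left p hsave
      _ ≤ _ := hprog
  have hB : u * u ≤ (10 ^ 7 * s) * (3 * (p * (b - a))) := Nat.mul_le_mul hs3 hT
  have hC : 10 ^ 10 * p * u ≤ u * u := Nat.mul_le_mul_right u hu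
  have hD := Nat.mul_le_mul_left p hKK
  obtain ⟨S, hS⟩ : ∃ S, S = p * ∑ j ∈ Finset.range K, (2 * u - d j) := ⟨_, rfl⟩
  obtain ⟨S', hS'⟩ : ∃ S', S' = p * ∑ j ∈ Finset.range K', (2 * u - d j) := ⟨_, rfl⟩
  obtain ⟨Z, hZ⟩ : ∃ Z, Z = s * (p * (b - a)) := ⟨_, rfl⟩
  obtain ⟨U, hU⟩ : ∃ U, U = u * u := ⟨_, rfl⟩
  obtain ⟨V, hV⟩ : ∃ V, V = p * u := ⟨_, rfl⟩
  have hB' : U ≤ 3 * 10 ^ 7 * Z := by
    rw [hU, hZ]
    calc u * u ≤ _ := hB
      _ = _ := by ring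
  have hC' : 10 ^ 10 * V ≤ U := by
    rw [hU, hV, ← mul_assoc]
    exact hC
  rw [pow_two, ← hS', ← hZ, ← hV, ← hU] at hA
  rw [← hS, ← hS'] at hD
  rw [← hS, pow_two, ← hU]
  omega

/-- Case (i). `∑_{j < K} (2 u - d j) ≤ ∑_{j < a} (2 u - 2 p j) +
∑_{i < K} (2 u - 4 (p i))` (`j = a + i`; `h1`, `h2`). The second sum is at most
`u^2 / (2 p) + 2 u` (`sum_prog` with `2 p` in the place of `p`: `2 p ∑ ≤ u^2 + 4 p u`). The first
is `a (2 u - p (a - 1))`, with `8 p a ≤ u`: `p` times it is at most `15 u^2 / 64 + p u`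
(`x = p a ≤ u/8`, `x (2 u - x) ≤ (u/8)(15 u / 8)`). Altogether
`p ∑ ≤ (1/2 + 15/64) u^2 + 4 p u ≤ 0.75 u^2`. -/
theorem numB {d : ℕ → ℕ} {p u a : ℕ} (K : ℕ) (hp : 1 ≤ p) (hu : 10 ^ 10 * p ≤ u)
    (ha : 8 * (p * a) ≤ u) (h1 : ∀ j, d j < 2 * u → 2 * (p * j) ≤ d j)
    (h2 : ∀ j, a ≤ j → d j < 2 * u → 4 * (p * (j - a)) ≤ d j) :
    100 * (p * ∑ j ∈ Finset.range K, (2 * u - d j)) ≤ 75 * u ^ 2 := by
  have hK : ∑ j ∈ Finset.range K, (2 * u - d j) ≤
      ∑ j ∈ Finset.range a, (2 * u - 2 * (p * j)) +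
        ∑ i ∈ Finset.range K, (2 * u - 2 * (2 * p * i)) := by
    calc ∑ j ∈ Finset.range K, (2 * u - d j)
        ≤ ∑ j ∈ Finset.range (a + K), (2 * u - d j) :=
          Finset.sum_le_sum_of_subset (Finset.range_subset_range.2 (by omega))
      _ = ∑ j ∈ Finset.range a, (2 * u - d j) + ∑ i ∈ Finset.range K, (2 * u - d (a + i)) :=
          Finset.sum_range_add _ _ _
      _ ≤ _ := by
          refine Nat.add_le_add (Finset.sum_le_sum fun j _ => ?_)
            (Finset.sum_le_sum fun i _ => ?_)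
          · by_cases hd : d j < 2 * u
            · have := h1 j hd
              omega
            · omega
          · by_cases hd : d (a + i) < 2 * u
            · have h3 := h2 (a + i) (by omega) hd
              rw [Nat.add_sub_cancel_left] at h3
              rw [mul_assoc 2 p i]
              omega
            · omega
  have hA := NmA_prog u p a
  have hB := NmA_prog u (2 * p) K
  have hC : 10 ^ 10 * p * u ≤ u * u := Nat.mul_le_mul_right u hu
  obtain ⟨w, hw⟩ : ∃ w, w = u - p * a := ⟨_, rfl⟩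
  have hw1 : 7 * u ≤ 8 * w := by omega
  have hw2 : (7 * u) * (7 * u) ≤ (8 * w) * (8 * w) := Nat.mul_le_mul hw1 hw1
  rw [← hw] at hA
  have hD := Nat.mul_le_mul_left p hK
  rw [Nat.mul_add] at hD
  nlinarith [Nat.zero_le (p * w), Nat.zero_le ((u - 2 * p * K) ^ 2),
    Nat.zero_le (p * (u - 2 * p * K))]

end Pool.Agent.helper43.Ex
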