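import Pool.Agent.helper43.Ex.NB

/-! EX-P12: the lower bounds P1 and P2 of the paper proof. -/

open Finset Pool.Agent.helper43.Rho Pool.Agent.helper43.Asy

set_option linter.unusedSectionVars false

namespace Pool.Agent.helper43.Ex

variable {G : Type*} [AddCommGroup G] [DecidableEq G] [Fintype G]

/-- Pure arithmetic behind `mid_lower`: `s = Nat.sqrt M`, `l = Nat.log 2 M`. By `num_big`
`10^30 (l+1)^3 ≤ s`, `s * s ≤ M`. `β ≤ 4 * 10^14 (l + 1)`, `98 (2 l + 5) ≤ 490 (l + 1)`, so the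
bracket is at most `M (8 * 10^14 (l+1) + 1.96 * 10^17 (l+1)^2 + 80 (s + 1))`, and
`10^14` times it is at most `M (2 * 10^31 (l+1)^2 + 1.6 * 10^16 s) ≤ M (s + s s) ≤ 2 M^2`
(`l ≥ 399`). -/
theorem P1_arith {M : ℕ} (hM : 2 ^ 399 ≤ M) :
    10 ^ 14 * (2 * M * ((10 ^ 14 + 2) * (2 * Nat.log 2 M + 3)) +
      98 * M * ((2 * Nat.log 2 M + 5) * ((10 ^ 14 + 2) * (2 * Nat.log 2 M + 3))) +
      2 * M * (40 * (Nat.sqrt M + 1))) ≤ 9 * M ^ 2 := by
  have hbig := num_big hM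
  have hsM : Nat.sqrt M * Nat.sqrt M ≤ M := Nat.sqrt_le M
  have hl : 399 ≤ Nat.log 2 M := Nat.le_log_of_pow_le (by norm_num) hM
  generalize Nat.sqrt M = s at *
  generalize Nat.log 2 M = l at *
  obtain ⟨L, hL⟩ : ∃ L, L = l + 1 := ⟨_, rfl⟩
  have hL1 : 400 ≤ L := by omega
  rw [← hL] at hbig
  -- powers of `L`
  have hL2 : 400 * L ^ 2 ≤ L ^ 3 := by
    have e : L ^ 3 = L * L ^ 2 := by ring
    rw [e]
    exact Nat.mul_le_mul_right _ hL1
  have hLL : L ≤ L ^ 2 := by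
    have e : L ^ 2 = L * L := by ring
    rw [e]
    exact Nat.le_mul_self L
  have hL3 : 1 ≤ L ^ 2 := Nat.one_le_pow _ _ (by omega)
  have hs1 : 10 ^ 30 ≤ s := by omega
  have hs2 : 2 * 10 ^ 31 * L ^ 2 ≤ s := by omega
  have hβ : (10 ^ 14 + 2) * (2 * l + 3) ≤ 4 * 10 ^ 14 * L := by omega
  have h5 : 98 * (2 * l + 5) ≤ 490 * L := by omega
  generalize hβd : (10 ^ 14 + 2) * (2 * l + 3) = β at *
  have e1 : 2 * M * β ≤ M * (8 * 10 ^ 14 * L) := by
    have h : M * β ≤ M * (4 * 10 ^ 14 * L) := Nat.mul_le_mul_left _ hβ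
    have e2 : 2 * M * β = 2 * (M * β) := by ring
    have e3 : M * (8 * 10 ^ 14 * L) = 2 * (M * (4 * 10 ^ 14 * L)) := by ring
    omega
  have e2 : 98 * M * ((2 * l + 5) * β) ≤ M * (196 * 10 ^ 15 * L ^ 2) := by
    have h : 98 * (2 * l + 5) * β ≤ 490 * L * (4 * 10 ^ 14 * L) := Nat.mul_le_mul h5 hβ
    have e3 : 98 * M * ((2 * l + 5) * β) = M * (98 * (2 * l + 5) * β) := by ring
    have e4 : M * (196 * 10 ^ 15 * L ^ 2) = M * (490 * L * (4 * 10 ^ 14 * L)) := by ring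
    rw [e3, e4]
    exact Nat.mul_le_mul_left _ h
  have e3 : 2 * M * (40 * (s + 1)) = M * (80 * (s + 1)) := by ring
  have e4 : 10 ^ 14 * (8 * 10 ^ 14 * L + 196 * 10 ^ 15 * L ^ 2 + 80 * (s + 1)) ≤ 2 * (s * s) := by
    have h1 : 10 ^ 30 * s ≤ s * s := Nat.mul_le_mul_right _ hs1
    omega
  calc 10 ^ 14 * (2 * M * β + 98 * M * ((2 * l + 5) * β) + 2 * M * (40 * (s + 1)))
      ≤ 10 ^ 14 * (M * (8 * 10 ^ 14 * L) + M * (196 * 10 ^ 15 * L ^ 2) + M * (80 * (s + 1))) := by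
        apply Nat.mul_le_mul_left
        omega
    _ = M * (10 ^ 14 * (8 * 10 ^ 14 * L + 196 * 10 ^ 15 * L ^ 2 + 80 * (s + 1))) := by ring
    _ ≤ M * (2 * (s * s)) := Nat.mul_le_mul_left _ e4
    _ ≤ M * (2 * M) := Nat.mul_le_mul_left _ (by omega)
    _ ≤ 9 * M ^ 2 := by
        have e5 : M * (2 * M) = 2 * M ^ 2 := by ring
        omega

/-- Parameters `q = 10^14`, `δ = 40 (Nat.sqrt M + 1)`, `Λ = 98 M`,
`β = (q + 2) (2 Nat.log 2 M + 3)`, `M = |B|`: `Par H B q δ β Λ` holds (`800 rd h M ≤ 1600 M ≤ δ^2`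
by `rd_le_two`, `Nat.lt_succ_sqrt`; `num_beta`, `q ≤ Nat.sqrt M` by `num_big`;
`3200 |XX| ≤ 9600 M^2 ≤ Λ^2`). `hB.exists_Hole` and `inv_all` give `E, a, e, b, K` with
`Inv H B q δ β Λ y i E a e b K`. From `three` (or `e = 0`): `2^K ≤ 2 |XX H B| ≤ 6 M^2 <
2^(2 l + 5)`, so `K ≤ 2 l + 4` and `e ≤ K β + b ≤ (2 l + 5) β`; `a ≤ β`. So `one` gives
`(q - 1) ∑_{Ioc i M} rd (j - δ) ≤ q |XX E| + (q - 1) (2 M β + 98 M (2 l + 5) β)`, with
`sum_rd_Ioc_shift` (`rd h M ≤ 2 M`)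
`(q - 1) ∑_{Ioc i M} rd j ≤ q |XX E| + (q - 1) (2 M β + 98 M (2 l + 5) β + 2 M δ)`. Add
`∑_{Ioc i M} rd j ≤ (M / 2 + 1) ...`: `∑_{Ioc i M} rd j ≤ (M - i) (M + h) ≤ M^2`
(`2 (M - i) ≤ M`, `sum_rd_Ioc_le`), use `P1_arith` for `q` times the bracket, and divide by
`10 = q / 10^13`. -/
theorem mid_lower {H : AddSubgroup G} {B : Finset G} (hB : Ap H B) (hM : 2 ^ 399 ≤ B.card)
    (hh : (sf H).card < B.card) (hX : (XX H B).card ≤ 3 * B.card ^ 2) {i : ℕ}
    (hi : i ≤ B.card) (hi2 : B.card ≤ 2 * i) :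
    ∃ E ⊆ B, E.card + i = B.card ∧
      10 ^ 13 * ∑ j ∈ Ioc i B.card, rd (sf H).card j ≤
        10 ^ 13 * (XX H E).card + B.card ^ 2 := by
  classical
  obtain ⟨y, hy⟩ := hB.exists_Hole
  have hbig := num_big hM
  have hl : 399 ≤ Nat.log 2 B.card := Nat.le_log_of_pow_le (by norm_num) hM
  have har := P1_arith hM
  have hlt : B.card < 2 ^ (Nat.log 2 B.card + 1) := Nat.lt_pow_succ_log_self (by norm_num) _
  have hss := Nat.lt_succ_sqrt B.card
  have hrd : rd (sf H).card B.card ≤ 2 * B.card := rd_le_two hh.le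
  have hq : 10 ^ 14 ≤ Nat.sqrt B.card := by
    have h1 : 1 ≤ (Nat.log 2 B.card + 1) ^ 3 := Nat.one_le_pow _ _ (by omega)
    omega
  have h100 : (2 : ℕ) ^ 100 ≤ B.card :=
    le_trans (Nat.pow_le_pow_right (by norm_num) (by norm_num)) hM
  have hM2 : 4 ≤ B.card := by
    have : (4 : ℕ) ≤ 2 ^ 100 := by norm_num
    omega
  have hMi : 6400 * 10 ^ 14 ≤ i := by
    have : 2 * (6400 * 10 ^ 14) ≤ 2 ^ 100 := by norm_num
    omega
  have hh1 := sf_card_pos H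
  have hP : Par H B (10 ^ 14) (40 * (Nat.sqrt B.card + 1))
      ((10 ^ 14 + 2) * (2 * Nat.log 2 B.card + 3)) (98 * B.card) := by
    refine ⟨hB, by norm_num, hh, ?_, num_beta hM2 hq, ?_⟩
    · have e : (40 * (Nat.sqrt B.card + 1)) ^ 2 =
          1600 * ((Nat.sqrt B.card).succ * (Nat.sqrt B.card).succ) := by
        rw [Nat.succ_eq_add_one]
        ring
      rw [e]
      omega
    · have e : (98 * B.card) ^ 2 = 9604 * B.card ^ 2 := by ring
      rw [e]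
      omega
  obtain ⟨E, a, e, b, K, hI⟩ := inv_all hP hy hi hMi
  obtain ⟨hE, hcard, hone, -, ha, hthree⟩ := hI
  refine ⟨E, hE, hcard, ?_⟩
  have hsh := sum_rd_Ioc_shift hh1 hi (40 * (Nat.sqrt B.card + 1))
  have hsle := sum_rd_Ioc_le (h := (sf H).card) (i := i) (M := B.card)
  generalize hM' : B.card = M at *
  generalize hs' : Nat.sqrt M = s at *
  generalize hl' : Nat.log 2 M = l at *
  generalize hβ' : (10 ^ 14 + 2) * (2 * l + 3) = β at *
  generalize hh' : (sf H).card = h at *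
  generalize hT : ∑ j ∈ Ioc i M, rd h (j - 40 * (s + 1)) = Td at *
  generalize hT' : ∑ j ∈ Ioc i M, rd h j = T at *
  generalize hX' : (XX H E).card = x at *
  -- the bound for `e`
  have he : e ≤ (2 * l + 5) * β := by
    rcases hthree with h0 | ⟨h1, h2, h3, _⟩
    · rw [h0]; exact Nat.zero_le _
    · have h4 : 2 ^ K ≤ 2 * (XX H B).card := by
        have h5 := sf_card_pos (LL H (B \ E))
        calc 2 ^ K = 2 ^ K * 1 := (mul_one _).symm
          _ ≤ 2 ^ K * (sf (LL H (B \ E))).card := Nat.mul_le_mul_left _ h5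
          _ ≤ 2 * (XX H B).card := h1
      have h5 : M ^ 2 < 2 ^ (l + 1) * 2 ^ (l + 1) := by
        rw [sq]
        exact Nat.mul_lt_mul'' hlt hlt
      have h6 : 2 ^ (2 * l + 5) = 8 * (2 ^ (l + 1) * 2 ^ (l + 1)) := by ring
      have h7 : 2 ^ K < 2 ^ (2 * l + 5) := by
        rw [h6]
        omega
      have h8 : K < 2 * l + 5 := (Nat.pow_lt_pow_iff_right (by norm_num)).1 h7
      calc e ≤ K * β + b := h2
        _ ≤ (2 * l + 4) * β + β := Nat.add_le_add (Nat.mul_le_mul_right _ (by omega)) h3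
        _ = (2 * l + 5) * β := by ring
  have hbr : 2 * M * a + 98 * M * e + 40 * (s + 1) * rd h M ≤
      2 * M * β + 98 * M * ((2 * l + 5) * β) + 2 * M * (40 * (s + 1)) := by
    have h1 : 2 * M * a ≤ 2 * M * β := Nat.mul_le_mul_left _ ha
    have h2 : 98 * M * e ≤ 98 * M * ((2 * l + 5) * β) := Nat.mul_le_mul_left _ he
    have h3 : 40 * (s + 1) * rd h M ≤ 40 * (s + 1) * (2 * M) := Nat.mul_le_mul_left _ hrd
    have h4 : 40 * (s + 1) * (2 * M) = 2 * M * (40 * (s + 1)) := by ring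
    omega
  have hTM : T ≤ M ^ 2 := by
    have h1 : 2 * ((M - i) * (M + h)) ≤ M * (2 * M) := by
      have h2 : 2 * (M - i) * (M + h) ≤ M * (2 * M) := Nat.mul_le_mul (by omega) (by omega)
      have h3 : 2 * ((M - i) * (M + h)) = 2 * (M - i) * (M + h) := by ring
      omega
    have h4 : M * (2 * M) = 2 * M ^ 2 := by ring
    omega
  generalize 2 * M * β + 98 * M * ((2 * l + 5) * β) + 2 * M * (40 * (s + 1)) = W at *
  generalize 2 * M * a + 98 * M * e = V at *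
  generalize 40 * (s + 1) * rd h M = D at *
  norm_num at hone har ⊢
  omega

/-- `num_int` with `seven` (as in `concl_large`) gives
`TT * Nat.sqrt r ≤ |XX| * Nat.sqrt r + 10^8 (Nat.log 2 r + 1) TT`; multiply by `10^15`, use
`10^23 (Nat.log 2 r + 1) ≤ Nat.sqrt r` (`num_big`), divide by `Nat.sqrt r > 0`. -/
theorem low_TT {H : AddSubgroup G} {R : Finset G} (hR : Ap H R) (hr : 2 ^ 399 ≤ R.card)
    (hh : (sf H).card < R.card) :
    10 ^ 15 * TT (sf H).card R.card ≤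
      10 ^ 15 * (XX H R).card + TT (sf H).card R.card := by
  have hbig := num_big hr
  have hl : 399 ≤ Nat.log 2 R.card := Nat.le_log_of_pow_le (by norm_num) hr
  have h1 : TT (sf H).card R.card * Nat.sqrt R.card ≤
      (XX H R).card * Nat.sqrt R.card +
        10 ^ 8 * (Nat.log 2 R.card + 1) * TT (sf H).card R.card := by
    apply num_int (sf_card_pos H) hh
    intro q δ β Λ hq hδ hβ hΛ
    exact seven ⟨hR, hq, hh, hδ, hβ, hΛ⟩
  generalize Nat.sqrt R.card = s at *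
  generalize Nat.log 2 R.card = l at *
  generalize TT (sf H).card R.card = T at *
  generalize (XX H R).card = x at *
  have h2 : l + 1 ≤ (l + 1) ^ 3 := by
    calc l + 1 = (l + 1) ^ 1 := (pow_one _).symm
      _ ≤ (l + 1) ^ 3 := Nat.pow_le_pow_right (by omega) (by norm_num)
  have h3 : 10 ^ 23 * (l + 1) ≤ s := by omega
  have hs : 0 < s := by omega
  have h4 : 10 ^ 15 * (10 ^ 8 * (l + 1) * T) ≤ s * T := by
    have e : 10 ^ 15 * (10 ^ 8 * (l + 1) * T) = 10 ^ 23 * (l + 1) * T := by ring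
    rw [e]
    exact Nat.mul_le_mul_right _ h3
  have h5 : (10 ^ 15 * T) * s ≤ (10 ^ 15 * x + T) * s := by
    calc (10 ^ 15 * T) * s = 10 ^ 15 * (T * s) := by ring
      _ ≤ 10 ^ 15 * (x * s + 10 ^ 8 * (l + 1) * T) := Nat.mul_le_mul_left _ h1
      _ = 10 ^ 15 * (x * s) + 10 ^ 15 * (10 ^ 8 * (l + 1) * T) := by ring
      _ ≤ 10 ^ 15 * (x * s) + s * T := Nat.add_le_add_left h4 _
      _ = (10 ^ 15 * x + T) * s := by ring
  exact Nat.le_of_mul_le_mul_right h5 hs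

end Pool.Agent.helper43.Ex
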