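import Pool.Agent.helper43.Ex.Defs

/-! EX-PhL: the function `Phi`. -/

open Finset Pool.Agent.helper43.Rho Pool.Agent.helper43.Asy

set_option linter.unusedSectionVars false

namespace Pool.Agent.helper43.Ex

variable {G : Type*} [AddCommGroup G] [DecidableEq G] [Fintype G]

/-- `Finset.le_sup`, `Finset.mem_powersetCard` -/
theorem Phi_ge {H : AddSubgroup G} {B E : Finset G} {k : ℕ} (hE : E ⊆ B) (hk : E.card = k) :
    (XX H E).card ≤ Phi H B k := by
  unfold Phi
  exact Finset.le_sup (f := fun E => (XX H E).card) (Finset.mem_powersetCard.2 ⟨hE, hk⟩)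

/-- `Finset.exists_mem_eq_sup` (or `Finset.exists_max_image` and `Phi_ge`), the set
`B.powersetCard k` is nonempty. -/
theorem exists_Phi (H : AddSubgroup G) {B : Finset G} {k : ℕ} (hk : k ≤ B.card) :
    ∃ E ⊆ B, E.card = k ∧ (XX H E).card = Phi H B k := by
  obtain ⟨E, hE, hE2⟩ := Finset.exists_mem_eq_sup (B.powersetCard k)
    (Finset.powersetCard_nonempty.2 hk) (fun E => (XX H E).card)
  rw [Finset.mem_powersetCard] at hE
  exact ⟨E, hE.1, hE.2, hE2.symm⟩

/-- `card_XX_insert` and `Phi_ge` for `insert r E`. -/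
theorem Phi_lam {H : AddSubgroup G} {B E : Finset G} {k : ℕ} (hE : E ⊆ B) (hk : E.card = k)
    (hP : (XX H E).card = Phi H B k) {r : G} (hr : r ∈ B \ E) :
    Phi H B k + lam (XX H E) r ≤ Phi H B (k + 1) := by
  rw [Finset.mem_sdiff] at hr
  rw [← hP, ← card_XX_insert hr.2]
  apply Phi_ge
  · intro x hx
    rw [Finset.mem_insert] at hx
    rcases hx with rfl | hx
    · exact hr.1
    · exact hE hx
  · rw [Finset.card_insert_of_notMem hr.2, hk]

/-- `exists_Phi`, `Phi_lam` (there is an `r ∈ B \ E` if `k < |B|`). -/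
theorem Phi_mono {H : AddSubgroup G} {B : Finset G} {k : ℕ} (hk : k < B.card) :
    Phi H B k ≤ Phi H B (k + 1) := by
  obtain ⟨E, hE, hE1, hE2⟩ := exists_Phi H hk.le
  obtain ⟨r, hr, hr'⟩ := Finset.exists_mem_notMem_of_card_lt_card (s := E) (t := B) (by omega)
  have := Phi_lam hE hE1 hE2 (Finset.mem_sdiff.2 ⟨hr, hr'⟩)
  omega

end Pool.Agent.helper43.Ex
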