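import Pool.Agent.helper43.Ex.HS

/-! EX-ZS: a half system of a cyclic group of order at least 11 has a nonempty zero sum. -/

open Finset Pool.Agent.helper43.Rho Pool.Agent.helper43.Asy

set_option linter.unusedSectionVars false

namespace Pool.Agent.helper43.Ex

variable {G : Type*} [AddCommGroup G] [DecidableEq G]

/-- Signs. `e i = ± 1` for `1 ≤ i ≤ k`, `k ≥ 5`, `e 1 = 1`. There is a nonempty
`T ⊆ {1, ..., k}` with `∑_{i ∈ T} e i * i ∈ {0, 2k+1, 2k+2}`-type value: precisely, for
`N = 2 k + 1` and for `N = 2 k + 2` there is a nonempty `T` with `N ∣ ∑_{i ∈ T} e i * i`.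
Proof: suppose not. (i) `e 2 = 1`: then `e 3 = 1` (else `1 + 2 - 3 = 0`) and by induction
`e j = 1` for all `j` (else `1 + (j - 1) - j = 0`). Then `k + (k - 1) + 2 = 2 k + 1`, respectively
`k + (k - 1) + 3 = 2 k + 2`. (ii) `e 2 = -1`, `e 3 = 1`: `e 4 = 1` (else `1 + 3 - 4 = 0`), and
`e j = 1` for all `j ≥ 3` (else `1 + (j - 1) - j = 0`). Then `k + (k - 2) + 3 = 2 k + 1` if
`k ≥ 6`, `5 + 4 + 3 + 1 - 2 = 11` if `k = 5`, and `k + (k - 1) + 3 = 2 k + 2`.
(iii) `e 2 = e 3 = -1`: `e 4 = -1` (else `4 + 1 - 2 - 3 = 0`), and `e j = -1` for all `j ≥ 5` (else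
`j - 2 - (j - 2) = 0`); then `-(k + (k - 1) + 2)`, respectively `-(k + (k - 1) + 3)`. -/
theorem zs_signs {k N : ℕ} (hk : 5 ≤ k) (hN : N = 2 * k + 1 ∨ N = 2 * k + 2) {e : ℕ → ℤ}
    (he : ∀ i, 1 ≤ i → i ≤ k → e i = 1 ∨ e i = -1) (he1 : e 1 = 1) :
    ∃ T : Finset ℕ, T.Nonempty ∧ T ⊆ Finset.Icc 1 k ∧ (N : ℤ) ∣ ∑ i ∈ T, e i * i := by
  by_contra hcon
  have h3 : ∀ a b c : ℕ, 1 ≤ a → a < b → b < c → c ≤ k →
      ¬ (N : ℤ) ∣ e a * a + (e b * b + e c * c) := by
    intro a b c h1 h2 h4 h5 hd
    apply hcon
    refine ⟨{a, b, c}, by simp, ?_, ?_⟩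
    · intro x hx
      simp only [Finset.mem_insert, Finset.mem_singleton] at hx
      rw [Finset.mem_Icc]
      omega
    · rw [Finset.sum_insert (by simp only [Finset.mem_insert, Finset.mem_singleton]; omega),
        Finset.sum_insert (by simp only [Finset.mem_singleton]; omega), Finset.sum_singleton]
      exact hd
  rcases he 2 (by omega) (by omega) with h2 | h2
  · -- all signs are one
    have hall : ∀ j : ℕ, 2 ≤ j → j ≤ k → e j = 1 := by
      intro j hj
      induction j, hj using Nat.le_induction with
      | base => intro _; exact h2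
      | succ j hj ih =>
        intro hjk
        have h5 := ih (by omega)
        rcases he (j + 1) (by omega) hjk with h6 | h6
        · exact h6
        · exfalso
          refine h3 1 j (j + 1) le_rfl (by omega) (by omega) hjk ?_
          rw [he1, h5, h6]
          push_cast
          ring_nf
          exact dvd_zero _
    rcases hN with hN | hN
    · refine h3 2 (k - 1) k (by omega) (by omega) (by omega) le_rfl ?_
      rw [h2, hall (k - 1) (by omega) (by omega), hall k (by omega) le_rfl]
      refine dvd_of_eq ?_
      omega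
    · refine h3 3 (k - 1) k (by omega) (by omega) (by omega) le_rfl ?_
      rw [hall 3 (by omega) (by omega), hall (k - 1) (by omega) (by omega),
        hall k (by omega) le_rfl]
      refine dvd_of_eq ?_
      omega
  · rcases he 3 (by omega) (by omega) with h4 | h4
    · have hall : ∀ j : ℕ, 3 ≤ j → j ≤ k → e j = 1 := by
        intro j hj
        induction j, hj using Nat.le_induction with
        | base => intro _; exact h4
        | succ j hj ih =>
          intro hjk
          have h5 := ih (by omega)
          rcases he (j + 1) (by omega) hjk with h6 | h6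
          · exact h6
          · exfalso
            refine h3 1 j (j + 1) le_rfl (by omega) (by omega) hjk ?_
            rw [he1, h5, h6]
            push_cast
            ring_nf
            exact dvd_zero _
      rcases hN with hN | hN
      · rcases Nat.lt_or_ge 5 k with hk5 | hk5
        · refine h3 3 (k - 2) k (by omega) (by omega) (by omega) le_rfl ?_
          rw [hall 3 (by omega) (by omega), hall (k - 2) (by omega) (by omega),
            hall k (by omega) le_rfl]
          refine dvd_of_eq ?_
          omega
        · have hk' : k = 5 := by omega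
          subst hk'
          apply hcon
          refine ⟨{1, 2, 3, 4, 5}, by simp, ?_, ?_⟩
          · intro x hx
            simp only [Finset.mem_insert, Finset.mem_singleton] at hx
            rw [Finset.mem_Icc]
            omega
          · rw [Finset.sum_insert (by simp), Finset.sum_insert (by simp),
              Finset.sum_insert (by simp), Finset.sum_insert (by simp), Finset.sum_singleton,
              he1, h2, h4, hall 4 (by omega) (by omega), hall 5 (by omega) (by omega), hN]
            norm_num
      · refine h3 3 (k - 1) k (by omega) (by omega) (by omega) le_rfl ?_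
        rw [hall 3 (by omega) (by omega), hall (k - 1) (by omega) (by omega),
          hall k (by omega) le_rfl]
        refine dvd_of_eq ?_
        omega
    · have h44 : e 4 = -1 := by
        rcases he 4 (by omega) (by omega) with h5 | h5
        · exfalso
          apply hcon
          refine ⟨{1, 2, 3, 4}, by simp, ?_, ?_⟩
          · intro x hx
            simp only [Finset.mem_insert, Finset.mem_singleton] at hx
            rw [Finset.mem_Icc]
            omega
          · rw [Finset.sum_insert (by simp), Finset.sum_insert (by simp),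
              Finset.sum_insert (by simp), Finset.sum_singleton, he1, h2, h4, h5]
            norm_num
        · exact h5
      have hall : ∀ j : ℕ, 2 ≤ j → j ≤ k → e j = -1 := by
        intro j
        induction j using Nat.strong_induction_on with
        | _ j ih =>
          intro hj hjk
          rcases Nat.lt_or_ge j 5 with hj5 | hj5
          · have h6 : j = 2 ∨ j = 3 ∨ j = 4 := by omega
            rcases h6 with rfl | rfl | rfl
            · exact h2
            · exact h4
            · exact h44
          · have h7 := ih (j - 2) (by omega) (by omega) (by omega)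
            rcases he j (by omega) hjk with h6 | h6
            · exfalso
              refine h3 2 (j - 2) j (by omega) (by omega) (by omega) hjk ?_
              rw [h2, h7, h6]
              have h8 : ((j - 2 : ℕ) : ℤ) = (j : ℤ) - 2 := by omega
              rw [h8]
              push_cast
              ring_nf
              exact dvd_zero _
            · exact h6
      rcases hN with hN | hN
      · refine h3 2 (k - 1) k (by omega) (by omega) (by omega) le_rfl ?_
        rw [h2, hall (k - 1) (by omega) (by omega), hall k (by omega) le_rfl]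
        rw [← Int.dvd_neg]
        refine dvd_of_eq ?_
        omega
      · refine h3 3 (k - 1) k (by omega) (by omega) (by omega) le_rfl ?_
        rw [h4, hall (k - 1) (by omega) (by omega), hall k (by omega) le_rfl]
        rw [← Int.dvd_neg]
        refine dvd_of_eq ?_
        omega

/-- `J` is asymmetric in the cyclic group `⟨c⟩` of order `N ≥ 11` and has `(N - 1) / 2` elements:
`k = (N - 1) / 2 ≥ 5`, `N = 2k + 1` or `2k + 2`. By `half_mem` (all `i ≤ k` have `2 i < N`) put
`e i = 1` if `i c ∈ J`, `e i = -1` if `-(i c) ∈ J`. If `e 1 = -1` replace `J` by `-J`, that is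
`e` by `-e`. `zs_signs`; the elements `e i i c` (`i ∈ T`) are different elements of `J` and
their sum is `0` (`addOrderOf_dvd_iff_zsmul_eq_zero`). -/
theorem zs {c : G} {N : ℕ} (hN : 11 ≤ N) (hc : addOrderOf c = N) {J : Finset G}
    (hJ : Asym J) (hJc : ∀ j ∈ J, j ∈ AddSubgroup.zmultiples c)
    (hcard : (N - 1) / 2 ≤ J.card) : (0 : G) ∈ SigmaStar J := by
  classical
  obtain ⟨k, hk⟩ : ∃ k, k = (N - 1) / 2 := ⟨_, rfl⟩
  have hk5 : 5 ≤ k := by omega
  have hNk : N = 2 * k + 1 ∨ N = 2 * k + 2 := by omega
  have hN1 : 1 ≤ N := by omega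
  -- signs
  let e : ℕ → ℤ := fun i => if i • c ∈ J then 1 else -1
  have heJ : ∀ i, 1 ≤ i → i ≤ k → (e i * i) • c ∈ J := by
    intro i hi hik
    change ((if i • c ∈ J then (1 : ℤ) else -1) * i) • c ∈ J
    split_ifs with h
    · rw [one_mul, natCast_zsmul]
      exact h
    · rw [neg_one_mul, neg_zsmul, natCast_zsmul]
      exact (half_mem hN1 hc hJ hJc hcard hi (by omega)).resolve_left h
  have hepm : ∀ i, e i = 1 ∨ e i = -1 := by
    intro i
    change (if i • c ∈ J then (1 : ℤ) else -1) = 1 ∨ (if i • c ∈ J then (1 : ℤ) else -1) = -1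
    split_ifs
    · left; rfl
    · right; rfl
  -- the statement for `T`
  have hfin : ∀ T : Finset ℕ, T.Nonempty → T ⊆ Finset.Icc 1 k →
      (N : ℤ) ∣ ∑ i ∈ T, e i * i → (0 : G) ∈ SigmaStar J := by
    intro T hT hTk hd
    have hinj : Set.InjOn (fun i : ℕ => (e i * i) • c) (T : Set ℕ) := by
      intro a ha b hb hab
      have ha' := Finset.mem_Icc.mp (hTk ha)
      have hb' := Finset.mem_Icc.mp (hTk hb)
      have hab' : (e a * a) • c = (e b * b) • c := hab
      have h1 : (e a * a - e b * b) • c = 0 := by
        rw [sub_zsmul, hab', add_neg_cancel]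
      have h2 : (N : ℤ) ∣ e a * a - e b * b := by
        rw [← hc]
        exact addOrderOf_dvd_iff_zsmul_eq_zero.mpr h1
      have h3 : |e a * a - e b * b| < N := by
        rcases hepm a with h4 | h4 <;> rcases hepm b with h5 | h5 <;> rw [h4, h5, abs_lt] <;>
          constructor <;> omega
      have h4 : e a * a - e b * b = 0 := Int.eq_zero_of_abs_lt_dvd h2 h3
      rcases hepm a with h5 | h5 <;> rcases hepm b with h6 | h6 <;> rw [h5, h6] at h4 <;> omega
    rw [mem_SigmaStar]
    refine ⟨T.image (fun i : ℕ => (e i * i) • c), ?_, hT.image _, ?_⟩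
    · intro x hx
      obtain ⟨i, hi, rfl⟩ := Finset.mem_image.mp hx
      have hi' := Finset.mem_Icc.mp (hTk hi)
      exact heJ i hi'.1 hi'.2
    · rw [Finset.sum_image hinj, ← Finset.sum_smul]
      exact addOrderOf_dvd_iff_zsmul_eq_zero.mp (by rw [hc]; exact hd)
  rcases hepm 1 with h1 | h1
  · obtain ⟨T, hT, hTk, hd⟩ := zs_signs hk5 hNk (e := e) (fun i _ _ => hepm i) h1
    exact hfin T hT hTk hd
  · obtain ⟨T, hT, hTk, hd⟩ := zs_signs hk5 hNk (e := fun i => - e i)
      (fun i _ _ => by
        rcases hepm i with h | h
        · right; rw [h]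
        · left; rw [h]; norm_num) (by rw [h1]; norm_num)
    refine hfin T hT hTk ?_
    have h2 : ∑ i ∈ T, (- e i) * (i : ℤ) = - ∑ i ∈ T, e i * i := by
      rw [← Finset.sum_neg_distrib]
      exact Finset.sum_congr rfl (fun i _ => by ring)
    rw [h2] at hd
    exact (Int.dvd_neg).mp hd

end Pool.Agent.helper43.Ex
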