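import Pool.Agent.helper43.Ex.RL
import Pool.Agent.helper43.Ex.NB
import Pool.Agent.helper43.Ex.ZS

/-! Proofs by helper59.  EX-RdA: preparations for the reduction (section 0 of the paper proof). -/

open Finset Pool.Agent.helper43.Rho Pool.Agent.helper43.Asy

set_option linter.unusedSectionVars false

namespace Pool.Agent.helper43.Ex

section General
variable {G : Type*} [AddCommGroup G] [DecidableEq G] [Fintype G]

/-- This is the proof of `Asy.asm` (copy it; `H = stab (SS A)`, `B = outs A H`). -/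
theorem ap_stab {A : Finset G} (hA : Asym A) :
    Ap (stab (SS A)) (outs A (stab (SS A))) ∧
      XX (stab (SS A)) (outs A (stab (SS A))) = SS A := by
  classical
  have hXX : XX (stab (SS A)) (outs A (stab (SS A))) = SS A := by
    ext z
    rw [mem_XX]
    constructor
    · rintro ⟨k, hk, s, hs, rfl⟩
      have hs' : s ∈ SS A := SS_mono (fun a ha => (mem_outs.1 ha).1) hs
      rw [add_comm]
      exact (mem_stab_iff.1 hk s).2 hs'
    · intro hz
      rw [mem_SS] at hz
      obtain ⟨T, hT, rfl⟩ := hz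
      refine ⟨∑ b ∈ T.filter (fun b => b ∈ stab (SS A)), b, ?_,
        ∑ b ∈ T.filter (fun b => ¬ b ∈ stab (SS A)), b, ?_,
        Finset.sum_filter_add_sum_filter_not T (fun b => b ∈ stab (SS A)) (fun b => b)⟩
      · exact AddSubgroup.sum_mem _ (fun b hb => (Finset.mem_filter.1 hb).2)
      · rw [mem_SS]
        refine ⟨T.filter (fun b => ¬ b ∈ stab (SS A)), ?_, rfl⟩
        intro b hb
        have hb' := Finset.mem_filter.1 hb
        exact mem_outs.2 ⟨hT hb'.1, hb'.2⟩
  refine ⟨⟨hA.subset (fun a ha => (mem_outs.1 ha).1), fun b hb => (mem_outs.1 hb).2, ?_⟩, hXX⟩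
  intro x hx
  rw [hXX] at hx
  exact mem_stab_of hx

/-- `0 = -a + a`: if `-a ∈ SS (A.erase a)`, `a ∈ A`, then `0 ∈ SigmaStar A`. -/
theorem zero_mem_of_neg {A : Finset G} {a : G} (ha : a ∈ A) (h : -a ∈ SS (A.erase a)) :
    (0 : G) ∈ SigmaStar A := by
  obtain ⟨T, hT, hs⟩ := mem_SS.1 h
  have haT : a ∉ T := fun h1 => (Finset.mem_erase.1 (hT h1)).1 rfl
  refine mem_SigmaStar.2 ⟨insert a T, ?_, Finset.insert_nonempty a T, ?_⟩
  · intro b hb
    rcases Finset.mem_insert.1 hb with rfl | hb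
    · exact ha
    · exact (Finset.mem_erase.1 (hT hb)).2
  · rw [Finset.sum_insert haT, hs, add_neg_cancel]

/-- `SigmaStar` is monotone. -/
theorem SigmaStar_mono {A B : Finset G} (h : A ⊆ B) : SigmaStar A ⊆ SigmaStar B := by
  intro x hx
  obtain ⟨T, hT, h1, h2⟩ := mem_SigmaStar.1 hx
  exact mem_SigmaStar.2 ⟨T, hT.trans h, h1, h2⟩

/-- If `0 ∈ SigmaStar A` then `SigmaStar A = SS A` (`mem_SigmaStar`, `mem_SS`). -/
theorem SigmaStar_eq {A : Finset G} (h : (0 : G) ∈ SigmaStar A) : SigmaStar A = SS A := by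
  ext x
  constructor
  · intro hx
    obtain ⟨T, hT, _, h2⟩ := mem_SigmaStar.1 hx
    exact mem_SS.2 ⟨T, hT, h2⟩
  · intro hx
    obtain ⟨T, hT, h2⟩ := mem_SS.1 hx
    rcases T.eq_empty_or_nonempty with h3 | h3
    · rw [h3, Finset.sum_empty] at h2
      rw [← h2]
      exact h
    · exact mem_SigmaStar.2 ⟨T, hT, h3, h2⟩

/-- `SigmaStar A ⊆ SS A` -/
theorem SigmaStar_subset (A : Finset G) : SigmaStar A ⊆ SS A := by
  intro x hx
  obtain ⟨T, hT, _, h2⟩ := mem_SigmaStar.1 hx
  exact mem_SS.2 ⟨T, hT, h2⟩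

/-- Every nonzero element of `SS A` is in `SigmaStar A`. -/
theorem mem_SigmaStar_of {A : Finset G} {x : G} (hx : x ∈ SS A) (h0 : x ≠ 0) :
    x ∈ SigmaStar A := by
  obtain ⟨T, hT, h2⟩ := mem_SS.1 hx
  rcases T.eq_empty_or_nonempty with h3 | h3
  · rw [h3, Finset.sum_empty] at h2
    exact absurd h2.symm h0
  · exact mem_SigmaStar.2 ⟨T, hT, h3, h2⟩

end General

variable {n : ℕ} [NeZero n]

/-- the number of the elements of a subgroup of `ZMod n` divides `n` -/
theorem card_sf_dvd (H : AddSubgroup (ZMod n)) : (sf H).card ∣ n := by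
  rw [card_sf]
  have h1 := AddSubgroup.card_addSubgroup_dvd_card H
  rwa [Nat.card_zmod] at h1

/-- a subgroup `H` of `ZMod n` is cyclic: `H = ⟨g⟩`, `g` of order `|H|` (`IsAddCyclic`,
`IsAddCyclic.exists_generator` for `H`, or the generator of
`ZMod`-subgroups) -/
theorem exists_gen (H : AddSubgroup (ZMod n)) :
    ∃ g : ZMod n, AddSubgroup.zmultiples g = H ∧ addOrderOf g = (sf H).card := by
  obtain ⟨g, hg⟩ := IsAddCyclic.exists_generator (α := H)
  have h1 : AddSubgroup.zmultiples (g : ZMod n) = H := by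
    apply le_antisymm
    · rw [AddSubgroup.zmultiples_le]
      exact g.2
    · intro x hx
      obtain ⟨k, hk⟩ := AddSubgroup.mem_zmultiples_iff.1 (hg ⟨x, hx⟩)
      refine AddSubgroup.mem_zmultiples_iff.2 ⟨k, ?_⟩
      have h2 := congrArg (fun y : H => (y : ZMod n)) hk
      simpa using h2
  refine ⟨g, h1, ?_⟩
  rw [card_sf, ← Nat.card_zmultiples, h1]

/-- `ZS` for subgroups: a half system of a subgroup of order at least 11 has a nonempty zero
sum (`zs`, `exists_gen`). -/
theorem zs_sub {H : AddSubgroup (ZMod n)} {J : Finset (ZMod n)} (hJ : Asym J)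
    (hJH : ∀ j ∈ J, j ∈ H) (h11 : 11 ≤ (sf H).card) (hc : ((sf H).card - 1) / 2 ≤ J.card) :
    (0 : ZMod n) ∈ SigmaStar J := by
  obtain ⟨g, hg1, hg2⟩ := exists_gen H
  exact zs h11 hg2 hJ (fun j hj => by rw [hg1]; exact hJH j hj) hc

/-- `FF n m ≤ |L|` if an asymmetric set of `m` elements is contained in `L`
(`FF_le`, `asym_card_subgroup`: `2 m + 1 ≤ |L|`, so `m - (|L| - 1) / 2 = 0`, `St_zero`). -/
theorem FF_le_card {m : ℕ} {A : Finset (ZMod n)} (hA : Asym A) (hm : A.card = m)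
    {L : AddSubgroup (ZMod n)} (hL : ∀ a ∈ A, a ∈ L) : FF n m ≤ (sf L).card := by
  have h1 := asym_card_subgroup hA L hL
  rw [← card_sf] at h1
  have h2 : FF n m ≤ (sf L).card * (1 + St (sf L).card (m - ((sf L).card - 1) / 2)) :=
    FF_le (card_sf_dvd L)
  have h3 : m - ((sf L).card - 1) / 2 = 0 := by omega
  rw [h3, St_zero, add_zero, mul_one] at h2
  exact h2

end Pool.Agent.helper43.Ex
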