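import Pool.Agent.helper43.Ex.CaA
import Pool.Agent.helper43.Ex.CcB

/-! Proofs by helper59.  EX-SRg: from `Str` to `Reg`, and the reduction of the lower bound to Theorem I. -/

open Finset Pool.Agent.helper43.Rho Pool.Agent.helper43.Asy

set_option linter.unusedSectionVars false

namespace Pool.Agent.helper43.Ex

variable {n : ℕ} [NeZero n] {m : ℕ} {A As : Finset (ZMod n)} {H K : AddSubgroup (ZMod n)}
  {c : ZMod n} {Q δ : ℕ} {E R : Finset (ZMod n)} {N : ℕ} {f : ZMod n → ℤ}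

/-- `μ = |K| ≤ 10^6`, `F = outs R K`, `L = LL H R`. `F ⊆ R ⊆ As ⊆ A`. `F0`: `Lvl.zero_iff`. `FQ`:
`levR`. `AL`: `A_L`. `|F| ≥ |R| - μ`, `|H| ≤ μ`, so by `nums`:
`m ≤ M + 1 + μ`, `|R| ≥ 0.9 M`, hence `F4` (`m ≥ 2^401`). `hole`:
`500000 μ Q ≤ 500001 (|R| + h) ≤ 500001 (|F| + 2 * 10^6)`, so
`μ Q ≤ |F| + (|F| + 2 * 10^6) / 500000 + 2 * 10^6` and `|F| ≤ μ Q` is larger than `10^10`. -/
theorem reg_of_str (h : StrL n m A As H K c Q δ E R N f) (hμ : (sf K).card ≤ 10 ^ 6) :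
    Reg n m A (outs R K) c K (LL H R) N f Q := by
  obtain ⟨n1, n2, n3, n4, n5, n6, n7, n8, n9⟩ := h.nums
  have hR := h.R_sub
  have hRA : Asym R := h.asym.subset hR.1
  have hins := two_card_ins hRA K
  rw [← card_sf] at hins
  have hsplit := card_ins_add_outs R K
  have hinsH := two_card_ins h.asym H
  rw [← card_sf] at hinsH
  have hsplitH := card_ins_add_outs As H
  have hbig := h.str.red.big
  have hm0 := h.str.m0
  refine ⟨?_, h.str.red.hn, h.str.red.asym, h.str.red.card, h.lvl, h.A_L, ?_, ?_, ?_, hμ, ?_, ?_⟩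
  · exact le_trans (Nat.pow_le_pow_right (by norm_num) (by norm_num)) hm0
  · intro x hx
    exact h.str.red.sub (hR.1 (mem_outs.1 hx).1)
  · intro x hx h0
    exact (mem_outs.1 hx).2 ((h.lvl.zero_iff (mem_LL (mem_outs.1 hx).1)).1 h0)
  · intro x hx
    exact h.levR x (mem_outs.1 hx).1
  · norm_num at n7 hm0 hμ
    omega
  · norm_num at n7 hm0 hμ
    omega

/-- The lower bound from Theorem I (hypothesis `hI`). Suppose `|SigmaStar A| < Fst n m`.
`reduction`, `exists_str`, `exists_strL`. If `|K| ≤ 10^6`: `reg_of_str`, `hI`. Otherwise, if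
`K = H`: `caseA` contradicts `Red.cl` (`11 ≤ |H|`); if `K ≠ H`: `caseC`. -/
theorem lower_of_reg {m : ℕ} (hm : 2 ^ 401 ≤ m) (hn : 2 * m < n) {A : Finset (ZMod n)}
    (hA : Asym A) (hc : A.card = m)
    (hI : ∀ (F : Finset (ZMod n)) (c : ZMod n) (K L : AddSubgroup (ZMod n)) (N : ℕ)
      (f : ZMod n → ℤ) (Q : ℕ), Reg n m A F c K L N f Q → Fst n m ≤ (SigmaStar A).card) :
    Fst n m ≤ (SigmaStar A).card := by
  by_contra hlt
  rw [not_le] at hlt
  have h30 : 30 ≤ m := le_trans (le_trans (by norm_num : 30 ≤ 2 ^ 5)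
    (Nat.pow_le_pow_right (by norm_num) (by norm_num))) hm
  obtain ⟨As, H, hr⟩ := reduction hn h30 hA hc hlt
  obtain ⟨K, c, Q, δ, E, R, hs⟩ := exists_str hm hr
  obtain ⟨N, f, h⟩ := hs.exists_strL
  rcases Nat.lt_or_ge (10 ^ 6) (sf K).card with hμ | hμ
  · by_cases hne : H = K
    · subst hne
      have h1 := caseA h
      have h2 := hr.cl (le_trans (by norm_num) hμ.le)
      omega
    · exact caseC h hne hμ.le
  · have h1 := hI _ _ _ _ _ _ _ (reg_of_str h hμ)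
    omega

end Pool.Agent.helper43.Ex
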