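import Pool.Agent.helper43.Ex.Top
import Pool.Agent.helper43.Ex.Dbl
import Pool.Agent.helper43.Ex.Ext

/-! Proofs by helper59.  EX-Sr1: structure of `R` from a character (2.5, 2.6 of the paper proof). -/

open Finset Pool.Agent.helper43.Rho Pool.Agent.helper43.Asy

set_option linter.unusedSectionVars false

namespace Pool.Agent.helper43.Ex

variable {G : Type*} [AddCommGroup G] [DecidableEq G] [Fintype G]

private theorem Sr1_CR_sub {H : AddSubgroup G} {R : Finset G} {J : ℕ} (hJ : 1 ≤ J) :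
    CR H R ⊆ DR H R J := by
  refine Finset.Subset.trans ?_ (DR_mono hJ)
  intro c hc
  exact mem_sumS.2 ⟨0, (mem_sf (0 : G)).2 H.zero_mem, c, hc, zero_add c⟩

open scoped Classical in
/-- Let `A = {(t, al χ t) : t ∈ DR J}`. `|A| = |DR J|`; `-A = A` (`neg_mem_DR`, `al_neg`);
`0 ∈ A`; `sumS A A = {(t, al χ t) : t ∈ DR (2 J)}` (`DR_add`, `al_add`), so it has `|DR (2 J)|`
elements. -/
theorem graph_facts {H : AddSubgroup G} {R : Finset G} {χ : AddChar G ℂ} {J : ℕ}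
    (hs : ∀ t ∈ DR H R (2 * J), |al χ t| ≤ 1 / 10) :
    ((DR H R J).image (fun t => (t, al χ t))).card = (DR H R J).card ∧
    (∀ a ∈ (DR H R J).image (fun t => (t, al χ t)),
      -a ∈ (DR H R J).image (fun t => (t, al χ t))) ∧
    (0 : G × ℝ) ∈ (DR H R J).image (fun t => (t, al χ t)) ∧
    (sumS ((DR H R J).image (fun t => (t, al χ t)))
      ((DR H R J).image (fun t => (t, al χ t)))).card = (DR H R (2 * J)).card := by
  have hJ2 : DR H R J ⊆ DR H R (2 * J) := DR_mono (by omega)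
  have hs' : ∀ t ∈ DR H R J, |al χ t| ≤ 1 := fun t ht => (hs t (hJ2 ht)).trans (by norm_num)
  have hinj : ∀ X : Finset G, Set.InjOn (fun t : G => (t, al χ t)) (X : Set G) := by
    intro X a _ b _ hab
    exact congrArg Prod.fst hab
  refine ⟨Finset.card_image_of_injOn (hinj _), ?_, ?_, ?_⟩
  · intro a ha
    obtain ⟨t, ht, rfl⟩ := Finset.mem_image.1 ha
    refine Finset.mem_image.2 ⟨-t, neg_mem_DR ht, ?_⟩
    rw [al_neg (hs' t ht)]
    rfl
  · refine Finset.mem_image.2 ⟨0, DR_mono (Nat.zero_le J) ((mem_sf (0 : G)).2 H.zero_mem), ?_⟩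
    rw [al_zero]
    rfl
  · have h1 : sumS ((DR H R J).image (fun t => (t, al χ t)))
        ((DR H R J).image (fun t => (t, al χ t))) =
        (DR H R (2 * J)).image (fun t => (t, al χ t)) := by
      have h2 : DR H R (2 * J) = sumS (DR H R J) (DR H R J) := by rw [DR_add, two_mul]
      ext x
      rw [mem_sumS, Finset.mem_image, h2]
      constructor
      · rintro ⟨a, ha, b, hb, rfl⟩
        obtain ⟨t, ht, rfl⟩ := Finset.mem_image.1 ha
        obtain ⟨u, hu, rfl⟩ := Finset.mem_image.1 hb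
        refine ⟨t + u, mem_sumS.2 ⟨t, ht, u, hu, rfl⟩, ?_⟩
        rw [al_add (hs' t ht) (hs' u hu)]
        rfl
      · rintro ⟨v, hv, rfl⟩
        obtain ⟨t, ht, u, hu, rfl⟩ := mem_sumS.1 hv
        refine ⟨_, Finset.mem_image_of_mem _ ht, _, Finset.mem_image_of_mem _ hu, ?_⟩
        rw [al_add (hs' t ht) (hs' u hu)]
        rfl
    rw [h1]
    exact Finset.card_image_of_injOn (hinj _)

/-- `top_fibre` gives `w`, `T` = the top fibre of `DR J`, `t0 ∈ DR J` with `al χ t0 = J w`.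
`A` = the graph (`graph_facts`), `P = (t0, J w)`. `|T| ≤ 2 p`: `2 J |T| ≤ |DR (2J)| - |DR J| ≤
(1 + 10^(-6)) 4 p J - 2 p J`. `dbl`: `2 |DR (2J)| + 3 |T| ≤ 8.1 p J + 6 p < 10 p J ≤ 5 |DR J|`.
This gives `W`; `extract` with `b = |DR (2J)| - |DR J|` gives `K, c, w0, l`. `Q = l / (2 J)`.
* `H ≤ K`: `t ∈ H` is in `DR J`, `al χ t = 0` (`al_eq_zero_iff`), so `(t, 0) ∈ A ⊆ W`.
* `K ≤ LL H R`, `c ∈ LL H R`: an element of `W` is `a + b + k (P + P)`, all first coordinates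
  are in `DR J ⊆ sf (LL H R)` (`DR_subset`).
* `r ∈ R`: `(r, al χ r) ∈ A ⊆ W` (`R ⊆ CR ⊆ DR 1 ⊆ DR J`), so `al χ r = j w0`, `r - j c ∈ K`.
  `|al χ r| ≤ w` (also for `-r ∈ CR`), `2 J w = l w0`, so `|j| 2 J ≤ l`, `|j| ≤ Q`.
* `Q ≥ 1`: for the `r` with `χ r ≠ 1`, `al χ r ≠ 0`, `j ≠ 0`.
* `2 J |K| Q ≤ |K| l ≤ |DR (2J)| - |DR J| ≤ (1 + 10^(-6)) 4 p J - 2 p J = 2 p J (1 + 2 * 10^(-6))`. -/
theorem str1 {H : AddSubgroup G} {R : Finset G} {χ : AddChar G ℂ} {J p : ℕ}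
    (hJ : 100 ≤ J) (hp : 1 ≤ p) (hH : ∀ t ∈ H, χ t = 1) (hR : ∃ r ∈ R, χ r ≠ 1)
    (hs : ∀ t ∈ DR H R (2 * J), |al χ t| ≤ 1 / 10)
    (hd1 : 2 * (p * J) ≤ (DR H R J).card)
    (hd2 : 10 ^ 6 * (DR H R (2 * J)).card ≤ (10 ^ 6 + 1) * (4 * (p * J))) :
    ∃ (K : AddSubgroup G) (c : G) (Q : ℕ), H ≤ K ∧ K ≤ LL H R ∧ c ∈ LL H R ∧ 1 ≤ Q ∧
      (∀ r ∈ R, ∃ j : ℤ, |j| ≤ Q ∧ r - j • c ∈ K) ∧
      500000 * ((sf K).card * Q) ≤ 500001 * p := by
  classical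
  have hJ1 : 1 ≤ J := by omega
  have hJ2 : DR H R J ⊆ DR H R (2 * J) := DR_mono (by omega)
  have hCJ : CR H R ⊆ DR H R J := Sr1_CR_sub hJ1
  have hs' : ∀ t ∈ DR H R J, |al χ t| ≤ 1 := fun t ht => (hs t (hJ2 ht)).trans (by norm_num)
  obtain ⟨w, hw0, hwCR, ⟨t0, ht0, hal0⟩, hmaxJ, hT⟩ := top_fibre hH hR hJ1 hs
  obtain ⟨g1, g2, g3, g4⟩ := graph_facts (χ := χ) hs
  obtain ⟨A, hA⟩ : ∃ A : Finset (G × ℝ), A = (DR H R J).image (fun t => (t, al χ t)) := ⟨_, rfl⟩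
  rw [← hA] at g1 g2 g3
  have g4' : (sumS A A).card = (DR H R (2 * J)).card := by
    rw [hA]
    convert g4
  have hmA : ∀ t ∈ DR H R J, (t, al χ t) ∈ A := by
    intro t ht
    rw [hA]
    exact Finset.mem_image_of_mem _ ht
  have hAm : ∀ a ∈ A, a.1 ∈ DR H R J ∧ a.2 = al χ a.1 := by
    intro a ha
    rw [hA] at ha
    obtain ⟨t, ht, rfl⟩ := Finset.mem_image.1 ha
    exact ⟨ht, rfl⟩
  obtain ⟨P, hP⟩ : ∃ P : G × ℝ, P = (t0, al χ t0) := ⟨_, rfl⟩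
  have hPA : P ∈ A := by
    rw [hP]
    exact hmA t0 ht0
  have hP1 : P.1 = t0 := by rw [hP]
  have hP2 : P.2 = J * w := by
    rw [hP]
    exact hal0
  have hJ0 : (0 : ℝ) < J := by exact_mod_cast (by omega : 0 < J)
  have hP0 : 0 < P.2 := by
    rw [hP2]
    positivity
  have hmax : ∀ a ∈ A, a.2 ≤ P.2 := by
    intro a ha
    obtain ⟨k1, k2⟩ := hAm a ha
    rw [k2, hP2]
    exact hmaxJ _ k1
  obtain ⟨T, hTd⟩ : ∃ T : ℕ, T = ((DR H R J).filter (fun t => al χ t = J * w)).card := ⟨_, rfl⟩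
  have hT' : 2 * J * T + (DR H R J).card ≤ (DR H R (2 * J)).card := by
    rw [hTd]
    convert hT
  have hTA : (A.filter (fun a => a.2 = P.2)).card ≤ T := by
    rw [hTd]
    refine Finset.card_le_card_of_injOn (fun a => a.1) ?_ ?_
    · intro a ha
      obtain ⟨k1, k2⟩ := Finset.mem_filter.1 (Finset.mem_coe.1 ha)
      obtain ⟨k3, k4⟩ := hAm a k1
      refine Finset.mem_coe.2 (Finset.mem_filter.2 ⟨k3, ?_⟩)
      dsimp only
      rw [← k4, k2, hP2]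
    · intro a ha b hb hab
      obtain ⟨k1, _⟩ := Finset.mem_filter.1 (Finset.mem_coe.1 ha)
      obtain ⟨l1, _⟩ := Finset.mem_filter.1 (Finset.mem_coe.1 hb)
      have k4 := (hAm a k1).2
      have l4 := (hAm b l1).2
      dsimp only at hab
      refine Prod.ext hab ?_
      rw [k4, l4, hab]
  -- numbers
  obtain ⟨d1, hd1'⟩ : ∃ d1 : ℕ, d1 = (DR H R J).card := ⟨_, rfl⟩
  obtain ⟨d2, hd2'⟩ : ∃ d2 : ℕ, d2 = (DR H R (2 * J)).card := ⟨_, rfl⟩
  obtain ⟨y, hy⟩ : ∃ y : ℕ, y = p * J := ⟨_, rfl⟩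
  rw [← hd1'] at hd1 hT' g1
  rw [← hd2'] at hd2 hT' g4'
  rw [← hy] at hd1 hd2
  have hyp : 100 * p ≤ y := by
    rw [hy, mul_comm]
    exact Nat.mul_le_mul_left p hJ
  have hTp : 10 ^ 6 * T ≤ (10 ^ 6 + 2) * p := by
    have k1 : 10 ^ 6 * (2 * J * T) + 10 ^ 6 * (2 * y) ≤ (10 ^ 6 + 1) * (4 * y) := by
      have := Nat.mul_le_mul_left (10 ^ 6) hT'
      have k2 := Nat.mul_le_mul_left (10 ^ 6) hd1
      omega
    have k3 : (2 * J) * (10 ^ 6 * T) ≤ (2 * J) * ((10 ^ 6 + 2) * p) := by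
      have e1 : (2 * J) * (10 ^ 6 * T) = 10 ^ 6 * (2 * J * T) := by ring
      have e2 : (2 * J) * ((10 ^ 6 + 2) * p) = (2 * 10 ^ 6 + 4) * y := by
        rw [hy]
        ring
      rw [e1, e2]
      omega
    exact Nat.le_of_mul_le_mul_left k3 (by omega)
  have hcard : 2 * (sumS A A).card + 3 * (A.filter (fun a => a.2 = P.2)).card < 5 * A.card := by
    rw [g4', g1]
    omega
  obtain ⟨W, hW1, hW2, hW3⟩ := dbl g2 g3 hPA hP0 hmax (by convert hcard)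
  obtain ⟨K, c, w0, l, hw00, hl1, hl2, hK, hcW, hx, hKl⟩ := extract (b := d2 - d1) (hW1 P hPA) hP0
    (fun F hF1 hF2 => by
      have k1 := hW3 F hF1 hF2
      have k2 : F.card + A.card ≤ (sumS A A).card := by convert k1
      rw [g4', g1] at k2
      omega)
  have hWL : ∀ x ∈ W, x.1 ∈ LL H R := by
    intro x hxW
    obtain ⟨a, ha, b, hb, k, rfl⟩ := hW2 x hxW
    have k1 := (mem_sf _).1 (DR_subset J (hAm a ha).1)
    have k2 := (mem_sf _).1 (DR_subset J (hAm b hb).1)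
    have k3 := (mem_sf _).1 (DR_subset J (hAm P hPA).1)
    have k4 : (a + b + k • (P + P)).1 = a.1 + b.1 + k • (P.1 + P.1) := rfl
    rw [k4]
    exact AddSubgroup.add_mem _ (AddSubgroup.add_mem _ k1 k2)
      (AddSubgroup.zsmul_mem _ (AddSubgroup.add_mem _ k3 k3) k)
  have hRj : ∀ r ∈ R, ∃ j : ℤ, al χ r = j * w0 ∧ r - j • c ∈ K ∧ |al χ r| ≤ w := by
    intro r hr
    have r1 : r ∈ CR H R := mem_CR_of_CC (mem_CC_of_mem hr)
    have r2 : -r ∈ CR H R := mem_CR_of_CC (neg_mem_CC_of_mem hr)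
    obtain ⟨j, hj1, hj2⟩ := hx _ (hW1 _ (hmA r (hCJ r1)))
    refine ⟨j, hj1, hj2, abs_le.2 ⟨?_, hwCR r r1⟩⟩
    have r3 := hwCR (-r) r2
    rw [al_neg (hs' r (hCJ r1))] at r3
    linarith
  have hJl : ∀ j : ℤ, |(j : ℝ) * w0| ≤ w → 2 * J * j.natAbs ≤ l := by
    intro j hj
    rw [abs_mul, abs_of_pos hw00] at hj
    have k1 : (2 * J * |(j : ℝ)|) * w0 ≤ l * w0 := by
      rw [← hl2, hP2]
      calc (2 * J * |(j : ℝ)|) * w0 = 2 * J * (|(j : ℝ)| * w0) := by ring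
        _ ≤ 2 * J * w := by gcongr
        _ = 2 * (J * w) := by ring
    have k2 := le_of_mul_le_mul_right k1 hw00
    have k3 : |(j : ℝ)| = ((j.natAbs : ℕ) : ℝ) := by
      rw [← Int.cast_abs, Int.abs_eq_natAbs]
      rfl
    rw [k3] at k2
    exact_mod_cast k2
  have hJ20 : 0 < 2 * J := by omega
  have hQ2 : 2 * J * (l / (2 * J)) ≤ l := Nat.mul_div_le l (2 * J)
  refine ⟨K, c, l / (2 * J), ?_, ?_, ?_, ?_, ?_, ?_⟩
  · intro t ht
    rw [hK]
    have k1 : t ∈ DR H R J := DR_mono (Nat.zero_le J) ((mem_sf t).2 ht)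
    have k2 := hW1 _ (hmA t k1)
    rw [al_eq_zero_iff.2 (hH t ht)] at k2
    exact k2
  · intro t ht
    exact hWL _ ((hK t).1 ht)
  · exact hWL _ hcW
  · obtain ⟨r, hr, hχr⟩ := hR
    obtain ⟨j, hj1, hj2, hj3⟩ := hRj r hr
    have hj0 : j ≠ 0 := by
      rintro rfl
      rw [Int.cast_zero, zero_mul] at hj1
      exact hχr (al_eq_zero_iff.1 hj1)
    rw [hj1] at hj3
    have k1 := hJl j hj3
    have k2 : 1 ≤ j.natAbs := Int.natAbs_pos.2 hj0
    rw [Nat.one_le_div_iff hJ20]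
    calc 2 * J = 2 * J * 1 := (mul_one _).symm
      _ ≤ 2 * J * j.natAbs := Nat.mul_le_mul_left _ k2
      _ ≤ l := k1
  · intro r hr
    obtain ⟨j, hj1, hj2, hj3⟩ := hRj r hr
    refine ⟨j, ?_, hj2⟩
    rw [hj1] at hj3
    have k1 := hJl j hj3
    have k2 : j.natAbs ≤ l / (2 * J) := by
      rw [Nat.le_div_iff_mul_le hJ20, mul_comm]
      exact k1
    rw [Int.abs_eq_natAbs]
    exact_mod_cast k2
  · have k1 : 2 * J * ((sf K).card * (l / (2 * J))) ≤ d2 - d1 := by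
      calc 2 * J * ((sf K).card * (l / (2 * J))) = (sf K).card * (2 * J * (l / (2 * J))) := by ring
        _ ≤ (sf K).card * l := Nat.mul_le_mul_left _ hQ2
        _ ≤ d2 - d1 := hKl
    obtain ⟨q, hq⟩ : ∃ q : ℕ, q = (sf K).card * (l / (2 * J)) := ⟨_, rfl⟩
    rw [← hq] at k1 ⊢
    have k2 : J * (500000 * q) ≤ J * (500001 * p) := by
      have e1 : J * (500000 * q) = 250000 * (2 * J * q) := by ring
      have e2 : J * (500001 * p) = 500001 * y := by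
        rw [hy]
        ring
      rw [e1, e2]
      omega
    exact Nat.le_of_mul_le_mul_left k2 (by omega)

end Pool.Agent.helper43.Ex
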