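import Pool.Agent.helper43.Ex.Sml
import Pool.Agent.helper43.Ex.Chr
import Pool.Agent.helper43.Ex.Sr1

/-! EX-STh: the structure theorem (section 2 of the paper proof). -/

open Finset Pool.Agent.helper43.Rho Pool.Agent.helper43.Asy

set_option linter.unusedSectionVars false

namespace Pool.Agent.helper43.Ex

variable {G : Type*} [AddCommGroup G] [DecidableEq G] [Fintype G]

/-- If `χ = 1` on `H` and on `R` then `χ = 1` on `LL H R` (`LL_le` with the subgroup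
`{t : χ t = 1}`). -/
theorem char_LL {H : AddSubgroup G} {R : Finset G} {χ : AddChar G ℂ} (hH : ∀ t ∈ H, χ t = 1)
    (hR : ∀ r ∈ R, χ r = 1) : ∀ t ∈ LL H R, χ t = 1 := by
  let K : AddSubgroup G :=
    { carrier := {t | χ t = 1}
      zero_mem' := by simp
      add_mem' := by
        intro a b ha hb
        simp only [Set.mem_ofPred_eq] at ha hb ⊢
        rw [AddChar.map_add_eq_mul, ha, hb, one_mul]
      neg_mem' := by
        intro a ha
        simp only [Set.mem_ofPred_eq] at ha ⊢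
        have h1 : χ (-a) * χ a = 1 := by
          rw [← AddChar.map_add_eq_mul, neg_add_cancel, AddChar.map_zero_eq_one]
        rwa [ha, mul_one] at h1 }
  have h : LL H R ≤ K := LL_le (fun t ht => hH t ht) (fun r hr => hR r hr)
  exact fun t ht => h ht

/-- `u = |X|`, `g = (5 * 10^8 + 1) p / (5 * 10^8)` (floor), so `lam X r ≤ g` for `r ∈ R`,
`p ≤ g`, `5 * 10^8 g ≤ (5 * 10^8 + 1) p`, `g ≤ 2 p`.
* `D = DR j0`, `j0 = u / (4 g)`. `4 lam X t ≤ 4 j0 g ≤ u` on `D` (`lam_DR_le`). `9 u ≤ 20 |D|`: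
  if `|D| = |L|` then `|D| ≥ 2 u`; otherwise `|D| ≥ 2 p j0` (`DR_growth`),
  `4 g j0 > u - 4 g ≥ u - 8 p`, so `|D| ≥ 2 p j0 ≥ (p / (2 g)) (u - 8 p) ≥ 0.45 u`.
* `exists_char` (`L = LL H R`): `χ`. For `t ∈ H`: `lam X t = 0` (`Per.lam_zero`), so `χ t = 1`
  (`u > 0`). `char_LL`: some `r ∈ R` has `χ r ≠ 1`.
* `J = 8 * 10^6`. For `t ∈ DR (2 J)`: `lam X t ≤ 2 J g ≤ 3.2 * 10^7 p ≤ 3.2 * 10^(-3) u`,
  `‖χ t - 1‖ ≤ 12 * 3.2 * 10^(-3) ≤ 0.04`, `|al χ t| ≤ 0.08` (`al_le`).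
* `DR_small` for `J` and `2 J`: `|DR J| ≤ (1 + 10^(-6)) 2 p J < 10^10 p ≤ |L|`, so
  `2 p J ≤ |DR J|` (`DR_growth`), and the bound for `|DR (2 J)|`. `str1`. -/
theorem structure_thm {H : AddSubgroup G} {R X : Finset G} {p : ℕ} (hI : Iso H R p)
    (hp : 1 ≤ p) (hX : Per H X) (hXL : X ⊆ sf (LL H R))
    (h2 : 2 * X.card ≤ (sf (LL H R)).card) (hu : 10 ^ 10 * p ≤ X.card)
    (hg : ∀ r ∈ R, 5 * 10 ^ 8 * lam X r ≤ (5 * 10 ^ 8 + 1) * p) :
    ∃ (K : AddSubgroup G) (c : G) (Q : ℕ), H ≤ K ∧ K ≤ LL H R ∧ c ∈ LL H R ∧ 1 ≤ Q ∧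
      (∀ r ∈ R, ∃ j : ℤ, |j| ≤ Q ∧ r - j • c ∈ K) ∧
      500000 * ((sf K).card * Q) ≤ 500001 * p := by
  classical
  have hupos : 0 < X.card := by omega
  have hXne : X.Nonempty := Finset.card_pos.1 hupos
  obtain ⟨g, hgdef⟩ : ∃ g : ℕ, g = (5 * 10 ^ 8 + 1) * p / (5 * 10 ^ 8) := ⟨_, rfl⟩
  have hgp : 5 * 10 ^ 8 * g ≤ (5 * 10 ^ 8 + 1) * p := by
    rw [hgdef]; exact Nat.mul_div_le _ _
  have hlamg : ∀ r ∈ R, lam X r ≤ g := by
    intro r hr
    rw [hgdef, Nat.le_div_iff_mul_le (by norm_num), mul_comm]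
    exact hg r hr
  have hpg : p ≤ g := by
    rw [hgdef, Nat.le_div_iff_mul_le (by norm_num)]
    omega
  have hg2 : g ≤ 2 * p := by omega
  have hgpos : 0 < 4 * g := by omega
  -- the set `D`
  obtain ⟨j0, hj0⟩ : ∃ j0 : ℕ, j0 = X.card / (4 * g) := ⟨_, rfl⟩
  have hj1 : 4 * (g * j0) ≤ X.card := by
    have h := Nat.div_mul_le_self X.card (4 * g)
    rw [← hj0] at h
    calc 4 * (g * j0) = j0 * (4 * g) := by ring
      _ ≤ X.card := h
  have hj2 : X.card < 4 * (g * j0) + 4 * g := by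
    have h := Nat.lt_mul_div_succ X.card hgpos
    rw [← hj0] at h
    calc X.card < 4 * g * (j0 + 1) := h
      _ = 4 * (g * j0) + 4 * g := by ring
  have hD : 9 * X.card ≤ 20 * (DR H R j0).card := by
    have hle : (DR H R j0).card ≤ (sf (LL H R)).card := Finset.card_le_card (DR_subset j0)
    rcases hle.lt_or_eq with hlt | heq
    · have h1 := DR_growth hI j0 hlt
      have h3 : 5 * 10 ^ 8 * (g * j0) ≤ (5 * 10 ^ 8 + 1) * (p * j0) := by
        calc 5 * 10 ^ 8 * (g * j0) = (5 * 10 ^ 8 * g) * j0 := by ring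
          _ ≤ ((5 * 10 ^ 8 + 1) * p) * j0 := Nat.mul_le_mul_right _ hgp
          _ = (5 * 10 ^ 8 + 1) * (p * j0) := by ring
      have h4 : 2 * (p * j0) ≤ (DR H R j0).card := by
        have : 2 * (p * j0) = 2 * p * j0 := by ring
        omega
      omega
    · omega
  have hlamD : ∀ t ∈ DR H R j0, 4 * lam X t ≤ X.card := by
    intro t ht
    have h := lam_DR_le hX hlamg j0 t ht
    have h' : j0 * g = g * j0 := mul_comm _ _
    omega
  obtain ⟨χ, ⟨t0, ht0, hχ0⟩, hχ⟩ := exists_char hXne hXL h2 (DR_subset j0) hlamD hD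
  have hur : (0 : ℝ) < (X.card : ℝ) := by exact_mod_cast hupos
  have hH : ∀ t ∈ H, χ t = 1 := by
    intro t ht
    have h1 := hχ t (le_LL H R ht)
    rw [hX.lam_zero ht] at h1
    have h2 : ‖χ t - 1‖ ≤ 0 := by
      by_contra hcon
      rw [not_le] at hcon
      have := mul_pos hur hcon
      norm_num at h1
      linarith
    exact sub_eq_zero.1 (norm_le_zero_iff.1 h2)
  have hR : ∃ r ∈ R, χ r ≠ 1 := by
    by_contra hcon
    push Not at hcon
    exact hχ0 (char_LL hH hcon t0 ht0)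
  obtain ⟨J, hJ⟩ : ∃ J : ℕ, J = 8 * 10 ^ 6 := ⟨_, rfl⟩
  have hs : ∀ t ∈ DR H R (2 * J), |al χ t| ≤ 1 / 10 := by
    intro t ht
    have h1 := lam_DR_le hX hlamg _ t ht
    have h3 : lam X t ≤ 32 * 10 ^ 6 * p := by
      calc lam X t ≤ 2 * J * g := h1
        _ ≤ 2 * J * (2 * p) := Nat.mul_le_mul_left _ hg2
        _ = 32 * 10 ^ 6 * p := by rw [hJ]; ring
    have h4 : 10 ^ 4 * lam X t ≤ 32 * X.card := by omega
    have h5 : (10 ^ 4 : ℝ) * (lam X t : ℝ) ≤ 32 * (X.card : ℝ) := by exact_mod_cast h4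
    have h6 := hχ t ((mem_sf t).1 (DR_subset _ ht))
    have h7 : ‖χ t - 1‖ ≤ 1 / 20 := by
      by_contra hcon
      rw [not_le] at hcon
      have h8 : (X.card : ℝ) * (1 / 20) < (X.card : ℝ) * ‖χ t - 1‖ :=
        mul_lt_mul_of_pos_left hcon hur
      linarith
    have h9 := al_le χ t
    linarith
  have hJ1 : 8 * 10 ^ 6 ≤ J := by rw [hJ]
  have hJ2 : J ≤ 16 * 10 ^ 6 := by rw [hJ]; norm_num
  have hJ3 : 8 * 10 ^ 6 ≤ 2 * J := by rw [hJ]; norm_num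
  have hJ4 : 2 * J ≤ 16 * 10 ^ 6 := by rw [hJ]; norm_num
  have hsm1 := DR_small (J := J) hI hp hX h2 hu hlamg hgp hJ1 hJ2
  have hsm2 := DR_small (J := 2 * J) hI hp hX h2 hu hlamg hgp hJ3 hJ4
  have e1 : 2 * p * J = 16 * 10 ^ 6 * p := by rw [hJ]; ring
  have e2 : 2 * p * (2 * J) = 4 * (p * J) := by ring
  have e3 : 2 * (p * J) = 16 * 10 ^ 6 * p := by rw [hJ]; ring
  have hd1 : 2 * (p * J) ≤ (DR H R J).card := by
    have h1 : (DR H R J).card < (sf (LL H R)).card := by omega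
    have h3 := DR_growth hI J h1
    omega
  rw [e2] at hsm2
  have hJ5 : 100 ≤ J := by rw [hJ]; norm_num
  exact str1 (J := J) hJ5 hp hH hR hs hd1 hsm2

end Pool.Agent.helper43.Ex
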