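import Pool.Agent.helper43.Ex.Lay
import Pool.Agent.helper43.Ex.NmA

/-! EX-Sml: `DR H R J` is small (2.2 of the paper proof). -/

open Finset Pool.Agent.helper43.Rho Pool.Agent.helper43.Asy

set_option linter.unusedSectionVars false

namespace Pool.Agent.helper43.Ex

variable {G : Type*} [AddCommGroup G] [DecidableEq G] [Fintype G]

private theorem sml_fin {p g u S A B : ℕ} (hu : 1 ≤ u) (hl : u ^ 2 ≤ g * S)
    (hn : A * (p * S) ≤ B * u ^ 2) : A * p ≤ B * g := by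
  have h1 : (A * p) * u ^ 2 ≤ (B * g) * u ^ 2 := by
    calc (A * p) * u ^ 2 ≤ (A * p) * (g * S) := Nat.mul_le_mul_left _ hl
      _ = g * (A * (p * S)) := by ring
      _ ≤ g * (B * u ^ 2) := Nat.mul_le_mul_left _ hn
      _ = (B * g) * u ^ 2 := by ring
  exact Nat.le_of_mul_le_mul_right h1 (by positivity)

/-- `u = |X| > 0`, `d j = |DR j|`, `L = LL H R`. Suppose `(10^6 + 1) (2 p J) < 10^6 d J`. By
`exists_DR_full` there is `K` with `d K = |L| ≥ 2 u`, so `layer_ineq`: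
`u^2 ≤ g ∑_{j < K} (2 u - d j)`. If `d j < 2 u ≤ |L|` then `2 p j ≤ d j` (`gr_from` with
`a = 0`, or `DR_growth`). Let `k1 = u / (8 p J)`; `k1 ≥ 1` since
`8 p J ≤ 128 * 10^6 p ≤ u`.

Case (i): there is `k ≤ k1` with `p J ≤ 2 * 10^6 |F|`, `F = stab (DR (k J))`. As `J ≥ 8 * 10^6`,
`4 p ≤ |F|`. `numB` with `a = k J` (`8 p k J ≤ 8 p J k1 ≤ u`; `h2` by `gr_stab`):
`100 p u^2 ≤ 100 g p ∑ ≤ 75 g u^2`, so `100 p ≤ 75 g`, but `g ≤ 1.01 p`: contradiction.

Case (ii): for all `k ≤ k1`: `2 * 10^6 |stab (DR (k J))| < p J`. For `k = k1`: `kn_DR` gives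
`k d J ≤ d (k J) + (k - 1) |stab|`, so `2 * 10^6 d (k J) ≥ 2 k (10^6 + 1) (2 p J) - (k - 1) p J ≥
4 * 10^6 k p J + 3 k p J`. For `j ≥ k J` with `d j < 2 u` by `gr_from`
`2 * 10^6 d j ≥ 2 * 10^6 d (k J) + 4 * 10^6 p (j - k J) ≥ 4 * 10^6 p j + 3 k p J`. `numA`:
`10^9 p u^2 ≤ g 10^9 p ∑ ≤ g (10^9 - 5) u^2`, so `10^9 p ≤ (10^9 - 5) g`, and with
`5 * 10^8 g ≤ (5 * 10^8 + 1) p` a contradiction:
`(10^9 - 5) (5 * 10^8 + 1) < 5 * 10^17`. -/
theorem DR_small {H : AddSubgroup G} {R X : Finset G} {p g J : ℕ} (hI : Iso H R p)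
    (hp : 1 ≤ p) (hX : Per H X) (h2 : 2 * X.card ≤ (sf (LL H R)).card)
    (hu : 10 ^ 10 * p ≤ X.card) (hg : ∀ r ∈ R, lam X r ≤ g)
    (hgp : 5 * 10 ^ 8 * g ≤ (5 * 10 ^ 8 + 1) * p) (hJ1 : 8 * 10 ^ 6 ≤ J)
    (hJ2 : J ≤ 16 * 10 ^ 6) :
    10 ^ 6 * (DR H R J).card ≤ (10 ^ 6 + 1) * (2 * p * J) := by
  by_contra hcon
  have hcon' : (10 ^ 6 + 1) * (2 * p * J) < 10 ^ 6 * (DR H R J).card := Nat.lt_of_not_le hcon
  obtain ⟨K, hK⟩ := exists_DR_full hI hp
  have hl := layer_ineq (R := R) hX hg (K := K) (by rw [hK]; exact h2)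
  have hu1 : 1 ≤ X.card := by omega
  have hg1 : ∀ j, (DR H R j).card < 2 * X.card → 2 * (p * j) ≤ (DR H R j).card := by
    intro j hj
    have h3 := DR_growth hI j (lt_of_lt_of_le hj h2)
    rw [mul_assoc] at h3
    omega
  obtain ⟨k1, hk1⟩ : ∃ k1, k1 = X.card / (8 * p * J) := ⟨_, rfl⟩
  have hpJ : 8 * p * J ≤ X.card := by
    have h5 : p * J ≤ p * (16 * 10 ^ 6) := Nat.mul_le_mul_left _ hJ2
    have h6 : 8 * p * J = 8 * (p * J) := by ring
    rw [h6]
    omega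
  have hpJ0 : 0 < 8 * p * J := by positivity
  have hk1' : 1 ≤ k1 := by
    rw [hk1]
    exact (Nat.one_le_div_iff hpJ0).2 hpJ
  have hk1u : 8 * p * J * k1 ≤ X.card := by
    rw [hk1]
    exact Nat.mul_div_le _ _
  by_cases hcase : ∃ k, k ≤ k1 ∧ p * J ≤ 2 * 10 ^ 6 * (sf (stab (DR H R (k * J)))).card
  · obtain ⟨k, hk, hF⟩ := hcase
    have h4 : 4 * p ≤ (sf (stab (DR H R (k * J)))).card := by
      have h5 : p * (8 * 10 ^ 6) ≤ p * J := Nat.mul_le_mul_left _ hJ1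
      omega
    have hB := numB (d := fun j => (DR H R j).card) (p := p) (u := X.card) (a := k * J) K hp hu
      (by
        calc 8 * (p * (k * J)) = 8 * p * J * k := by ring
          _ ≤ 8 * p * J * k1 := Nat.mul_le_mul_left _ hk
          _ ≤ X.card := hk1u) hg1
      (by
        intro j hj hd
        have h5 := gr_stab (R := R) hI hp (le_refl (stab (DR H R (k * J)))) hj
          (lt_of_lt_of_le hd h2)
        calc 4 * (p * (j - k * J)) = 4 * p * (j - k * J) := by ring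
          _ ≤ (sf (stab (DR H R (k * J)))).card * (j - k * J) := Nat.mul_le_mul_right _ h4
          _ ≤ (DR H R j).card := h5)
    have h6 := sml_fin hu1 hl hB
    omega
  · push Not at hcase
    have hs := hcase k1 le_rfl
    have hkn := kn_DR (H := H) (R := R) J hk1'
    have hbase : 4 * 10 ^ 6 * (k1 * (p * J)) + 3 * (k1 * (p * J)) ≤
        2 * 10 ^ 6 * (DR H R (k1 * J)).card := by
      have h5 : 2 * k1 * ((10 ^ 6 + 1) * (2 * p * J)) ≤ 2 * k1 * (10 ^ 6 * (DR H R J).card) :=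
        Nat.mul_le_mul_left _ hcon'.le
      have h6 : (k1 - 1) * (2 * 10 ^ 6 * (sf (stab (DR H R (k1 * J)))).card) ≤
          (k1 - 1) * (p * J) := Nat.mul_le_mul_left _ hs.le
      have h7 : (k1 - 1) * (p * J) ≤ k1 * (p * J) := Nat.mul_le_mul_right _ (Nat.sub_le _ _)
      have h8 : 2 * k1 * ((10 ^ 6 + 1) * (2 * p * J)) =
          (4 * 10 ^ 6 + 4) * (k1 * (p * J)) := by ring
      have h9 : 2 * k1 * (10 ^ 6 * (DR H R J).card) =
          2 * 10 ^ 6 * (k1 * (DR H R J).card) := by ring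
      have h10 : (k1 - 1) * (2 * 10 ^ 6 * (sf (stab (DR H R (k1 * J)))).card) =
          2 * 10 ^ 6 * ((k1 - 1) * (sf (stab (DR H R (k1 * J)))).card) := by ring
      rw [h8, h9] at h5
      rw [h10] at h6
      omega
    have hA := numA (d := fun j => (DR H R j).card) (p := p) (u := X.card) (J := J) (k := k1) K
      hp hu (by omega) hJ2 hk1 hg1
      (by
        intro j hj hd
        have h5 := gr_from hI hj (lt_of_lt_of_le hd h2)
        obtain ⟨t, rfl⟩ := Nat.exists_eq_add_of_le hj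
        rw [Nat.add_sub_cancel_left] at h5
        have h6 : 4 * 10 ^ 6 * (p * (k1 * J + t)) =
            4 * 10 ^ 6 * (k1 * (p * J)) + 2 * 10 ^ 6 * (2 * p * t) := by ring
        change _ ≤ 2 * 10 ^ 6 * (DR H R (k1 * J + t)).card
        rw [h6]
        omega)
    have h6 := sml_fin hu1 hl hA
    omega

end Pool.Agent.helper43.Ex
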