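import Pool.Agent.helper43.Ex.P12
import Pool.Agent.helper43.Ex.PhL
import Pool.Agent.helper43.Ex.Bad
import Pool.Agent.helper43.Ex.Kn

/-! EX-StS: there is a stage with a small increment (section 1 of the paper proof). -/

open Finset Pool.Agent.helper43.Rho Pool.Agent.helper43.Asy

set_option linter.unusedSectionVars false

namespace Pool.Agent.helper43.Ex

variable {G : Type*} [AddCommGroup G] [DecidableEq G] [Fintype G]

/-- Abstract summation. `Φ` is nondecreasing on `[k0, k1]`, and for every `k ∈ [k0, k1)` either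
`M - k` is bad or `Φ (k+1) - Φ k > (1 + 10^(-9)) rd h (M - k)`. Then
`10^9 (Φ k1 - Φ k0) ≥ (10^9 + 1) (∑_{Ioc (M - k1) (M - k0)} rd h j - 2 M * bad)`. Write the sum over
`k ∈ Ico k0 k1` of `rd h (M - k)` as the sum over `j ∈ Ioc (M - k1) (M - k0)` (`j = M - k`). Every
bad term is at most `2 M`. -/
theorem stage_telescope {Φ : ℕ → ℕ} {M h b k0 k1 : ℕ} {P : ℕ → Prop} [DecidablePred P]
    (hh : h ≤ M) (h01 : k0 ≤ k1) (h1M : k1 ≤ M)
    (hmono : ∀ k, k0 ≤ k → k < k1 → Φ k ≤ Φ (k + 1))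
    (hgood : ∀ k, k0 ≤ k → k < k1 → ¬ P k →
      10 ^ 9 * Φ k + (10 ^ 9 + 1) * rd h (M - k) ≤ 10 ^ 9 * Φ (k + 1))
    (hb : ((Ico k0 k1).filter P).card ≤ b) :
    10 ^ 9 * Φ k0 + (10 ^ 9 + 1) * ∑ j ∈ Ioc (M - k1) (M - k0), rd h j ≤
      10 ^ 9 * Φ k1 + (10 ^ 9 + 1) * (2 * M * b) := by
  have key : ∀ k, k0 ≤ k → k ≤ k1 →
      10 ^ 9 * Φ k0 + (10 ^ 9 + 1) * ∑ j ∈ Ioc (M - k) (M - k0), rd h j ≤
        10 ^ 9 * Φ k + (10 ^ 9 + 1) * (2 * M * ((Ico k0 k).filter P).card) := by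
    intro k hk
    induction k, hk using Nat.le_induction with
    | base =>
      intro _
      rw [Finset.Ioc_self, Finset.sum_empty, Finset.Ico_self, Finset.filter_empty,
        Finset.card_empty]
      simp
    | succ k hk ih =>
      intro hk1
      have ih' := ih (by omega)
      have hI : Ioc (M - (k + 1)) (M - k0) = insert (M - k) (Ioc (M - k) (M - k0)) := by
        ext j
        rw [Finset.mem_insert, Finset.mem_Ioc, Finset.mem_Ioc]
        omega
      have hnot : M - k ∉ Ioc (M - k) (M - k0) := by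
        rw [Finset.mem_Ioc]
        omega
      have hS : ∑ j ∈ Ioc (M - (k + 1)) (M - k0), rd h j =
          rd h (M - k) + ∑ j ∈ Ioc (M - k) (M - k0), rd h j := by
        rw [hI, Finset.sum_insert hnot]
      have hF : (Ico k0 (k + 1)).filter P =
          if P k then insert k ((Ico k0 k).filter P) else (Ico k0 k).filter P := by
        rw [← Finset.insert_Ico_right_eq_Ico_add_one hk, Finset.filter_insert]
      rw [hS, hF]
      by_cases hP : P k
      · have hnot2 : k ∉ (Ico k0 k).filter P := by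
          rw [Finset.mem_filter, Finset.mem_Ico]
          omega
        rw [if_pos hP, Finset.card_insert_of_notMem hnot2]
        have h1 := hmono k hk (by omega)
        have h2 : rd h (M - k) ≤ 2 * M := by
          have := rd_le (h := h) (x := M - k)
          omega
        have h3 : 2 * M * (((Ico k0 k).filter P).card + 1) =
            2 * M * ((Ico k0 k).filter P).card + 2 * M := by ring
        rw [h3]
        omega
      · rw [if_neg hP]
        have h1 := hgood k hk (by omega) hP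
        omega
  refine le_trans (key k1 h01 le_rfl) ?_
  have h1 : 2 * M * ((Ico k0 k1).filter P).card ≤ 2 * M * b := Nat.mul_le_mul_left _ hb
  omega

/-- Arithmetic at the end of `stage_sum`. -/
private theorem StS_arith {M h b k0 k1 X S S0 T1 Tk0 TM R1 P0 P1 : ℕ}
    (hM : 10 ^ 30 ≤ M) (h3 : 3 * h < M) (hb : 10 ^ 13 * b ≤ M)
    (hk0 : 20 * k0 ≤ M + 19) (hk1 : M ≤ 10 * k1 + 9) (hk1' : 10 * k1 ≤ M)
    (hS : (k1 - k0) * (M - k1) ≤ S)
    (htel : 10 ^ 9 * P0 + (10 ^ 9 + 1) * S ≤ 10 ^ 9 * P1 + (10 ^ 9 + 1) * (2 * M * b))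
    (hmid : 10 ^ 13 * S0 ≤ 10 ^ 13 * P0 + M ^ 2)
    (hlow : 10 ^ 15 * T1 ≤ 10 ^ 15 * R1 + T1) (hT1 : T1 ≤ 3 * M ^ 2)
    (hkn : P1 + R1 ≤ X + h) (hs1 : Tk0 = T1 + S) (hs2 : TM = Tk0 + S0)
    (hX : X ≤ TM + (M + 1 + h)) : False := by
  have hMM : 10 ^ 30 * M ≤ M ^ 2 := by
    rw [pow_two]
    exact Nat.mul_le_mul_right _ hM
  have e1 : M ^ 2 ≤ 25 * S := by
    have a1 : M ≤ 20 * (k1 - k0) + 38 := by omega
    have a2 : 9 * M ≤ 10 * (M - k1) := by omega
    have a3 : (M - 38) * (9 * M) ≤ (20 * (k1 - k0)) * (10 * (M - k1)) :=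
      Nat.mul_le_mul (by omega) a2
    have a4 : (20 * (k1 - k0)) * (10 * (M - k1)) = 200 * ((k1 - k0) * (M - k1)) := by ring
    obtain ⟨N, hN⟩ : ∃ N, M = N + 38 := ⟨M - 38, by omega⟩
    have a5 : M - 38 = N := by omega
    rw [a4, a5] at a3
    have a6 : 200 * S ≥ N * (9 * M) := le_trans a3 (Nat.mul_le_mul_left _ hS)
    have a7 : N * (9 * M) + 342 * M = 9 * M ^ 2 := by
      rw [hN]
      ring
    omega
  have e2 : 10 ^ 13 * (2 * M * b) ≤ 2 * M ^ 2 := by
    calc 10 ^ 13 * (2 * M * b) = 2 * M * (10 ^ 13 * b) := by ring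
      _ ≤ 2 * M * M := Nat.mul_le_mul_left _ hb
      _ = 2 * M ^ 2 := by ring
  generalize M ^ 2 = Q at *
  generalize 2 * M * b = Y at *
  omega

/-- Suppose not. `M = |B|`, `k0 = (M + 19) / 20`, `k1 = M / 10`, `P k = ¬ Good h δ (M - k)`. By
`bad_count` (the map `k ↦ M - k` is injective on `Ico k0 k1` and has values in
`Icc (M - M/10) M`) the number `b` of bad `k` satisfies `10^13 b ≤ M`. `stage_telescope` for
`Φ = Phi H B` (`Phi_mono`) and `∑_{Ioc (M-k1) (M-k0)} rd h j ≥ (k1 - k0) (M - k1) ≥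
(M/20 - 2) (9 M / 10)`, so `≥ 4 M^2 / 100`, give
`Φ k1 ≥ Φ k0 + ∑_{Ioc (M-k1) (M-k0)} rd + 4 * 10^(-11) M^2 - 3 * 10^(-13) M^2`. `mid_lower` with
`i = M - k0` (`Phi_ge`): `Φ k0 ≥ ∑_{Ioc (M-k0) M} rd - 10^(-13) M^2`
(`|XX H B| ≤ TT h (M+1) ≤ 3 M^2`: as `TT h (M+1) = h + ∑ ≤ h + (M+1)(M+1+h)`, `3 h < M`).
`exists_Phi` with `k1`: `E1`, `R1 = B \ E1`, `|R1| = M - k1 ≥ 2^399`, `low_TT` for
`(hB.subset _)` and `kn_ap`: `|XX H B| + h ≥ Φ k1 + |XX H R1| ≥ Φ k1 + TT h (M - k1) -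
10^(-15) 3 M^2`. Together with `TT_split`: `|XX H B| + h ≥ TT h M + 10^(-11) M^2`, while
`|XX H B| ≤ TT h M + rd h (M+1) ≤ TT h M + 2 M` (`TT_succ`): contradiction. -/
theorem stage_sum {H : AddSubgroup G} {B : Finset G} (hB : Ap H B) (hM : 2 ^ 400 ≤ B.card)
    (h3 : 3 * (sf H).card < B.card)
    (hX : (XX H B).card ≤ TT (sf H).card (B.card + 1)) {δ : ℕ}
    (hδ : δ ≤ 100 * (Nat.sqrt B.card + 1)) :
    ∃ k, B.card ≤ 20 * k ∧ 10 * k ≤ B.card ∧ Good (sf H).card δ (B.card - k) ∧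
      10 ^ 9 * Phi H B (k + 1) ≤
        10 ^ 9 * Phi H B k + (10 ^ 9 + 1) * rd (sf H).card (B.card - k) := by
  classical
  by_contra hcon
  push Not at hcon
  set M := B.card with hMdef
  set h := (sf H).card with hhdef
  have hh : 0 < h := sf_card_pos H
  have hM399 : 2 * 2 ^ 399 ≤ M := by
    have : (2 : ℕ) ^ 400 = 2 * 2 ^ 399 := by
      rw [← pow_succ']
    omega
  have hM30 : 10 ^ 30 ≤ M :=
    le_trans (le_trans (by norm_num : 10 ^ 30 ≤ 2 ^ 100)
      (Nat.pow_le_pow_right (by norm_num) (by norm_num))) hM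
  have hMl : 2 ^ 399 ≤ M := by omega
  obtain ⟨k0, hk0⟩ : ∃ k0, k0 = (M + 19) / 20 := ⟨_, rfl⟩
  obtain ⟨k1, hk1⟩ : ∃ k1, k1 = M / 10 := ⟨_, rfl⟩
  have h01 : k0 ≤ k1 := by omega
  have h1M : k1 ≤ M := by omega
  have hb : 10 ^ 13 * ((Ico k0 k1).filter (fun k => ¬ Good h δ (M - k))).card ≤ M := by
    refine le_trans (Nat.mul_le_mul_left _ ?_) (bad_count hMl hh hδ)
    refine Finset.card_le_card_of_injOn (fun k => M - k) ?_ ?_
    · intro k hk
      rw [Finset.mem_coe, Finset.mem_filter, Finset.mem_Ico] at hk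
      rw [Finset.mem_coe, Finset.mem_filter, Finset.mem_Icc]
      refine ⟨?_, hk.2⟩
      show M - M / 10 ≤ M - k ∧ M - k ≤ M
      omega
    · intro k hk k' hk' hkk
      rw [Finset.mem_coe, Finset.mem_filter, Finset.mem_Ico] at hk hk'
      have : M - k = M - k' := hkk
      omega
  have htel := stage_telescope (Φ := Phi H B) (M := M) (h := h)
    (P := fun k => ¬ Good h δ (M - k)) (by omega) h01 h1M
    (fun k _ hk => Phi_mono (by omega))
    (fun k hk hk' hP => by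
      have := hcon k (by omega) (by omega) (not_not.1 hP)
      omega) le_rfl
  have hX3 : (XX H B).card ≤ 3 * M ^ 2 := by
    refine le_trans hX ?_
    rw [TT_split (Nat.zero_le (M + 1))]
    have e1 : TT h 0 = h := by
      unfold TT
      simp
    have e2 := sum_rd_Ioc_le (h := h) (i := 0) (M := M + 1)
    rw [e1]
    have e3 : (M + 1 - 0) * (M + 1 + h) ≤ (M + 1) * (2 * M) := Nat.mul_le_mul (by omega) (by omega)
    have e4 : (M + 1) * (2 * M) = 2 * M ^ 2 + 2 * M := by ring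
    have e5 : 3 * M ≤ M ^ 2 := by
      rw [pow_two]
      exact Nat.mul_le_mul_right _ (by omega)
    omega
  obtain ⟨E, hEB, hEc, hmid⟩ := mid_lower hB hMl (by omega) hX3 (i := M - k0) (by omega) (by omega)
  have hE0 := Phi_ge (H := H) hEB (k := k0) (by omega)
  obtain ⟨E1, hE1B, hE1c, hE1⟩ := exists_Phi H h1M
  have hR1c : (B \ E1).card = M - k1 := by
    rw [Finset.card_sdiff_of_subset hE1B, hE1c]
  have hlow := low_TT (hB.subset (Finset.sdiff_subset (s := B) (t := E1)))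
    (by rw [hR1c]; omega) (by rw [hR1c]; omega)
  have hkn := kn_ap hB hE1B (Finset.sdiff_subset (s := B) (t := E1)) Finset.disjoint_sdiff
  rw [Finset.union_sdiff_of_subset hE1B, hE1] at hkn
  rw [hR1c] at hlow
  have hT1 : TT h (M - k1) ≤ 3 * M ^ 2 := by
    refine le_trans (TT_le (by omega)) ?_
    exact Nat.mul_le_mul_left _ (Nat.pow_le_pow_left (by omega) 2)
  have hs1 := TT_split (h := h) (i := M - k1) (M := M - k0) (by omega)
  have hs2 := TT_split (h := h) (i := M - k0) (M := M) (by omega)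
  have hS := sum_rd_Ioc_ge hh (i := M - k1) (M := M - k0)
  have hS' : (k1 - k0) * (M - k1) ≤ ∑ j ∈ Ioc (M - k1) (M - k0), rd h j := by
    rwa [show M - k0 - (M - k1) = k1 - k0 by omega] at hS
  have hXX : (XX H B).card ≤ TT h M + (M + 1 + h) := by
    refine le_trans hX ?_
    rw [TT_succ]
    have := rd_le (h := h) (x := M + 1)
    omega
  have hmid' : 10 ^ 13 * ∑ j ∈ Ioc (M - k0) M, rd h j ≤ 10 ^ 13 * Phi H B k0 + M ^ 2 :=
    le_trans hmid (Nat.add_le_add_right (Nat.mul_le_mul_left (10 ^ 13) hE0) _)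
  exact StS_arith hM30 h3 hb (k0 := k0) (k1 := k1) (by omega) (by omega) (by omega) hS' htel
    hmid' hlow hT1 hkn hs1 hs2 hXX

end Pool.Agent.helper43.Ex
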