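import Pool.Agent.helper43.Ex.Al
import Pool.Agent.helper43.Ex.Lay

/-! EX-Top: the top fibre of the argument on `DR` (2.4 of the paper proof). -/

open Finset Pool.Agent.helper43.Rho Pool.Agent.helper43.Asy

set_option linter.unusedSectionVars false

namespace Pool.Agent.helper43.Ex

variable {G : Type*} [AddCommGroup G] [DecidableEq G] [Fintype G]

private theorem Top_CR {H : AddSubgroup G} {R : Finset G} {J : ℕ} (hJ : 1 ≤ J) {t : G}
    (ht : t ∈ CR H R) : t ∈ DR H R (2 * J) := by
  have h1 : t ∈ DR H R 1 := by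
    show t ∈ sumS (sf H) (CR H R)
    exact mem_sumS.2 ⟨0, (mem_sf (0 : G)).2 H.zero_mem, t, ht, zero_add t⟩
  exact DR_mono (by omega) h1

/-- `al` is additive on `DR j`, `j + 1 ≤ 2 J`: for `s ∈ DR j`, `t ∈ CR`:
`al (s + t) = al s + al t` (`al_add`; `CR H R ⊆ DR 1 ⊆ DR (2 J)`, `DR_mono`). Induction on `j`:
if `al χ t ≤ w` on `CR H R` then `al χ t ≤ j w` on `DR j` (`DR 0 = sf H`, `al = 0` there by
`hH`, `al_eq_zero_iff`). -/
theorem al_DR_le {H : AddSubgroup G} {R : Finset G} {χ : AddChar G ℂ}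
    (hH : ∀ t ∈ H, χ t = 1) {J : ℕ} (hJ : 1 ≤ J)
    (hs : ∀ t ∈ DR H R (2 * J), |al χ t| ≤ 1 / 10) {w : ℝ} (hw : ∀ t ∈ CR H R, al χ t ≤ w) :
    ∀ j, j ≤ 2 * J → ∀ t ∈ DR H R j, al χ t ≤ j * w := by
  intro j
  induction j with
  | zero =>
    intro _ t ht
    have ht' : t ∈ sf H := ht
    rw [al_eq_zero_iff.2 (hH t ((mem_sf t).1 ht')), Nat.cast_zero, zero_mul]
  | succ j ih =>
    intro hj t ht
    have ht' : t ∈ sumS (DR H R j) (CR H R) := ht
    obtain ⟨s, hs1, c, hc, rfl⟩ := mem_sumS.1 ht'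
    have h1 : |al χ s| ≤ 1 / 10 := hs s (DR_mono (by omega) hs1)
    have h2 : |al χ c| ≤ 1 / 10 := hs c (Top_CR hJ hc)
    rw [al_add (by linarith) (by linarith)]
    have h3 := ih (by omega) s hs1
    have h4 := hw c hc
    push_cast
    linarith

open scoped Classical in
/-- `w` = the maximum of `al χ` on `CR H R` (`Finset.exists_max_image`), attained at `t0`;
`w > 0` because some `r ∈ R ⊆ CR` has `al χ r ≠ 0`, and `-r ∈ CR`, `al_neg`. `al ≤ j w` on `DR j`
(`al_DR_le`). The multiples `j t0 ∈ DR j` have `al = j w` (`j ≤ 2 J`). Let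
`T j = {t ∈ DR j : al χ t = j w}`. `t ↦ t + t0` maps `T j` injectively into `T (j + 1)`
(`j + 1 ≤ 2 J`), so `|T j|` is nondecreasing. `T (j + 1)` and `-T (j + 1)` are disjoint subsets of
`DR (j + 1) \ DR j` (on `DR j`, `|al| ≤ j w < (j + 1) w`; `neg_mem_DR`, `al_neg`), so
`|DR (j + 1)| ≥ |DR j| + 2 |T (j+1)| ≥ |DR j| + 2 |T J|` for `J ≤ j < 2 J`. Sum up over the
`J` values of `j`. -/
theorem top_fibre {H : AddSubgroup G} {R : Finset G} {χ : AddChar G ℂ}
    (hH : ∀ t ∈ H, χ t = 1) (hR : ∃ r ∈ R, χ r ≠ 1) {J : ℕ} (hJ : 1 ≤ J)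
    (hs : ∀ t ∈ DR H R (2 * J), |al χ t| ≤ 1 / 10) :
    ∃ w : ℝ, 0 < w ∧ (∀ t ∈ CR H R, al χ t ≤ w) ∧ (∃ t ∈ DR H R J, al χ t = J * w) ∧
      (∀ t ∈ DR H R J, al χ t ≤ J * w) ∧
      2 * J * ((DR H R J).filter (fun t => al χ t = J * w)).card + (DR H R J).card ≤
        (DR H R (2 * J)).card := by
  obtain ⟨t0, ht0, hmax⟩ := exists_max_image (CR H R) (al χ) ⟨0, zero_mem_CR⟩
  obtain ⟨w, hw⟩ : ∃ w, w = al χ t0 := ⟨_, rfl⟩
  rw [← hw] at hmax
  have hsm : ∀ j, j ≤ 2 * J → ∀ t ∈ DR H R j, |al χ t| ≤ 1 := by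
    intro j hj t ht
    have := hs t (DR_mono hj ht)
    linarith
  have hsC : ∀ t ∈ CR H R, |al χ t| ≤ 1 := by
    intro t ht
    have := hs t (Top_CR hJ ht)
    linarith
  have hw0 : 0 < w := by
    obtain ⟨r, hr, hr1⟩ := hR
    have hrC : r ∈ CR H R := by
      apply mem_CR_of_CC
      unfold CC
      exact mem_insert_of_mem (mem_union_left _ hr)
    have h1 := hmax r hrC
    have h2 := hmax (-r) (neg_mem_CR hrC)
    rw [al_neg (hsC r hrC)] at h2
    have h3 : al χ r ≠ 0 := fun h => hr1 (al_eq_zero_iff.1 h)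
    rcases lt_or_gt_of_ne h3 with h4 | h4 <;> linarith
  have hle := al_DR_le hH hJ hs hmax
  have hmul : ∀ j, j ≤ 2 * J → j • t0 ∈ DR H R j ∧ al χ (j • t0) = j * w := by
    intro j
    induction j with
    | zero =>
      intro _
      refine ⟨?_, ?_⟩
      · rw [zero_smul]
        exact (mem_sf (0 : G)).2 H.zero_mem
      · rw [zero_smul, al_zero, Nat.cast_zero, zero_mul]
    | succ j ih =>
      intro hj
      obtain ⟨h1, h2⟩ := ih (by omega)
      rw [succ_nsmul]
      refine ⟨mem_sumS.2 ⟨_, h1, t0, ht0, rfl⟩, ?_⟩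
      rw [al_add (hsm j (by omega) _ h1) (hsC t0 ht0), h2, ← hw]
      push_cast
      ring
  have hT : ∀ j, j + 1 ≤ 2 * J → ((DR H R j).filter (fun t => al χ t = j * w)).card ≤
      ((DR H R (j + 1)).filter (fun t => al χ t = (j + 1 : ℕ) * w)).card := by
    intro j hj
    refine card_le_card_of_injOn (fun t => t + t0) ?_ ?_
    · intro t ht
      rw [mem_coe, mem_filter] at ht
      rw [mem_coe, mem_filter]
      refine ⟨mem_sumS.2 ⟨t, ht.1, t0, ht0, rfl⟩, ?_⟩
      rw [al_add (hsm j (by omega) _ ht.1) (hsC t0 ht0), ht.2, ← hw]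
      push_cast
      ring
    · intro a _ b _ hab
      exact add_right_cancel hab
  have hD : ∀ j, j + 1 ≤ 2 * J → (DR H R j).card +
      2 * ((DR H R (j + 1)).filter (fun t => al χ t = (j + 1 : ℕ) * w)).card ≤
        (DR H R (j + 1)).card := by
    intro j hj
    obtain ⟨T, hTd⟩ : ∃ T, T = (DR H R (j + 1)).filter (fun t => al χ t = (j + 1 : ℕ) * w) :=
      ⟨_, rfl⟩
    rw [← hTd]
    have hTm : ∀ t, t ∈ T ↔ t ∈ DR H R (j + 1) ∧ al χ t = (j + 1 : ℕ) * w := by
      intro t
      rw [hTd, mem_filter]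
    have hnot : ∀ t ∈ T, t ∉ DR H R j := by
      intro t ht ht'
      have h1 := hle j (by omega) t ht'
      rw [((hTm t).1 ht).2] at h1
      push_cast at h1
      nlinarith
    have hd1 : Disjoint (DR H R j) T := by
      rw [disjoint_left]
      intro t ht ht'
      exact hnot t ht' ht
    have hd2 : Disjoint (DR H R j ∪ T) (T.image (fun x => -x)) := by
      rw [disjoint_left]
      intro t ht ht'
      obtain ⟨y, hy, rfl⟩ := mem_image.1 ht'
      rcases mem_union.1 ht with h1 | h1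
      · have h2 := neg_mem_DR h1
        rw [neg_neg] at h2
        exact hnot y hy h2
      · have h2 := ((hTm _).1 h1).2
        have h3 := ((hTm _).1 hy)
        rw [al_neg (hsm (j + 1) hj y h3.1), h3.2] at h2
        have h4 : (0 : ℝ) < ((j + 1 : ℕ) : ℝ) := by positivity
        nlinarith
    have hsub : (DR H R j ∪ T) ∪ T.image (fun x => -x) ⊆ DR H R (j + 1) := by
      intro t ht
      rcases mem_union.1 ht with h1 | h1
      · rcases mem_union.1 h1 with h2 | h2
        · exact DR_mono (Nat.le_succ j) h2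
        · exact ((hTm t).1 h2).1
      · obtain ⟨y, hy, rfl⟩ := mem_image.1 h1
        exact neg_mem_DR ((hTm y).1 hy).1
    have hcard := card_le_card hsub
    rw [card_union_of_disjoint hd2, card_union_of_disjoint hd1,
      card_image_of_injective _ neg_injective] at hcard
    omega
  have hTJ : ∀ j, J ≤ j → j ≤ 2 * J → ((DR H R J).filter (fun t => al χ t = J * w)).card ≤
      ((DR H R j).filter (fun t => al χ t = j * w)).card := by
    intro j hj
    induction j, hj using Nat.le_induction with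
    | base => exact fun _ => le_rfl
    | succ j _ ih => exact fun h2 => (ih (by omega)).trans (hT j h2)
  have hsum : ∀ j, J ≤ j → j ≤ 2 * J → 2 * (j - J) *
      ((DR H R J).filter (fun t => al χ t = J * w)).card + (DR H R J).card ≤
        (DR H R j).card := by
    intro j hj
    induction j, hj using Nat.le_induction with
    | base =>
      intro _
      rw [Nat.sub_self, Nat.mul_zero, Nat.zero_mul, Nat.zero_add]
    | succ j hJj ih =>
      intro h2
      have h3 := ih (by omega)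
      have h4 := hD j h2
      have h5 := hTJ (j + 1) (by omega) h2
      have h6 : j + 1 - J = (j - J) + 1 := by omega
      rw [h6]
      have h7 : 2 * (j - J + 1) * ((DR H R J).filter (fun t => al χ t = J * w)).card =
          2 * (j - J) * ((DR H R J).filter (fun t => al χ t = J * w)).card +
            2 * ((DR H R J).filter (fun t => al χ t = J * w)).card := by ring
      omega
  refine ⟨w, hw0, hmax, ⟨J • t0, (hmul J (by omega)).1, (hmul J (by omega)).2⟩,
    hle J (by omega), ?_⟩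
  have h1 := hsum (2 * J) (by omega) le_rfl
  have h2 : 2 * J - J = J := by omega
  rw [h2] at h1
  exact h1

end Pool.Agent.helper43.Ex
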