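import Pool.Agent.helper43.Ex.Lv

/-! EX-Wi: windows of full levels (W1, W2, W4 of the paper proof). -/

open Finset Pool.Agent.helper43.Rho Pool.Agent.helper43.Asy

set_option linter.unusedSectionVars false

namespace Pool.Agent.helper43.Ex

variable {G : Type*} [AddCommGroup G] [DecidableEq G]

theorem Full.mono_set {c : G} {K : AddSubgroup G} {Y Y' : Finset G} {a b : ℤ}
    (h : Full c K Y a b) (hY : Y ⊆ Y') : Full c K Y' a b :=
  fun j h1 h2 t ht => hY (h j h1 h2 t ht)

theorem Full.sub {c : G} {K : AddSubgroup G} {Y : Finset G} {a b a' b' : ℤ}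
    (h : Full c K Y a b) (ha : a ≤ a') (hb : b' ≤ b) : Full c K Y a' b' :=
  fun j h1 h2 t ht => h j (ha.trans h1) (h2.trans hb) t ht

theorem Full.join {c : G} {K : AddSubgroup G} {Y : Finset G} {a b a' b' : ℤ}
    (h : Full c K Y a b) (h' : Full c K Y a' b') (ha : a' ≤ b + 1) : Full c K Y a b' := by
  intro j h1 h2 t ht
  by_cases hj : j ≤ b
  · exact h j h1 hj t ht
  · exact h' j (by omega) h2 t ht

/-- `z` has level `j` -/
theorem Full.tr {c : G} {K : AddSubgroup G} {Y : Finset G} {a b j : ℤ} {z : G}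
    (h : Full c K Y a b) (hz : z - j • c ∈ K) : Full c K (tr Y z) (a + j) (b + j) := by
  intro i h1 h2 t ht
  rw [mem_tr]
  have h3 := h (i - j) (by omega) (by omega) (t - (z - j • c)) (K.sub_mem ht hz)
  have h4 : (i - j) • c + (t - (z - j • c)) = i • c + t - z := by
    rw [sub_zsmul]
    abel
  rwa [h4] at h3

/-- `Full` for `(-c)` -/
theorem Full.neg {c : G} {K : AddSubgroup G} {Y : Finset G} {a b : ℤ} :
    Full (-c) K Y a b ↔ Full c K Y (-b) (-a) := by
  constructor
  · intro h j h1 h2 t ht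
    have h3 := h (-j) (by omega) (by omega) t ht
    rwa [neg_zsmul, zsmul_neg, neg_neg] at h3
  · intro h j h1 h2 t ht
    have h3 := h (-j) (by omega) (by omega) t ht
    rwa [neg_zsmul, ← zsmul_neg] at h3

/-- One step: `Y' ⊇ Y ∪ (Y + x)`, `x` of level `j`, `|j| ≤ b - a + 1`. If `j ≥ 0`: a level
`i ∈ [a, b]` is in `Y`, a level `i ∈ [b + 1, b + j]` is in `Y + x` since `i - j ∈ [a, b]`. In the
same way for `j ≤ 0`. -/
theorem Full.step {c : G} {K : AddSubgroup G} {Y Y' : Finset G} {a b j : ℤ} {x : G}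
    (h : Full c K Y a b) (hx : x - j • c ∈ K) (h1 : Y ⊆ Y') (h2 : ∀ y ∈ Y, y + x ∈ Y')
    (hj : |j| ≤ b - a + 1) : Full c K Y' (a - max (-j) 0) (b + max j 0) := by
  intro i hi1 hi2 t ht
  by_cases hi : a ≤ i ∧ i ≤ b
  · exact h1 (h i hi.1 hi.2 t ht)
  · have h3 : a ≤ i - j ∧ i - j ≤ b := by
      rw [abs_le] at hj
      rcases le_total 0 j with h0 | h0
      · rw [max_eq_right (by omega : -j ≤ 0)] at hi1
        rw [max_eq_left h0] at hi2
        constructor <;> omega
      · rw [max_eq_left (by omega : 0 ≤ -j)] at hi1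
        rw [max_eq_right h0] at hi2
        constructor <;> omega
    have h4 := h2 _ (h (i - j) h3.1 h3.2 (t - (x - j • c)) (K.sub_mem ht hx))
    have h5 : (i - j) • c + (t - (x - j • c)) + x = i • c + t := by
      rw [sub_zsmul]
      abel
    rwa [h5] at h4

private theorem wi_sum_lev {c : G} {K : AddSubgroup G} {F : Finset G} {f : G → ℤ}
    (hf : ∀ x ∈ F, x - f x • c ∈ K) : (∑ x ∈ F, x) - (∑ x ∈ F, f x) • c ∈ K := by
  rw [Finset.sum_smul, ← Finset.sum_sub_distrib]
  exact K.sum_mem hf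

/-- Reflection: `SS F = σ - SS F`, `σ = ∑_F x` is in `(∑ f) c + K`. -/
theorem Full.refl {c : G} {K : AddSubgroup G} {F : Finset G} {f : G → ℤ} {a b : ℤ}
    (h : Full c K (SS F) a b) (hf : ∀ x ∈ F, x - f x • c ∈ K) :
    Full c K (SS F) (∑ x ∈ F, f x - b) (∑ x ∈ F, f x - a) := by
  intro i h1 h2 t ht
  have h3 := wi_sum_lev hf
  have h4 := h (∑ x ∈ F, f x - i) (by omega) (by omega)
    ((∑ x ∈ F, x) - (∑ x ∈ F, f x) • c - t) (K.sub_mem h3 ht)
  rw [mem_SS] at h4 ⊢
  obtain ⟨B, hB, hs⟩ := h4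
  refine ⟨F \ B, Finset.sdiff_subset, ?_⟩
  have h5 : ∑ b ∈ F \ B, b = (∑ x ∈ F, x) - ∑ b ∈ B, b := by
    rw [← Finset.sum_sdiff hB]
    abel
  rw [h5, hs, sub_zsmul]
  abel

/-- `∑_{x ∈ F} x` is in `(∑ f) c + K` -/
theorem sum_lev {c : G} {K : AddSubgroup G} {F : Finset G} {f : G → ℤ}
    (hf : ∀ x ∈ F, x - f x • c ∈ K) : (∑ x ∈ F, x) - (∑ x ∈ F, f x) • c ∈ K := by
  exact wi_sum_lev hf

theorem sp_add_sn (f : G → ℤ) (F : Finset G) :
    sp f F + sn f F = ((∑ x ∈ F, (f x).natAbs : ℕ) : ℤ) := by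
  rw [sp, sn, ← Finset.sum_add_distrib, Nat.cast_sum]
  refine Finset.sum_congr rfl fun x _ => ?_
  rcases le_total 0 (f x) with h0 | h0
  · rw [max_eq_left h0, max_eq_right (by omega : -f x ≤ 0)]
    omega
  · rw [max_eq_right h0, max_eq_left (by omega : 0 ≤ -f x)]
    omega

theorem sp_sub_sn (f : G → ℤ) (F : Finset G) : sp f F - sn f F = ∑ x ∈ F, f x := by
  rw [sp, sn, ← Finset.sum_sub_distrib]
  refine Finset.sum_congr rfl fun x _ => ?_
  rcases le_total 0 (f x) with h0 | h0
  · rw [max_eq_left h0, max_eq_right (by omega : -f x ≤ 0)]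
    omega
  · rw [max_eq_right h0, max_eq_left (by omega : 0 ≤ -f x)]
    omega

theorem sp_sdiff (f : G → ℤ) {F F' : Finset G} (h : F' ⊆ F) :
    sp f F = sp f F' + sp f (F \ F') := by
  rw [sp, sp, sp, add_comm]
  exact (Finset.sum_sdiff h).symm

theorem sn_sdiff (f : G → ℤ) {F F' : Finset G} (h : F' ⊆ F) :
    sn f F = sn f F' + sn f (F \ F') := by
  rw [sn, sn, sn, add_comm]
  exact (Finset.sum_sdiff h).symm

theorem sp_nonneg (f : G → ℤ) (F : Finset G) : 0 ≤ sp f F := by
  exact Finset.sum_nonneg fun x _ => le_max_right _ _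

theorem sn_nonneg (f : G → ℤ) (F : Finset G) : 0 ≤ sn f F := by
  exact Finset.sum_nonneg fun x _ => le_max_right _ _

variable [Fintype G]

/-- the block of the levels `a, ..., a + len - 1` -/
private noncomputable def wiBlock (c : G) (K : AddSubgroup G) (a : ℤ) (len : ℕ) : Finset G :=
  (Finset.range len ×ˢ sf K).image (fun p => (a + (p.1 : ℤ)) • c + p.2)

private theorem mem_wiBlock {c : G} {K : AddSubgroup G} {a : ℤ} {len : ℕ} {y : G} :
    y ∈ wiBlock c K a len ↔ ∃ i : ℕ, ∃ t : G, i < len ∧ t ∈ K ∧ (a + (i : ℤ)) • c + t = y := by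
  simp only [wiBlock, Finset.mem_image, Finset.mem_product, Finset.mem_range, mem_sf,
    Prod.exists, and_assoc]

private theorem wiBlock_subset {c : G} {K : AddSubgroup G} {Y : Finset G} {a b : ℤ}
    (h : Full c K Y a b) {len : ℕ} (hlen : (len : ℤ) ≤ b - a + 1) : wiBlock c K a len ⊆ Y := by
  intro y hy
  rw [mem_wiBlock] at hy
  obtain ⟨i, t, hi, ht, rfl⟩ := hy
  exact h (a + i) (by omega) (by omega) t ht

private theorem wiBlock_card {c : G} {K L : AddSubgroup G} {N : ℕ} {f : G → ℤ}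
    (hL : Lvl c K L N f) (a : ℤ) {len : ℕ} (hN : len ≤ N) :
    (wiBlock c K a len).card = len * (sf K).card := by
  rw [wiBlock, Finset.card_image_of_injOn, Finset.card_product, Finset.card_range]
  rintro ⟨i, t⟩ hit ⟨i', t'⟩ hit' heq
  rw [Finset.mem_coe, Finset.mem_product, mem_sf, Finset.mem_range] at hit hit'
  simp only at hit hit' heq
  have h1 := hL.cong hit.2 hit'.2 heq
  have h3 : (a + i : ℤ) - (a + i') = 0 := by
    refine Int.eq_zero_of_abs_lt_dvd h1 ?_
    rw [abs_lt]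
    omega
  have h4 : i = i' := by omega
  subst h4
  rw [add_right_inj] at heq
  rw [heq]

/-- the levels `a, ..., a + len - 1` are different cosets (`Lvl.cong`), each has `|K|` elements;
the map `(i, t) ↦ (a + i) c + t` is injective on `range len ×ˢ sf K`. -/
theorem Full.card {c : G} {K L : AddSubgroup G} {N : ℕ} {f : G → ℤ} (hL : Lvl c K L N f)
    {Y : Finset G} {a b : ℤ} (h : Full c K Y a b) {len : ℕ} (hlen : (len : ℤ) ≤ b - a + 1)
    (hN : len ≤ N) : len * (sf K).card ≤ Y.card := by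
  rw [← wiBlock_card hL a hN]
  exact Finset.card_le_card (wiBlock_subset h hlen)

/-- every coset of `K` in `L` has a level in `[a, b]` -/
theorem Full.all_L {c : G} {K L : AddSubgroup G} {N : ℕ} {f : G → ℤ} (hL : Lvl c K L N f)
    {Y : Finset G} {a b : ℤ} (h : Full c K Y a b) (hN : (N : ℤ) ≤ b - a + 1) : sf L ⊆ Y := by
  intro z hz
  rw [mem_sf] at hz
  have hN1 := hL.pos
  have h1 : 0 ≤ (f z - a) % (N : ℤ) := Int.emod_nonneg _ (by omega)
  have h2 : (f z - a) % (N : ℤ) < N := Int.emod_lt_of_pos _ (by omega)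
  have h3 : (N : ℤ) ∣ f z - (a + (f z - a) % (N : ℤ)) := by
    have h4 : f z - (a + (f z - a) % (N : ℤ)) = (f z - a) - (f z - a) % (N : ℤ) := by ring
    rw [h4]
    exact Int.dvd_self_sub_emod
  rw [← hL.ord] at h3
  have h5 := h (a + (f z - a) % (N : ℤ)) (by omega) (by omega)
    ((z - f z • c) + (f z - (a + (f z - a) % (N : ℤ))) • c) (K.add_mem (hL.mem z hz) h3)
  have h6 : (a + (f z - a) % (N : ℤ)) • c +
      ((z - f z • c) + (f z - (a + (f z - a) % (N : ℤ))) • c) = z := by
    rw [sub_zsmul]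
    abel
  rwa [h6] at h5

/-- Doubling: `Y' ⊇ Y ∪ (Y + x)`, the level of `x` is larger than the length `len` of the window.
The levels `a, ..., b` and `a + f x, ..., b + f x` are `2 len` different cosets, because a difference
of a level of the first and a level of the second block is `f x + d`, `|d| < len`, its absolute
value is between `|f x| - len + 1 > 0` and `|f x| + len - 1 < 2 |f x| ≤ N` (`Lvl.small`). -/
theorem Full.double {c : G} {K L : AddSubgroup G} {N : ℕ} {f : G → ℤ}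
    (hL : Lvl c K L N f) {Y Y' : Finset G} {a b : ℤ} {x : G} (h : Full c K Y a b)
    (hx : x ∈ L) (h1 : Y ⊆ Y') (h2 : ∀ y ∈ Y, y + x ∈ Y') {len : ℕ}
    (hlen : (len : ℤ) = b - a + 1) (hj : (len : ℤ) < |f x|) :
    2 * (len * (sf K).card) ≤ Y'.card := by
  have hsm := hL.small x hx
  have hlN : len ≤ N := by omega
  have h3 : (wiBlock c K a len).card = len * (sf K).card := wiBlock_card hL a hlN
  have h4 : wiBlock c K a len ⊆ Y := wiBlock_subset h (by omega)
  have h5 : Disjoint (wiBlock c K a len) (Rho.tr (wiBlock c K a len) x) := by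
    rw [Finset.disjoint_left]
    intro y hy hy'
    rw [mem_tr] at hy'
    rw [mem_wiBlock] at hy hy'
    obtain ⟨i, t, hi, ht, rfl⟩ := hy
    obtain ⟨i', t', hi', ht', he⟩ := hy'
    have h6 : (N : ℤ) ∣ (a + i) - (a + i' + f x) := by
      refine hL.cong ht (K.add_mem ht' (hL.mem x hx)) ?_
      rw [add_zsmul c (a + i') (f x)]
      have h7 : (a + (i : ℤ)) • c + t = ((a + (i' : ℤ)) • c + t') + x := by
        rw [he]
        abel
      rw [h7]
      abel
    have h8 : (a + i : ℤ) - (a + i' + f x) = 0 := by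
      refine Int.eq_zero_of_abs_lt_dvd h6 ?_
      have h9 : |(a + i : ℤ) - (a + i' + f x)| < 2 * |f x| := by
        rcases abs_cases (f x) with h10 | h10 <;>
          rcases abs_cases ((a + i : ℤ) - (a + i' + f x)) with h11 | h11 <;> omega
      omega
    rcases abs_cases (f x) with h10 | h10 <;> omega
  have h6 : wiBlock c K a len ∪ Rho.tr (wiBlock c K a len) x ⊆ Y' := by
    refine Finset.union_subset (h4.trans h1) ?_
    intro y hy
    rw [mem_tr] at hy
    have h7 := h2 _ (h4 hy)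
    rwa [sub_add_cancel] at h7
  have h7 := Finset.card_le_card h6
  rw [Finset.card_union_of_disjoint h5, card_tr, h3] at h7
  omega

end Pool.Agent.helper43.Ex
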